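import Mathlib

/-!
The c-rank of a graph and of its complement: a Nordhaus-Gaddum bound.
-/

set_option autoImplicit false

namespace Pool.Agent.R104.CRank

open Finset

section bound
variable {V : Type*} [DecidableEq V]

/-- the set at position `p` of a pair of sequences of length `m` -/
def Rs (f g : ℕ → V) (m p : ℕ) : Finset V := (range p).image f ∪ (Ico p m).image g

theorem Rs_diff (f g : ℕ → V) (m p p' : ℕ) (h1 : p ≤ p' + 1) (h2 : p' ≤ p + 1) :
    (Rs f g m p \ Rs f g m p').card ≤ 1 := by
  rcases Nat.lt_trichotomy p p' with h | h | h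
  · -- p' = p + 1
    have : Rs f g m p \ Rs f g m p' ⊆ {g p} := by
      intro x hx
      simp only [Rs, mem_sdiff, mem_union, mem_image, mem_range, mem_Ico, not_or, not_exists,
        not_and] at hx
      obtain ⟨h3, h4, h5⟩ := hx
      rcases h3 with ⟨s, hs, rfl⟩ | ⟨s, hs, rfl⟩
      · exact absurd rfl (h4 s (by omega))
      · rw [mem_singleton]
        by_cases he : s = p
        · rw [he]
        · exact absurd rfl (h5 s (by omega))
    exact (card_le_card this).trans (by simp)
  · rw [h]; simp
  · have : Rs f g m p \ Rs f g m p' ⊆ {f p'} := by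
      intro x hx
      simp only [Rs, mem_sdiff, mem_union, mem_image, mem_range, mem_Ico, not_or, not_exists,
        not_and] at hx
      obtain ⟨h3, h4, h5⟩ := hx
      rcases h3 with ⟨s, hs, rfl⟩ | ⟨s, hs, rfl⟩
      · rw [mem_singleton]
        by_cases he : s = p'
        · rw [he]
        · exact absurd rfl (h4 s (by omega))
      · exact absurd rfl (h5 s (by omega))
    exact (card_le_card this).trans (by simp)

theorem image_diff (f : ℕ → V) (p p' : ℕ) (h1 : p ≤ p' + 1) :
    ((range p).image f \ (range p').image f).card ≤ 1 := by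
  have : (range p).image f \ (range p').image f ⊆ {f p'} := by
    intro x hx
    simp only [mem_sdiff, mem_image, mem_range, not_exists, not_and] at hx
    obtain ⟨⟨s, hs, rfl⟩, h4⟩ := hx
    rw [mem_singleton]
    by_cases he : s = p'
    · rw [he]
    · exact absurd rfl (h4 s (by omega))
  exact (card_le_card this).trans (by simp)

/-- a triangular pair of sequences for a symmetric irreflexive relation -/
def Tri (R : V → V → Prop) (k : ℕ) (v w : ℕ → V) : Prop :=
  (∀ i < k, ¬ R (v i) (w i)) ∧ ∀ i j, i < j → j < k → R (v i) (w j)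

variable {R : V → V → Prop} {k : ℕ} {v w : ℕ → V}

theorem Tri.inj_v (h : Tri R k v w) {i j : ℕ} (hi : i < k) (hj : j < k) (he : v i = v j) :
    i = j := by
  rcases Nat.lt_trichotomy i j with hlt | heq | hgt
  · exfalso
    have := h.2 i j hlt hj
    rw [he] at this
    exact h.1 j hj this
  · exact heq
  · exfalso
    have := h.2 j i hgt hi
    rw [← he] at this
    exact h.1 i hi this

theorem Tri.inj_w (h : Tri R k v w) {i j : ℕ} (hi : i < k) (hj : j < k) (he : w i = w j) :
    i = j := by
  rcases Nat.lt_trichotomy i j with hlt | heq | hgt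
  · exfalso
    have := h.2 i j hlt hj
    rw [← he] at this
    exact h.1 i hi this
  · exact heq
  · exfalso
    have := h.2 j i hgt hi
    rw [he] at this
    exact h.1 j hj this

theorem Tri.card (h : Tri R k v w) (hirr : ∀ x, ¬ R x x) {p : ℕ} (hp : p ≤ k) :
    (Rs v w k p).card = k := by
  rw [Rs, card_union_of_disjoint, card_image_of_injOn, card_image_of_injOn, card_range,
    Nat.card_Ico]
  · omega
  · intro a ha b hb hab
    rw [mem_coe, mem_Ico] at ha hb
    exact h.inj_w ha.2 hb.2 hab
  · intro a ha b hb hab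
    rw [mem_coe, mem_range] at ha hb
    exact h.inj_v (by omega) (by omega) hab
  · rw [disjoint_left]
    intro x hx hx'
    rw [mem_image] at hx hx'
    obtain ⟨i, hi, rfl⟩ := hx
    obtain ⟨j, hj, hji⟩ := hx'
    rw [mem_range] at hi
    rw [mem_Ico] at hj
    have := h.2 i j (by omega) hj.2
    rw [hji] at this
    exact hirr _ this

end bound

/-- **Nordhaus-Gaddum bound.** -/
theorem tri_bound {V : Type*} [Fintype V] [DecidableEq V] (R T : V → V → Prop)
    (hRs : ∀ x y, R x y → R y x) (hRT : ∀ x y, R x y → ¬ T x y)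
    (hRi : ∀ x, ¬ R x x) (hTi : ∀ x, ¬ T x x) {k l : ℕ} {v w a b : ℕ → V}
    (h2 : Tri R k v w) (h1 : Tri T l a b) : k + l ≤ Fintype.card V + 2 := by
  by_contra hcon
  push Not at hcon
  -- the four predicates
  let LA : ℕ → ℕ → Prop := fun i p => Disjoint ((Ico i l).image b) (Rs v w k p)
  let LB : ℕ → ℕ → Prop := fun i p => Disjoint ((range i).image a) (Rs v w k p)
  let LP : ℕ → ℕ → Prop := fun i p => Disjoint ((Ico p k).image w) (Rs a b l i)
  let LQ : ℕ → ℕ → Prop := fun i p => Disjoint ((range p).image v) (Rs a b l i)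
  have hI : ∀ i p, i ≤ l → p ≤ k → 3 ≤ (Rs a b l i ∩ Rs v w k p).card := by
    intro i p hi hp
    have e1 := h1.card hTi hi
    have e2 := h2.card hRi hp
    have e3 := card_union_add_card_inter (Rs a b l i) (Rs v w k p)
    have e4 : (Rs a b l i ∪ Rs v w k p).card ≤ Fintype.card V := card_le_univ _
    omega
  -- every cell has a label
  have hlab : ∀ i p, i ≤ l → p ≤ k → LA i p ∨ LB i p ∨ LP i p ∨ LQ i p := by
    intro i p hi hp
    by_contra hc
    push Not at hc
    obtain ⟨c1, c2, c3, c4⟩ := hc
    simp only [LA, LB, LP, LQ, not_disjoint_iff, Rs, mem_union] at c1 c2 c3 c4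
    have mA : ∀ x, x ∈ (range i).image a → ∃ s < i, a s = x := by
      intro x hx; rw [mem_image] at hx; obtain ⟨s, hs, rfl⟩ := hx; exact ⟨s, mem_range.1 hs, rfl⟩
    have mB : ∀ x, x ∈ (Ico i l).image b → ∃ s, i ≤ s ∧ s < l ∧ b s = x := by
      intro x hx; rw [mem_image] at hx; obtain ⟨s, hs, rfl⟩ := hx
      exact ⟨s, (mem_Ico.1 hs).1, (mem_Ico.1 hs).2, rfl⟩
    have mP : ∀ x, x ∈ (range p).image v → ∃ s < p, v s = x := by
      intro x hx; rw [mem_image] at hx; obtain ⟨s, hs, rfl⟩ := hx; exact ⟨s, mem_range.1 hs, rfl⟩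
    have mQ : ∀ x, x ∈ (Ico p k).image w → ∃ s, p ≤ s ∧ s < k ∧ w s = x := by
      intro x hx; rw [mem_image] at hx; obtain ⟨s, hs, rfl⟩ := hx
      exact ⟨s, (mem_Ico.1 hs).1, (mem_Ico.1 hs).2, rfl⟩
    -- A and B are T-related, P and Q are R-related
    have hAB : ∀ x y, x ∈ (range i).image a → y ∈ (Ico i l).image b → T x y := by
      intro x y hx hy
      obtain ⟨s, hs, rfl⟩ := mA x hx
      obtain ⟨t, ht1, ht2, rfl⟩ := mB y hy
      exact h1.2 s t (by omega) ht2
    have hPQ : ∀ x y, x ∈ (range p).image v → y ∈ (Ico p k).image w → R x y := by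
      intro x y hx hy
      obtain ⟨s, hs, rfl⟩ := mP x hx
      obtain ⟨t, ht1, ht2, rfl⟩ := mQ y hy
      exact h2.2 s t (by omega) ht2
    -- exclusions
    have ex1 : ∀ x y, x ∈ (range i).image a → x ∈ (range p).image v → y ∈ (Ico i l).image b →
        y ∈ (Ico p k).image w → False :=
      fun x y hx1 hx2 hy1 hy2 => hRT x y (hPQ x y hx2 hy2) (hAB x y hx1 hy1)
    have ex2 : ∀ x y, x ∈ (range i).image a → x ∈ (Ico p k).image w → y ∈ (Ico i l).image b →
        y ∈ (range p).image v → False :=
      fun x y hx1 hx2 hy1 hy2 => hRT x y (hRs _ _ (hPQ y x hy2 hx2)) (hAB x y hx1 hy1)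
    obtain ⟨x1, hx1, hx1'⟩ := c1
    obtain ⟨x2, hx2, hx2'⟩ := c2
    obtain ⟨x3, hx3, hx3'⟩ := c3
    obtain ⟨x4, hx4, hx4'⟩ := c4
    rcases hx1' with g1 | g1 <;> rcases hx2' with g2 | g2 <;> rcases hx3' with g3 | g3 <;>
      rcases hx4' with g4 | g4 <;>
      first
        | exact ex1 _ _ hx2 g2 hx1 g1
        | exact ex2 _ _ hx2 g2 hx1 g1
        | exact ex1 _ _ hx2 g2 g3 hx3
        | exact ex2 _ _ g3 hx3 hx1 g1
        | exact ex1 _ _ g4 hx4 hx1 g1
        | exact ex2 _ _ hx2 g2 g4 hx4
        | exact ex1 _ _ g4 hx4 g3 hx3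
        | exact ex2 _ _ g3 hx3 g4 hx4
  -- exclusions for neighbouring cells
  have exAB : ∀ i p i' p', i ≤ l → p ≤ k → i ≤ i' + 1 → p ≤ p' + 1 → p' ≤ p + 1 →
      LA i p → LB i' p' → False := by
    intro i p i' p' hi hp d1 d2 d3 hA hB
    have e1 := hI i p hi hp
    have hsub : Rs a b l i ∩ Rs v w k p ⊆ ((range i).image a \ (range i').image a) ∪
        (Rs v w k p \ Rs v w k p') := by
      intro x hx
      rw [mem_inter] at hx
      have hxA : x ∈ (range i).image a := by
        rw [Rs, mem_union] at hx
        rcases hx.1 with h | h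
        · exact h
        · exact absurd hx.2 (disjoint_left.1 hA h)
      rw [mem_union, mem_sdiff, mem_sdiff]
      by_cases h3 : x ∈ (range i').image a
      · right
        exact ⟨hx.2, disjoint_left.1 hB h3⟩
      · left
        exact ⟨hxA, h3⟩
    have e2 := (card_le_card hsub).trans (card_union_le _ _)
    have e3 := image_diff a i i' d1
    have e4 := Rs_diff v w k p p' d2 d3
    omega
  have exPQ : ∀ i p i' p', i ≤ l → p ≤ k → p ≤ p' + 1 → i ≤ i' + 1 → i' ≤ i + 1 →
      LP i p → LQ i' p' → False := by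
    intro i p i' p' hi hp d1 d2 d3 hP hQ
    have e1 := hI i p hi hp
    have hsub : Rs a b l i ∩ Rs v w k p ⊆ ((range p).image v \ (range p').image v) ∪
        (Rs a b l i \ Rs a b l i') := by
      intro x hx
      rw [mem_inter] at hx
      have hxP : x ∈ (range p).image v := by
        have h3 := hx.2
        rw [Rs, mem_union] at h3
        rcases h3 with h | h
        · exact h
        · exact absurd hx.1 (disjoint_left.1 hP h)
      rw [mem_union, mem_sdiff, mem_sdiff]
      by_cases h3 : x ∈ (range p').image v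
      · right
        exact ⟨hx.1, disjoint_left.1 hQ h3⟩
      · left
        exact ⟨hxP, h3⟩
    have e2 := (card_le_card hsub).trans (card_union_le _ _)
    have e3 := image_diff v p p' d1
    have e4 := Rs_diff a b l i i' d2 d3
    omega
  -- boundary
  have LB0 : ∀ p, LB 0 p := by intro p; simp [LB]
  have LAl : ∀ p, LA l p := by intro p; simp [LA]
  have LQ0 : ∀ i, LQ i 0 := by intro i; simp [LQ]
  have LPk : ∀ i, LP i k := by intro i; simp [LP]
  have LBmono : ∀ i i' p, i' ≤ i → LB i p → LB i' p := by
    intro i i' p hii hB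
    exact disjoint_of_subset_left (image_subset_image (range_subset_range.2 hii)) hB
  -- first failure of LB
  have hex : ∀ p, p ≤ k → ∃ i, ¬ LB i p := by
    intro p hp
    exact ⟨l, fun h => exAB l p l p le_rfl hp (by omega) (by omega) (by omega) (LAl p) h⟩
  classical
  let c : ℕ → ℕ := fun p => if h : ∃ i, ¬ LB i p then Nat.find h else 0
  have hc1 : ∀ p, p ≤ k → ¬ LB (c p) p := by
    intro p hp
    simp only [c]
    rw [dif_pos (hex p hp)]
    exact Nat.find_spec (hex p hp)
  have hc2 : ∀ p, p ≤ k → ∀ i < c p, LB i p := by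
    intro p hp i hi
    simp only [c] at hi
    rw [dif_pos (hex p hp)] at hi
    have := Nat.find_min (hex p hp) hi
    push Not at this
    exact this
  have hc3 : ∀ p, p ≤ k → c p ≤ l := by
    intro p hp
    by_contra hc
    push Not at hc
    exact exAB l p l p le_rfl hp (by omega) (by omega) (by omega) (LAl p) (hc2 p hp l hc)
  have hc4 : ∀ p, p ≤ k → 1 ≤ c p := by
    intro p hp
    by_contra hc
    have h0 : c p = 0 := by omega
    have := hc1 p hp
    rw [h0] at this
    exact this (LB0 p)
  have hc5 : ∀ p, p ≤ k → ∀ i, c p ≤ i → ¬ LB i p := by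
    intro p hp i hi h
    exact hc1 p hp (LBmono i (c p) p hi h)
  have hc6 : ∀ p, p ≤ k → LP (c p) p ∨ LQ (c p) p := by
    intro p hp
    have h4 := hc4 p hp
    rcases hlab (c p) p (hc3 p hp) hp with h | h | h | h
    · exact absurd h fun h => exAB (c p) p (c p - 1) p (hc3 p hp) hp (by omega) (by omega)
        (by omega) h (hc2 p hp _ (by omega))
    · exact absurd h (hc1 p hp)
    · exact Or.inl h
    · exact Or.inr h
  -- first p with LP
  have hexP : ∃ p, p ≤ k ∧ LP (c p) p := ⟨k, le_rfl, LPk _⟩
  obtain ⟨hp1, hp2⟩ := Nat.find_spec hexP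
  have hpmin := fun q => Nat.find_min hexP (m := q)
  set p0 := Nat.find hexP with hp0
  have hp0pos : p0 ≠ 0 := by
    intro h
    rw [h] at hp2
    exact exPQ (c 0) 0 (c 0) 0 (hc3 0 (Nat.zero_le _)) (Nat.zero_le _) (by omega) (by omega)
      (by omega) hp2 (LQ0 _)
  obtain ⟨q, hq⟩ : ∃ q, p0 = q + 1 := ⟨p0 - 1, by omega⟩
  have hqk : q ≤ k := by omega
  have hLQ : LQ (c q) q := by
    rcases hc6 q hqk with h | h
    · exact absurd ⟨hqk, h⟩ (hpmin q (by omega))
    · exact h
  rw [hq] at hp1 hp2
  have cq3 := hc3 q hqk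
  have cq3' := hc3 (q + 1) hp1
  rcases Nat.lt_or_ge (c (q + 1)) (c q) with hlt | hge
  · -- c' < c
    have key : ∀ d, c (q + 1) + d < c q → LP (c (q + 1) + d) (q + 1) := by
      intro d
      induction d with
      | zero => intro _; exact hp2
      | succ d ih =>
        intro hd
        have ih' := ih (by omega)
        rcases hlab (c (q + 1) + (d + 1)) (q + 1) (by omega) hp1 with h | h | h | h
        · exact absurd h fun h => exAB _ (q + 1) (c (q + 1) + (d + 1)) q (by omega) hp1 (by omega)
            (by omega) (by omega) h (hc2 q hqk _ hd)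
        · exact absurd h (hc5 (q + 1) hp1 _ (by omega))
        · exact h
        · exact absurd h fun h => exPQ (c (q + 1) + d) (q + 1) _ (q + 1) (by omega) hp1 (by omega)
            (by omega) (by omega) ih' h
    have h3 := key (c q - 1 - c (q + 1)) (by omega)
    have e : c (q + 1) + (c q - 1 - c (q + 1)) = c q - 1 := by omega
    rw [e] at h3
    exact exPQ (c q - 1) (q + 1) (c q) q (by omega) hp1 (by omega) (by omega) (by omega) h3 hLQ
  · rcases Nat.eq_or_lt_of_le hge with heq | hlt
    · exact exPQ (c (q + 1)) (q + 1) (c q) q cq3' hp1 (by omega) (by omega) (by omega) hp2 hLQ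
    · have key : ∀ d, c q + d < c (q + 1) → LQ (c q + d) q := by
        intro d
        induction d with
        | zero => intro _; exact hLQ
        | succ d ih =>
          intro hd
          have ih' := ih (by omega)
          rcases hlab (c q + (d + 1)) q (by omega) hqk with h | h | h | h
          · exact absurd h fun h => exAB _ q (c q + (d + 1)) (q + 1) (by omega) hqk (by omega)
              (by omega) (by omega) h (hc2 (q + 1) hp1 _ hd)
          · exact absurd h (hc5 q hqk _ (by omega))
          · exact absurd h fun h => exPQ _ q (c q + d) q (by omega) hqk (by omega)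
              (by omega) (by omega) h ih'
          · exact h
      have h3 := key (c (q + 1) - 1 - c q) (by omega)
      have e : c q + (c (q + 1) - 1 - c q) = c (q + 1) - 1 := by omega
      rw [e] at h3
      exact exPQ (c (q + 1)) (q + 1) (c (q + 1) - 1) q cq3' hp1 (by omega) (by omega) (by omega)
        hp2 h3

end Pool.Agent.R104.CRank
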