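import Pool.Agent.R104.CRank

/-!
The c-rank of a graph: chains of flats and triangular sequences; edge counts.
-/

set_option autoImplicit false

namespace Pool.Agent.R104.CRank

open Finset

section flats
variable {V : Type*}

/-- `St(W)`: the set of vertices adjacent to every vertex of `W`. -/
def St (G : SimpleGraph V) (W : Set V) : Set V := {x | ∀ w ∈ W, G.Adj w x}

/-- A flat of `G` is a set of the form `St(W)`. -/
def IsFlat (G : SimpleGraph V) (F : Set V) : Prop := ∃ W : Set V, F = St G W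

/-- The c-rank of `G`: the largest `k` such that there is a chain `F₀ ⊂ F₁ ⊂ ⋯ ⊂ F_k` of flats. -/
noncomputable def crk (G : SimpleGraph V) : ℕ :=
  sSup {k | ∃ F : Fin (k + 1) → Set V, StrictMono F ∧ ∀ i, IsFlat G (F i)}

theorem tri_of_chain [Nonempty V] (G : SimpleGraph V) (k : ℕ) (F : Fin (k + 1) → Set V)
    (hF : StrictMono F) (hfl : ∀ i, IsFlat G (F i)) : ∃ v w : ℕ → V, Tri G.Adj k v w := by
  classical
  choose W hW using hfl
  have hstep : ∀ t : ℕ, ∃ x y : V, ∀ ht : t < k,
      x ∈ F ⟨t + 1, by omega⟩ ∧ y ∈ W ⟨t, by omega⟩ ∧ ¬ G.Adj y x := by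
    intro t
    by_cases ht : t < k
    · have hlt : F ⟨t, by omega⟩ < F ⟨t + 1, by omega⟩ :=
        hF (Fin.mk_lt_mk.2 (Nat.lt_succ_self t))
      obtain ⟨x, hx, hx'⟩ := Set.exists_of_ssubset hlt
      rw [hW ⟨t, by omega⟩] at hx'
      have : ∃ y ∈ W ⟨t, by omega⟩, ¬ G.Adj y x := by
        by_contra hc
        push Not at hc
        exact hx' hc
      obtain ⟨y, hy, hyx⟩ := this
      exact ⟨x, y, fun _ => ⟨hx, hy, hyx⟩⟩
    · obtain ⟨x⟩ := ‹Nonempty V›
      exact ⟨x, x, fun h => absurd h ht⟩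
  choose x y hxy using hstep
  refine ⟨x, y, ?_, ?_⟩
  · intro i hi hadj
    exact (hxy i hi).2.2 hadj.symm
  · intro i j hij hj
    have h1 := (hxy i (by omega)).1
    have hle : F ⟨i + 1, by omega⟩ ≤ F ⟨j, by omega⟩ :=
      hF.monotone (Fin.mk_le_mk.2 (by omega))
    have h2 : x i ∈ F ⟨j, by omega⟩ := hle h1
    rw [hW ⟨j, by omega⟩] at h2
    exact (h2 (y j) (hxy j hj).2.1).symm

theorem chain_of_tri (G : SimpleGraph V) (k : ℕ) (v w : ℕ → V) (h : Tri G.Adj k v w) :
    ∃ F : Fin (k + 1) → Set V, StrictMono F ∧ ∀ i, IsFlat G (F i) := by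
  refine ⟨fun p => St G {x | ∃ j, p.val ≤ j ∧ j < k ∧ w j = x}, ?_, fun i => ⟨_, rfl⟩⟩
  rw [Fin.strictMono_iff_lt_succ]
  intro p
  rw [Set.ssubset_iff_subset_ne]
  constructor
  · intro x hx z hz
    apply hx
    obtain ⟨j, hj1, hj2, hj3⟩ := hz
    refine ⟨j, ?_, hj2, hj3⟩
    have : (p.succ : Fin (k+1)).val = p.val + 1 := Fin.val_succ p
    rw [this] at hj1
    have h3 : (p.castSucc : Fin (k+1)).val = p.val := rfl
    omega
  · intro he
    have h1 : v p.val ∈ St G {x | ∃ j, (p.succ : Fin (k+1)).val ≤ j ∧ j < k ∧ w j = x} := by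
      intro z hz
      obtain ⟨j, hj1, hj2, rfl⟩ := hz
      have : (p.succ : Fin (k+1)).val = p.val + 1 := Fin.val_succ p
      exact (h.2 p.val j (by omega) hj2).symm
    rw [← he] at h1
    exact h.1 p.val p.isLt (h1 (w p.val) ⟨p.val, le_refl _, p.isLt, rfl⟩).symm

variable [Fintype V] [Nonempty V]

omit [Nonempty V] in
theorem tri_le {R : V → V → Prop} {k : ℕ} {v w : ℕ → V} (h : Tri R k v w) :
    k ≤ Fintype.card V := by
  classical
  have h1 : ((range k).image v).card = k := by
    rw [card_image_of_injOn, card_range]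
    intro a ha b hb hab
    rw [mem_coe, mem_range] at ha hb
    exact h.inj_v ha hb hab
  rw [← h1]
  exact card_le_univ _

theorem crk_bdd (G : SimpleGraph V) :
    BddAbove {k | ∃ F : Fin (k + 1) → Set V, StrictMono F ∧ ∀ i, IsFlat G (F i)} := by
  refine ⟨Fintype.card V, ?_⟩
  rintro k ⟨F, hF, hfl⟩
  obtain ⟨v, w, h⟩ := tri_of_chain G k F hF hfl
  exact tri_le h

omit [Fintype V] in
theorem crk_ne (G : SimpleGraph V) :
    {k | ∃ F : Fin (k + 1) → Set V, StrictMono F ∧ ∀ i, IsFlat G (F i)}.Nonempty := by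
  obtain ⟨x⟩ := ‹Nonempty V›
  exact ⟨0, chain_of_tri G 0 (fun _ => x) (fun _ => x) ⟨fun i hi => absurd hi (by omega),
        fun i j hij hj => absurd hj (by omega)⟩⟩

theorem exists_tri (G : SimpleGraph V) : ∃ v w : ℕ → V, Tri G.Adj (crk G) v w := by
  have := Nat.sSup_mem (crk_ne G) (crk_bdd G)
  obtain ⟨F, hF, hfl⟩ := this
  exact tri_of_chain G _ F hF hfl

theorem le_crk (G : SimpleGraph V) {k : ℕ} {v w : ℕ → V} (h : Tri G.Adj k v w) : k ≤ crk G :=
  le_csSup (crk_bdd G) (chain_of_tri G k v w h)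

theorem crk_add_le (G : SimpleGraph V) : crk G + crk Gᶜ ≤ Fintype.card V + 2 := by
  classical
  obtain ⟨v, w, h⟩ := exists_tri G
  obtain ⟨a, b, h'⟩ := exists_tri Gᶜ
  exact tri_bound G.Adj Gᶜ.Adj (fun x y hxy => hxy.symm)
    (fun x y hxy hc => by rw [SimpleGraph.compl_adj] at hc; exact hc.2 hxy)
    (fun x => G.irrefl) (fun x => Gᶜ.irrefl) h h'

end flats

section edges
variable {V : Type*} [Fintype V] [DecidableEq V]

theorem tri_edges (G : SimpleGraph V) [DecidableRel G.Adj] {k : ℕ} {v w : ℕ → V}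
    (h : Tri G.Adj k v w) : k.choose 2 ≤ G.edgeFinset.card := by
  have h1 : (((range k) ×ˢ (range k)).filter (fun p => p.1 < p.2)).card = k.choose 2 := by
    rw [Finset.card_filter, Finset.sum_product_right]
    have : ∀ j ∈ range k, ∑ i ∈ range k, (if i < j then 1 else 0) = j := by
      intro j hj
      rw [mem_range] at hj
      rw [← Finset.card_filter]
      have : (range k).filter (fun i => i < j) = range j := by
        ext i; simp only [mem_filter, mem_range]; omega
      rw [this, card_range]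
    rw [Finset.sum_congr rfl this, Finset.sum_range_id, Nat.choose_two_right]
  rw [← h1]
  apply Finset.card_le_card_of_injOn (fun p => s(v p.1, w p.2))
  · intro p hp
    rw [mem_coe, mem_filter, mem_product, mem_range, mem_range] at hp
    rw [mem_coe, SimpleGraph.mem_edgeFinset, SimpleGraph.mem_edgeSet]
    exact h.2 p.1 p.2 hp.2 hp.1.2
  · intro p hp q hq hpq
    rw [mem_coe, mem_filter, mem_product, mem_range, mem_range] at hp hq
    simp only [Sym2.eq_iff] at hpq
    have key : ∀ i j, i < k → j < k → v i = w j → j ≤ i := by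
      intro i j hi hj hij
      by_contra hc
      have := h.2 i j (by omega) hj
      rw [hij] at this
      exact G.irrefl this
    rcases hpq with ⟨h2, h3⟩ | ⟨h2, h3⟩
    · exact Prod.ext (h.inj_v hp.1.1 hq.1.1 h2) (h.inj_w hp.1.2 hq.1.2 h3)
    · exfalso
      have e1 := key p.1 q.2 hp.1.1 hq.1.2 h2
      have e2 := key q.1 p.2 hq.1.1 hp.1.2 h3.symm
      have := hp.2
      have := hq.2
      omega

theorem edges_compl (G : SimpleGraph V) [DecidableRel G.Adj] :
    G.edgeFinset.card + Gᶜ.edgeFinset.card = (Fintype.card V).choose 2 := by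
  rw [← SimpleGraph.card_edgeFinset_top_eq_card_choose_two,
    ← Finset.card_union_of_disjoint]
  · congr 1
    rw [← SimpleGraph.edgeFinset_sup]
    exact SimpleGraph.edgeFinset_inj.2 sup_compl_eq_top
  · rw [SimpleGraph.disjoint_edgeFinset]
    exact disjoint_compl_right

end edges

end Pool.Agent.R104.CRank
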