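import Mathlib

set_option autoImplicit false

namespace Pool.Agent.R104.FTri

open Finset

variable {V : Type*} [Fintype V] [DecidableEq V]

/-- number of members of `E` (2-sets) inside `T` -/
def eT (E : Finset (Finset V)) (T : Finset V) : ℕ := (E.filter (· ⊆ T)).card

/-- triples with an odd number of edges -/
def oddT (E : Finset (Finset V)) : Finset (Finset V) :=
  ((univ : Finset V).powersetCard 3).filter (fun T => Odd (eT E T))

/-- triples with at least two edges -/
def bigT (E : Finset (Finset V)) : Finset (Finset V) :=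
  ((univ : Finset V).powersetCard 3).filter (fun T => 2 ≤ eT E T)

def IsE (E : Finset (Finset V)) : Prop := ∀ e ∈ E, e.card = 2

omit [Fintype V] in
theorem count_super (Q e : Finset V) (he : e.card = 2) (heQ : e ⊆ Q) :
    ((Q.powersetCard 3).filter (fun T => e ⊆ T)).card = Q.card - 2 := by
  have h : (Q.powersetCard 3).filter (fun T => e ⊆ T) = (Q \ e).image (fun w => insert w e) := by
    ext T
    simp only [mem_filter, mem_powersetCard, mem_image, mem_sdiff]
    constructor
    · rintro ⟨⟨hTQ, hT⟩, heT⟩
      have h1 : (T \ e).card = 1 := by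
        rw [card_sdiff_of_subset heT, hT, he]
      obtain ⟨w, hw⟩ := card_eq_one.mp h1
      have hwm : w ∈ T \ e := by rw [hw]; exact mem_singleton_self w
      rw [mem_sdiff] at hwm
      refine ⟨w, ⟨hTQ hwm.1, hwm.2⟩, ?_⟩
      rw [insert_eq, ← hw, union_comm, union_sdiff_of_subset heT]
    · rintro ⟨w, ⟨hwQ, hwe⟩, rfl⟩
      refine ⟨⟨insert_subset hwQ heQ, ?_⟩, subset_insert _ _⟩
      rw [card_insert_of_notMem hwe, he]
  rw [h, card_image_of_injOn, card_sdiff_of_subset heQ, he]
  intro a ha b hb hab
  simp only [coe_sdiff, Set.mem_sdiff, mem_coe] at ha hb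
  simp only at hab
  have : a ∈ insert b e := by rw [← hab]; exact mem_insert_self _ _
  rcases mem_insert.mp this with h | h
  · exact h
  · exact absurd h ha.2

omit [Fintype V] in
theorem sum_eT (E : Finset (Finset V)) (hE : IsE E) (Q : Finset V) :
    ∑ T ∈ Q.powersetCard 3, eT E T = eT E Q * (Q.card - 2) := by
  have h1 : ∀ T ∈ Q.powersetCard 3, eT E T = ∑ e ∈ E.filter (· ⊆ Q), if e ⊆ T then 1 else 0 := by
    intro T hT
    rw [mem_powersetCard] at hT
    rw [← card_filter, eT]
    congr 1
    ext e
    simp only [mem_filter]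
    constructor
    · rintro ⟨h, h'⟩
      exact ⟨⟨h, h'.trans hT.1⟩, h'⟩
    · rintro ⟨⟨h, _⟩, h'⟩
      exact ⟨h, h'⟩
  rw [sum_congr rfl h1, sum_comm]
  have h2 : ∀ e ∈ E.filter (· ⊆ Q), (∑ T ∈ Q.powersetCard 3, if e ⊆ T then 1 else 0) = Q.card - 2 := by
    intro e he
    rw [mem_filter] at he
    rw [← card_filter]
    exact count_super Q e (hE e he.1) he.2
  rw [sum_congr rfl h2, sum_const, smul_eq_mul, eT]

omit [Fintype V] in
theorem eT_le (E : Finset (Finset V)) (hE : IsE E) (T : Finset V) (hT : T.card = 3) :
    eT E T ≤ 3 := by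
  have : E.filter (· ⊆ T) ⊆ T.powersetCard 2 := by
    intro e he
    rw [mem_filter] at he
    rw [mem_powersetCard]
    exact ⟨he.2, hE e he.1⟩
  calc eT E T ≤ (T.powersetCard 2).card := card_le_card this
    _ = 3 := by rw [card_powersetCard, hT]; rfl

/-- the basic identity `f + 2 t = e (n - 2)` -/
theorem basic (E : Finset (Finset V)) (hE : IsE E) :
    (oddT E).card + 2 * (bigT E).card = E.card * (Fintype.card V - 2) := by
  have h := sum_eT E hE (univ : Finset V)
  have h0 : eT E (univ : Finset V) = E.card := by
    unfold eT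
    congr 1
    ext e
    simp
  rw [h0, card_univ] at h
  rw [← h, oddT, bigT, card_filter, card_filter, mul_sum, ← sum_add_distrib]
  apply sum_congr rfl
  intro T hT
  rw [mem_powersetCard] at hT
  have h3 := eT_le E hE T hT.2
  rcases (show eT E T = 0 ∨ eT E T = 1 ∨ eT E T = 2 ∨ eT E T = 3 by omega) with h | h | h | h <;>
    rw [h] <;> decide

/-- adding an edge increases `f` by at most `n - 2` -/
theorem odd_insert_le (E : Finset (Finset V)) (e : Finset V) (he : e.card = 2) :
    (oddT (insert e E)).card ≤ (oddT E).card + (Fintype.card V - 2) := by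
  have hsub : oddT (insert e E) ⊆ oddT E ∪ ((univ : Finset V).powersetCard 3).filter (fun T => e ⊆ T) := by
    intro T hT
    rw [oddT, mem_filter] at hT
    rw [mem_union]
    by_cases h : e ⊆ T
    · right
      rw [mem_filter]
      exact ⟨hT.1, h⟩
    · left
      rw [oddT, mem_filter]
      refine ⟨hT.1, ?_⟩
      have : eT (insert e E) T = eT E T := by
        unfold eT
        rw [filter_insert, if_neg h]
      rw [← this]
      exact hT.2
  calc (oddT (insert e E)).card ≤ _ := card_le_card hsub
    _ ≤ (oddT E).card + _ := card_union_le _ _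
    _ = (oddT E).card + (Fintype.card V - 2) := by
      rw [count_super univ e he (subset_univ _), card_univ]

/-- the complete graph on `A` -/
theorem complete_le (A : Finset V) : A.card.choose 3 ≤ (oddT (A.powersetCard 2)).card := by
  rw [← card_powersetCard]
  apply card_le_card
  intro T hT
  rw [mem_powersetCard] at hT
  rw [oddT, mem_filter, mem_powersetCard]
  refine ⟨⟨subset_univ _, hT.2⟩, ?_⟩
  have : (A.powersetCard 2).filter (· ⊆ T) = T.powersetCard 2 := by
    ext e
    simp only [mem_filter, mem_powersetCard]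
    constructor
    · rintro ⟨⟨_, h⟩, h'⟩
      exact ⟨h', h⟩
    · rintro ⟨h, h'⟩
      exact ⟨⟨h.trans hT.1, h'⟩, h⟩
  rw [eT, this, card_powersetCard, hT.2]
  decide

/-- discrete intermediate value property on graphs supported in `A` -/
theorem ivt (A : Finset V) (M : ℕ) (hM : M < A.card.choose 3) :
    ∃ H : Finset (Finset V), H ⊆ A.powersetCard 2 ∧ (oddT H).card ≤ M ∧
      M < (oddT H).card + (Fintype.card V - 2) := by
  classical
  let S := (A.powersetCard 2).powerset.filter (fun H => (oddT H).card ≤ M)
  have hne : S.Nonempty := by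
    refine ⟨∅, ?_⟩
    simp only [S, mem_filter, mem_powerset, empty_subset, true_and]
    have h0 : oddT (∅ : Finset (Finset V)) = ∅ := by
      rw [oddT, filter_eq_empty_iff]
      intro T _
      simp [eT]
    rw [h0]
    simp
  obtain ⟨H, hH, hmax⟩ := exists_max_image S card hne
  simp only [S, mem_filter, mem_powerset] at hH hmax
  refine ⟨H, hH.1, hH.2, ?_⟩
  by_contra hlt
  push Not at hlt
  have hne2 : H ≠ A.powersetCard 2 := by
    intro h
    have h1 := complete_le A
    rw [← h] at h1
    omega
  obtain ⟨e, heA, heH⟩ : ∃ e ∈ A.powersetCard 2, e ∉ H := by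
    by_contra hcon
    push Not at hcon
    exact hne2 (Subset.antisymm hH.1 hcon)
  have h2 : e.card = 2 := (mem_powersetCard.mp heA).2
  have h3 := odd_insert_le H e h2
  have h4 := hmax (insert e H) ⟨insert_subset heA hH.1, by omega⟩
  rw [card_insert_of_notMem heH] at h4
  omega

end Pool.Agent.R104.FTri
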