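import Pool.Agent.R104.FTri1

set_option autoImplicit false

namespace Pool.Agent.R104.FTri

open Finset

variable {V : Type*} [Fintype V] [DecidableEq V]

/-- the star with centre `v` and leaf set `L` -/
def star (v : V) (L : Finset V) : Finset (Finset V) := L.image (fun l => {v, l})

omit [Fintype V] in
theorem pair_inj {v a b : V} (ha : a ≠ v) (hab : ({v, a} : Finset V) = {v, b}) : a = b := by
  have h1 : a ∈ ({v, b} : Finset V) := by rw [← hab]; simp
  rw [mem_insert, mem_singleton] at h1
  rcases h1 with h | h
  · exact absurd h ha
  · exact h

omit [Fintype V] in
theorem card_star {v : V} {L : Finset V} (hv : v ∉ L) : (star v L).card = L.card := by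
  apply card_image_of_injOn
  intro a ha b _ hab
  rw [mem_coe] at ha
  have hav : a ≠ v := by
    rintro rfl
    exact hv ha
  exact pair_inj hav hab

omit [Fintype V] in
theorem star_isE {v : V} {L : Finset V} (hv : v ∉ L) : IsE (star v L) := by
  intro e he
  rw [star, mem_image] at he
  obtain ⟨l, hl, rfl⟩ := he
  exact card_pair (fun h => hv (h ▸ hl))

omit [Fintype V] in
theorem union_isE {E F : Finset (Finset V)} (hE : IsE E) (hF : IsE F) : IsE (E ∪ F) := by
  intro e he
  rcases mem_union.mp he with h | h
  · exact hE e h
  · exact hF e h

omit [Fintype V] in
theorem star_disj {E : Finset (Finset V)} {v : V} {L : Finset V} (hiso : ∀ e ∈ E, v ∉ e) :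
    Disjoint E (star v L) := by
  rw [disjoint_left]
  intro e he he'
  rw [star, mem_image] at he'
  obtain ⟨l, _, rfl⟩ := he'
  exact hiso _ he (by simp)

omit [Fintype V] in
/-- number of edges inside `insert v P` after adding the star -/
theorem eT_star {E : Finset (Finset V)} (hE : IsE E) {v : V} {L : Finset V} (hiso : ∀ e ∈ E, v ∉ e)
    (hv : v ∉ L) {P : Finset V} (hP : P.card = 2) (hvP : v ∉ P) :
    eT (E ∪ star v L) (insert v P) = (if P ∈ E then 1 else 0) + (P ∩ L).card := by
  unfold eT
  rw [filter_union, card_union_of_disjoint]
  · congr 1
    · split_ifs with h
      · rw [card_eq_one]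
        refine ⟨P, ?_⟩
        ext e
        simp only [mem_filter, mem_singleton]
        constructor
        · rintro ⟨he, hs⟩
          have h1 : e ⊆ P := by
            intro x hx
            rcases mem_insert.mp (hs hx) with h' | h'
            · exact absurd (h' ▸ hx) (hiso e he)
            · exact h'
          exact eq_of_subset_of_card_le h1 (by rw [hE e he, hP])
        · rintro rfl
          exact ⟨h, subset_insert _ _⟩
      · rw [card_eq_zero, filter_eq_empty_iff]
        intro e he hs
        have h1 : e ⊆ P := by
          intro x hx
          rcases mem_insert.mp (hs hx) with h' | h'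
          · exact absurd (h' ▸ hx) (hiso e he)
          · exact h'
        have h2 := eq_of_subset_of_card_le h1 (by rw [hE e he, hP])
        exact h (h2 ▸ he)
    · have h1 : (star v L).filter (· ⊆ insert v P) = star v (P ∩ L) := by
        ext e
        simp only [star, mem_filter, mem_image, mem_inter]
        constructor
        · rintro ⟨⟨l, hl, rfl⟩, hs⟩
          refine ⟨l, ⟨?_, hl⟩, rfl⟩
          have : l ∈ insert v P := hs (by simp)
          rcases mem_insert.mp this with h' | h'
          · exact absurd (h' ▸ hl) hv
          · exact h'
        · rintro ⟨l, ⟨hlP, hl⟩, rfl⟩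
          refine ⟨⟨l, hl, rfl⟩, ?_⟩
          intro x hx
          rw [mem_insert, mem_singleton] at hx
          rcases hx with rfl | rfl
          · exact mem_insert_self _ _
          · exact mem_insert_of_mem hlP
      rw [h1, card_star]
      exact fun h => hv (mem_inter.mp h).2
  · exact disjoint_filter_filter (star_disj hiso)

/-- the number of triples with at least two edges after adding a star -/
theorem bigT_star {E : Finset (Finset V)} (hE : IsE E) {v : V} {L : Finset V}
    (hiso : ∀ e ∈ E, v ∉ e) (hv : v ∉ L) :
    (bigT (E ∪ star v L)).card =
      (bigT E).card + (L.card.choose 2 + (E.filter (fun e => (e ∩ L).card = 1)).card) := by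
  have hempty : star v (∅ : Finset V) = ∅ := by simp [star]
  have hdec : bigT (E ∪ star v L) =
      bigT E ∪ (L.powersetCard 2 ∪ E.filter (fun e => (e ∩ L).card = 1)).image (insert v) := by
    ext T
    rw [mem_union, mem_image]
    by_cases hvT : v ∈ T
    · -- T contains v
      constructor
      · intro hT
        rw [bigT, mem_filter, mem_powersetCard] at hT
        right
        have hP : (T.erase v).card = 2 := by rw [card_erase_of_mem hvT, hT.1.2]
        have hi : insert v (T.erase v) = T := insert_erase hvT
        have h1 := hT.2
        rw [← hi, eT_star hE hiso hv hP (notMem_erase _ _)] at h1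
        refine ⟨T.erase v, ?_, hi⟩
        rw [mem_union, mem_powersetCard, mem_filter]
        have hle : (T.erase v ∩ L).card ≤ 2 := hP ▸ card_le_card inter_subset_left
        by_cases h2 : (T.erase v ∩ L).card = 2
        · left
          refine ⟨?_, hP⟩
          have : T.erase v ∩ L = T.erase v := eq_of_subset_of_card_le inter_subset_left (by omega)
          exact inter_eq_left.mp this
        · right
          split_ifs at h1 with h3
          · exact ⟨h3, by omega⟩
          · omega
      · rintro (hT | ⟨P, hP, rfl⟩)
        · -- impossible since v is isolated
          exfalso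
          rw [bigT, mem_filter, mem_powersetCard] at hT
          have hP : (T.erase v).card = 2 := by rw [card_erase_of_mem hvT, hT.1.2]
          have hi : insert v (T.erase v) = T := insert_erase hvT
          have h1 := hT.2
          have h2 := eT_star hE hiso (notMem_empty v) hP (notMem_erase v T)
          rw [hempty, union_empty, hi, inter_empty, card_empty] at h2
          split_ifs at h2 <;> omega
        · rw [mem_union, mem_powersetCard, mem_filter] at hP
          have hPc : P.card = 2 := by
            rcases hP with h | h
            · exact h.2
            · exact hE P h.1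
          have hvP : v ∉ P := by
            rcases hP with h | h
            · exact fun h' => hv (h.1 h')
            · exact hiso P h.1
          rw [bigT, mem_filter, mem_powersetCard, card_insert_of_notMem hvP, hPc,
            eT_star hE hiso hv hPc hvP]
          refine ⟨⟨subset_univ _, rfl⟩, ?_⟩
          rcases hP with h | h
          · have : P ∩ L = P := inter_eq_left.mpr h.1
            rw [this, hPc]
            omega
          · rw [if_pos h.1, h.2]
    · -- T does not contain v
      have heq : eT (E ∪ star v L) T = eT E T := by
        unfold eT
        rw [filter_union]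
        have : (star v L).filter (· ⊆ T) = ∅ := by
          rw [filter_eq_empty_iff]
          intro e he hs
          rw [star, mem_image] at he
          obtain ⟨l, _, rfl⟩ := he
          exact hvT (hs (by simp))
        rw [this, union_empty]
      constructor
      · intro hT
        left
        rw [bigT, mem_filter] at hT ⊢
        rw [heq] at hT
        exact hT
      · rintro (hT | ⟨P, _, rfl⟩)
        · rw [bigT, mem_filter] at hT ⊢
          rw [heq]
          exact hT
        · exact absurd (mem_insert_self v P) hvT
  rw [hdec, card_union_of_disjoint, card_image_of_injOn, card_union_of_disjoint, card_powersetCard]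
  · rw [disjoint_left]
    intro P hP hP'
    rw [mem_powersetCard] at hP
    rw [mem_filter] at hP'
    have : P ∩ L = P := inter_eq_left.mpr hP.1
    rw [this, hP.2] at hP'
    omega
  · have hnv : ∀ P ∈ L.powersetCard 2 ∪ E.filter (fun e => (e ∩ L).card = 1), v ∉ P := by
      intro P hP
      rw [mem_union, mem_powersetCard, mem_filter] at hP
      rcases hP with h | h
      · exact fun h' => hv (h.1 h')
      · exact hiso P h.1
    intro P hP Q hQ hPQ
    have h1 : (insert v P).erase v = (insert v Q).erase v := congrArg (fun s => s.erase v) hPQ
    rw [erase_insert (hnv P hP), erase_insert (hnv Q hQ)] at h1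
    exact h1
  · rw [disjoint_left]
    intro T hT hT'
    rw [mem_image] at hT'
    obtain ⟨P, hP, rfl⟩ := hT'
    rw [bigT, mem_filter, mem_powersetCard] at hT
    have hvT : v ∈ insert v P := mem_insert_self _ _
    have hPc : ((insert v P).erase v).card = 2 := by rw [card_erase_of_mem hvT, hT.1.2]
    have hi : insert v ((insert v P).erase v) = insert v P := insert_erase hvT
    have h2 := eT_star hE hiso (notMem_empty v) hPc (notMem_erase v _)
    rw [hempty, union_empty, hi, inter_empty, card_empty] at h2
    have h1 := hT.2
    split_ifs at h2 <;> omega

/-- effect of adding a star on the number of frustrated triangles -/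
theorem odd_star {E : Finset (Finset V)} (hE : IsE E) {v : V} {L : Finset V}
    (hiso : ∀ e ∈ E, v ∉ e) (hv : v ∉ L) :
    (oddT (E ∪ star v L)).card +
      2 * (L.card.choose 2 + (E.filter (fun e => (e ∩ L).card = 1)).card) =
      (oddT E).card + L.card * (Fintype.card V - 2) := by
  have h1 := basic E hE
  have h2 := basic (E ∪ star v L) (union_isE hE (star_isE hv))
  rw [card_union_of_disjoint (star_disj hiso), card_star hv, bigT_star hE hiso hv, add_mul] at h2
  omega

/-- filler: adding `q` isolated edges -/
theorem filler (q : ℕ) : ∀ (E : Finset (Finset V)), IsE E → ∀ U : Finset V,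
    (∀ e ∈ E, Disjoint e U) → 2 * q ≤ U.card →
    ∃ E' : Finset (Finset V), IsE E' ∧ E'.card = E.card + q ∧
      (oddT E').card = (oddT E).card + q * (Fintype.card V - 2) := by
  induction q with
  | zero =>
    intro E hE U _ _
    exact ⟨E, hE, by simp, by simp⟩
  | succ q ih =>
    intro E hE U hU hc
    obtain ⟨a, ha, b, hb, hab⟩ := one_lt_card.mp (by omega : 1 < U.card)
    have hisoa : ∀ e ∈ E, a ∉ e := fun e he h => (disjoint_left.mp (hU e he)) h ha
    have hisob : ∀ e ∈ E, b ∉ e := fun e he h => (disjoint_left.mp (hU e he)) h hb
    have hva : a ∉ ({b} : Finset V) := by simpa using hab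
    have hs := odd_star hE hisoa hva
    have hz : (E.filter (fun e => (e ∩ {b}).card = 1)) = ∅ := by
      rw [filter_eq_empty_iff]
      intro e he h
      have : e ∩ {b} = ∅ := by
        rw [inter_singleton_of_notMem (hisob e he)]
      rw [this] at h
      simp at h
    rw [hz, card_singleton, card_empty] at hs
    have hch : Nat.choose 1 2 = 0 := by decide
    rw [hch] at hs
    obtain ⟨E', hE', hc', ho'⟩ := ih (E ∪ star a {b}) (union_isE hE (star_isE hva))
      ((U.erase a).erase b) (by
        intro e he
        rcases mem_union.mp he with h | h
        · exact disjoint_of_subset_right ((erase_subset _ _).trans (erase_subset _ _)) (hU e h)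
        · rw [star, image_singleton, mem_singleton] at h
          subst h
          rw [disjoint_left]
          intro x hx
          rw [mem_insert, mem_singleton] at hx
          rcases hx with rfl | rfl
          · simp
          · simp) (by
        rw [card_erase_of_mem (mem_erase.mpr ⟨hab.symm, hb⟩), card_erase_of_mem ha]
        omega)
    refine ⟨E', hE', ?_, ?_⟩
    · rw [hc', card_union_of_disjoint (star_disj hisoa), card_star hva, card_singleton]
      omega
    · rw [ho']
      have : (q + 1) * (Fintype.card V - 2) = q * (Fintype.card V - 2) + (Fintype.card V - 2) := by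
        ring
      rw [this]
      omega

end Pool.Agent.R104.FTri
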