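import Pool.Agent.R104.FTri2

set_option autoImplicit false

namespace Pool.Agent.R104.FTri

open Finset

variable {V : Type*} [Fintype V] [DecidableEq V]

/-- adding two overlapping stars and filler edges -/
theorem add_comp (H : Finset (Finset V)) (hH : IsE H) (U : Finset V) (hU : ∀ e ∈ H, Disjoint e U)
    (k a i x : ℕ) (hx1 : x ≤ i) (hx2 : x ≤ a) (hk : a + i ≤ k) (hc : 2 * k + 2 ≤ U.card) :
    ∃ E : Finset (Finset V), IsE E ∧
      (oddT E).card + 2 * (a.choose 2 + i.choose 2 + x) = (oddT H).card + k * (Fintype.card V - 2) := by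
  -- first star
  have hne : U.Nonempty := by rw [← card_pos]; omega
  obtain ⟨v0, hv0⟩ := hne
  obtain ⟨L0, hL0, hL0c⟩ := exists_subset_card_eq (s := U.erase v0) (n := a)
    (by rw [card_erase_of_mem hv0]; omega)
  have hv0L : v0 ∉ L0 := fun h => (mem_erase.mp (hL0 h)).1 rfl
  have hL0U : L0 ⊆ U := hL0.trans (erase_subset _ _)
  have hiso0 : ∀ e ∈ H, v0 ∉ e := fun e he h => (disjoint_left.mp (hU e he)) h hv0
  have h1 := odd_star hH hiso0 hv0L
  have hz0 : H.filter (fun e => (e ∩ L0).card = 1) = ∅ := by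
    rw [filter_eq_empty_iff]
    intro e he h
    have : e ∩ L0 = ∅ := by
      rw [← disjoint_iff_inter_eq_empty]
      exact disjoint_of_subset_right hL0U (hU e he)
    rw [this] at h
    simp at h
  rw [hz0, card_empty, hL0c] at h1
  -- second star
  obtain ⟨X, hX, hXc⟩ := exists_subset_card_eq (s := L0) (n := x) (by omega)
  let U1 := (U.erase v0) \ L0
  have hU1c : U1.card = U.card - 1 - a := by
    rw [card_sdiff_of_subset hL0, card_erase_of_mem hv0, hL0c]
  have hU1ne : U1.Nonempty := by rw [← card_pos]; omega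
  obtain ⟨v1, hv1⟩ := hU1ne
  obtain ⟨Y, hY, hYc⟩ := exists_subset_card_eq (s := U1.erase v1) (n := i - x)
    (by rw [card_erase_of_mem hv1]; omega)
  have hv1' := hv1
  simp only [U1, mem_sdiff, mem_erase] at hv1'
  have hYmem : ∀ y ∈ Y, y ≠ v1 ∧ y ≠ v0 ∧ y ∈ U ∧ y ∉ L0 := by
    intro y hy
    have := hY hy
    simp only [U1, mem_sdiff, mem_erase] at this
    exact ⟨this.1, this.2.1.1, this.2.1.2, this.2.2⟩
  have hXY : Disjoint X Y := by
    rw [disjoint_left]
    intro z hz hz'
    exact (hYmem z hz').2.2.2 (hX hz)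
  have hv1L : v1 ∉ X ∪ Y := by
    intro h
    rcases mem_union.mp h with h | h
    · exact hv1'.2 (hX h)
    · exact (hYmem v1 h).1 rfl
  have hLc : (X ∪ Y).card = i := by
    rw [card_union_of_disjoint hXY, hXc, hYc]
    omega
  have hE1 : IsE (H ∪ star v0 L0) := union_isE hH (star_isE hv0L)
  have hiso1 : ∀ e ∈ H ∪ star v0 L0, v1 ∉ e := by
    intro e he h
    rcases mem_union.mp he with h' | h'
    · exact (disjoint_left.mp (hU e h')) h hv1'.1.2
    · rw [star, mem_image] at h'
      obtain ⟨l, hl, rfl⟩ := h'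
      rw [mem_insert, mem_singleton] at h
      rcases h with h | h
      · exact hv1'.1.1 h
      · exact hv1'.2 (h ▸ hl)
  have h2 := odd_star hE1 hiso1 hv1L
  have hcross : (H ∪ star v0 L0).filter (fun e => (e ∩ (X ∪ Y)).card = 1) = star v0 X := by
    ext e
    rw [mem_filter, mem_union]
    constructor
    · rintro ⟨he | he, hc1⟩
      · exfalso
        have : e ∩ (X ∪ Y) = ∅ := by
          rw [← disjoint_iff_inter_eq_empty]
          refine disjoint_of_subset_right ?_ (hU e he)
          intro z hz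
          rcases mem_union.mp hz with h | h
          · exact hL0U (hX h)
          · exact (hYmem z h).2.2.1
        rw [this] at hc1
        simp at hc1
      · rw [star, mem_image] at he ⊢
        obtain ⟨l, hl, rfl⟩ := he
        refine ⟨l, ?_, rfl⟩
        obtain ⟨z, hz⟩ := card_eq_one.mp hc1
        have hzm : z ∈ ({v0, l} : Finset V) ∩ (X ∪ Y) := by rw [hz]; exact mem_singleton_self z
        rw [mem_inter, mem_insert, mem_singleton, mem_union] at hzm
        rcases hzm with ⟨rfl | rfl, h | h⟩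
        · exact absurd (hX h) hv0L
        · exact absurd rfl (hYmem _ h).2.1
        · exact h
        · exact absurd hl (hYmem _ h).2.2.2
    · intro he
      rw [star, mem_image] at he
      obtain ⟨l, hl, rfl⟩ := he
      refine ⟨Or.inr (mem_image_of_mem _ (hX hl)), ?_⟩
      rw [card_eq_one]
      refine ⟨l, ?_⟩
      ext z
      rw [mem_inter, mem_insert, mem_singleton, mem_union]
      constructor
      · rintro ⟨rfl | rfl, h | h⟩
        · exact absurd (hX h) hv0L
        · exact absurd rfl (hYmem _ h).2.1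
        · rfl
        · rfl
      · rintro rfl
        exact ⟨Or.inr rfl, Or.inl hl⟩
  have hv0X : v0 ∉ X := fun h => hv0L (hX h)
  rw [hcross, card_star hv0X, hXc, hLc] at h2
  -- filler
  let U2 := (U1.erase v1) \ Y
  have hU2c : U2.card = U1.card - 1 - (i - x) := by
    rw [card_sdiff_of_subset hY, card_erase_of_mem hv1, hYc]
  obtain ⟨E, hE, _, hEo⟩ := filler (k - a - i) ((H ∪ star v0 L0) ∪ star v1 (X ∪ Y))
    (union_isE hE1 (star_isE hv1L)) U2 (by
      intro e he
      rw [disjoint_left]
      intro z hz hzU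
      simp only [U2, U1, mem_sdiff, mem_erase] at hzU
      rcases mem_union.mp he with h' | h'
      · rcases mem_union.mp h' with h'' | h''
        · exact (disjoint_left.mp (hU e h'')) hz hzU.1.2.1.2
        · rw [star, mem_image] at h''
          obtain ⟨l, hl, rfl⟩ := h''
          rw [mem_insert, mem_singleton] at hz
          rcases hz with h | h
          · exact hzU.1.2.1.1 h
          · exact hzU.1.2.2 (h ▸ hl)
      · rw [star, mem_image] at h'
        obtain ⟨l, hl, rfl⟩ := h'
        rw [mem_insert, mem_singleton] at hz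
        rcases hz with h | h
        · exact hzU.1.1 h
        · subst h
          rcases mem_union.mp hl with h | h
          · exact hzU.1.2.2 (hX h)
          · exact hzU.2 h) (by omega)
  refine ⟨E, hE, ?_⟩
  rw [hEo]
  have h3 : k * (Fintype.card V - 2) = a * (Fintype.card V - 2) + i * (Fintype.card V - 2)
      + (k - a - i) * (Fintype.card V - 2) := by
    rw [← add_mul, ← add_mul]
    congr 1
    omega
  rw [h3]
  omega

theorem choose_two_succ (a : ℕ) : (a + 1).choose 2 = a.choose 2 + a := by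
  rw [Nat.choose_succ_succ' a 1, Nat.choose_one_right]
  exact Nat.add_comm _ _

theorem tri_repr (t : ℕ) : ∃ a : ℕ, a.choose 2 ≤ t ∧ t < a.choose 2 + a := by
  induction t with
  | zero => exact ⟨1, by decide, by decide⟩
  | succ t ih =>
    obtain ⟨a, h1, h2⟩ := ih
    by_cases h : t + 1 < a.choose 2 + a
    · exact ⟨a, by omega, h⟩
    · refine ⟨a + 1, ?_, ?_⟩
      · rw [choose_two_succ]
        omega
      · rw [choose_two_succ]
        omega

theorem lt_of_choose_lt {a b : ℕ} (h : a.choose 2 < b.choose 2) : a < b := by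
  by_contra hc
  push Not at hc
  have := Nat.choose_le_choose 2 hc
  omega

/-- all values `k (n-2) - 2 t` with `t ≤ T` are reached -/
theorem cover (H : Finset (Finset V)) (hH : IsE H) (U : Finset V) (hU : ∀ e ∈ H, Disjoint e U)
    (k a1 j T t : ℕ) (hT : T < (a1 + 1).choose 2) (hj : a1 ≤ (j + 1).choose 2) (hk : a1 + j ≤ k)
    (ht : t ≤ T) (hc : 2 * k + 2 ≤ U.card) :
    ∃ E : Finset (Finset V), IsE E ∧
      (oddT E).card + 2 * t = (oddT H).card + k * (Fintype.card V - 2) := by
  obtain ⟨a, ha1, ha2⟩ := tri_repr t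
  obtain ⟨i, hi1, hi2⟩ := tri_repr (t - a.choose 2)
  have h1 : a < a1 + 1 := lt_of_choose_lt (by omega)
  have h2 : i < j + 1 := lt_of_choose_lt (by omega)
  obtain ⟨E, hE, ho⟩ := add_comp H hH U hU k a i (t - a.choose 2 - i.choose 2) (by omega) (by omega)
    (by omega) hc
  refine ⟨E, hE, ?_⟩
  rw [← ho]
  congr 2
  omega

/-- parity: for an even number of vertices the number of frustrated triangles is even -/
theorem odd_even (E : Finset (Finset V)) (hE : IsE E) (hn : Even (Fintype.card V)) :
    Even (oddT E).card := by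
  have h := basic E hE
  have h1 : Even (E.card * (Fintype.card V - 2)) := by
    apply Even.mul_left
    rcases Nat.lt_or_ge (Fintype.card V) 2 with h2 | h2
    · rw [Nat.sub_eq_zero_of_le (by omega)]; exact Even.zero
    · rw [Nat.even_sub h2]
      simp [hn]
  rw [← h, Nat.even_add] at h1
  exact h1.mpr (even_two_mul _)

/-- existence, common part -/
theorem reach (k m : ℕ) (hk : k * (Fintype.card V - 2) ≤ m)
    (hm : m < (Fintype.card V - (2 * k + 6)).choose 3) (hV : 2 * k + 6 ≤ Fintype.card V) :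
    ∃ (H : Finset (Finset V)) (U : Finset V), IsE H ∧ (∀ e ∈ H, Disjoint e U) ∧
      U.card = 2 * k + 6 ∧ (oddT H).card + k * (Fintype.card V - 2) ≤ m ∧
      m < (oddT H).card + (k + 1) * (Fintype.card V - 2) := by
  obtain ⟨U, _, hUc⟩ := exists_subset_card_eq (s := (univ : Finset V)) (n := 2 * k + 6)
    (by rw [card_univ]; exact hV)
  have hA : (Uᶜ : Finset V).card = Fintype.card V - (2 * k + 6) := by
    rw [card_compl, hUc]
  obtain ⟨H, hH1, hH2, hH3⟩ := ivt (Uᶜ : Finset V) (m - k * (Fintype.card V - 2)) (by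
    rw [hA]; omega)
  refine ⟨H, U, ?_, ?_, hUc, by omega, ?_⟩
  · intro e he
    exact (mem_powersetCard.mp (hH1 he)).2
  · intro e he
    have := (mem_powersetCard.mp (hH1 he)).1
    exact disjoint_of_subset_left this disjoint_compl_left
  · rw [add_mul]
    omega

theorem full_even (k a1 j m : ℕ) (hn : Even (Fintype.card V)) (hm2 : Even m)
    (hT : (Fintype.card V - 2) / 2 < (a1 + 1).choose 2) (hj : a1 ≤ (j + 1).choose 2)
    (hkj : a1 + j ≤ k) (hk : k * (Fintype.card V - 2) ≤ m)
    (hm : m < (Fintype.card V - (2 * k + 6)).choose 3) (hV : 2 * k + 6 ≤ Fintype.card V) :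
    ∃ E : Finset (Finset V), IsE E ∧ (oddT E).card = m := by
  obtain ⟨H, U, hH, hU, hUc, h1, h2⟩ := reach k m hk hm hV
  have hev := odd_even H hH hn
  have hn2 : Even (Fintype.card V - 2) := by
    rw [Nat.even_sub (by omega)]
    simp [hn]
  obtain ⟨p, hp⟩ := hn2
  obtain ⟨q, hq⟩ := hev
  obtain ⟨r, hr⟩ := hm2
  obtain ⟨E, hE, ho⟩ := cover H hH U hU (k + 1) a1 j _ (q + (k + 1) * p - r) hT hj (by omega)
    (by
      have e1 : (k + 1) * (p + p) = 2 * ((k + 1) * p) := by ring
      have e2 : k * (p + p) = 2 * ((k + 1) * p) - 2 * p := by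
        have : 2 * ((k + 1) * p) = k * (p + p) + 2 * p := by ring
        omega
      rw [hp, e1] at h2
      rw [hp, e2] at h1
      rw [hp]
      omega) (by omega)
  refine ⟨E, hE, ?_⟩
  rw [hp] at ho h2
  have e1 : (k + 1) * (p + p) = 2 * ((k + 1) * p) := by ring
  rw [e1] at ho h2
  omega

theorem full_odd (k a1 j m : ℕ) (hn : Odd (Fintype.card V))
    (hT : Fintype.card V - 2 < (a1 + 1).choose 2) (hj : a1 ≤ (j + 1).choose 2)
    (hkj : a1 + j ≤ k) (hk : k * (Fintype.card V - 2) ≤ m)
    (hm : m < (Fintype.card V - (2 * k + 6)).choose 3) (hV : 2 * k + 6 ≤ Fintype.card V) :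
    ∃ E : Finset (Finset V), IsE E ∧ (oddT E).card = m := by
  obtain ⟨H, U, hH, hU, hUc, h1, h2⟩ := reach k m hk hm hV
  set N := Fintype.card V - 2 with hN
  have hNodd : Odd N := by
    obtain ⟨c, hc⟩ := hn
    exact ⟨c - 1, by omega⟩
  obtain ⟨p, hp⟩ := hNodd
  -- choose k' in {k+1, k+2}
  have key : ∃ k' t : ℕ, k + 1 ≤ k' ∧ k' ≤ k + 2 ∧ t ≤ N ∧ m + 2 * t = (oddT H).card + k' * N := by
    have e1 : (k + 2) * N = (k + 1) * N + N := by ring
    have e2 : (k + 1) * N = k * N + N := by ring
    rcases Nat.even_or_odd ((oddT H).card + (k + 1) * N - m) with ⟨t, ht⟩ | ⟨t, ht⟩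
    · exact ⟨k + 1, t, le_refl _, by omega, by omega, by omega⟩
    · refine ⟨k + 2, t + p + 1, by omega, le_refl _, by omega, ?_⟩
      rw [e1]
      omega
  obtain ⟨k', t, hk1, hk2, htN, hmt⟩ := key
  obtain ⟨E, hE, ho⟩ := cover H hH U hU k' a1 j N t hT hj (by omega) htN (by omega)
  refine ⟨E, hE, ?_⟩
  rw [← hN] at ho
  omega

end Pool.Agent.R104.FTri
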