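import Pool.Agent.R104.FTri3

set_option autoImplicit false

namespace Pool.Agent.R104.FTri

open Finset

variable {V : Type*} [Fintype V] [DecidableEq V]

/-- a triple with two edges is the union of two distinct edges -/
theorem mem_bigT {E : Finset (Finset V)} (hE : IsE E) {T : Finset V} (hT : T ∈ bigT E) :
    ∃ e1 ∈ E, ∃ e2 ∈ E, e1 ≠ e2 ∧ T = e1 ∪ e2 ∧ T.card = 3 := by
  rw [bigT, mem_filter, mem_powersetCard] at hT
  obtain ⟨e1, h1, e2, h2, hne⟩ := one_lt_card.mp (by unfold eT at hT; omega :
    1 < (E.filter (· ⊆ T)).card)
  rw [mem_filter] at h1 h2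
  refine ⟨e1, h1.1, e2, h2.1, hne, ?_, hT.1.2⟩
  symm
  apply eq_of_subset_of_card_le (union_subset h1.2 h2.2)
  rw [hT.1.2]
  by_contra hc
  push Not at hc
  have h3 : e1 = e1 ∪ e2 := eq_of_subset_of_card_le subset_union_left (by rw [hE e1 h1.1]; omega)
  have h4 : e2 = e1 ∪ e2 := eq_of_subset_of_card_le subset_union_right (by rw [hE e2 h2.1]; omega)
  exact hne (h3.trans h4.symm)

/-- degree as a set of edges -/
def inc (E : Finset (Finset V)) (v : V) : Finset (Finset V) := E.filter (fun e => v ∈ e)

theorem choose_le_bigT {E : Finset (Finset V)} (hE : IsE E) (v : V) :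
    (inc E v).card.choose 2 ≤ (bigT E).card := by
  classical
  -- map a pair of edges at v to its union
  rw [← card_powersetCard]
  apply card_le_card_of_injOn (fun P => P.biUnion id)
  · intro P hP
    rw [mem_coe, mem_powersetCard] at hP
    obtain ⟨e1, e2, hne, rfl⟩ := card_eq_two.mp hP.2
    have h1 : e1 ∈ inc E v := hP.1 (by simp)
    have h2 : e2 ∈ inc E v := hP.1 (by simp)
    rw [inc, mem_filter] at h1 h2
    have hu : ({e1, e2} : Finset (Finset V)).biUnion id = e1 ∪ e2 := by
      simp [biUnion_insert]
    rw [mem_coe]
    simp only [hu]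
    rw [bigT, mem_filter, mem_powersetCard]
    refine ⟨⟨subset_univ _, ?_⟩, ?_⟩
    · have h3 := card_union_add_card_inter e1 e2
      rw [hE e1 h1.1, hE e2 h2.1] at h3
      have h4 : 1 ≤ (e1 ∩ e2).card := card_pos.mpr ⟨v, mem_inter.mpr ⟨h1.2, h2.2⟩⟩
      have h5 : (e1 ∩ e2).card < 2 := by
        by_contra hc
        push Not at hc
        have h6 : e1 ∩ e2 = e1 := eq_of_subset_of_card_le inter_subset_left (by rw [hE e1 h1.1]; omega)
        have h7 : e1 ∩ e2 = e2 := eq_of_subset_of_card_le inter_subset_right (by rw [hE e2 h2.1]; omega)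
        exact hne (h6.symm.trans h7)
      omega
    · rw [← card_pair hne]
      apply card_le_card
      intro e he
      rw [mem_insert, mem_singleton] at he
      rw [mem_filter]
      rcases he with rfl | rfl
      · exact ⟨h1.1, subset_union_left⟩
      · exact ⟨h2.1, subset_union_right⟩
  · -- injectivity: the edges at v inside the union are determined
    have key : ∀ P ∈ (inc E v).powersetCard 2, (inc E v).filter (· ⊆ P.biUnion id) = P := by
      intro P hP
      rw [mem_powersetCard] at hP
      symm
      apply eq_of_subset_of_card_le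
      · intro e he
        rw [mem_filter]
        exact ⟨hP.1 he, subset_biUnion_of_mem id he⟩
      · -- at most two edges at v inside a set of size <= 3
        rw [hP.2]
        obtain ⟨e1, e2, hne, rfl⟩ := card_eq_two.mp hP.2
        have h1 : e1 ∈ inc E v := hP.1 (by simp)
        have h2 : e2 ∈ inc E v := hP.1 (by simp)
        rw [inc, mem_filter] at h1 h2
        have hu : ({e1, e2} : Finset (Finset V)).biUnion id = e1 ∪ e2 := by
          simp [biUnion_insert]
        rw [hu]
        have h3 := card_union_add_card_inter e1 e2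
        rw [hE e1 h1.1, hE e2 h2.1] at h3
        have h4 : 1 ≤ (e1 ∩ e2).card := card_pos.mpr ⟨v, mem_inter.mpr ⟨h1.2, h2.2⟩⟩
        have hvU : v ∈ e1 ∪ e2 := mem_union_left _ h1.2
        calc ((inc E v).filter (· ⊆ e1 ∪ e2)).card
            ≤ ((e1 ∪ e2).erase v).card := by
              apply card_le_card_of_surjOn (fun w => ({v, w} : Finset V))
              intro e he
              rw [mem_coe, mem_filter, inc, mem_filter] at he
              obtain ⟨⟨heE, hve⟩, hs⟩ := he
              have hc1 : (e.erase v).card = 1 := by
                rw [card_erase_of_mem hve, hE e heE]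
              obtain ⟨w, hw⟩ := card_eq_one.mp hc1
              have hwm : w ∈ e.erase v := by rw [hw]; exact mem_singleton_self w
              rw [mem_erase] at hwm
              refine ⟨w, ?_, ?_⟩
              · rw [mem_coe, mem_erase]
                exact ⟨hwm.1, hs hwm.2⟩
              · simp only
                rw [← insert_erase hve, hw]
          _ ≤ 2 := by
              rw [card_erase_of_mem hvU]
              omega
    intro P hP Q hQ hPQ
    rw [← key P hP, ← key Q hQ]
    simp only at hPQ
    rw [hPQ]

/-- upper bound through a vertex -/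
theorem bigT_le {E : Finset (Finset V)} (hE : IsE E) (v : V) :
    (bigT E).card ≤ (inc E v).card.choose 2 + (E.card - (inc E v).card + 1).choose 2 := by
  classical
  set I := inc E v with hI
  have hIE : I ⊆ E := filter_subset _ _
  set R := E \ I with hR
  have hRc : R.card = E.card - I.card := by rw [hR, card_sdiff_of_subset hIE]
  have hsub : bigT E ⊆ ((I.powersetCard 2).image (fun P => P.biUnion id)) ∪
      (((R.powersetCard 2).image (fun P => P.biUnion id)) ∪ R.image (fun e => insert v e)) := by
    intro T hT
    obtain ⟨e1, h1, e2, h2, hne, hTe, hT3⟩ := mem_bigT hE hT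
    have hu : ({e1, e2} : Finset (Finset V)).biUnion id = e1 ∪ e2 := by
      simp [biUnion_insert]
    have aux : ∀ e e' : Finset V, e ∈ I → e' ∈ E → e' ∉ I → T = e ∪ e' → T ∈ R.image (fun e => insert v e) := by
      intro e e' he he' heI' hTe'
      rw [mem_image]
      refine ⟨e', by rw [hR, mem_sdiff]; exact ⟨he', heI'⟩, ?_⟩
      have hve : v ∈ e := by rw [hI, inc, mem_filter] at he; exact he.2
      have hve' : v ∉ e' := by
        intro h
        apply heI'
        rw [hI, inc, mem_filter]
        exact ⟨he', h⟩
      apply eq_of_subset_of_card_le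
      · apply insert_subset
        · rw [hTe']; exact mem_union_left _ hve
        · rw [hTe']; exact subset_union_right
      · rw [hT3, card_insert_of_notMem hve', hE e' he']
    rw [mem_union, mem_union]
    by_cases c1 : e1 ∈ I <;> by_cases c2 : e2 ∈ I
    · left
      rw [mem_image]
      refine ⟨{e1, e2}, ?_, ?_⟩
      · rw [mem_powersetCard]
        refine ⟨?_, card_pair hne⟩
        intro e he
        rw [mem_insert, mem_singleton] at he
        rcases he with rfl | rfl
        · exact c1
        · exact c2
      · simp only [hu]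
        exact hTe.symm
    · right; right
      exact aux e1 e2 c1 h2 c2 hTe
    · right; right
      exact aux e2 e1 c2 h1 c1 (by rw [hTe, union_comm])
    · right; left
      rw [mem_image]
      refine ⟨{e1, e2}, ?_, ?_⟩
      · rw [mem_powersetCard]
        refine ⟨?_, card_pair hne⟩
        intro e he
        rw [mem_insert, mem_singleton] at he
        rw [hR, mem_sdiff]
        rcases he with rfl | rfl
        · exact ⟨h1, c1⟩
        · exact ⟨h2, c2⟩
      · simp only [hu]
        exact hTe.symm
  calc (bigT E).card ≤ _ := card_le_card hsub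
    _ ≤ ((I.powersetCard 2).image (fun P => P.biUnion id)).card +
        (((R.powersetCard 2).image (fun P => P.biUnion id)) ∪ R.image (fun e => insert v e)).card :=
      card_union_le _ _
    _ ≤ (I.powersetCard 2).card + (((R.powersetCard 2).image (fun P => P.biUnion id)).card +
        (R.image (fun e => insert v e)).card) :=
      add_le_add card_image_le (card_union_le _ _)
    _ ≤ (I.powersetCard 2).card + ((R.powersetCard 2).card + R.card) :=
      add_le_add le_rfl (add_le_add card_image_le card_image_le)
    _ = _ := by
      rw [card_powersetCard, card_powersetCard, hRc, choose_two_succ]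

/-- any graph: at most `C(e,2)` triples with two edges -/
theorem bigT_le_choose {E : Finset (Finset V)} (hE : IsE E) :
    (bigT E).card ≤ E.card.choose 2 := by
  classical
  have hsub : bigT E ⊆ ((E.powersetCard 2).image (fun P => P.biUnion id)) := by
    intro T hT
    obtain ⟨e1, h1, e2, h2, hne, hTe, _⟩ := mem_bigT hE hT
    rw [mem_image]
    refine ⟨{e1, e2}, ?_, ?_⟩
    · rw [mem_powersetCard]
      refine ⟨?_, card_pair hne⟩
      intro e he
      rw [mem_insert, mem_singleton] at he
      rcases he with rfl | rfl
      · exact h1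
      · exact h2
    · simp [biUnion_insert, hTe]
  calc (bigT E).card ≤ _ := card_le_card hsub
    _ ≤ (E.powersetCard 2).card := card_image_le
    _ = _ := card_powersetCard _ _

/-- small maximum degree -/
theorem bigT_le_maxdeg {E : Finset (Finset V)} (hE : IsE E) (D : ℕ)
    (hD : ∀ v, (inc E v).card ≤ D) : (bigT E).card ≤ E.card * (2 * D) := by
  classical
  have hsub : bigT E ⊆ E.biUnion (fun e => (e.biUnion (fun v => inc E v)).image (fun e' => e ∪ e')) := by
    intro T hT
    obtain ⟨e1, h1, e2, h2, hne, hTe, hT3⟩ := mem_bigT hE hT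
    rw [mem_biUnion]
    refine ⟨e1, h1, ?_⟩
    rw [mem_image]
    refine ⟨e2, ?_, hTe.symm⟩
    rw [mem_biUnion]
    have h3 := card_union_add_card_inter e1 e2
    rw [hE e1 h1, hE e2 h2, ← hTe, hT3] at h3
    have h4 : 0 < (e1 ∩ e2).card := by omega
    obtain ⟨v, hv⟩ := card_pos.mp h4
    rw [mem_inter] at hv
    exact ⟨v, hv.1, by rw [inc, mem_filter]; exact ⟨h2, hv.2⟩⟩
  calc (bigT E).card ≤ _ := card_le_card hsub
    _ ≤ ∑ e ∈ E, ((e.biUnion (fun v => inc E v)).image (fun e' => e ∪ e')).card := card_biUnion_le
    _ ≤ ∑ e ∈ E, 2 * D := by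
      apply sum_le_sum
      intro e he
      calc _ ≤ (e.biUnion (fun v => inc E v)).card := card_image_le
        _ ≤ ∑ v ∈ e, (inc E v).card := card_biUnion_le
        _ ≤ ∑ v ∈ e, D := sum_le_sum (fun v _ => hD v)
        _ = 2 * D := by rw [sum_const, hE e he, smul_eq_mul]
    _ = E.card * (2 * D) := by rw [sum_const, smul_eq_mul]

end Pool.Agent.R104.FTri
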