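import Pool.Agent.R104.FTri4

set_option autoImplicit false

namespace Pool.Agent.R104.FTri

open Finset

variable {V : Type*} [Fintype V] [DecidableEq V]

/-- switching at the neighbourhood of `v` -/
def sw (E : Finset (Finset V)) (v : V) : Finset (Finset V) :=
  ((univ : Finset V).powersetCard 2).filter (fun e => v ∉ e ∧ Odd (eT E (insert v e)))

theorem sw_isE (E : Finset (Finset V)) (v : V) : IsE (sw E v) := by
  intro e he
  rw [sw, mem_filter, mem_powersetCard] at he
  exact he.1.2

theorem sw_odd {E : Finset (Finset V)} (hE : IsE E) (v : V) : oddT (sw E v) = oddT E := by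
  unfold oddT
  apply filter_congr
  intro T hT
  rw [mem_powersetCard] at hT
  have hT3 := hT.2
  by_cases hv : v ∈ T
  · have hP : (T.erase v).card = 2 := by rw [card_erase_of_mem hv, hT3]
    have hi : insert v (T.erase v) = T := insert_erase hv
    have h1 : (sw E v).filter (· ⊆ T) = if Odd (eT E T) then {T.erase v} else ∅ := by
      ext e
      split_ifs with ho
      · rw [mem_filter, mem_singleton, sw, mem_filter, mem_powersetCard]
        constructor
        · rintro ⟨⟨⟨_, h2⟩, h3, h4⟩, h5⟩
          apply eq_of_subset_of_card_le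
          · intro x hx
            rw [mem_erase]
            exact ⟨fun h => h3 (h ▸ hx), h5 hx⟩
          · rw [h2, hP]
        · rintro rfl
          refine ⟨⟨⟨subset_univ _, hP⟩, notMem_erase _ _, ?_⟩, erase_subset _ _⟩
          rw [hi]
          exact ho
      · rw [mem_filter, sw, mem_filter, mem_powersetCard]
        constructor
        · rintro ⟨⟨⟨_, h2⟩, h3, h4⟩, h5⟩
          exfalso
          have : e = T.erase v := by
            apply eq_of_subset_of_card_le
            · intro x hx
              rw [mem_erase]
              exact ⟨fun h => h3 (h ▸ hx), h5 hx⟩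
            · rw [h2, hP]
          rw [this, hi] at h4
          exact ho h4
        · intro h
          simp at h
    have h2 : eT (sw E v) T = if Odd (eT E T) then 1 else 0 := by
      rw [eT, h1]
      split_ifs <;> simp
    rw [h2]
    split_ifs with ho
    · simp [ho]
    · simp [ho]
  · have h1 : (sw E v).filter (· ⊆ T) = (T.powersetCard 2).filter (fun e => Odd (eT E (insert v e))) := by
      ext e
      rw [mem_filter, mem_filter, sw, mem_filter, mem_powersetCard, mem_powersetCard]
      constructor
      · rintro ⟨⟨⟨_, h2⟩, h3, h4⟩, h5⟩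
        exact ⟨⟨h5, h2⟩, h4⟩
      · rintro ⟨⟨h5, h2⟩, h4⟩
        exact ⟨⟨⟨subset_univ _, h2⟩, fun h => hv (h5 h), h4⟩, h5⟩
    have h2 : Odd (eT (sw E v) T) ↔ Odd (∑ e ∈ T.powersetCard 2, eT E (insert v e)) := by
      rw [eT, h1, odd_sum_iff_odd_card_odd]
    have h3 := sum_eT E hE (insert v T)
    rw [card_insert_of_notMem hv, hT3, powersetCard_succ_insert hv 2, sum_union, sum_image] at h3
    · have h4 : T.powersetCard (2 + 1) = {T} := by
        have := powersetCard_self T
        rw [hT3] at this
        exact this
      rw [h4, sum_singleton] at h3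
      rw [h2]
      have h5 : Even (eT E T + ∑ e ∈ T.powersetCard 2, eT E (insert v e)) := by
        rw [h3]
        exact ⟨eT E (insert v T), by ring⟩
      rw [Nat.even_add] at h5
      rw [← Nat.not_even_iff_odd, ← Nat.not_even_iff_odd, h5]
    · intro P hP Q hQ hPQ
      have h5 : v ∉ P := fun h => hv ((mem_powersetCard.mp (mem_coe.mp hP)).1 h)
      have h6 : v ∉ Q := fun h => hv ((mem_powersetCard.mp (mem_coe.mp hQ)).1 h)
      rw [← erase_insert h5, ← erase_insert h6, hPQ]
    · rw [disjoint_left]
      intro S hS hS'
      rw [mem_image] at hS'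
      obtain ⟨P, _, rfl⟩ := hS'
      exact hv ((mem_powersetCard.mp hS).1 (mem_insert_self _ _))

theorem sw_card (E : Finset (Finset V)) (v : V) :
    (sw E v).card = ((oddT E).filter (fun T => v ∈ T)).card := by
  refine card_bij' (fun e _ => insert v e) (fun T _ => T.erase v) ?_ ?_ ?_ ?_
  · intro e he
    rw [sw, mem_filter, mem_powersetCard] at he
    rw [mem_filter, oddT, mem_filter, mem_powersetCard, card_insert_of_notMem he.2.1, he.1.2]
    exact ⟨⟨⟨subset_univ _, rfl⟩, he.2.2⟩, mem_insert_self _ _⟩
  · intro T hT
    rw [mem_filter, oddT, mem_filter, mem_powersetCard] at hT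
    rw [sw, mem_filter, mem_powersetCard, card_erase_of_mem hT.2, hT.1.1.2, insert_erase hT.2]
    exact ⟨⟨subset_univ _, rfl⟩, notMem_erase _ _, hT.1.2⟩
  · intro e he
    rw [sw, mem_filter, mem_powersetCard] at he
    exact erase_insert he.2.1
  · intro T hT
    rw [mem_filter] at hT
    exact insert_erase hT.2

/-- a switching-equivalent graph with few edges -/
theorem exists_sw {E : Finset (Finset V)} (hE : IsE E) (hV : 0 < Fintype.card V) :
    ∃ E' : Finset (Finset V), IsE E' ∧ (oddT E').card = (oddT E).card ∧
      Fintype.card V * E'.card ≤ 3 * (oddT E).card := by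
  have h1 : ∑ v : V, ((oddT E).filter (fun T => v ∈ T)).card = 3 * (oddT E).card := by
    have : ∀ v : V, ((oddT E).filter (fun T => v ∈ T)).card = ∑ T ∈ oddT E, if v ∈ T then 1 else 0 := by
      intro v
      rw [card_filter]
    simp_rw [this]
    rw [sum_comm]
    have h2 : ∀ T ∈ oddT E, (∑ v : V, if v ∈ T then 1 else 0) = 3 := by
      intro T hT
      rw [oddT, mem_filter, mem_powersetCard] at hT
      rw [← card_filter, filter_mem_eq_inter, univ_inter, hT.1.2]
    rw [sum_congr rfl h2, sum_const, smul_eq_mul, mul_comm]
  have hne : (univ : Finset V).Nonempty := by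
    rw [← card_pos, card_univ]; exact hV
  obtain ⟨v, _, hv⟩ := exists_min_image univ (fun v => ((oddT E).filter (fun T => v ∈ T)).card) hne
  refine ⟨sw E v, sw_isE E v, by rw [sw_odd hE], ?_⟩
  rw [sw_card, ← h1]
  have h3 := card_nsmul_le_sum univ (fun v => ((oddT E).filter (fun T => v ∈ T)).card)
    ((oddT E).filter (fun T => v ∈ T)).card (fun w hw => hv w hw)
  rw [card_univ, smul_eq_mul] at h3
  exact h3

theorem two_choose (a : ℕ) : 2 * a.choose 2 + a = a * a := by
  induction a with
  | zero => rfl
  | succ a ih =>
    rw [choose_two_succ]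
    nlinarith

/-- the missing value -/
theorem missing (a j m : ℕ) (hj : (j + 1).choose 2 + 1 < a)
    (hn5 : 5 ≤ Fintype.card V)
    (hT : (Even (Fintype.card V) → 2 * (a.choose 2 + (j + 1).choose 2 + 1) < Fintype.card V - 2) ∧
      (Odd (Fintype.card V) → a.choose 2 + (j + 1).choose 2 + 1 < Fintype.card V - 2))
    (hm : m + 2 * (a.choose 2 + (j + 1).choose 2 + 1) = (a + j) * (Fintype.card V - 2))
    (hbig1 : (a + j) * (2 * j) < a.choose 2)
    (hbig2 : 4 * (a + j) + 2 * (a + j) * j + (a + j) < Fintype.card V - 2)
    (E : Finset (Finset V)) (hE : IsE E) : (oddT E).card ≠ m := by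
  intro hEm
  obtain ⟨F, hF, hFo, hFc⟩ := exists_sw hE (by omega)
  rw [hEm] at hFo hFc
  have hb := basic F hF
  rw [hFo] at hb
  have hmax := bigT_le_choose hF
  have hcK := two_choose F.card
  set N := Fintype.card V - 2 with hN
  set t0 := a.choose 2 + (j + 1).choose 2 + 1 with ht0
  set k := a + j with hk
  rcases lt_trichotomy F.card k with hlt | heq | hgt
  · -- fewer than k edges
    obtain ⟨u, hu⟩ : ∃ u, k = F.card + u := ⟨k - F.card, by omega⟩
    have hu1 : 1 ≤ u := by omega
    have e1 : u * N + 2 * (bigT F).card = 2 * t0 := by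
      have : k * N = F.card * N + u * N := by rw [hu]; ring
      omega
    rcases Nat.even_or_odd (Fintype.card V) with hev | hod
    · have := hT.1 hev
      have h3 : 1 * N ≤ u * N := Nat.mul_le_mul_right _ hu1
      omega
    · have h2 := hT.2 hod
      have hu2 : u = 1 := by
        by_contra hc
        have h3 : 2 * N ≤ u * N := Nat.mul_le_mul_right _ (by omega)
        omega
      rw [hu2, one_mul] at e1
      obtain ⟨c, hc⟩ := hod
      omega
  · -- exactly k edges
    have e1 : (bigT F).card = t0 := by
      rw [heq] at hb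
      omega
    -- vertex of max degree
    have hne : (univ : Finset V).Nonempty := by
      rw [← card_pos, card_univ]; omega
    obtain ⟨v, _, hv⟩ := exists_max_image univ (fun v => (inc F v).card) hne
    have hDk : (inc F v).card ≤ k := by
      rw [← heq]; exact card_le_card (filter_subset _ _)
    rcases Nat.lt_or_ge (inc F v).card (j + 1) with hs | hs
    · have h1 := bigT_le_maxdeg hF j (fun w => by have := hv w (mem_univ w); omega)
      rw [heq] at h1
      omega
    rcases Nat.lt_or_ge a (inc F v).card with hl | hl
    · have h1 := choose_le_bigT hF v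
      have h2 := Nat.choose_le_choose 2 hl
      rw [Nat.succ_eq_add_one, choose_two_succ] at h2
      omega
    · have h1 := bigT_le hF v
      rw [heq] at h1
      -- convexity
      obtain ⟨s, hs'⟩ : ∃ s, (inc F v).card = j + 1 + s := ⟨_, (Nat.add_sub_cancel' hs).symm⟩
      obtain ⟨r, hr⟩ : ∃ r, a = j + 1 + s + r := ⟨a - (inc F v).card, by omega⟩
      have h2 : k - (inc F v).card + 1 = j + 1 + r := by omega
      rw [h2, hs'] at h1
      have c1 := two_choose (j + 1 + s)
      have c2 := two_choose (j + 1 + r)
      have c3 := two_choose a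
      have c4 := two_choose (j + 1)
      rw [hr] at c3
      have h3 : (j + 1 + s).choose 2 + (j + 1 + r).choose 2 ≤ a.choose 2 + (j + 1).choose 2 := by
        rw [hr]
        nlinarith [Nat.zero_le (r * s)]
      omega
  · -- more than k edges
    obtain ⟨u, hu⟩ : ∃ u, F.card = k + u := ⟨F.card - k, by omega⟩
    have hu1 : 1 ≤ u := by omega
    -- number of edges at most 3k
    have hK : F.card ≤ 3 * k := by
      by_contra hc
      push Not at hc
      have h1 : Fintype.card V * (3 * k + 1) ≤ Fintype.card V * F.card := Nat.mul_le_mul_left _ hc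
      have h2 : 3 * m ≤ 3 * (k * Fintype.card V) := by
        have : k * N ≤ k * Fintype.card V := Nat.mul_le_mul_left _ (by omega)
        omega
      have h3 : Fintype.card V * (3 * k + 1) = 3 * (k * Fintype.card V) + Fintype.card V := by ring
      omega
    have hu2 : u ≤ 2 * k := by omega
    have e1 : 2 * (bigT F).card = u * N + 2 * t0 := by
      have : F.card * N = k * N + u * N := by rw [hu]; ring
      omega
    have e2 : u * N + 2 * t0 + (k + u) ≤ (k + u) * (k + u) := by
      rw [← hu, ← hcK]
      omega
    have c3 := two_choose a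
    have e3 : a * a ≤ 2 * t0 + a := by omega
    -- k*k = (a+j)^2 <= a*a + 2 k j
    have e4 : k * k ≤ a * a + 2 * k * j := by
      rw [hk]; nlinarith [Nat.zero_le (a * j), Nat.zero_le (j * j)]
    have e5 : u * N ≤ 4 * k * u + 2 * k * j + k := by
      have e6 : (k + u) * (k + u) = k * k + 2 * k * u + u * u := by ring
      have e7 : u * u ≤ 2 * k * u := Nat.mul_le_mul_right _ hu2
      have e8 : 4 * k * u = 2 * k * u + 2 * k * u := by ring
      omega
    have e9 : u * (4 * k + 2 * k * j + k) < u * N := Nat.mul_lt_mul_of_pos_left hbig2 (by omega)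
    have e10 : 4 * k * u + 2 * k * j + k ≤ u * (4 * k + 2 * k * j + k) := by
      have : 2 * k * j + k ≤ u * (2 * k * j + k) := Nat.le_mul_of_pos_left _ (by omega)
      calc 4 * k * u + 2 * k * j + k = 4 * k * u + (2 * k * j + k) := by ring
        _ ≤ 4 * k * u + u * (2 * k * j + k) := Nat.add_le_add_left this _
        _ = u * (4 * k + 2 * k * j + k) := by ring
    exact absurd (e5.trans e10) (not_le.mpr e9)

end Pool.Agent.R104.FTri
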