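import Pool.Agent.R104.FTri5

set_option autoImplicit false

namespace Pool.Agent.R104.FTri

open Finset

open scoped Classical in
/-- number of edges of `G` with both endpoints in `T` -/
noncomputable def edgesIn {n : ℕ} (G : SimpleGraph (Fin n)) (T : Finset (Fin n)) : ℕ :=
  ((T ×ˢ T).filter (fun p => p.1 < p.2 ∧ G.Adj p.1 p.2)).card

/-- number of frustrated triangles of `G` -/
noncomputable def frustrated {n : ℕ} (G : SimpleGraph (Fin n)) : ℕ :=
  (((univ : Finset (Fin n)).powersetCard 3).filter (fun T => Odd (edgesIn G T))).card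

/-- the set of possible numbers of frustrated triangles of graphs on `n` vertices -/
def F (n : ℕ) : Set ℕ := {m | ∃ G : SimpleGraph (Fin n), frustrated G = m}

/-- numbers below half of `n.choose 3` that are missing from `F n`
(for even `n` only even numbers are considered) -/
def Missing (n : ℕ) : Set ℕ := {m | 2 * m < n.choose 3 ∧ (Even n → Even m) ∧ m ∉ F n}

/-- the largest missing number -/
noncomputable def largest (n : ℕ) : ℕ := sSup (Missing n)

theorem edgesIn_eq {n : ℕ} (G : SimpleGraph (Fin n)) (E : Finset (Finset (Fin n))) (hE : IsE E)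
    (h : ∀ a b : Fin n, a ≠ b → (({a, b} : Finset (Fin n)) ∈ E ↔ G.Adj a b)) (T : Finset (Fin n)) :
    edgesIn G T = eT E T := by
  classical
  unfold edgesIn eT
  refine card_bij (fun p _ => ({p.1, p.2} : Finset (Fin n))) ?_ ?_ ?_
  · intro p hp
    rw [mem_filter, mem_product] at hp
    rw [mem_filter]
    refine ⟨(h _ _ (ne_of_lt hp.2.1)).mpr hp.2.2, ?_⟩
    intro x hx
    rw [mem_insert, mem_singleton] at hx
    rcases hx with rfl | rfl
    · exact hp.1.1
    · exact hp.1.2
  · intro p hp q hq hpq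
    rw [mem_filter, mem_product] at hp hq
    have h1 : p.1 ∈ ({q.1, q.2} : Finset (Fin n)) := by rw [← hpq]; simp
    have h2 : p.2 ∈ ({q.1, q.2} : Finset (Fin n)) := by rw [← hpq]; simp
    rw [mem_insert, mem_singleton] at h1 h2
    have h3 := hp.2.1
    have h4 := hq.2.1
    rcases h1 with h1 | h1 <;> rcases h2 with h2 | h2
    · rw [h1, h2] at h3; exact absurd h3 (lt_irrefl _)
    · exact Prod.ext h1 h2
    · rw [h1, h2] at h3; exact absurd (h3.trans h4) (lt_irrefl _)
    · rw [h1, h2] at h3; exact absurd h3 (lt_irrefl _)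
  · intro e he
    rw [mem_filter] at he
    obtain ⟨a, b, hab, rfl⟩ := card_eq_two.mp (hE e he.1)
    have ha : a ∈ T := he.2 (by simp)
    have hb : b ∈ T := he.2 (by simp)
    rcases lt_or_gt_of_ne hab with hlt | hgt
    · refine ⟨(a, b), ?_, rfl⟩
      rw [mem_filter, mem_product]
      exact ⟨⟨ha, hb⟩, hlt, (h a b hab).mp he.1⟩
    · refine ⟨(b, a), ?_, pair_comm _ _⟩
      rw [mem_filter, mem_product]
      exact ⟨⟨hb, ha⟩, hgt, ((h a b hab).mp he.1).symm⟩

theorem mem_F_iff {n m : ℕ} :
    m ∈ F n ↔ ∃ E : Finset (Finset (Fin n)), IsE E ∧ (oddT E).card = m := by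
  classical
  constructor
  · rintro ⟨G, hG⟩
    let E : Finset (Finset (Fin n)) :=
      ((univ : Finset (Fin n)).powersetCard 2).filter (fun e => ∃ a b, e = {a, b} ∧ G.Adj a b)
    have hE : IsE E := by
      intro e he
      simp only [E, mem_filter, mem_powersetCard] at he
      exact he.1.2
    have h : ∀ a b : Fin n, a ≠ b → (({a, b} : Finset (Fin n)) ∈ E ↔ G.Adj a b) := by
      intro a b hab
      simp only [E, mem_filter, mem_powersetCard, subset_univ, true_and, card_pair hab]
      constructor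
      · rintro ⟨c, d, hcd, hadj⟩
        have h1 : c ∈ ({a, b} : Finset (Fin n)) := by rw [hcd]; simp
        have h2 : d ∈ ({a, b} : Finset (Fin n)) := by rw [hcd]; simp
        rw [mem_insert, mem_singleton] at h1 h2
        rcases h1 with rfl | rfl <;> rcases h2 with rfl | rfl
        · exact absurd hadj (G.loopless.irrefl _)
        · exact hadj
        · exact hadj.symm
        · exact absurd hadj (G.loopless.irrefl _)
      · intro hadj
        exact ⟨a, b, rfl, hadj⟩
    refine ⟨E, hE, ?_⟩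
    rw [← hG]
    unfold oddT frustrated
    congr 1
    apply filter_congr
    intro T _
    rw [edgesIn_eq G E hE h T]
  · rintro ⟨E, hE, hc⟩
    let G : SimpleGraph (Fin n) :=
      { Adj := fun a b => a ≠ b ∧ ({a, b} : Finset (Fin n)) ∈ E
        symm := ⟨fun a b h => ⟨h.1.symm, by rw [pair_comm]; exact h.2⟩⟩
        loopless := ⟨fun a h => h.1 rfl⟩ }
    have h : ∀ a b : Fin n, a ≠ b → (({a, b} : Finset (Fin n)) ∈ E ↔ G.Adj a b) := by
      intro a b hab
      exact ⟨fun h => ⟨hab, h⟩, fun h => h.2⟩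
    refine ⟨G, ?_⟩
    rw [← hc]
    unfold oddT frustrated
    congr 1
    apply filter_congr
    intro T _
    rw [edgesIn_eq G E hE h T]

theorem F_even {n : ℕ} (hn : Even n) {m : ℕ} (hm : m ∈ F n) : Even m := by
  obtain ⟨E, hE, rfl⟩ := mem_F_iff.mp hm
  exact odd_even E hE (by rwa [Fintype.card_fin])

theorem six_choose (x : ℕ) : 6 * (x + 2).choose 3 = (x + 2) * (x + 1) * x := by
  induction x with
  | zero => rfl
  | succ x ih =>
    have h1 : (x + 1 + 2).choose 3 = (x + 2).choose 2 + (x + 2).choose 3 := by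
      rw [show x + 1 + 2 = (x + 2) + 1 by ring, Nat.choose_succ_succ' (x + 2) 2]
    have h2 := two_choose (x + 2)
    rw [h1]
    nlinarith

theorem choose_half {n q : ℕ} (hq : q + 2 ≤ n) (h5 : 5 * (q + 2) ≤ n) :
    n.choose 3 ≤ 2 * (n - q).choose 3 := by
  obtain ⟨x, hx⟩ : ∃ x, n - q = x + 2 := ⟨n - q - 2, by omega⟩
  obtain ⟨y, hy⟩ : ∃ y, n = y + 2 := ⟨n - 2, by omega⟩
  have h1 := six_choose x
  have h2 := six_choose y
  rw [← hx] at h1
  rw [← hy] at h2
  have h3 : 4 * n ≤ 5 * x := by omega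
  have h4 : (y + 2) * (y + 1) * y ≤ n * n * n := by
    rw [← hy]
    apply Nat.mul_le_mul
    · apply Nat.mul_le_mul_left; omega
    · omega
  have h5 : x * x * x ≤ (x + 2) * (x + 1) * x := by
    apply Nat.mul_le_mul_right
    apply Nat.mul_le_mul <;> omega
  have h6 : (4 * n) * (4 * n) * (4 * n) ≤ (5 * x) * (5 * x) * (5 * x) := by
    apply Nat.mul_le_mul _ h3
    exact Nat.mul_le_mul h3 h3
  have h7 : (4 * n) * (4 * n) * (4 * n) = 64 * (n * n * n) := by ring
  have h8 : (5 * x) * (5 * x) * (5 * x) = 125 * (x * x * x) := by ring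
  rw [h7, h8] at h6
  rw [← hy] at h4
  -- 64 n^3 <= 125 x^3, so n^3 <= 2 x^3
  rw [← hx] at h5
  generalize n * n * n = A at *
  generalize x * x * x = B at *
  omega

/-- the sandwich for the largest missing number -/
theorem sandwich {n N r : ℕ} (hr1 : r * r ≤ N) (hr2 : N < (r + 1) * (r + 1))
    (hN : (Even n ∧ N = n) ∨ (Odd n ∧ N = 2 * n)) (hr : 1000 ≤ r) :
    IsGreatest (Missing n) (largest n) ∧
      (r - 2 + (Nat.sqrt (2 * (r - 2)) - 2) - 2) * (n - 2) ≤ largest n ∧
      largest n < (r + 1 + (Nat.sqrt (2 * (r + 1)) + 1)) * (n - 2) := by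
  have hNn : N ≤ 2 * n := by rcases hN with ⟨_, h⟩ | ⟨_, h⟩ <;> omega
  have hnN : n ≤ N := by rcases hN with ⟨_, h⟩ | ⟨_, h⟩ <;> omega
  have hrr : r * r ≤ 2 * n := by omega
  have hr1000 : 1000 * r ≤ r * r := Nat.mul_le_mul_right _ hr
  have hn500 : 500 * r ≤ n := by omega
  -- upper bound
  set q1 := Nat.sqrt (2 * (r + 1)) with hq1
  have hq1a : q1 * q1 ≤ 2 * (r + 1) := Nat.sqrt_le _
  have hq1b : 2 * (r + 1) < (q1 + 1) * (q1 + 1) := Nat.lt_succ_sqrt _
  have hq1c : q1 ≤ r := by
    by_contra hc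
    push Not at hc
    have : (r + 1) * (r + 1) ≤ q1 * q1 := Nat.mul_le_mul hc hc
    nlinarith
  have hk1 : 2 * (r + 1 + (q1 + 1)) + 6 ≤ 4 * r + 10 := by omega
  have hchoose : n.choose 3 ≤ 2 * (n - (2 * (r + 1 + (q1 + 1)) + 6)).choose 3 :=
    choose_half (by omega) (by omega)
  have hcover : ∀ m, (r + 1 + (q1 + 1)) * (n - 2) ≤ m → 2 * m < n.choose 3 → (Even n → Even m) →
      m ∈ F n := by
    intro m hm1 hm2 hm3
    rw [mem_F_iff]
    have hj : r + 1 ≤ (q1 + 1 + 1).choose 2 := by
      have := two_choose (q1 + 1 + 1)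
      nlinarith
    have hcc := two_choose (r + 1 + 1)
    rcases hN with ⟨hev, hNe⟩ | ⟨hod, hNe⟩
    · have hT : (Fintype.card (Fin n) - 2) / 2 < (r + 1 + 1).choose 2 := by
        rw [Fintype.card_fin]
        have : n < 2 * (r + 1 + 1).choose 2 := by nlinarith
        omega
      exact full_even (V := Fin n) _ (r + 1) (q1 + 1) m (by rwa [Fintype.card_fin]) (hm3 hev) hT hj
        le_rfl (by rw [Fintype.card_fin]; exact hm1) (by rw [Fintype.card_fin]; omega)
        (by rw [Fintype.card_fin]; omega)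
    · have hT : Fintype.card (Fin n) - 2 < (r + 1 + 1).choose 2 := by
        rw [Fintype.card_fin]
        have : n < (r + 1 + 1).choose 2 := by nlinarith
        omega
      exact full_odd (V := Fin n) _ (r + 1) (q1 + 1) m (by rwa [Fintype.card_fin]) hT hj
        le_rfl (by rw [Fintype.card_fin]; exact hm1) (by rw [Fintype.card_fin]; omega)
        (by rw [Fintype.card_fin]; omega)
  have hub : ∀ m ∈ Missing n, m < (r + 1 + (q1 + 1)) * (n - 2) := by
    intro m hm
    by_contra hc
    push Not at hc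
    exact hm.2.2 (hcover m hc hm.1 hm.2.1)
  -- lower bound
  set a := r - 2 with ha
  set q := Nat.sqrt (2 * a) with hq
  have hqa : q * q ≤ 2 * a := Nat.sqrt_le _
  have hqb : 2 * a < (q + 1) * (q + 1) := Nat.lt_succ_sqrt _
  have hq4 : 4 ≤ q := by
    by_contra hc
    push Not at hc
    have : (q + 1) * (q + 1) ≤ 4 * 4 := Nat.mul_le_mul (by omega) (by omega)
    omega
  obtain ⟨j, hj⟩ : ∃ j, q = j + 2 := ⟨q - 2, by omega⟩
  have hjq : q - 2 = j := by omega
  rw [hjq]
  have hjj : j * j ≤ 2 * a := by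
    have : j * j ≤ q * q := Nat.mul_le_mul (by omega) (by omega)
    omega
  have hj20 : 20 * j ≤ r := by
    by_contra hc
    push Not at hc
    have h1 : r * r ≤ (20 * j) * (20 * j) := Nat.mul_le_mul hc.le hc.le
    have h2 : (20 * j) * (20 * j) = 400 * (j * j) := by ring
    omega
  have hcj : (j + 1).choose 2 + 1 < a := by
    have h1 := two_choose (j + 1)
    have h2 : (j + 2) * (j + 2) ≤ 2 * a := by rw [← hj]; exact hqa
    nlinarith
  have hca := two_choose a
  have haa : a * a + 3 * r + 3 * a ≤ r * r + 5 * a + 2 * r := by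
    -- (r-2)^2 = r^2 - 4r + 4
    obtain ⟨b, hb⟩ : ∃ b, r = b + 2 := ⟨r - 2, by omega⟩
    have : a = b := by omega
    rw [this, hb]
    nlinarith
  have haa' : a * a + a + 3 * r ≤ r * r + 2 := by
    obtain ⟨b, hb⟩ : ∃ b, r = b + 2 := ⟨r - 2, by omega⟩
    have : a = b := by omega
    rw [this, hb]
    nlinarith
  have hbig1 : (a + j) * (2 * j) < a.choose 2 := by
    have h1 : (a + j) * (2 * j) = 2 * (a * j) + 2 * (j * j) := by ring
    have h2 : 20 * (a * j) ≤ a * r := by
      have : a * (20 * j) ≤ a * r := Nat.mul_le_mul_left _ hj20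
      nlinarith
    have h3 : a * r = a * a + 2 * a := by
      have : r = a + 2 := by omega
      rw [this]; ring
    have h4 : 990 * a ≤ a * a := Nat.mul_le_mul_right _ (by omega)
    omega
  have hbig2 : 4 * (a + j) + 2 * (a + j) * j + (a + j) < n - 2 := by
    have h1 : 2 * (a + j) * j = 2 * (a * j) + 2 * (j * j) := by ring
    have h2 : 20 * (a * j) ≤ a * r := by
      have : a * (20 * j) ≤ a * r := Nat.mul_le_mul_left _ hj20
      nlinarith
    have h3 : a * r ≤ r * r := Nat.mul_le_mul_right _ (by omega)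
    omega
  set t0 := a.choose 2 + (j + 1).choose 2 + 1 with ht0
  have hTT : (Even (Fintype.card (Fin n)) → 2 * t0 < Fintype.card (Fin n) - 2) ∧
      (Odd (Fintype.card (Fin n)) → t0 < Fintype.card (Fin n) - 2) := by
    rw [Fintype.card_fin]
    constructor
    · intro hev
      rcases hN with ⟨_, hNe⟩ | ⟨hod, _⟩
      · omega
      · exact absurd hev (Nat.not_even_iff_odd.mpr hod)
    · intro hod
      omega
  have ht0n : t0 < n - 2 := by
    rcases Nat.even_or_odd n with h | h
    · have := hTT.1 (by rwa [Fintype.card_fin])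
      rw [Fintype.card_fin] at this
      omega
    · have := hTT.2 (by rwa [Fintype.card_fin])
      rw [Fintype.card_fin] at this
      exact this
  obtain ⟨c, hc⟩ : ∃ c, a + j = c + 2 := ⟨a + j - 2, by omega⟩
  have hexp : (a + j) * (n - 2) = c * (n - 2) + 2 * (n - 2) := by rw [hc]; ring
  obtain ⟨m, hm⟩ : ∃ m, m + 2 * t0 = (a + j) * (n - 2) :=
    ⟨(a + j) * (n - 2) - 2 * t0, by omega⟩
  have hmF : m ∉ F n := by
    rw [mem_F_iff]
    rintro ⟨E, hE, hEm⟩
    exact missing (V := Fin n) a j m hcj (by rw [Fintype.card_fin]; omega) hTT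
      (by rw [Fintype.card_fin]; exact hm) hbig1 (by rw [Fintype.card_fin]; exact hbig2) E hE hEm
  have hmem : m ∈ Missing n := by
    refine ⟨?_, ?_, hmF⟩
    · -- 2 m < n choose 3
      obtain ⟨y, hy⟩ : ∃ y, n = y + 2 := ⟨n - 2, by omega⟩
      have h1 := six_choose y
      rw [← hy] at h1
      have h2 : n - 2 = y := by omega
      rw [h2] at hm hexp
      have h3 : a + j ≤ 2 * r := by omega
      have h4 : (a + j) * y ≤ 2 * r * y := Nat.mul_le_mul_right _ h3
      have h5 : 12 * (2 * r * y) + y < n * (y + 1) * y := by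
        have h6 : 24 * r + 1 < n * (y + 1) := by
          have : n * 1 ≤ n * (y + 1) := Nat.mul_le_mul_left _ (by omega)
          omega
        have h7 : (24 * r + 1) * y < n * (y + 1) * y := Nat.mul_lt_mul_of_pos_right h6 (by omega)
        calc 12 * (2 * r * y) + y = (24 * r + 1) * y := by ring
          _ < _ := h7
      omega
    · intro hev
      have h1 : Even ((a + j) * (n - 2)) := by
        apply Even.mul_left
        rw [Nat.even_sub (by omega)]
        simp [hev]
      rw [← hm, Nat.even_add] at h1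
      exact h1.mpr (even_two_mul _)
  have hbdd : BddAbove (Missing n) := ⟨_, fun m hm => (hub m hm).le⟩
  have hgr : IsGreatest (Missing n) (largest n) :=
    ⟨Nat.sSup_mem ⟨m, hmem⟩ hbdd, fun x hx => le_csSup hbdd hx⟩
  refine ⟨hgr, ?_, hub _ hgr.1⟩
  have h1 : m ≤ largest n := hgr.2 hmem
  have h2 : (a + j - 2) * (n - 2) = c * (n - 2) := by
    congr 1; omega
  rw [h2]
  omega

end Pool.Agent.R104.FTri
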