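import Pool.Agent.R104.FTri6

set_option autoImplicit false

namespace Pool.Agent.R104.FTri

open Finset Filter Topology

/-- real form of the sandwich -/
theorem real_bound {n N : ℕ} (hN : (Even n ∧ N = n) ∨ (Odd n ∧ N = 2 * n)) (hn : 2000000 ≤ n) :
    IsGreatest (Missing n) (largest n) ∧
      |(largest n : ℝ) - (√(N : ℝ) + √(2 * √(N : ℝ))) * n| ≤ 20 * n := by
  have hNn : N ≤ 2 * n := by rcases hN with ⟨_, h⟩ | ⟨_, h⟩ <;> omega
  have hnN : n ≤ N := by rcases hN with ⟨_, h⟩ | ⟨_, h⟩ <;> omega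
  set r := Nat.sqrt N with hr
  have hr1 : r * r ≤ N := Nat.sqrt_le _
  have hr2 : N < (r + 1) * (r + 1) := Nat.lt_succ_sqrt _
  have hr1000 : 1000 ≤ r := by
    by_contra hc
    push Not at hc
    have : (r + 1) * (r + 1) ≤ 1000 * 1000 := Nat.mul_le_mul hc hc
    omega
  obtain ⟨hg, hlo, hup⟩ := sandwich hr1 hr2 hN hr1000
  refine ⟨hg, ?_⟩
  set x := √(N : ℝ) with hx
  set y := √(2 * x) with hy
  have hx0 : 0 ≤ x := Real.sqrt_nonneg _
  have hy0 : 0 ≤ y := Real.sqrt_nonneg _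
  have hxx : x * x = N := Real.mul_self_sqrt (Nat.cast_nonneg _)
  have hyy : y * y = 2 * x := Real.mul_self_sqrt (by positivity)
  have hrR : (1000 : ℝ) ≤ (r : ℝ) := by exact_mod_cast hr1000
  have hrx : (r : ℝ) ≤ x := by
    have h1 : (r : ℝ) * r ≤ N := by exact_mod_cast hr1
    by_contra hc
    push Not at hc
    nlinarith
  have hxr : x < r + 1 := by
    have h1 : (N : ℝ) < (r + 1) * (r + 1) := by exact_mod_cast hr2
    by_contra hc
    push Not at hc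
    nlinarith
  have hy40 : 40 ≤ y := by
    by_contra hc
    push Not at hc
    nlinarith
  have hyx : y ≤ x := by
    by_contra hc
    push Not at hc
    nlinarith
  have hnR : (2000000 : ℝ) ≤ n := by exact_mod_cast hn
  have hxn : x ≤ n := by
    by_contra hc
    push Not at hc
    have : (N : ℝ) ≤ 2 * n := by exact_mod_cast hNn
    nlinarith
  -- the two integer square roots
  set q1 := Nat.sqrt (2 * (r + 1)) with hq1
  have hq1a : (q1 : ℝ) * q1 ≤ 2 * (r + 1) := by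
    have : q1 * q1 ≤ 2 * (r + 1) := Nat.sqrt_le _
    exact_mod_cast this
  have hq1y : (q1 : ℝ) ≤ y + 1 := by
    by_contra hc
    push Not at hc
    nlinarith
  set s := Nat.sqrt (2 * (r - 2)) with hs
  have hsa : 2 * (r - 2) < (s + 1) * (s + 1) := Nat.lt_succ_sqrt _
  have hsaR : 2 * ((r : ℝ) - 2) < (s + 1) * (s + 1) := by
    have h1 : 2 * r < (s + 1) * (s + 1) + 4 := by omega
    have h2 : 2 * (r : ℝ) < (s + 1) * (s + 1) + 4 := by exact_mod_cast h1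
    linarith
  have hsy : y - 4 ≤ (s : ℝ) := by
    by_contra hc
    push Not at hc
    have h1 : (s : ℝ) + 1 < y - 3 := by linarith
    have h2 : 0 ≤ (s : ℝ) + 1 := by positivity
    nlinarith
  have hs4 : 4 ≤ s := by
    have : (36 : ℝ) ≤ s := by linarith
    have : 36 ≤ s := by exact_mod_cast this
    omega
  have hn2 : ((n - 2 : ℕ) : ℝ) = n - 2 := by
    rw [Nat.cast_sub (by omega)]; norm_num
  have hupR : (largest n : ℝ) < ((r : ℝ) + 1 + (q1 + 1)) * (n - 2) := by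
    rw [← hn2]; exact_mod_cast hup
  obtain ⟨c, hc⟩ : ∃ c, r - 2 + (s - 2) - 2 = c := ⟨_, rfl⟩
  have hcR : (c : ℝ) = r + s - 6 := by
    have : c + 6 = r + s := by omega
    have h2 : (c : ℝ) + 6 = r + s := by exact_mod_cast this
    linarith
  rw [hc] at hlo
  have hloR : (c : ℝ) * (n - 2) ≤ largest n := by
    rw [← hn2]; exact_mod_cast hlo
  rw [abs_le]
  constructor
  · have h1 : x + y - 11 ≤ (c : ℝ) := by rw [hcR]; linarith
    have h2 : (x + y - 11) * (n - 2) ≤ c * (n - 2) :=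
      mul_le_mul_of_nonneg_right h1 (by linarith)
    nlinarith
  · have h1 : ((r : ℝ) + 1 + (q1 + 1)) ≤ x + y + 3 := by linarith
    have h2 : ((r : ℝ) + 1 + (q1 + 1)) * (n - 2) ≤ (x + y + 3) * (n - 2) :=
      mul_le_mul_of_nonneg_right h1 (by linarith)
    nlinarith

theorem sqrt_form_even (n : ℕ) :
    (√(n : ℝ) + √(2 * √(n : ℝ))) * n = (n : ℝ) ^ (3 / 2 : ℝ) + √2 * (n : ℝ) ^ (5 / 4 : ℝ) := by
  rcases Nat.eq_zero_or_pos n with rfl | hn
  · norm_num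
  have hn0 : (0 : ℝ) < n := by exact_mod_cast hn
  have h1 : (n : ℝ) ^ (3 / 2 : ℝ) = √(n : ℝ) * n := by
    rw [Real.sqrt_eq_rpow, show (3 / 2 : ℝ) = 1 / 2 + 1 by norm_num, Real.rpow_add hn0, Real.rpow_one]
  have h2 : √(2 * √(n : ℝ)) = √2 * (n : ℝ) ^ (1 / 4 : ℝ) := by
    rw [Real.sqrt_mul (by norm_num)]
    congr 1
    rw [Real.sqrt_eq_rpow, Real.sqrt_eq_rpow, ← Real.rpow_mul hn0.le]
    norm_num
  have h3 : (n : ℝ) ^ (5 / 4 : ℝ) = (n : ℝ) ^ (1 / 4 : ℝ) * n := by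
    rw [show (5 / 4 : ℝ) = 1 / 4 + 1 by norm_num, Real.rpow_add hn0, Real.rpow_one]
  rw [h1, h2, h3]
  ring

theorem sqrt_form_odd (n : ℕ) :
    (√((2 * n : ℕ) : ℝ) + √(2 * √((2 * n : ℕ) : ℝ))) * n =
      √2 * (n : ℝ) ^ (3 / 2 : ℝ) + 2 ^ (3 / 4 : ℝ) * (n : ℝ) ^ (5 / 4 : ℝ) := by
  rcases Nat.eq_zero_or_pos n with rfl | hn
  · norm_num
  have hn0 : (0 : ℝ) < n := by exact_mod_cast hn
  have hcast : ((2 * n : ℕ) : ℝ) = 2 * n := by push_cast; ring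
  rw [hcast]
  have h0 : √(2 * (n : ℝ)) = √2 * √(n : ℝ) := Real.sqrt_mul (by norm_num) _
  have h1 : (n : ℝ) ^ (3 / 2 : ℝ) = √(n : ℝ) * n := by
    rw [Real.sqrt_eq_rpow, show (3 / 2 : ℝ) = 1 / 2 + 1 by norm_num, Real.rpow_add hn0, Real.rpow_one]
  have h2 : √(2 * √(2 * (n : ℝ))) = 2 ^ (3 / 4 : ℝ) * (n : ℝ) ^ (1 / 4 : ℝ) := by
    rw [Real.sqrt_mul (by norm_num)]
    rw [Real.sqrt_eq_rpow, Real.sqrt_eq_rpow, Real.sqrt_eq_rpow, ← Real.rpow_mul (by positivity),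
      Real.mul_rpow (by norm_num) hn0.le, ← mul_assoc, ← Real.rpow_add (by norm_num)]
    norm_num
  have h3 : (n : ℝ) ^ (5 / 4 : ℝ) = (n : ℝ) ^ (1 / 4 : ℝ) * n := by
    rw [show (5 / 4 : ℝ) = 1 / 4 + 1 by norm_num, Real.rpow_add hn0, Real.rpow_one]
  rw [h2, h0, h1, h3]
  ring

/-- from an `O(n)` error to the limit -/
theorem limit_of_bound (u : ℕ → ℝ) (c C : ℝ) (S : Set ℕ) (n0 : ℕ)
    (h : ∀ n ≥ n0, n ∈ S → |u n - c * (n : ℝ) ^ (5 / 4 : ℝ)| ≤ C * n) :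
    Tendsto (fun n : ℕ => u n / (n : ℝ) ^ (5 / 4 : ℝ)) (atTop ⊓ 𝓟 S) (𝓝 c) := by
  rw [tendsto_iff_norm_sub_tendsto_zero]
  have hz : Tendsto (fun n : ℕ => C * (n : ℝ) ^ (-(1 / 4) : ℝ)) (atTop ⊓ 𝓟 S) (𝓝 0) := by
    have h1 : Tendsto (fun n : ℕ => (n : ℝ) ^ (-(1 / 4) : ℝ)) atTop (𝓝 0) :=
      (tendsto_rpow_neg_atTop (by norm_num : (0 : ℝ) < 1 / 4)).comp tendsto_natCast_atTop_atTop
    have h2 := h1.const_mul C
    rw [mul_zero] at h2
    exact h2.mono_left inf_le_left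
  refine squeeze_zero' (Eventually.of_forall fun n => norm_nonneg _) ?_ hz
  have hev : ∀ᶠ n : ℕ in atTop ⊓ 𝓟 S, (n0 ≤ n ∧ 1 ≤ n) ∧ n ∈ S := by
    apply Filter.Eventually.and
    · exact ((eventually_ge_atTop n0).and (eventually_ge_atTop 1)).filter_mono inf_le_left
    · exact mem_inf_of_right (mem_principal_self S)
  filter_upwards [hev] with n hn
  obtain ⟨⟨hn1, hn2⟩, hnS⟩ := hn
  have hn0 : (0 : ℝ) < n := by exact_mod_cast hn2
  have hp : (0 : ℝ) < (n : ℝ) ^ (5 / 4 : ℝ) := Real.rpow_pos_of_pos hn0 _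
  have h1 : u n / (n : ℝ) ^ (5 / 4 : ℝ) - c = (u n - c * (n : ℝ) ^ (5 / 4 : ℝ)) / (n : ℝ) ^ (5 / 4 : ℝ) := by
    field_simp
  rw [h1, Real.norm_eq_abs, abs_div, abs_of_pos hp, div_le_iff₀ hp]
  have h2 : C * (n : ℝ) ^ (-(1 / 4) : ℝ) * (n : ℝ) ^ (5 / 4 : ℝ) = C * n := by
    rw [mul_assoc, ← Real.rpow_add hn0]
    norm_num
  rw [h2]
  exact h n hn1 hnS

end Pool.Agent.R104.FTri
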