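import Mathlib

set_option autoImplicit false

/-!
Sequences of bounded growth that avoid a difference `k`: definitions and the shift lemma.
-/

namespace Pool.Agent.R104.Shift

open Finset

/-- The integer sequence `a_0, ..., a_n` is admissible (acceptable) for `b, c`:
`0 = a_0 < a_1 < ... < a_n`, and `a_{i+b} ≤ a_i + c` for all `i` with `0 ≤ i ≤ n - b`. Only the values
`a 0, ..., a n` of the function `a` matter. -/
def Admissible (b c n : ℕ) (a : ℕ → ℤ) : Prop :=
  a 0 = 0 ∧ (∀ i, i < n → a i < a (i + 1)) ∧ ∀ i, i + b ≤ n → a (i + b) ≤ a i + c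

/-- `a_0, ..., a_n` hits `k`: `a_j - a_i = k` for some `0 ≤ i < j ≤ n`. -/
def Hits (k n : ℕ) (a : ℕ → ℤ) : Prop := ∃ i j, i < j ∧ j ≤ n ∧ a j - a i = k

/-- `N b c k` is the least positive integer `n` such that every admissible sequence `a_0, ..., a_n`
hits `k`, and `⊤` (infinity) if there is no such `n`. -/
noncomputable def N (b c k : ℕ) : ℕ∞ :=
  sInf ((fun n : ℕ => (n : ℕ∞)) '' {n : ℕ | 0 < n ∧ ∀ a : ℕ → ℤ, Admissible b c n a → Hits k n a})

/-- there is an admissible sequence `a_0, ..., a_n` that does not hit `k` -/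
def Ex (b c k n : ℕ) : Prop := ∃ a : ℕ → ℤ, Admissible b c n a ∧ ¬ Hits k n a

section seq

variable {b c k n : ℕ} {a : ℕ → ℤ}

theorem Admissible.lt (h : Admissible b c n a) {i j : ℕ} (hij : i < j) (hj : j ≤ n) : a i < a j := by
  induction j with
  | zero => omega
  | succ j ih =>
    rcases Nat.lt_succ_iff_lt_or_eq.1 hij with h1 | h1
    · exact (ih h1 (by omega)).trans (h.2.1 j (by omega))
    · subst h1
      exact h.2.1 _ (by omega)

theorem Admissible.le (h : Admissible b c n a) {i j : ℕ} (hij : i ≤ j) (hj : j ≤ n) : a i ≤ a j := by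
  rcases Nat.lt_or_eq_of_le hij with h1 | h1
  · exact (h.lt h1 hj).le
  · rw [h1]

theorem Admissible.lt_iff (h : Admissible b c n a) {i j : ℕ} (hi : i ≤ n) (hj : j ≤ n) :
    a i < a j ↔ i < j := by
  constructor
  · intro h1
    by_contra h2
    exact absurd (h.le (not_lt.1 h2) hi) (not_le.2 h1)
  · intro h1
    exact h.lt h1 hj

theorem Admissible.le_iff (h : Admissible b c n a) {i j : ℕ} (hi : i ≤ n) (hj : j ≤ n) :
    a i ≤ a j ↔ i ≤ j := by
  rw [← not_lt, h.lt_iff hj hi, not_lt]

theorem Admissible.inj (h : Admissible b c n a) {i j : ℕ} (hi : i ≤ n) (hj : j ≤ n)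
    (hij : a i = a j) : i = j := by
  have h1 := (h.le_iff hi hj).1 hij.le
  have h2 := (h.le_iff hj hi).1 hij.ge
  omega

theorem Admissible.sub_le (h : Admissible b c n a) {i j : ℕ} (hij : i ≤ j) (hj : j ≤ n) :
    ((j - i : ℕ) : ℤ) ≤ a j - a i := by
  induction j with
  | zero =>
    have : i = 0 := by omega
    subst this
    simp
  | succ j ih =>
    rcases Nat.lt_or_eq_of_le hij with h1 | h1
    · have h2 := ih (by omega) (by omega)
      have h3 := h.2.1 j (by omega)
      push_cast [show j + 1 - i = (j - i) + 1 by omega]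
      omega
    · subst h1
      simp

/-- `k + 1` consecutive terms of an avoiding sequence span at least `2 k` -/
theorem two_k (h : Admissible b c n a) (hk : 0 < k) (hh : ¬ Hits k n a) {j : ℕ} (hj : j + k ≤ n) :
    a j + 2 * k ≤ a (j + k) := by
  by_contra hcon
  push Not at hcon
  apply hh
  have hkz : (0 : ℤ) < k := by exact_mod_cast hk
  -- residues modulo `k` of `a (j + i) - a j`, `i ≤ k`
  obtain ⟨x, hx, y, hy, hxy, hres⟩ := Finset.exists_ne_map_eq_of_card_lt_of_maps_to
    (s := range (k + 1)) (t := Finset.Ico (0 : ℤ) k) (f := fun i => (a (j + i) - a j) % k)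
    (by simp) (by
      intro i hi
      simp only [Finset.coe_Ico, Set.mem_Ico]
      exact ⟨Int.emod_nonneg _ hkz.ne', Int.emod_lt_of_pos _ hkz⟩)
  wlog hlt : x < y generalizing x y
  · exact this y hy x hx hxy.symm hres.symm (by omega)
  rw [mem_range] at hx hy
  have h1 : (k : ℤ) ∣ a (j + y) - a (j + x) := by
    have h2 : (a (j + y) - a j) % k = (a (j + x) - a j) % k := hres.symm
    have h3 := Int.emod_emod_of_dvd
    have h4 := Int.ModEq.dvd (show (a (j + x) - a j) ≡ (a (j + y) - a j) [ZMOD k] from h2.symm)
    have h5 : a (j + y) - a (j + x) = (a (j + y) - a j) - (a (j + x) - a j) := by ring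
    rw [h5]
    exact h4
  obtain ⟨t, ht⟩ := h1
  have h6 := h.lt (i := j + x) (j := j + y) (by omega) (by omega)
  have h7 := h.le (i := j) (j := j + x) (by omega) (by omega)
  have h8 := h.le (i := j + y) (j := j + k) (by omega) (by omega)
  have h9 : t = 1 := by
    have a1 : 0 < (k : ℤ) * t := by omega
    have a2 : (k : ℤ) * t < k * 2 := by omega
    have a3 : 0 < t := by
      by_contra h0
      have : (k : ℤ) * t ≤ 0 := mul_nonpos_of_nonneg_of_nonpos hkz.le (not_lt.1 h0)
      omega
    have a4 : t < 2 := lt_of_mul_lt_mul_left a2 hkz.le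
    omega
  refine ⟨j + x, j + y, by omega, by omega, ?_⟩
  rw [ht, h9, mul_one]

end seq

/-- shortening -/
theorem Ex_of_shift {b c k n : ℕ} (hk : 0 < k) (h : Ex (b + k) (c + 2 * k) k (n + k)) :
    Ex b c k n := by
  obtain ⟨a, ha, hh⟩ := h
  refine ⟨a, ⟨ha.1, fun i hi => ha.2.1 i (by omega), fun i hi => ?_⟩, ?_⟩
  · have h1 := ha.2.2 i (by omega)
    have h2 := two_k ha hk hh (j := i + b) (by omega)
    rw [← add_assoc] at h1
    push_cast at h1
    linarith
  · rintro ⟨i, j, hij, hj, h⟩
    exact hh ⟨i, j, hij, by omega, h⟩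

/-- `S` avoids the difference `k` -/
def Avoid (k : ℕ) (S : Finset ℤ) : Prop := ∀ x ∈ S, x + k ∉ S

/-- **The main lemma.** In a set avoiding `k`, two elements with at least `b` predecessors are at
distance less than `k`. -/
theorem late {b c k : ℕ} (hc : c < 2 * b) {S : Finset ℤ} (hS : Avoid k S)
    (hg : ∀ x ∈ S, b ≤ (S.filter (fun z => z < x)).card →
      b ≤ (S.filter (fun z => x - c ≤ z ∧ z < x)).card)
    {x y : ℤ} (hx : x ∈ S) (hy : y ∈ S) (hlx : b ≤ (S.filter (fun z => z < x)).card) :
    y - x < k := by
  by_contra hcon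
  have hne : y - x ≠ k := by
    intro h
    apply hS x hx
    rwa [show x + k = y by omega]
  -- choose a pair at minimal distance
  have hex : ∃ d : ℕ, ∃ x y : ℤ, x ∈ S ∧ y ∈ S ∧ b ≤ (S.filter (fun z => z < x)).card ∧
      (k : ℤ) < y - x ∧ (y - x).toNat = d := ⟨_, x, y, hx, hy, hlx, by omega, rfl⟩
  classical
  obtain ⟨x, y, hx, hy, hlx, hxy, hd⟩ := Nat.find_spec hex
  have hmin : ∀ x' y' : ℤ, x' ∈ S → y' ∈ S → b ≤ (S.filter (fun z => z < x')).card →
      (k : ℤ) < y' - x' → y - x ≤ y' - x' := by
    intro x' y' hx' hy' hl' hk'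
    have := Nat.find_min' hex ⟨x', y', hx', hy', hl', hk', rfl⟩
    rw [← hd] at this
    omega
  clear hd
  have late_mono : ∀ {u v : ℤ}, u ≤ v → b ≤ (S.filter (fun z => z < u)).card →
      b ≤ (S.filter (fun z => z < v)).card := by
    intro u v huv h
    refine h.trans (card_le_card ?_)
    intro z hz
    rw [mem_filter] at hz ⊢
    exact ⟨hz.1, by omega⟩
  obtain ⟨e, he⟩ : ∃ e : ℤ, e = y - x - k := ⟨_, rfl⟩
  have he1 : 1 ≤ e := by omega
  have hly : b ≤ (S.filter (fun z => z < y)).card := late_mono (by omega) hlx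
  have hPy := hg y hy hly
  have hPx := hg x hx hlx
  set P := S.filter (fun z => y - c ≤ z ∧ z < y) with hP
  set X := S.filter (fun z => x - c ≤ z ∧ z < x) with hX
  set Q := S.filter (fun z => y - k - c ≤ z ∧ z ≤ x) with hQ
  -- `insert x X ⊆ Q ∪ (an interval of length e)`
  have h1 : (insert x X).card ≤ Q.card + (Finset.Ico (x - c) (y - k - c)).card := by
    refine (card_le_card ?_).trans (card_union_le _ _)
    intro z hz
    rw [mem_insert] at hz
    rw [mem_union, hQ, mem_filter, Finset.mem_Ico]
    rcases hz with rfl | hz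
    · by_cases h : y - k - c ≤ z
      · left; exact ⟨hx, h, le_rfl⟩
      · right; omega
    · rw [hX, mem_filter] at hz
      by_cases h : y - k - c ≤ z
      · left; exact ⟨hz.1, h, by omega⟩
      · right; omega
  rw [card_insert_of_notMem (by rw [hX, mem_filter]; omega), Int.card_Ico] at h1
  -- `P` and `Q + k` are disjoint subsets of an interval
  have h2 : (P ∪ Q.image (fun z => z + k)) ⊆ Finset.Icc (y - c) (y - e) := by
    intro z hz
    rw [mem_union] at hz
    rw [Finset.mem_Icc]
    rcases hz with hz | hz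
    · rw [hP, mem_filter] at hz
      refine ⟨hz.2.1, ?_⟩
      by_contra hzc
      have := hmin x z hx hz.1 hlx (by omega)
      omega
    · rw [mem_image] at hz
      obtain ⟨w, hw, rfl⟩ := hz
      rw [hQ, mem_filter] at hw
      refine ⟨by omega, ?_⟩
      omega
  have h3 : Disjoint P (Q.image (fun z => z + k)) := by
    rw [disjoint_left]
    intro z hz hz'
    rw [mem_image] at hz'
    obtain ⟨w, hw, rfl⟩ := hz'
    exact hS w (mem_filter.1 hw).1 (mem_filter.1 hz).1
  have h4 := card_le_card h2
  rw [card_union_of_disjoint h3, card_image_of_injective _ (add_left_injective _), Int.card_Icc]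
    at h4
  omega

section ext

variable {b c k n : ℕ} {a : ℕ → ℤ}

/-- the set of terms -/
def terms (n : ℕ) (a : ℕ → ℤ) : Finset ℤ := (range (n + 1)).image a

theorem mem_terms {x : ℤ} : x ∈ terms n a ↔ ∃ i, i ≤ n ∧ a i = x := by
  simp only [terms, mem_image, mem_range]
  constructor
  · rintro ⟨i, hi, h⟩
    exact ⟨i, by omega, h⟩
  · rintro ⟨i, hi, h⟩
    exact ⟨i, by omega, h⟩

theorem avoid_terms (h : Admissible b c n a) (hk : 0 < k) (hh : ¬ Hits k n a) :
    Avoid k (terms n a) := by
  intro x hx hx'
  rw [mem_terms] at hx hx'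
  obtain ⟨i, hi, rfl⟩ := hx
  obtain ⟨j, hj, hij⟩ := hx'
  apply hh
  refine ⟨i, j, ?_, hj, by omega⟩
  rw [← h.lt_iff hi hj]
  omega

theorem card_terms (h : Admissible b c n a) : (terms n a).card = n + 1 := by
  rw [terms, card_image_of_injOn, card_range]
  intro i hi j hj hij
  simp only [coe_range, Set.mem_Iio] at hi hj
  exact h.inj (by omega) (by omega) hij

theorem card_pred (h : Admissible b c n a) {j : ℕ} (hj : j ≤ n) :
    ((terms n a).filter (fun z => z < a j)).card = j := by
  have : (terms n a).filter (fun z => z < a j) = (range j).image a := by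
    ext z
    rw [mem_filter, mem_terms, mem_image]
    constructor
    · rintro ⟨⟨i, hi, rfl⟩, h1⟩
      rw [h.lt_iff hi hj] at h1
      exact ⟨i, mem_range.2 h1, rfl⟩
    · rintro ⟨i, hi, rfl⟩
      rw [mem_range] at hi
      exact ⟨⟨i, by omega, rfl⟩, h.lt hi hj⟩
  rw [this, card_image_of_injOn, card_range]
  intro i hi j' hj' hij
  simp only [coe_range, Set.mem_Iio] at hi hj'
  exact h.inj (by omega) (by omega) hij

theorem good_terms (h : Admissible b c n a) : ∀ x ∈ terms n a,
    b ≤ ((terms n a).filter (fun z => z < x)).card →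
      b ≤ ((terms n a).filter (fun z => x - c ≤ z ∧ z < x)).card := by
  intro x hx hb
  rw [mem_terms] at hx
  obtain ⟨j, hj, rfl⟩ := hx
  rw [card_pred h hj] at hb
  have h1 : (Finset.Ico (j - b) j).image a ⊆
      (terms n a).filter (fun z => a j - c ≤ z ∧ z < a j) := by
    intro z hz
    rw [mem_image] at hz
    obtain ⟨i, hi, rfl⟩ := hz
    rw [Finset.mem_Ico] at hi
    rw [mem_filter, mem_terms]
    refine ⟨⟨i, by omega, rfl⟩, ?_, h.lt hi.2 hj⟩
    have h2 := h.2.2 (j - b) (by omega)
    rw [Nat.sub_add_cancel hb] at h2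
    have h3 := h.le (i := j - b) (j := i) hi.1 (by omega)
    omega
  have h4 := card_le_card h1
  rw [card_image_of_injOn, Nat.card_Ico] at h4
  · omega
  · intro i hi j' hj' hij
    simp only [coe_Ico, Set.mem_Ico] at hi hj'
    exact h.inj (by omega) (by omega) hij

/-- `a_n - a_b < k` -/
theorem last_sub (hc : c < 2 * b) (hk : 0 < k) (h : Admissible b c n a)
    (hh : ¬ Hits k n a) {j : ℕ} (hbj : b ≤ j) (hj : j < n) : a n - a j < k := by
  refine late hc (avoid_terms h hk hh) (good_terms h) (mem_terms.2 ⟨j, hj.le, rfl⟩)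
    (mem_terms.2 ⟨n, le_rfl, rfl⟩) ?_
  rw [card_pred h hj.le]
  exact hbj

/-- the sequence of a finite set -/
theorem Ex_of_set {S : Finset ℤ} (hcard : S.card = n + 1) (hS : Avoid k S)
    (hg : ∀ x ∈ S, b ≤ (S.filter (fun z => x < z)).card →
      b ≤ (S.filter (fun z => x < z ∧ z ≤ x + c)).card) (hb : 0 < b) : Ex b c k n := by
  set f := S.orderEmbOfFin hcard with hf
  have hmem : ∀ i, f i ∈ S := fun i => Finset.orderEmbOfFin_mem S hcard i
  have hsurj : ∀ z ∈ S, ∃ i, f i = z := by
    intro z hz
    have := Finset.range_orderEmbOfFin S hcard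
    have hz' : z ∈ Set.range f := by rw [hf, this]; exact hz
    exact hz'
  let g : ℕ → Fin (n + 1) := fun i => ⟨min i n, by omega⟩
  refine ⟨fun i => f (g i) - f (g 0), ⟨by simp, ?_, ?_⟩, ?_⟩
  · intro i hi
    have : g i < g (i + 1) := by
      show min i n < min (i + 1) n
      omega
    have := f.lt_iff_lt.2 this
    simp only
    omega
  · intro i hi
    simp only
    have hkey : f (g (i + b)) ≤ f (g i) + c := by
      by_contra hcon
      have h1 : b ≤ (S.filter (fun z => f (g i) < z)).card := by
        have : (Finset.Ioc i (i + b)).image (fun j => f (g j)) ⊆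
            S.filter (fun z => f (g i) < z) := by
          intro z hz
          rw [mem_image] at hz
          obtain ⟨j, hj, rfl⟩ := hz
          rw [Finset.mem_Ioc] at hj
          rw [mem_filter]
          refine ⟨hmem _, f.lt_iff_lt.2 ?_⟩
          show min i n < min j n
          omega
        have h2 := card_le_card this
        rw [card_image_of_injOn, Nat.card_Ioc] at h2
        · omega
        · intro j hj j' hj' hjj
          simp only [coe_Ioc, Set.mem_Ioc] at hj hj'
          have h3 : g j = g j' := f.injective hjj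
          have h4 : min j n = min j' n := congrArg Fin.val h3
          omega
      have h2 := hg _ (hmem (g i)) h1
      have h3 : S.filter (fun z => f (g i) < z ∧ z ≤ f (g i) + c) ⊆
          (Finset.Ioo i (i + b)).image (fun j => f (g j)) := by
        intro z hz
        rw [mem_filter] at hz
        obtain ⟨j, rfl⟩ := hsurj z hz.1
        rw [mem_image]
        refine ⟨j.val, ?_, ?_⟩
        · rw [Finset.mem_Ioo]
          have h4 := f.lt_iff_lt.1 hz.2.1
          have h5 : f j < f (g (i + b)) := by omega
          have h6 := f.lt_iff_lt.1 h5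
          have h7 : min i n < j.val := h4
          have h8 : j.val < min (i + b) n := h6
          omega
        · congr 1
          apply Fin.ext
          show min j.val n = j.val
          have := j.isLt
          omega
      have h4 := (card_le_card h3).trans card_image_le
      rw [Nat.card_Ioo] at h4
      omega
    omega
  · rintro ⟨i, j, hij, hj, h⟩
    simp only at h
    apply hS _ (hmem (g i))
    have : f (g i) + k = f (g j) := by omega
    rw [this]
    exact hmem _

/-- **Extension by `k` terms.** -/
theorem Ex_shift (hc : c < 2 * b) (hk : 0 < k) (h : Ex b c k n) :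
    Ex (b + k) (c + 2 * k) k (n + k) := by
  classical
  rcases lt_or_ge n b with hn | hn
  · -- no condition
    have hkz : (0 : ℤ) < k := by exact_mod_cast hk
    refine ⟨fun i => 2 * k * i, ⟨by simp, fun i _ => ?_, fun i hi => by omega⟩, ?_⟩
    · simp only
      push_cast
      linarith
    · rintro ⟨i, j, _, _, h⟩
      simp only at h
      have h2 : (k : ℤ) * (2 * ((j : ℤ) - i)) = k * 1 := by linarith
      have h3 := mul_left_cancel₀ hkz.ne' h2
      omega
  obtain ⟨a, ha, hh⟩ := h
  set S := terms n a with hS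
  have hSav := avoid_terms ha hk hh
  obtain ⟨p, hp⟩ : ∃ p, p = a n := ⟨_, rfl⟩
  have hmax : ∀ z ∈ S, z ≤ p := by
    intro z hz
    rw [hS, mem_terms] at hz
    obtain ⟨i, hi, rfl⟩ := hz
    rw [hp]
    exact ha.le hi le_rfl
  -- the new elements
  set M1 : Finset ℤ := (Finset.Ioc p (p + (k : ℤ))).filter (fun z => z - (k : ℤ) ∉ S) with hM1
  set M2 : Finset ℤ := (Finset.Ioc (p + (k : ℤ)) (p + 2 * (k : ℤ))).filter
    (fun z => z - 2 * (k : ℤ) ∈ S) with hM2
  set S' := S ∪ (M1 ∪ M2) with hS'
  have memS' : ∀ z, z ∈ S' ↔ z ∈ S ∨ (p < z ∧ z ≤ p + k ∧ z - k ∉ S) ∨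
      (p + k < z ∧ z ≤ p + 2 * k ∧ z - 2 * k ∈ S) := by
    intro z
    rw [hS', mem_union, mem_union, hM1, hM2, mem_filter, mem_filter, Finset.mem_Ioc,
      Finset.mem_Ioc, and_assoc, and_assoc]
  have hM2' : M2.card =
      ((Finset.Ioc p (p + (k : ℤ))).filter (fun z => z - (k : ℤ) ∈ S)).card := by
    refine Finset.card_bij (fun z _ => z - (k : ℤ)) ?_ ?_ ?_
    · intro z hz
      rw [hM2, mem_filter, Finset.mem_Ioc] at hz
      rw [mem_filter, Finset.mem_Ioc]
      refine ⟨by omega, ?_⟩
      rw [show z - k - k = z - 2 * k by ring]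
      exact hz.2
    · intro z _ z' _ hzz
      omega
    · intro z hz
      rw [mem_filter, Finset.mem_Ioc] at hz
      refine ⟨z + (k : ℤ), ?_, by ring⟩
      rw [hM2, mem_filter, Finset.mem_Ioc]
      refine ⟨by omega, ?_⟩
      rw [show z + k - 2 * k = z - k by ring]
      exact hz.2
  have hMcard : (M1 ∪ M2).card = k := by
    rw [card_union_of_disjoint, hM2', hM1, add_comm, Finset.card_filter_add_card_filter_not,
      Int.card_Ioc]
    · omega
    · rw [disjoint_left]
      intro z hz hz'
      rw [hM1, mem_filter, Finset.mem_Ioc] at hz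
      rw [hM2, mem_filter, Finset.mem_Ioc] at hz'
      omega
  have hMgt : ∀ z ∈ M1 ∪ M2, p < z := by
    intro z hz
    rw [mem_union, hM1, hM2, mem_filter, mem_filter, Finset.mem_Ioc, Finset.mem_Ioc] at hz
    omega
  have hS'card : S'.card = n + k + 1 := by
    rw [hS', card_union_of_disjoint, hMcard, hS, card_terms ha]
    · omega
    · rw [disjoint_left]
      intro z hz hz'
      have := hmax z hz
      have := hMgt z hz'
      omega
  have hS'av : Avoid k S' := by
    intro z hz hz'
    rw [memS'] at hz hz'
    rcases hz with hz | ⟨h1, h2, h3⟩ | ⟨h1, h2, h3⟩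
    · have hzp := hmax z hz
      rcases hz' with hz' | ⟨h4, h5, h6⟩ | ⟨h4, h5, h6⟩
      · exact hSav z hz hz'
      · exact h6 (by rwa [add_sub_cancel_right])
      · omega
    · rcases hz' with hz' | ⟨h4, h5, h6⟩ | ⟨h4, h5, h6⟩
      · have := hmax _ hz'
        omega
      · omega
      · exact h3 (by rwa [show z + k - 2 * k = z - k by ring] at h6)
    · rcases hz' with hz' | ⟨h4, h5, h6⟩ | ⟨h4, h5, h6⟩
      · have := hmax _ hz'
        omega
      · omega
      · omega
  -- windows of length `2 k` starting close to `p` contain `k` elements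
  have hwin : ∀ y : ℤ, p - (k : ℤ) < y → y ≤ p →
      k ≤ (S'.filter (fun z => y < z ∧ z ≤ y + 2 * (k : ℤ))).card := by
    intro y h1 h2
    have hc1 : (Finset.Ioc y (y + (k : ℤ))).card = k := by rw [Int.card_Ioc]; omega
    conv_lhs => rw [← hc1]
    refine Finset.card_le_card_of_injOn (fun z => if z ∈ S' then z else z + (k : ℤ)) ?_ ?_
    · intro z hz
      simp only [coe_Ioc, Set.mem_Ioc] at hz
      simp only [coe_filter, Set.mem_ofPred_eq]
      by_cases hzS : z ∈ S'
      · rw [if_pos hzS]
        exact ⟨hzS, by omega, by omega⟩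
      · rw [if_neg hzS]
        refine ⟨?_, by omega, by omega⟩
        rw [memS'] at hzS ⊢
        push Not at hzS
        obtain ⟨g1, g2, g3⟩ := hzS
        rcases le_or_gt z p with hzp | hzp
        · right; left
          refine ⟨by omega, by omega, ?_⟩
          rwa [add_sub_cancel_right]
        · right; right
          refine ⟨by omega, by omega, ?_⟩
          rw [show z + k - 2 * k = z - k by ring]
          exact g2 hzp (by omega)
    · intro z hz z' hz' hzz
      simp only [coe_Ioc, Set.mem_Ioc] at hz hz'
      simp only at hzz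
      split at hzz <;> split at hzz <;> omega
  have hext : Ex (b + k) (c + 2 * k) k (n + k) := by
    refine Ex_of_set hS'card hS'av ?_ (by omega)
    intro x hx hcx
    -- `x ∈ S`
    have hxp : x ∈ S := by
      rw [hS', mem_union] at hx
      rcases hx with hx | hx
      · exact hx
      · exfalso
        have hsub : S'.filter (fun z => x < z) ⊆ (M1 ∪ M2).erase x := by
          intro z hz
          rw [mem_filter] at hz
          rw [mem_erase]
          refine ⟨by omega, ?_⟩
          rw [hS', mem_union] at hz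
          rcases hz.1 with h | h
          · have := hmax z h
            have := hMgt x hx
            omega
          · exact h
        have := card_le_card hsub
        rw [card_erase_of_mem hx, hMcard] at this
        omega
    have hxS := hxp
    rw [hS, mem_terms] at hxS
    obtain ⟨i, hi, rfl⟩ := hxS
    -- `x` has at least `b` successors in `S`
    have hib : i + b ≤ n := by
      have hsub : S'.filter (fun z => a i < z) ⊆ (Finset.Ioc i n).image a ∪ (M1 ∪ M2) := by
        intro z hz
        rw [mem_filter, hS', mem_union] at hz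
        rw [mem_union]
        rcases hz with ⟨h | h, h2⟩
        · left
          rw [hS, mem_terms] at h
          obtain ⟨j, hj, rfl⟩ := h
          rw [mem_image]
          exact ⟨j, Finset.mem_Ioc.2 ⟨(ha.lt_iff hi hj).1 h2, hj⟩, rfl⟩
        · right; exact h
      have h3 := (card_le_card hsub).trans (card_union_le _ _)
      rw [hMcard] at h3
      have h4 : ((Finset.Ioc i n).image a).card ≤ n - i := by
        refine card_image_le.trans ?_
        rw [Nat.card_Ioc]
      omega
    have hyb := ha.2.2 i hib
    have hyp : p - k < a (i + b) := by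
      rcases Nat.lt_or_eq_of_le hib with h | h
      · have := last_sub hc hk ha hh (j := i + b) (by omega) h
        omega
      · rw [h, hp]; omega
    have hyp' : a (i + b) ≤ p := by rw [hp]; exact ha.le hib le_rfl
    have hw := hwin _ hyp hyp'
    have hsub : ((Finset.Ioc i (i + b)).image a) ∪
        (S'.filter (fun z => a (i + b) < z ∧ z ≤ a (i + b) + 2 * k)) ⊆
        S'.filter (fun z => a i < z ∧ z ≤ a i + ((c + 2 * k : ℕ) : ℤ)) := by
      intro z hz
      rw [mem_union] at hz
      rw [mem_filter]
      rcases hz with hz | hz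
      · rw [mem_image] at hz
        obtain ⟨j, hj, rfl⟩ := hz
        rw [Finset.mem_Ioc] at hj
        refine ⟨?_, ha.lt hj.1 (by omega), ?_⟩
        · rw [hS', mem_union]
          left
          rw [hS, mem_terms]
          exact ⟨j, by omega, rfl⟩
        · have := ha.le hj.2 hib
          push_cast
          omega
      · rw [mem_filter] at hz
        have := ha.le (i := i) (j := i + b) (by omega) hib
        refine ⟨hz.1, by omega, ?_⟩
        push_cast
        omega
    have h5 := card_le_card hsub
    rw [card_union_of_disjoint, card_image_of_injOn, Nat.card_Ioc] at h5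
    · omega
    · intro j hj j' hj' hjj
      simp only [coe_Ioc, Set.mem_Ioc] at hj hj'
      exact ha.inj (by omega) (by omega) hjj
    · rw [disjoint_left]
      intro z hz hz'
      rw [mem_image] at hz
      obtain ⟨j, hj, rfl⟩ := hz
      rw [Finset.mem_Ioc] at hj
      rw [mem_filter] at hz'
      have := ha.le hj.2 hib
      omega
  exact hext

/-- no avoiding admissible sequence is longer than `b + k` -/
theorem not_Ex (hc : c < 2 * b) (hk : 0 < k) : ¬ Ex b c k (b + k) := by
  rintro ⟨a, ha, hh⟩
  have h1 := last_sub hc hk ha hh (j := b) le_rfl (by omega)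
  have h2 := ha.sub_le (i := b) (j := b + k) (by omega) le_rfl
  have h3 : (b + k - b : ℕ) = k := by omega
  rw [h3] at h2
  omega

end ext

end Pool.Agent.R104.Shift
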