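import Mathlib
import Pool.Agent.R104.Shift

set_option autoImplicit false

/-!
Determination of `N(b, c, k)`: general lemmas, the cases `c > 2 b` and `c = 2 b`.
-/

namespace Pool.Agent.R104.Shift

open Finset

theorem Ex_mono {b c k m n : ℕ} (h : Ex b c k n) (hmn : m ≤ n) : Ex b c k m := by
  obtain ⟨a, ha, hh⟩ := h
  refine ⟨a, ⟨ha.1, fun i hi => ha.2.1 i (by omega), fun i hi => ha.2.2 i (by omega)⟩, ?_⟩
  rintro ⟨i, j, hij, hj, h⟩
  exact hh ⟨i, j, hij, by omega, h⟩

theorem N_eq {b c k m : ℕ} (h1 : Ex b c k m) (h2 : ¬ Ex b c k (m + 1)) :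
    N b c k = ((m + 1 : ℕ) : ℕ∞) := by
  unfold N
  apply le_antisymm
  · apply sInf_le
    refine ⟨m + 1, ⟨by omega, fun a ha => ?_⟩, rfl⟩
    by_contra hh
    exact h2 ⟨a, ha, hh⟩
  · apply le_sInf
    rintro _ ⟨n, ⟨hn, h⟩, rfl⟩
    have h4 : m + 1 ≤ n := by
      by_contra hcon
      obtain ⟨a, ha, hh⟩ := Ex_mono h1 (show n ≤ m by omega)
      exact hh (h a ha)
    exact Nat.cast_le.2 h4

theorem N_top {b c k : ℕ} (h : ∀ n, Ex b c k n) : N b c k = ⊤ := by
  unfold N
  rw [sInf_eq_top]
  rintro _ ⟨n, ⟨_, h1⟩, rfl⟩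
  obtain ⟨a, ha, hh⟩ := h n
  exact absurd (h1 a ha) hh

/-- fewer than `b + 1` terms: no condition -/
theorem Ex_small {b c k n : ℕ} (hk : 0 < k) (hn : n < b) : Ex b c k n := by
  have hkz : (0 : ℤ) < k := by exact_mod_cast hk
  refine ⟨fun i => 2 * k * i, ⟨by simp, fun i _ => ?_, fun i hi => by omega⟩, ?_⟩
  · simp only
    push_cast
    linarith
  · rintro ⟨i, j, _, _, h⟩
    simp only at h
    have h5 : (k : ℤ) * (2 * ((j : ℤ) - i)) = k * 1 := by linarith
    have h6 := mul_left_cancel₀ hkz.ne' h5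
    omega

/-- fewer than `k + 1` terms -/
theorem Ex_lt_k {b c k n : ℕ} (hbc : b ≤ c) (hn : n < k) : Ex b c k n := by
  refine ⟨fun i => i, ⟨by simp, fun i _ => ?_, fun i hi => ?_⟩, ?_⟩
  · simp only
    omega
  · simp only
    omega
  · rintro ⟨i, j, hij, hj, h⟩
    simp only at h
    omega

/-- sequences `2 i + y_i` -/
theorem Ex_two {b c k n : ℕ} (y : ℕ → ℤ) (hy : ∀ i, i ≤ n → y i = 0 ∨ y i = 1)
    (hyb : ∀ i, i + b ≤ n → y (i + b) + 2 * b ≤ y i + c)
    (hyk : ∀ i j, i < j → j ≤ n → 2 * (j : ℤ) + y j - (2 * i + y i) ≠ k) : Ex b c k n := by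
  refine ⟨fun i => 2 * i + y i - y 0, ⟨by simp, fun i hi => ?_, fun i hi => ?_⟩, ?_⟩
  · simp only
    have h1 := hy i (by omega)
    have h2 := hy (i + 1) (by omega)
    push_cast
    rcases h1 with h1 | h1 <;> rcases h2 with h2 | h2 <;> rw [h1, h2] <;> linarith
  · simp only
    have := hyb i hi
    push_cast
    linarith
  · rintro ⟨i, j, hij, hj, h⟩
    simp only at h
    apply hyk i j hij hj
    linarith

/-- `c > 2 b` -/
theorem Ex_big {b c k n : ℕ} (hk : 0 < k) (h : 2 * b < c) : Ex b c k n := by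
  rcases Nat.even_or_odd' k with ⟨h', rfl | rfl⟩
  · refine Ex_two (fun i => if (i / h') % 2 = 0 then 0 else 1) ?_ ?_ ?_
    · intro i _
      split <;> simp
    · intro i _
      split <;> split <;> omega
    · intro i j hij hj hcon
      have e1 : (if (i / h') % 2 = 0 then (0 : ℤ) else 1) = (if (j / h') % 2 = 0 then (0 : ℤ) else 1)
          ∧ j = i + h' := by
        split at hcon <;> split at hcon <;> push_cast at hcon <;> constructor <;> omega
      obtain ⟨e2, rfl⟩ := e1
      rw [Nat.add_div_right _ (by omega)] at e2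
      split at e2 <;> split at e2 <;> omega
  · refine Ex_two (fun _ => 0) (fun _ _ => Or.inl rfl) (fun i _ => by omega) ?_
    intro i j hij hj hcon
    push_cast at hcon
    omega

/-- blow-up -/
theorem Ex_mul {b c k n m : ℕ} (hm : 0 < m) (h : Ex b c k n) :
    Ex (m * b) (m * c) (m * k) (m * (n + 1) - 1) := by
  obtain ⟨a, ha, hh⟩ := h
  have hmz : (0 : ℤ) < m := by exact_mod_cast hm
  have hdiv : ∀ i, i ≤ m * (n + 1) - 1 → i / m ≤ n := by
    intro i hi
    have h1 : 0 < m * (n + 1) := Nat.mul_pos hm (by omega)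
    have h2 : i < m * (n + 1) := by omega
    have := Nat.div_lt_of_lt_mul h2
    omega
  refine ⟨fun i => m * a (i / m) + ((i % m : ℕ) : ℤ), ⟨?_, fun i hi => ?_, fun i hi => ?_⟩, ?_⟩
  · simp [ha.1]
  · simp only
    have h1 := hdiv (i + 1) (by omega)
    by_cases hlt : i % m + 1 < m
    · have h2 : (i + 1) / m = i / m := by
        rw [Nat.div_eq_iff hm]
        have := Nat.div_add_mod i m
        have := Nat.div_mul_le_self i m
        constructor
        · omega
        · have h3 : i = m * (i / m) + i % m := (Nat.div_add_mod i m).symm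
          rw [mul_comm m] at h3
          omega
      have h3 : (i + 1) % m = i % m + 1 := by
        have h4 := Nat.div_add_mod (i + 1) m
        have h5 := Nat.div_add_mod i m
        rw [h2] at h4
        omega
      rw [h2, h3]
      push_cast
      linarith
    · have h0 : i % m < m := Nat.mod_lt _ hm
      have h5 := Nat.div_add_mod i m
      have h2 : i + 1 = m * (i / m + 1) := by rw [mul_add]; omega
      have h3 : (i + 1) / m = i / m + 1 := by rw [h2, Nat.mul_div_cancel_left _ hm]
      have h4 : (i + 1) % m = 0 := by rw [h2, Nat.mul_mod_right]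
      rw [h3, h4]
      have h6 := ha.2.1 (i / m) (by omega)
      have h7 : (m : ℤ) * (a (i / m) + 1) ≤ m * a (i / m + 1) :=
        mul_le_mul_of_nonneg_left (by omega) hmz.le
      have h8 : ((i % m : ℕ) : ℤ) < m := by exact_mod_cast h0
      push_cast at h8 ⊢
      linarith
  · simp only
    have h1 := hdiv (i + m * b) hi
    rw [Nat.add_mul_div_left _ _ hm, Nat.add_mul_mod_self_left] at *
    have h2 := ha.2.2 (i / m) h1
    have h3 : (m : ℤ) * a (i / m + b) ≤ m * (a (i / m) + c) :=
      mul_le_mul_of_nonneg_left h2 hmz.le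
    push_cast
    linarith
  · rintro ⟨i, j, hij, hj, h⟩
    simp only at h
    have hi1 : ((i % m : ℕ) : ℤ) < m := by exact_mod_cast Nat.mod_lt _ hm
    have hj1 : ((j % m : ℕ) : ℤ) < m := by exact_mod_cast Nat.mod_lt _ hm
    have hi0 : (0 : ℤ) ≤ ((i % m : ℕ) : ℤ) := Int.natCast_nonneg _
    have hj0 : (0 : ℤ) ≤ ((j % m : ℕ) : ℤ) := Int.natCast_nonneg _
    push_cast at h hi1 hj1 hi0 hj0
    have h2 : (m : ℤ) * (a (j / m) - a (i / m) - k) = (i : ℤ) % m - (j : ℤ) % m := by linarith
    have h3 : a (j / m) - a (i / m) - k = 0 := by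
      by_contra hne
      rcases lt_or_gt_of_ne hne with h4 | h4
      · have : (m : ℤ) * (a (j / m) - a (i / m) - k) ≤ m * (-1) :=
          mul_le_mul_of_nonneg_left (by omega) hmz.le
        linarith
      · have : (m : ℤ) * 1 ≤ m * (a (j / m) - a (i / m) - k) :=
          mul_le_mul_of_nonneg_left (by omega) hmz.le
        linarith
    have hle : i / m ≤ j / m := Nat.div_le_div_right hij.le
    rcases Nat.lt_or_eq_of_le hle with h4 | h4
    · exact hh ⟨i / m, j / m, h4, hdiv j hj, by linarith⟩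
    · rw [h4, sub_self, zero_sub, neg_eq_zero] at h3
      have h5 : (i : ℤ) % m = (j : ℤ) % m := by
        rw [h4, h3] at h2
        simp at h2
        linarith
      have h6 : i % m = j % m := by exact_mod_cast h5
      have h7 := Nat.div_add_mod i m
      have h8 := Nat.div_add_mod j m
      rw [h4, h6] at h7
      omega

end Pool.Agent.R104.Shift
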