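import Mathlib
import Pool.Agent.R104.NBCK

set_option autoImplicit false

/-!
Determination of `N(b, c, k)`: the case `c = 2 b`.
-/

namespace Pool.Agent.R104.Shift

open Finset

/-- the extremal (Fine-Wilf type) sequence in the coprime case -/
theorem Ex_coprime {b k : ℕ} (hb : 0 < b) (hk : 0 < k) (heven : 2 ∣ k) (hco : Nat.Coprime b k) :
    Ex b (2 * b) k (b + k - 2) := by
  obtain ⟨h, rfl⟩ := heven
  have hodd : b % 2 = 1 := by
    by_contra hcon
    have h1 : 2 ∣ Nat.gcd b (2 * h) := Nat.dvd_gcd (by omega) (Dvd.intro _ rfl)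
    rw [hco] at h1
    omega
  obtain ⟨M, hM⟩ : ∃ M, M = b + 2 * h := ⟨_, rfl⟩
  have hM3 : 3 ≤ M := by omega
  have hco' : Nat.Coprime (2 * h) M := by
    rw [hM, Nat.coprime_add_self_right]
    exact hco.symm
  obtain ⟨w, _, hw⟩ := Nat.exists_mul_mod_eq_one_of_coprime hco' (by omega)
  have hwM : Nat.ModEq M (2 * h * w) 1 := by
    rw [Nat.ModEq, hw, Nat.mod_eq_of_lt (by omega)]
  have hcw : Nat.Coprime w M := Nat.coprime_of_mul_modEq_one (2 * h) (by rwa [mul_comm])
  set p : ℕ → ℕ := fun i => ((i + 1) * w) % M with hp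
  have hpM : ∀ i, p i < M := fun i => Nat.mod_lt _ (by omega)
  have hp0 : ∀ i, i + 1 < M → 0 < p i := by
    intro i hi
    rw [Nat.pos_iff_ne_zero]
    intro h0
    have h1 : M ∣ (i + 1) * w := Nat.dvd_of_mod_eq_zero h0
    have h2 : M ∣ i + 1 := hcw.symm.dvd_of_dvd_mul_right h1
    have := Nat.le_of_dvd (by omega) h2
    omega
  -- the step by `b`
  have hpb : ∀ i, i + b + 1 < M → p i = p (i + b) + 1 := by
    intro i hi
    have h1 : Nat.ModEq M (p (i + b) + 1) (p i) := by
      have e1 : Nat.ModEq M (p (i + b)) ((i + b + 1) * w) := Nat.mod_modEq _ _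
      have e2 : Nat.ModEq M (p i) ((i + 1) * w) := Nat.mod_modEq _ _
      have e3 : (i + b + 1) * w + 2 * h * w = (i + 1) * w + M * w := by rw [hM]; ring
      have e4 : Nat.ModEq M ((i + 1) * w + M * w) ((i + 1) * w) := by
        unfold Nat.ModEq
        rw [Nat.add_mul_mod_self_left]
      exact ((e1.add hwM.symm).trans (by rw [e3])).trans (e4.trans e2.symm)
    have h2 := hp0 i (by omega)
    have h3 := hpM i
    have h4 := hpM (i + b)
    have h5 : (p (i + b) + 1) % M = p i := by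
      have := h1
      unfold Nat.ModEq at this
      rwa [Nat.mod_eq_of_lt h3] at this
    rcases Nat.lt_or_ge (p (i + b) + 1) M with h6 | h6
    · rw [Nat.mod_eq_of_lt h6] at h5
      exact h5.symm
    · have h7 : p (i + b) + 1 = M := by omega
      rw [h7, Nat.mod_self] at h5
      omega
  -- the step by `h`
  have hph : ∀ i, i + h + 1 < M → (M < 2 * p i ↔ ¬ M < 2 * p (i + h)) := by
    intro i hi
    have h1 : Nat.ModEq M (2 * p (i + h)) (2 * p i + 1) := by
      have e1 : Nat.ModEq M (2 * p (i + h)) (2 * ((i + h + 1) * w)) :=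
        (Nat.mod_modEq _ _).mul_left _
      have e2 : Nat.ModEq M (2 * p i) (2 * ((i + 1) * w)) := (Nat.mod_modEq _ _).mul_left _
      have e3 : 2 * ((i + h + 1) * w) = 2 * ((i + 1) * w) + 2 * h * w := by ring
      rw [e3] at e1
      exact e1.trans (e2.symm.add hwM)
    have h2 := hp0 i (by omega)
    have h3 := hpM i
    have h4 := hpM (i + h)
    have h4' := hp0 (i + h) (by omega)
    obtain ⟨t, ht⟩ := (Nat.modEq_iff_dvd.1 h1)
    push_cast at ht
    have hMz : (0 : ℤ) < M := by omega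
    have ht1 : t ≤ 1 := by
      by_contra hcon
      have : (M : ℤ) * 2 ≤ M * t := mul_le_mul_of_nonneg_left (by omega) hMz.le
      omega
    have ht2 : -1 ≤ t := by
      by_contra hcon
      have : (M : ℤ) * t ≤ M * (-2) := mul_le_mul_of_nonneg_left (by omega) hMz.le
      omega
    have ht3 : t = -1 ∨ t = 0 ∨ t = 1 := by omega
    rcases ht3 with rfl | rfl | rfl <;> omega
  refine Ex_two (fun i => if M < 2 * p i then 1 else 0) ?_ ?_ ?_
  · intro i _
    split <;> simp
  · intro i hi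
    have h1 := hpb i (by omega)
    have : (if M < 2 * p (i + b) then (1 : ℤ) else 0) ≤ if M < 2 * p i then (1 : ℤ) else 0 := by
      split <;> split <;> omega
    push_cast
    linarith
  · intro i j hij hj hcon
    push_cast at hcon
    have e1 : ((if M < 2 * p i then (1 : ℤ) else 0) = if M < 2 * p j then (1 : ℤ) else 0) ∧
        j = i + h := by
      split at hcon <;> split at hcon <;> constructor <;> omega
    obtain ⟨e2, rfl⟩ := e1
    have h1 := hph i (by omega)
    split at e2 <;> split at e2 <;> omega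

theorem Ex_gcd {b k : ℕ} (hb : 0 < b) (hk : 0 < k) (h : 2 * Nat.gcd b k ∣ k) :
    Ex b (2 * b) k (b + k - Nat.gcd b k - 1) := by
  have hg : 0 < Nat.gcd b k := Nat.gcd_pos_of_pos_left _ hb
  obtain ⟨b', hb'⟩ := Nat.gcd_dvd_left b k
  obtain ⟨k', hk'⟩ := Nat.gcd_dvd_right b k
  have hco := Nat.coprime_div_gcd_div_gcd hg
  generalize hgg : Nat.gcd b k = g at *
  subst hb' hk'
  rw [Nat.mul_div_cancel_left _ hg, Nat.mul_div_cancel_left _ hg] at hco
  have hb1 : 0 < b' := Nat.pos_of_mul_pos_left hb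
  have hk1 : 0 < k' := Nat.pos_of_mul_pos_left hk
  have h2 : 2 ∣ k' := by
    rw [mul_comm] at h
    exact (Nat.mul_dvd_mul_iff_left hg).1 h
  have h3 := Ex_mul hg (Ex_coprime hb1 hk1 h2 hco)
  have e1 : g * (2 * b') = 2 * (g * b') := by ring
  have e2 : g * (b' + k' - 2 + 1) - 1 = g * b' + g * k' - g - 1 := by
    have : b' + k' - 2 + 1 = b' + k' - 1 := by omega
    rw [this, Nat.mul_sub, mul_one, mul_add]
  rw [e1, e2] at h3
  exact h3

theorem not_Ex_gcd {b k : ℕ} (hb : 0 < b) (hk : 0 < k) (h : 2 * Nat.gcd b k ∣ k) :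
    ¬ Ex b (2 * b) k (b + k - Nat.gcd b k) := by
  rintro ⟨a, ha, hh⟩
  have hg : 0 < Nat.gcd b k := Nat.gcd_pos_of_pos_left _ hb
  have hgb := Nat.gcd_dvd_left b k
  have hgk := Nat.gcd_dvd_right b k
  have hgM : Nat.gcd k (b + k) = Nat.gcd b k := by
    rw [Nat.gcd_add_self_right, Nat.gcd_comm]
  have hgleb := Nat.le_of_dvd hb hgb
  have hglek := Nat.le_of_dvd hk hgk
  generalize hgg : Nat.gcd b k = g at *
  obtain ⟨M, hM⟩ : ∃ M, M = b + k := ⟨_, rfl⟩
  have hgdM : g ∣ M := hM ▸ Nat.dvd_add hgb hgk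
  -- multiples of `g` below `M`
  have hmult : ∀ i, g ∣ i → i < M → i ≤ b + k - g := by
    intro i hi hiM
    obtain ⟨x, rfl⟩ := hi
    obtain ⟨z, hz⟩ := hgdM
    rw [← hM, hz]
    have h1 : x < z := Nat.lt_of_mul_lt_mul_left (by rwa [hz] at hiM)
    calc g * x ≤ g * (z - 1) := Nat.mul_le_mul_left _ (by omega)
      _ = g * z - g := by rw [Nat.mul_sub, mul_one]
  set y : ℕ → ℤ := fun i => a i - 2 * i with hy
  set f : ℕ → ℤ := fun t => y ((t * k) % M) with hf
  have hMpos : 0 < M := by omega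
  have hgdvd : ∀ t, g ∣ (t * k) % M := by
    intro t
    exact (Nat.dvd_mod_iff hgdM).2 (Dvd.dvd.mul_left hgk t)
  have hstep : ∀ t, f t ≤ f (t + 1) := by
    intro t
    simp only [hf, hy]
    have h1 : ((t + 1) * k) % M = ((t * k) % M + k) % M := by
      rw [add_mul, one_mul, Nat.mod_add_mod]
    have h2 := hgdvd t
    have h3 : (t * k) % M < M := Nat.mod_lt _ hMpos
    have h4 : g ∣ ((t * k) % M + k) % M := (Nat.dvd_mod_iff hgdM).2 (Nat.dvd_add h2 hgk)
    rw [h1]
    generalize (t * k) % M = i at *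
    have h5 := hmult i h2 h3
    rcases Nat.lt_or_ge i b with hib | hib
    · rw [Nat.mod_eq_of_lt (by omega)] at h4 ⊢
      have h6 := hmult _ h4 (by omega)
      have h7 := two_k ha hk hh (j := i) h6
      push_cast
      linarith
    · have e : (i + k) % M = i - b := by
        rw [Nat.mod_eq_sub_mod (by omega), Nat.mod_eq_of_lt (by omega)]
        omega
      rw [e]
      have h7 := ha.2.2 (i - b) (by omega)
      rw [Nat.sub_add_cancel hib] at h7
      push_cast [hib] at h7 ⊢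
      linarith
  have hmono : Monotone f := monotone_nat_of_le_succ hstep
  have hconst : ∀ t, t ≤ M → f t = f 0 := by
    intro t ht
    have h1 := hmono (Nat.zero_le t)
    have h2 := hmono ht
    have h3 : f M = f 0 := by
      simp only [hf]
      rw [Nat.mul_mod_right, zero_mul, Nat.zero_mod]
    linarith
  obtain ⟨κ, hκ⟩ := h
  obtain ⟨m, _, hm⟩ := Nat.exists_mul_mod_eq_gcd (k := M) (n := k) (by rw [hM, hgM]; omega)
  have hm' : k * m % M = g := by
    rw [hm, hM, hgM]
  have hκk : g * κ < M := by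
    have : k = 2 * (g * κ) := by rw [hκ]; ring
    omega
  have ht : ((m * κ) % M * k) % M = g * κ := by
    rw [Nat.mod_mul_mod]
    have : m * κ * k = κ * (k * m) := by ring
    rw [this, Nat.mul_mod, hm', Nat.mod_mul_mod, mul_comm κ g]
    exact Nat.mod_eq_of_lt hκk
  have h1 := hconst ((m * κ) % M) (Nat.mod_lt _ hMpos).le
  simp only [hf, hy] at h1
  rw [ht, zero_mul, Nat.zero_mod, ha.1] at h1
  have hκpos : 0 < g * κ := by
    have : k = 2 * (g * κ) := by rw [hκ]; ring
    omega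
  apply hh
  refine ⟨0, g * κ, hκpos, ?_, ?_⟩
  · have : k = 2 * (g * κ) := by rw [hκ]; ring
    omega
  · rw [ha.1]
    have e : (k : ℤ) = 2 * ((g * κ : ℕ) : ℤ) := by
      have : k = 2 * (g * κ) := by rw [hκ]; ring
      exact_mod_cast this
    rw [e]
    push_cast at h1 ⊢
    linarith

/-- `c = 2 b`, `v₂(k) ≤ v₂(b)` -/
theorem Ex_val {b k n : ℕ} (hb : 0 < b) (hk : 0 < k)
    (h : padicValNat 2 k ≤ padicValNat 2 b) : Ex b (2 * b) k n := by
  obtain ⟨e, k', hodd, hk'⟩ := Nat.exists_eq_two_pow_mul_odd hk.ne'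
  have he : e ≤ padicValNat 2 k :=
    (padicValNat_dvd_iff_le (p := 2) hk.ne').1 (hk' ▸ Dvd.intro _ rfl)
  have hd : 2 ^ e ∣ b := (padicValNat_dvd_iff_le (p := 2) hb.ne').2 (he.trans h)
  obtain ⟨b', hb'⟩ := hd
  have hbase : Ex b' (2 * b') k' n := by
    refine Ex_two (fun _ => 0) (fun _ _ => Or.inl rfl) (fun i _ => by push_cast; linarith) ?_
    intro i j hij hj hcon
    obtain ⟨z, hz⟩ := hodd
    rw [hz] at hcon
    push_cast at hcon
    omega
  have h1 := Ex_mul (Nat.pow_pos (by omega : 0 < 2) (n := e)) hbase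
  have e1 : 2 ^ e * (2 * b') = 2 * (2 ^ e * b') := by ring
  rw [e1, ← hb', ← hk'] at h1
  refine Ex_mono h1 ?_
  have h2 : 1 * (n + 1) ≤ 2 ^ e * (n + 1) := Nat.mul_le_mul_right _ Nat.one_le_two_pow
  omega

theorem two_gcd_dvd {b k : ℕ} (hb : 0 < b) (hk : 0 < k)
    (h : padicValNat 2 b < padicValNat 2 k) : 2 * Nat.gcd b k ∣ k := by
  have hg : 0 < Nat.gcd b k := Nat.gcd_pos_of_pos_left _ hb
  obtain ⟨b', hb'⟩ := Nat.gcd_dvd_left b k
  obtain ⟨k', hk'⟩ := Nat.gcd_dvd_right b k
  generalize Nat.gcd b k = g at *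
  have hb1 : b' ≠ 0 := by rintro rfl; omega
  have hk1 : k' ≠ 0 := by rintro rfl; omega
  rw [hb', hk', padicValNat.mul hg.ne' hb1, padicValNat.mul hg.ne' hk1] at h
  have h2 : 2 ∣ k' := by
    apply dvd_of_one_le_padicValNat
    omega
  rw [hk', mul_comm 2 g]
  exact Nat.mul_dvd_mul_left _ h2

end Pool.Agent.R104.Shift
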