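import Mathlib
import Pool.Agent.R104.NBCK

set_option autoImplicit false

/-!
Determination of `N(b, c, k)`: the case `c < 2 b`, upper bounds.
-/

namespace Pool.Agent.R104.Shift

open Finset

theorem not_Ex_b {b c k : ℕ} (hk : 0 < k) (h : c < b + k * (b / k)) : ¬ Ex b c k b := by
  rintro ⟨a, ha, hh⟩
  have h1 : ∀ j, j * k ≤ b → 2 * ((j * k : ℕ) : ℤ) ≤ a (j * k) := by
    intro j
    induction j with
    | zero => intro _; simp [ha.1]
    | succ j ih =>
      intro hj
      have e : (j + 1) * k = j * k + k := by ring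
      rw [e] at hj ⊢
      have h2 := ih (by omega)
      have h3 := two_k ha hk hh (j := j * k) hj
      push_cast at h2 ⊢
      linarith
  have h2 : (b / k) * k ≤ b := Nat.div_mul_le_self b k
  have h3 := h1 (b / k) h2
  have h4 := ha.sub_le h2 le_rfl
  have h5 := ha.2.2 0 (by omega)
  rw [zero_add, ha.1] at h5
  rw [mul_comm k] at h
  generalize b / k * k = x at *
  omega

section upper

variable {b c k n : ℕ} {a : ℕ → ℤ}

theorem window_count (h : Admissible b c n a) {i : ℕ} (hi : i + b ≤ n) :
    b + 1 ≤ ((terms n a).filter (fun z => a i ≤ z ∧ z ≤ a i + c)).card := by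
  have h1 : (Finset.Icc i (i + b)).image a ⊆
      (terms n a).filter (fun z => a i ≤ z ∧ z ≤ a i + c) := by
    intro z hz
    rw [mem_image] at hz
    obtain ⟨j, hj, rfl⟩ := hz
    rw [Finset.mem_Icc] at hj
    rw [mem_filter, mem_terms]
    have h2 := h.2.2 i hi
    have h3 := h.le hj.2 hi
    exact ⟨⟨j, by omega, rfl⟩, h.le hj.1 (by omega), by omega⟩
  have h4 := card_le_card h1
  rw [card_image_of_injOn, Nat.card_Icc] at h4
  · omega
  · intro j hj j' hj' hjj
    simp only [coe_Icc, Set.mem_Icc] at hj hj'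
    exact h.inj (by omega) (by omega) hjj

theorem mid_count {S : Finset ℤ} (hS : Avoid k S) (hkc : k ≤ c) {x : ℤ}
    (hw : b + 1 ≤ (S.filter (fun z => x ≤ z ∧ z ≤ x + c)).card) :
    b + k ≤ c + (S.filter (fun z => x + c + 1 - k ≤ z ∧ z < x + k)).card := by
  set P := S.filter (fun z => x ≤ z ∧ z < x + c + 1 - k) with hP
  set Q := S.filter (fun z => x + k ≤ z ∧ z ≤ x + c) with hQ
  set Mid := S.filter (fun z => x + c + 1 - k ≤ z ∧ z < x + k) with hMid
  have h1 : S.filter (fun z => x ≤ z ∧ z ≤ x + c) ⊆ P ∪ (Mid ∪ Q) := by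
    intro z hz
    rw [mem_filter] at hz
    rw [mem_union, mem_union, hP, hQ, hMid, mem_filter, mem_filter, mem_filter]
    obtain ⟨hz1, hz2, hz3⟩ := hz
    by_cases h2 : z < x + c + 1 - k
    · left; exact ⟨hz1, hz2, h2⟩
    · by_cases h3 : z < x + k
      · right; left; exact ⟨hz1, by omega, h3⟩
      · right; right; exact ⟨hz1, by omega, hz3⟩
  have h2 : (P ∪ Q.image (fun z => z - k)) ⊆ Finset.Ico x (x + c + 1 - k) := by
    intro z hz
    rw [mem_union] at hz
    rw [Finset.mem_Ico]
    rcases hz with hz | hz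
    · rw [hP, mem_filter] at hz
      exact hz.2
    · rw [mem_image] at hz
      obtain ⟨w, hw, rfl⟩ := hz
      rw [hQ, mem_filter] at hw
      omega
  have h3 : Disjoint P (Q.image (fun z => z - k)) := by
    rw [disjoint_left]
    intro z hz hz'
    rw [mem_image] at hz'
    obtain ⟨w, hw, rfl⟩ := hz'
    apply hS _ (mem_filter.1 hz).1
    rw [sub_add_cancel]
    exact (mem_filter.1 hw).1
  have h4 := card_le_card h2
  rw [card_union_of_disjoint h3, card_image_of_injective _ (sub_left_injective), Int.card_Ico] at h4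
  have h5 := (card_le_card h1).trans (card_union_le _ _)
  have h6 := card_union_le Mid Q
  omega

theorem gap (h : Admissible b c n a) (hk : 0 < k) (hh : ¬ Hits k n a) (hbk : b < k) (hkc : k ≤ c)
    (hck : c < 2 * k) {j : ℕ} (hj : k - b ≤ j) (hjn : j + b ≤ n) :
    a (j - (k - b)) + (2 * k - c) ≤ a j := by
  by_contra hcon
  push Not at hcon
  have hS := avoid_terms h hk hh
  have h1 := mid_count hS hkc (window_count h hjn)
  set Mid := (terms n a).filter (fun z => a j + c + 1 - k ≤ z ∧ z < a j + k) with hMid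
  set F := (Finset.Ico (j - (k - b)) j).image (fun i => a i + k) with hF
  have h2 : Mid ∪ F ⊆ Finset.Ico (a j + c + 1 - k) (a j + k) := by
    intro z hz
    rw [mem_union] at hz
    rw [Finset.mem_Ico]
    rcases hz with hz | hz
    · rw [hMid, mem_filter] at hz
      exact hz.2
    · rw [hF, mem_image] at hz
      obtain ⟨i, hi, rfl⟩ := hz
      rw [Finset.mem_Ico] at hi
      have h3 := h.le hi.1 (by omega : i ≤ n)
      have h4 := h.lt hi.2 (by omega)
      constructor
      · omega
      · omega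
  have h3 : Disjoint Mid F := by
    rw [disjoint_left]
    intro z hz hz'
    rw [hF, mem_image] at hz'
    obtain ⟨i, hi, rfl⟩ := hz'
    rw [Finset.mem_Ico] at hi
    exact hS _ (mem_terms.2 ⟨i, by omega, rfl⟩) (mem_filter.1 hz).1
  have h4 := card_le_card h2
  rw [card_union_of_disjoint h3, Int.card_Ico] at h4
  have h5 : F.card = k - b := by
    rw [hF, card_image_of_injOn, Nat.card_Ico]
    · omega
    · intro i hi i' hi' hii
      simp only [coe_Ico, Set.mem_Ico] at hi hi'
      simp only at hii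
      exact h.inj (by omega) (by omega) (by omega)
  omega

theorem idx {x y : ℤ} {m p : ℕ} (h : Admissible b c n a)
    (hcard : m + 1 ≤ ((terms n a).filter (fun z => x ≤ z ∧ z < y)).card)
    (hmin : ∀ i, i ≤ n → x ≤ a i → p ≤ i) : p + m ≤ n ∧ a (p + m) < y := by
  by_contra hcon
  have hsub : (terms n a).filter (fun z => x ≤ z ∧ z < y) ⊆ (Finset.Ico p (p + m)).image a := by
    intro z hz
    rw [mem_filter, mem_terms] at hz
    obtain ⟨⟨i, hi, rfl⟩, h1, h2⟩ := hz
    rw [mem_image]
    refine ⟨i, ?_, rfl⟩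
    rw [Finset.mem_Ico]
    refine ⟨hmin i hi h1, ?_⟩
    by_contra h3
    apply hcon
    refine ⟨by omega, ?_⟩
    have := h.le (not_lt.1 h3) hi
    omega
  have h1 := (card_le_card hsub).trans card_image_le
  rw [Nat.card_Ico] at h1
  omega

theorem last_early (h : Admissible b c n a) (hk : 0 < k) (hh : ¬ Hits k n a) (hbk : b < k)
    (hkc : k ≤ c) (hc : c < 2 * b) {r : ℕ} (hr : r + b ≤ n) : a r + 2 * b + 1 ≤ k + c := by
  classical
  by_contra hcon
  push Not at hcon
  have hS := avoid_terms h hk hh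
  have h0 := window_count h (i := 0) (by omega)
  rw [h.1] at h0
  have h1 := mid_count hS hkc h0
  set Mid := (terms n a).filter (fun z => (0 : ℤ) + c + 1 - k ≤ z ∧ z < 0 + k) with hMid
  have hne : ∃ p, p ≤ n ∧ (0 : ℤ) + c + 1 - k ≤ a p := by
    have : 0 < Mid.card := by omega
    obtain ⟨z, hz⟩ := card_pos.1 this
    rw [hMid, mem_filter, mem_terms] at hz
    obtain ⟨⟨p, hp, rfl⟩, hp2, _⟩ := hz
    exact ⟨p, hp, hp2⟩
  have hmin : ∀ i, i ≤ n → (0 : ℤ) + c + 1 - k ≤ a i → Nat.find hne ≤ i := fun i hi h' =>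
    Nat.find_min' hne ⟨hi, h'⟩
  have hpx := (Nat.find_spec hne).2
  generalize Nat.find hne = p at hmin hpx
  have h2 : k - b + 1 ≤ Mid.card := by omega
  obtain ⟨h3, h4⟩ := idx h h2 hmin
  have h5 : k - b - 1 + 1 ≤ ((terms n a).filter
      (fun z => (0 : ℤ) + c + 1 - k ≤ z ∧ z < (c : ℤ) + k - 2 * b)).card := by
    have h6 : Mid ⊆ ((terms n a).filter
      (fun z => (0 : ℤ) + c + 1 - k ≤ z ∧ z < (c : ℤ) + k - 2 * b)) ∪
        Finset.Ico ((c : ℤ) + k - 2 * b) k := by
      intro z hz
      rw [hMid, mem_filter] at hz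
      rw [mem_union, mem_filter, Finset.mem_Ico]
      by_cases h7 : z < (c : ℤ) + k - 2 * b
      · left; exact ⟨hz.1, hz.2.1, h7⟩
      · right; omega
    have h7 := (card_le_card h6).trans (card_union_le _ _)
    rw [Int.card_Ico] at h7
    omega
  obtain ⟨h6, h7⟩ := idx h h5 hmin
  have h8 : p + (k - b - 1) < r := by
    rw [← h.lt_iff h6 (by omega)]
    omega
  have h9 := gap h hk hh hbk hkc (by omega) (j := p + (k - b)) (by omega) (by omega)
  rw [Nat.add_sub_cancel] at h9
  omega

theorem early_low (h : Admissible b c n a) (hk : 0 < k) (hh : ¬ Hits k n a) (hbk : b < k)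
    (hkc : k ≤ c) (hck : c < 2 * k) : ∀ j : ℕ, j + b ≤ n →
    (((j / (k - b)) * (2 * k - c) + j % (k - b) : ℕ) : ℤ) ≤ a j := by
  intro j
  induction j using Nat.strong_induction_on with
  | _ j ih =>
    intro hj
    rcases Nat.lt_or_ge j (k - b) with h1 | h1
    · rw [Nat.div_eq_of_lt h1, Nat.mod_eq_of_lt h1, zero_mul, zero_add]
      have := h.sub_le (Nat.zero_le j) (by omega)
      rw [h.1, Nat.sub_zero, sub_zero] at this
      exact this
    · have h2 := ih (j - (k - b)) (by omega) (by omega)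
      have h3 := gap h hk hh hbk hkc hck h1 hj
      have h4 : j / (k - b) = (j - (k - b)) / (k - b) + 1 :=
        Nat.div_eq_sub_div (by omega) h1
      have h5 : j % (k - b) = (j - (k - b)) % (k - b) := Nat.mod_eq_sub_mod h1
      rw [h4, h5, add_mul, one_mul]
      generalize (j - (k - b)) / (k - b) * (2 * k - c) = x at *
      generalize (j - (k - b)) % (k - b) = y at *
      push_cast at h2 ⊢
      omega

end upper

/-- arithmetic -/
theorem arith {A L u : ℕ} (hu : 1 ≤ u) (hL : 1 ≤ L) :
    A < ((u * (A / L) + min (u - 1) (A % L) + 1) / u) * L +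
      (u * (A / L) + min (u - 1) (A % L) + 1) % u := by
  have hA := Nat.div_add_mod A L
  have hm := Nat.mod_lt A hL
  generalize A / L = s at *
  generalize A % L = m at *
  rcases Nat.lt_or_ge m (u - 1) with h | h
  · have e1 : (u * s + min (u - 1) m + 1) = u * s + (m + 1) := by
      rw [min_eq_right h.le, add_assoc]
    rw [e1, Nat.mul_add_div (by omega), Nat.mul_add_mod, Nat.div_eq_of_lt (by omega),
      Nat.mod_eq_of_lt (by omega), add_zero, mul_comm s]
    omega
  · have e1 : (u * s + min (u - 1) m + 1) = u * s + u := by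
      rw [min_eq_left h, add_assoc]
      congr 1
      omega
    rw [e1, Nat.mul_add_div (by omega), Nat.mul_add_mod, Nat.div_self (by omega), Nat.mod_self,
      add_zero, add_mul, one_mul, mul_comm s]
    omega

/-- the number `R` -/
def RR (b c k : ℕ) : ℕ :=
  (k - b) * ((k + c - 2 * b - 1) / (2 * k - c)) +
    min (k - b - 1) ((k + c - 2 * b - 1) % (2 * k - c))

theorem upper_main {b c k : ℕ} (hbk : b < k) (hbc : b ≤ c) (hc : c < 2 * b) :
    ¬ Ex b c k (b + RR b c k + 1) := by
  rintro ⟨a, ha, hh⟩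
  rcases Nat.lt_or_ge k c with hkc | hkc
  · have h1 := early_low ha (by omega) hh hbk hkc.le (by omega) (RR b c k + 1) (by omega)
    have h2 := last_early ha (by omega) hh hbk hkc.le hc (r := RR b c k + 1) (by omega)
    have h3 := arith (A := k + c - 2 * b - 1) (L := 2 * k - c) (u := k - b) (by omega) (by omega)
    unfold RR at h1 h2
    have h4 : ((k + c - 2 * b - 1 : ℕ) : ℤ) < _ := Int.ofNat_lt.2 h3
    have h5 := h4.trans_le h1
    omega
  · -- `c ≤ k`
    have hR : b + RR b c k + 1 = k := by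
      unfold RR
      rw [Nat.div_eq_of_lt (by omega), Nat.mod_eq_of_lt (by omega), min_eq_left (by omega)]
      omega
    rw [hR] at ha hh
    have h1 := last_sub hc (by omega) ha hh (j := b) le_rfl hbk
    have h2 := two_k ha (by omega) hh (j := 0) (by omega)
    have h3 := ha.2.2 0 (by omega)
    rw [zero_add, ha.1] at h2 h3
    omega

end Pool.Agent.R104.Shift
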