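import Mathlib
import Pool.Agent.R104.NBCK3

set_option autoImplicit false

/-!
Determination of `N(b, c, k)`: the case `c < 2 b`, the construction.
-/

namespace Pool.Agent.R104.Shift

open Finset

/-- sequences from sets of natural numbers -/
theorem Ex_of_window {b c k r z : ℕ} (S : Finset ℕ) (hS : ∀ x ∈ S, x + k ∉ S)
    (hr : r + 1 ≤ (S.filter (fun x => x ≤ z)).card)
    (hw : ∀ x ∈ S, x ≤ z → b + 1 ≤ (S.filter (fun y => x ≤ y ∧ y ≤ x + c)).card) :
    Ex b c k (b + r) := by
  set f := S.orderEmbOfFin rfl with hf
  have hmem : ∀ i, f i ∈ S := fun i => Finset.orderEmbOfFin_mem S rfl i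
  have hsurj : ∀ x ∈ S, ∃ i, f i = x := by
    intro x hx
    have := Finset.range_orderEmbOfFin S rfl
    have hx' : x ∈ Set.range f := by rw [hf, this]; exact hx
    exact hx'
  have hrS : r < S.card := by
    have := card_filter_le S (fun x => x ≤ z)
    omega
  -- the first `r + 1` elements are at most `z`
  have hle : ∀ i (hi : i ≤ r), f ⟨i, by omega⟩ ≤ z := by
    intro i hi
    by_contra hcon
    have hsub : S.filter (fun x => x ≤ z) ⊆ (univ.filter (fun j : Fin S.card => j.val < i)).image f := by
      intro x hx
      rw [mem_filter] at hx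
      obtain ⟨j, rfl⟩ := hsurj x hx.1
      rw [mem_image]
      refine ⟨j, mem_filter.2 ⟨mem_univ _, ?_⟩, rfl⟩
      have : f j < f ⟨i, by omega⟩ := by omega
      exact f.lt_iff_lt.1 this
    have h1 := (card_le_card hsub).trans card_image_le
    have h2 : (univ.filter (fun j : Fin S.card => j.val < i)).card ≤ i := by
      rw [← Finset.card_map Fin.valEmbedding]
      refine (card_le_card ?_).trans (card_range i).le
      intro x hx
      rw [mem_map] at hx
      obtain ⟨j, hj, rfl⟩ := hx
      exact mem_range.2 (mem_filter.1 hj).2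
    omega
  have hwin : ∀ i (hi : i ≤ r), ∃ h : i + b < S.card, f ⟨i + b, h⟩ ≤ f ⟨i, by omega⟩ + c := by
    intro i hi
    have h1 := hw _ (hmem ⟨i, by omega⟩) (hle i hi)
    by_contra hcon
    have hsub : S.filter (fun y => f ⟨i, by omega⟩ ≤ y ∧ y ≤ f ⟨i, by omega⟩ + c) ⊆
        (univ.filter (fun j : Fin S.card => i ≤ j.val ∧ j.val < i + b)).image f := by
      intro x hx
      rw [mem_filter] at hx
      obtain ⟨j, rfl⟩ := hsurj x hx.1
      rw [mem_image]
      refine ⟨j, mem_filter.2 ⟨mem_univ _, ?_, ?_⟩, rfl⟩
      · exact f.le_iff_le.1 hx.2.1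
      · by_contra hj
        apply hcon
        have hj' : i + b < S.card := by
          have := j.isLt
          omega
        refine ⟨hj', ?_⟩
        have : f ⟨i + b, hj'⟩ ≤ f j := f.le_iff_le.2 (by show i + b ≤ j.val; omega)
        omega
    have h2 := (card_le_card hsub).trans card_image_le
    have h3 : (univ.filter (fun j : Fin S.card => i ≤ j.val ∧ j.val < i + b)).card ≤ b := by
      rw [← Finset.card_map Fin.valEmbedding]
      have h4 : (Finset.Ico i (i + b)).card = b := by rw [Nat.card_Ico]; omega
      refine (card_le_card ?_).trans h4.le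
      intro x hx
      rw [mem_map] at hx
      obtain ⟨j, hj, rfl⟩ := hx
      exact Finset.mem_Ico.2 (mem_filter.1 hj).2
    omega
  obtain ⟨hbr, _⟩ := hwin r le_rfl
  let g : ℕ → Fin S.card := fun i => ⟨min i (b + r), by omega⟩
  refine ⟨fun i => ((f (g i) : ℕ) : ℤ) - (f (g 0) : ℕ), ⟨by simp, ?_, ?_⟩, ?_⟩
  · intro i hi
    have h1 : g i < g (i + 1) := by
      show min i (b + r) < min (i + 1) (b + r)
      omega
    have h2 := f.lt_iff_lt.2 h1
    simp only
    omega
  · intro i hi
    simp only
    obtain ⟨h1, h2⟩ := hwin i (by omega)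
    have e1 : g (i + b) = ⟨i + b, h1⟩ := Fin.ext (by show min (i + b) (b + r) = i + b; omega)
    have e2 : g i = ⟨i, by omega⟩ := Fin.ext (by show min i (b + r) = i; omega)
    rw [e1, e2]
    omega
  · rintro ⟨i, j, hij, hj, h⟩
    simp only at h
    apply hS _ (hmem (g i))
    have : f (g i) + k = f (g j) := by omega
    rw [this]
    exact hmem _

section construction

variable (k d z w L u : ℕ)

/-- the basic predicate -/
def PP (y : ℕ) : Prop := (y ≤ z ∧ (y + w) % L < u) ∨ d ≤ y

instance : DecidablePred (PP d z w L u) := fun y => by unfold PP; infer_instance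

/-- the set -/
def SS (c : ℕ) : Finset ℕ := (range (z + c + 1)).filter (fun x =>
  (x < k ∧ PP d z w L u x) ∨ (k ≤ x ∧ x < 2 * k ∧ ¬ PP d z w L u (x - k)) ∨
    (2 * k ≤ x ∧ PP d z w L u (x - 2 * k)))

end construction

theorem lower_main {b c k : ℕ} (hbk : b < k) (hkc : k < c) (hc : c < 2 * b) :
    Ex b c k (b + RR b c k) := by
  obtain ⟨u, hu⟩ : ∃ u, u = k - b := ⟨_, rfl⟩
  obtain ⟨L, hL⟩ : ∃ L, L = 2 * k - c := ⟨_, rfl⟩
  obtain ⟨A, hA⟩ : ∃ A, A = k + c - 2 * b - 1 := ⟨_, rfl⟩
  obtain ⟨d, hd⟩ : ∃ d, d = c - b := ⟨_, rfl⟩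
  obtain ⟨q, hq⟩ : ∃ q, q = c + 1 - k := ⟨_, rfl⟩
  have hRR : RR b c k = u * (A / L) + min (u - 1) (A % L) := by
    unfold RR
    rw [hu, hL, hA]
  rw [hRR]
  have hAdiv := Nat.div_add_mod A L
  have hAmod : A % L < L := Nat.mod_lt _ (by omega)
  obtain ⟨s, hs⟩ : ∃ s, s = A / L := ⟨_, rfl⟩
  obtain ⟨t, ht⟩ : ∃ t, t = min (u - 1) (A % L) := ⟨_, rfl⟩
  rw [← hs, ← ht]
  rw [← hs] at hAdiv
  obtain ⟨z, hz⟩ : ∃ z, z = s * L + t := ⟨_, rfl⟩
  obtain ⟨w, hw⟩ : ∃ w, w = u - 1 - t := ⟨_, rfl⟩
  have hu1 : 1 ≤ u := by omega
  have huL : u < L := by omega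
  have htu : t ≤ u - 1 := ht ▸ min_le_left _ _
  have htA : t ≤ A % L := ht ▸ min_le_right _ _
  have hzA : z ≤ A := by rw [hz, mul_comm s]; omega
  have hzk : z < k := by omega
  -- block property
  have hblk : ∀ y, y ≤ z → PP d z w L u y → (y + w) % L < u := by
    intro y hy h
    rcases h with h | h
    · exact h.2
    · have h1 : s * L ≤ y + w := by omega
      have h2 : y + w < s * L + u := by omega
      have h3 : (y + w) % L = y + w - s * L := by
        have : y + w = (y + w - s * L) + L * s := by rw [mul_comm L]; omega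
        conv_lhs => rw [this]
        rw [Nat.add_mul_mod_self_left]
        exact Nat.mod_eq_of_lt (by omega)
      rw [h3]
      omega
  set S := SS k d z w L u c with hS
  have memS : ∀ x, x ∈ S ↔ x < z + c + 1 ∧ ((x < k ∧ PP d z w L u x) ∨
      (k ≤ x ∧ x < 2 * k ∧ ¬ PP d z w L u (x - k)) ∨ (2 * k ≤ x ∧ PP d z w L u (x - 2 * k))) := by
    intro x
    rw [hS, SS, mem_filter, mem_range]
  -- avoidance
  have hav : ∀ x ∈ S, x + k ∉ S := by
    intro x hx hxk
    rw [memS] at hx hxk
    obtain ⟨h1, h2⟩ := hx
    obtain ⟨h3, h4⟩ := hxk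
    rcases h2 with ⟨h2, h5⟩ | ⟨h2, h6, h5⟩ | ⟨h2, h5⟩
    · rcases h4 with ⟨h4, h7⟩ | ⟨h4, h8, h7⟩ | ⟨h4, h7⟩
      · omega
      · rw [Nat.add_sub_cancel] at h7; exact h7 h5
      · omega
    · rcases h4 with ⟨h4, h7⟩ | ⟨h4, h8, h7⟩ | ⟨h4, h7⟩
      · omega
      · omega
      · rw [show x + k - 2 * k = x - k by omega] at h7; exact h5 h7
    · omega
  -- complement
  have hcomp : ∀ y, y < z + q → y ∉ S → y + k ∈ S := by
    intro y hy hyS
    rw [memS] at hyS ⊢
    refine ⟨by omega, ?_⟩
    have hy1 : y < z + c + 1 := by omega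
    rcases Nat.lt_or_ge y k with h | h
    · right; left
      refine ⟨by omega, by omega, ?_⟩
      rw [Nat.add_sub_cancel]
      intro hP
      exact hyS ⟨hy1, Or.inl ⟨h, hP⟩⟩
    · right; right
      refine ⟨by omega, ?_⟩
      rw [show y + k - 2 * k = y - k by omega]
      by_contra hP
      exact hyS ⟨hy1, Or.inr (Or.inl ⟨h, by omega, hP⟩)⟩
  refine Ex_of_window (z := z) S hav ?_ ?_
  · -- many early elements
    have hinj : (range (u * s + t + 1)).card ≤ (S.filter (fun x => x ≤ z)).card := by
      refine Finset.card_le_card_of_injOn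
        (fun i => ((i + w) / u) * L + (i + w) % u - w) ?_ ?_
      · intro i hi
        simp only [coe_range, Set.mem_Iio] at hi
        simp only [coe_filter, Set.mem_ofPred_eq]
        have h1 := Nat.div_add_mod (i + w) u
        have h2 : (i + w) % u < u := Nat.mod_lt _ (by omega)
        have h3 : (i + w) / u ≤ s := by
          have : (i + w) < u * (s + 1) := by rw [mul_add]; omega
          have := Nat.div_lt_of_lt_mul this
          omega
        generalize (i + w) / u = I at *
        generalize (i + w) % u = J at *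
        have h4 : I * L ≤ s * L := Nat.mul_le_mul_right _ h3
        have h5 : u * I ≤ I * L := by rw [mul_comm u]; exact Nat.mul_le_mul_left _ huL.le
        have h6 : I * L + J - w ≤ z := by omega
        refine ⟨?_, h6⟩
        rw [memS]
        refine ⟨by omega, Or.inl ⟨by omega, Or.inl ⟨h6, ?_⟩⟩⟩
        have h7 : I * L + J - w + w = J + L * I := by rw [mul_comm L]; omega
        rw [h7, Nat.add_mul_mod_self_left, Nat.mod_eq_of_lt (by omega)]
        exact h2
      · intro i hi j hj hij
        simp only [coe_range, Set.mem_Iio] at hi hj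
        simp only at hij
        have h1 := Nat.div_add_mod (i + w) u
        have h2 : (i + w) % u < u := Nat.mod_lt _ (by omega)
        have h1' := Nat.div_add_mod (j + w) u
        have h2' : (j + w) % u < u := Nat.mod_lt _ (by omega)
        generalize (i + w) / u = I at *
        generalize (i + w) % u = J at *
        generalize (j + w) / u = I' at *
        generalize (j + w) % u = J' at *
        have h5 : u * I ≤ I * L := by rw [mul_comm u]; exact Nat.mul_le_mul_left _ huL.le
        have h5' : u * I' ≤ I' * L := by rw [mul_comm u]; exact Nat.mul_le_mul_left _ huL.le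
        have h6 : J + L * I = J' + L * I' := by rw [mul_comm L, mul_comm L]; omega
        have h7 : J = J' := by
          have := congrArg (· % L) h6
          simp only [Nat.add_mul_mod_self_left] at this
          rwa [Nat.mod_eq_of_lt (by omega), Nat.mod_eq_of_lt (by omega)] at this
        have h8 : L * I = L * I' := by omega
        have h9 : I = I' := Nat.eq_of_mul_eq_mul_left (by omega) h8
        rw [h7, h9] at h1
        omega
    rwa [card_range] at hinj
  · -- windows
    intro e he hez
    have hPe : PP d z w L u e := by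
      rw [memS] at he
      rcases he.2 with h | h | h
      · exact h.2
      · omega
      · omega
    have hre := hblk e hez hPe
    set Ms := (Finset.Ico (e + q) (e + k)).filter (fun y => y ∉ S) with hMs
    have hMsu : Ms.card ≤ u - 1 := by
      -- description of the missing elements
      have hdesc : ∀ y ∈ Ms, (y < k ∧ e + q ≤ y ∧ y < d) ∨
          (k ≤ y ∧ y < e + k ∧ e + q ≤ y ∧ PP d z w L u (y - k)) := by
        intro y hy
        rw [hMs, mem_filter, Finset.mem_Ico, memS] at hy
        obtain ⟨⟨h1, h2⟩, h3⟩ := hy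
        have h4 : y < z + c + 1 := by omega
        rcases Nat.lt_or_ge y k with h | h
        · left
          refine ⟨h, h1, ?_⟩
          by_contra hcon
          exact h3 ⟨h4, Or.inl ⟨h, Or.inr (by omega)⟩⟩
        · right
          refine ⟨h, h2, h1, ?_⟩
          by_contra hcon
          exact h3 ⟨h4, Or.inr (Or.inl ⟨h, by omega, hcon⟩)⟩
      rcases Nat.lt_or_ge (e + 1) u with heu | heu
      · -- `e ≤ u - 2`
        rw [← card_range (u - 1)]
        refine Finset.card_le_card_of_injOn (fun y => if y < k then y - q else y - k) ?_ ?_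
        · intro y hy
          have h1 := hdesc y hy
          simp only [coe_range, Set.mem_Iio]
          split <;> omega
        · intro y hy y' hy' hyy
          have h1 := hdesc y hy
          have h1' := hdesc y' hy'
          simp only at hyy
          split at hyy <;> split at hyy <;> omega
      · have hcardE : ((range u).erase ((e + w) % L)).card = u - 1 := by
          rw [card_erase_of_mem (mem_range.2 hre), card_range]
        rw [← hcardE]
        have hdist : ∀ y y', y < y' → y' < y + L → (y + w) % L ≠ (y' + w) % L := by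
          intro y y' h1 h2 h3
          have h4 : (y' + w) % L = (y + w) % L := h3.symm
          have h5 : L ∣ (y' + w) - (y + w) := (Nat.modEq_iff_dvd' (by omega)).1 h3
          have h6 := Nat.le_of_dvd (by omega) h5
          omega
        refine Finset.card_le_card_of_injOn (fun y => (y - k + w) % L) ?_ ?_
        · intro y hy
          have h1 := hdesc y hy
          have h2 : k ≤ y ∧ y < e + k ∧ e + q ≤ y ∧ PP d z w L u (y - k) := by
            rcases h1 with h1 | h1
            · omega
            · exact h1
          simp only [coe_erase, coe_range, Set.mem_sdiff, Set.mem_Iio, Set.mem_singleton_iff]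
          refine ⟨hblk _ (by omega) h2.2.2.2, hdist _ _ (by omega) (by omega)⟩
        · intro y hy y' hy' hyy
          have h1 := hdesc y hy
          have h1' := hdesc y' hy'
          simp only at hyy
          by_contra hne
          rcases Nat.lt_or_gt_of_ne hne with h | h
          · exact hdist (y - k) (y' - k) (by omega) (by omega) hyy
          · exact hdist (y' - k) (y - k) (by omega) (by omega) hyy.symm
    have h1 : b + 1 ≤ (Finset.Ico e (e + k) \ Ms).card := by
      have h2 := Finset.le_card_sdiff Ms (Finset.Ico e (e + k))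
      rw [Nat.card_Ico] at h2
      omega
    refine h1.trans ?_
    refine Finset.card_le_card_of_injOn (fun y => if y ∈ S then y else y + k) ?_ ?_
    · intro y hy
      simp only [coe_sdiff, Set.mem_sdiff, Finset.mem_coe, Finset.mem_Ico] at hy
      simp only [coe_filter, Set.mem_ofPred_eq]
      split
      · rename_i hyS
        exact ⟨hyS, by omega, by omega⟩
      · rename_i hyS
        have h2 : y < e + q := by
          by_contra hcon
          apply hy.2
          rw [hMs, mem_filter, Finset.mem_Ico]
          exact ⟨⟨by omega, hy.1.2⟩, hyS⟩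
        exact ⟨hcomp y (by omega) hyS, by omega, by omega⟩
    · intro y hy y' hy' hyy
      simp only [coe_sdiff, Set.mem_sdiff, Finset.mem_coe, Finset.mem_Ico] at hy hy'
      simp only at hyy
      split at hyy <;> split at hyy <;> omega

/-- The value for `c < 2 b`, `b < k`. -/
theorem value_big {b c k : ℕ} (hbk : b < k) (hbc : b ≤ c) (hc : c < 2 * b) :
    Ex b c k (b + RR b c k) ∧ ¬ Ex b c k (b + RR b c k + 1) := by
  refine ⟨?_, upper_main hbk hbc hc⟩
  rcases Nat.lt_or_ge k c with hkc | hkc
  · exact lower_main hbk hkc hc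
  · have hR : b + RR b c k + 1 = k := by
      unfold RR
      rw [Nat.div_eq_of_lt (by omega), Nat.mod_eq_of_lt (by omega), min_eq_left (by omega)]
      omega
    exact Ex_lt_k hbc (by omega)

/-- The value for `c < 2 b`, `k ⌊b / k⌋ ≤ c - b`. -/
theorem value_gen {b c k : ℕ} (hk : 0 < k) (hbc : b ≤ c) (hc : c < 2 * b)
    (h : b + k * (b / k) ≤ c) :
    Ex b c k (b + ((k * (b / k + 1) - b) *
        ((k + c - 2 * b - 1) / (2 * b - c + 2 * (k * (b / k + 1) - b))) +
      min (k * (b / k + 1) - b - 1)
        ((k + c - 2 * b - 1) % (2 * b - c + 2 * (k * (b / k + 1) - b))))) ∧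
    ¬ Ex b c k (b + ((k * (b / k + 1) - b) *
        ((k + c - 2 * b - 1) / (2 * b - c + 2 * (k * (b / k + 1) - b))) +
      min (k * (b / k + 1) - b - 1)
        ((k + c - 2 * b - 1) % (2 * b - c + 2 * (k * (b / k + 1) - b)))) + 1) := by
  induction b using Nat.strong_induction_on generalizing c with
  | _ b ih =>
    rcases Nat.lt_or_ge b k with hbk | hbk
    · have h1 := value_big hbk hbc hc
      unfold RR at h1
      rw [Nat.div_eq_of_lt hbk, zero_add, mul_one]
      rw [show 2 * b - c + 2 * (k - b) = 2 * k - c by omega]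
      exact h1
    · have hdiv : b / k = (b - k) / k + 1 := Nat.div_eq_sub_div hk hbk
      have hk1 : k ≤ k * (b / k) := by
        rw [hdiv, mul_add, mul_one]
        exact Nat.le_add_left _ _
      have h1 := ih (b - k) (by omega) (c := c - 2 * k) (by omega) (by omega) (by
        rw [hdiv, mul_add, mul_one] at h
        omega)
      have e1 : k * ((b - k) / k + 1) - (b - k) = k * (b / k + 1) - b := by
        rw [hdiv, mul_add k ((b - k) / k + 1) 1, mul_one]
        omega
      have e2 : k + (c - 2 * k) - 2 * (b - k) - 1 = k + c - 2 * b - 1 := by omega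
      have e3 : 2 * (b - k) - (c - 2 * k) = 2 * b - c := by omega
      rw [e1, e2, e3] at h1
      generalize (k * (b / k + 1) - b) *
        ((k + c - 2 * b - 1) / (2 * b - c + 2 * (k * (b / k + 1) - b))) +
      min (k * (b / k + 1) - b - 1)
        ((k + c - 2 * b - 1) % (2 * b - c + 2 * (k * (b / k + 1) - b))) = R at h1 ⊢
      obtain ⟨h2, h3⟩ := h1
      constructor
      · have h4 := Ex_shift (by omega) hk h2
        rw [show b - k + R + k = b + R by omega, show b - k + k = b by omega,
          show c - 2 * k + 2 * k = c by omega] at h4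
        exact h4
      · intro h4
        apply h3
        apply Ex_of_shift hk
        rw [show b - k + R + 1 + k = b + R + 1 by omega, show b - k + k = b by omega,
          show c - 2 * k + 2 * k = c by omega]
        exact h4

end Pool.Agent.R104.Shift
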