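import Mathlib

set_option autoImplicit false

/-!
`p`-intersection numbers of the graphs `K(n × k)`: definitions and the lower bound.
-/

namespace Pool.Agent.R104.PInter

open Finset

/-- `G` has a `p`-intersection representation on `t` points: finite sets `S v` of points of `Fin t`
such that two distinct vertices are adjacent iff `|S u ∩ S v| ≥ p`. -/
def Rep {V : Type*} (G : SimpleGraph V) (p t : ℕ) : Prop :=
  ∃ S : V → Finset (Fin t), ∀ u v, u ≠ v → (G.Adj u v ↔ p ≤ (S u ∩ S v).card)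

/-- The `p`-intersection number of `G`: the least `t` such that `G` has a `p`-intersection
representation on `t` points. -/
noncomputable def theta {V : Type*} (G : SimpleGraph V) (p : ℕ) : ℕ := sInf {t | Rep G p t}

/-- The graph `K(n × k)`: vertices `(α, l)` with `α ∈ Fin n` (index) and `l ∈ Fin k` (part), adjacent
iff both coordinates differ. -/
def KG (n k : ℕ) : SimpleGraph (Fin n × Fin k) where
  Adj u v := u.1 ≠ v.1 ∧ u.2 ≠ v.2
  symm := ⟨fun _ _ h => ⟨h.1.symm, h.2.symm⟩⟩
  loopless := ⟨fun _ h => h.1 rfl⟩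

/-- indicator -/
def ind {V : Type*} {t : ℕ} (S : V → Finset (Fin t)) (s : Fin t) (v : V) : ℤ :=
  if s ∈ S v then 1 else 0

theorem card_inter {V : Type*} {t : ℕ} (S : V → Finset (Fin t)) (u v : V) :
    ((S u ∩ S v).card : ℤ) = ∑ s : Fin t, ind S s u * ind S s v := by
  have h : ∀ s : Fin t, ind S s u * ind S s v = if s ∈ S u ∩ S v then 1 else 0 := by
    intro s
    unfold ind
    by_cases h1 : s ∈ S u <;> by_cases h2 : s ∈ S v <;> simp [h1, h2]
  rw [Finset.sum_congr rfl (fun s _ => h s), Finset.sum_boole]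
  congr 2
  ext s
  simp

theorem ind_sq {V : Type*} {t : ℕ} (S : V → Finset (Fin t)) (s : Fin t) (v : V) :
    ind S s v * ind S s v = ind S s v := by
  unfold ind
  split <;> simp

/-- The pointwise inequality. -/
theorem pointwise {n p : ℕ} (hn : 2 ≤ n) (hp : 1 ≤ p) (x : Fin n → ℤ) :
    (2 * (p : ℤ) - 1) * ((∑ α, x α) ^ 2 - ∑ α, x α ^ 2)
      - 2 * p * (n - 1) * (∑ α, x α ^ 2 - ∑ α, x α) ≤ n * (n - 1) * p ^ 2 := by
  have hcs : (∑ α, x α) ^ 2 ≤ n * ∑ α, x α ^ 2 := by
    have := sq_sum_le_card_mul_sum_sq (s := (univ : Finset (Fin n))) (f := x)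
    simpa using this
  generalize (∑ α, x α ^ 2) = Q at *
  generalize (∑ α, x α) = T at *
  have hn' : (2 : ℤ) ≤ n := by exact_mod_cast hn
  have hp' : (1 : ℤ) ≤ p := by exact_mod_cast hp
  have hnn : (0 : ℤ) < n := by linarith
  refine le_of_mul_le_mul_left ?_ hnn
  have h1 : (2 * (p : ℤ) * n - 1) * T ^ 2 ≤ (2 * (p : ℤ) * n - 1) * (n * Q) := by
    apply mul_le_mul_of_nonneg_left hcs
    nlinarith
  have h2 : 0 ≤ ((n : ℤ) - 1) * (T - n * p) ^ 2 := mul_nonneg (by linarith) (sq_nonneg _)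
  nlinarith [h1, h2]

/-- The lower bound. -/
theorem lower {n k p t : ℕ} (hn : 2 ≤ n) (hp : 1 ≤ p) (h : Rep (KG n k) p t) :
    k * (k - 1) ≤ p * t := by
  obtain ⟨S, hS⟩ := h
  rcases Nat.eq_zero_or_pos k with rfl | hk
  · simp
  -- number of vertices of index `α` containing the point `s`
  set x : Fin t → Fin n → ℤ := fun s α => ∑ l : Fin k, ind S s (α, l) with hx
  have hC : ∀ s, (∑ α, x s α) ^ 2 - ∑ α, x s α ^ 2 =
      ∑ α, ∑ β ∈ univ.erase α, ∑ l, ∑ m, ind S s (α, l) * ind S s (β, m) := by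
    intro s
    have h1 : (∑ α, x s α) ^ 2 = ∑ α, (x s α ^ 2 + ∑ β ∈ univ.erase α, x s α * x s β) := by
      rw [sq, Finset.sum_mul_sum]
      refine Finset.sum_congr rfl (fun α _ => ?_)
      rw [← Finset.add_sum_erase univ _ (mem_univ α), sq]
    rw [h1, Finset.sum_add_distrib, add_sub_cancel_left]
    refine Finset.sum_congr rfl (fun α _ => Finset.sum_congr rfl (fun β _ => ?_))
    rw [hx]
    simp only
    rw [Finset.sum_mul_sum]
  have hB : ∀ s, ∑ α, x s α ^ 2 - ∑ α, x s α =
      ∑ α, ∑ l, ∑ m ∈ univ.erase l, ind S s (α, l) * ind S s (α, m) := by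
    intro s
    rw [← Finset.sum_sub_distrib]
    refine Finset.sum_congr rfl (fun α _ => ?_)
    rw [hx]
    simp only
    rw [sq, Finset.sum_mul_sum, ← Finset.sum_sub_distrib]
    refine Finset.sum_congr rfl (fun l _ => ?_)
    rw [← Finset.add_sum_erase univ _ (mem_univ l), ind_sq, add_sub_cancel_left]
  have hCs : (n : ℤ) * (n - 1) * (k * (k - 1)) * p ≤
      ∑ s, ((∑ α, x s α) ^ 2 - ∑ α, x s α ^ 2) := by
    have h1 : ∑ s, ((∑ α, x s α) ^ 2 - ∑ α, x s α ^ 2) =
        ∑ α : Fin n, ∑ β ∈ univ.erase α, ∑ l : Fin k, ∑ m : Fin k,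
          ((S (α, l) ∩ S (β, m)).card : ℤ) := by
      rw [Finset.sum_congr rfl (fun s _ => hC s), Finset.sum_comm]
      refine Finset.sum_congr rfl (fun α _ => ?_)
      rw [Finset.sum_comm]
      refine Finset.sum_congr rfl (fun β _ => ?_)
      rw [Finset.sum_comm]
      refine Finset.sum_congr rfl (fun l _ => ?_)
      rw [Finset.sum_comm]
      refine Finset.sum_congr rfl (fun m _ => ?_)
      rw [card_inter]
    rw [h1]
    have h2 : ∀ α : Fin n, ∀ β ∈ univ.erase α, ∀ l : Fin k, ((k : ℤ) - 1) * p ≤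
        ∑ m : Fin k, ((S (α, l) ∩ S (β, m)).card : ℤ) := by
      intro α β hβ l
      have h3 : ∑ m ∈ univ.erase l, (p : ℤ) ≤ ∑ m : Fin k, ((S (α, l) ∩ S (β, m)).card : ℤ) := by
        refine (Finset.sum_le_sum (fun m hm => ?_)).trans
          (Finset.sum_le_sum_of_subset_of_nonneg (Finset.erase_subset l univ)
            (fun _ _ _ => Int.natCast_nonneg _))
        have h4 : (KG n k).Adj (α, l) (β, m) :=
          ⟨(Finset.ne_of_mem_erase hβ).symm, (Finset.ne_of_mem_erase hm).symm⟩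
        have h5 := (hS _ _ h4.ne).1 h4
        exact_mod_cast h5
      rw [Finset.sum_const, card_erase_of_mem (mem_univ l), card_univ, Fintype.card_fin,
        nsmul_eq_mul, Nat.cast_sub hk] at h3
      simpa using h3
    calc (n : ℤ) * (n - 1) * (k * (k - 1)) * p
        = ∑ α : Fin n, ∑ β ∈ univ.erase α, ∑ l : Fin k, ((k : ℤ) - 1) * p := by
          simp only [Finset.sum_const, card_univ, Fintype.card_fin, nsmul_eq_mul,
            card_erase_of_mem (mem_univ _)]
          rw [Nat.cast_sub (by omega)]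
          push_cast
          ring
      _ ≤ _ := Finset.sum_le_sum (fun α _ => Finset.sum_le_sum (fun β hβ =>
          Finset.sum_le_sum (fun l _ => h2 α β hβ l)))
  have hBs : ∑ s, (∑ α, x s α ^ 2 - ∑ α, x s α) ≤ (n : ℤ) * (k * (k - 1)) * (p - 1) := by
    have h1 : ∑ s, (∑ α, x s α ^ 2 - ∑ α, x s α) =
        ∑ α : Fin n, ∑ l : Fin k, ∑ m ∈ univ.erase l,
          ((S (α, l) ∩ S (α, m)).card : ℤ) := by
      rw [Finset.sum_congr rfl (fun s _ => hB s), Finset.sum_comm]
      refine Finset.sum_congr rfl (fun α _ => ?_)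
      rw [Finset.sum_comm]
      refine Finset.sum_congr rfl (fun l _ => ?_)
      rw [Finset.sum_comm]
      refine Finset.sum_congr rfl (fun m _ => ?_)
      rw [card_inter]
    rw [h1]
    calc _ ≤ ∑ α : Fin n, ∑ l : Fin k, ∑ m ∈ univ.erase l, ((p : ℤ) - 1) := by
          refine Finset.sum_le_sum (fun α _ => Finset.sum_le_sum (fun l _ =>
            Finset.sum_le_sum (fun m hm => ?_)))
          have h4 : (α, l) ≠ (α, m) := by
            intro h
            exact (Finset.ne_of_mem_erase hm).symm (Prod.ext_iff.1 h).2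
          have h5 : ¬ (KG n k).Adj (α, l) (α, m) := fun h => h.1 rfl
          have h6 := mt (hS _ _ h4).2 h5
          push Not at h6
          have h7 : ((S (α, l) ∩ S (α, m)).card : ℤ) < p := by exact_mod_cast h6
          linarith
      _ = (n : ℤ) * (k * (k - 1)) * (p - 1) := by
          simp only [Finset.sum_const, card_univ, Fintype.card_fin, nsmul_eq_mul,
            card_erase_of_mem (mem_univ _)]
          rw [Nat.cast_sub hk]
          push_cast
          ring
  have hsum := Finset.sum_le_sum (s := (univ : Finset (Fin t)))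
    (fun s _ => pointwise hn hp (x s))
  rw [Finset.sum_sub_distrib, ← Finset.mul_sum, ← Finset.mul_sum, Finset.sum_const, card_univ,
    Fintype.card_fin, nsmul_eq_mul] at hsum
  have hn' : (2 : ℤ) ≤ n := by exact_mod_cast hn
  have hp' : (1 : ℤ) ≤ p := by exact_mod_cast hp
  have hk' : (1 : ℤ) ≤ k := by exact_mod_cast hk
  set C := ∑ s, ((∑ α, x s α) ^ 2 - ∑ α, x s α ^ 2) with hCdef
  set B := ∑ s, (∑ α, x s α ^ 2 - ∑ α, x s α) with hBdef
  have h1 : (2 * (p : ℤ) - 1) * ((n : ℤ) * (n - 1) * (k * (k - 1)) * p) ≤ (2 * (p : ℤ) - 1) * C :=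
    mul_le_mul_of_nonneg_left hCs (by linarith)
  have h2 : 2 * (p : ℤ) * (n - 1) * B ≤ 2 * (p : ℤ) * (n - 1) * ((n : ℤ) * (k * (k - 1)) * (p - 1)) :=
    mul_le_mul_of_nonneg_left hBs (mul_nonneg (by linarith) (by linarith))
  have h3 : ((n : ℤ) * (n - 1) * p) * (k * (k - 1)) ≤ ((n : ℤ) * (n - 1) * p) * (p * t) := by
    nlinarith [h1, h2, hsum]
  have h4 : 0 < (n : ℤ) * (n - 1) * p := by
    apply mul_pos (mul_pos (by linarith) (by linarith)) (by linarith)
  have h5 := le_of_mul_le_mul_left h3 h4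
  have h6 : ((k * (k - 1) : ℕ) : ℤ) ≤ ((p * t : ℕ) : ℤ) := by
    rw [Nat.cast_mul, Nat.cast_sub hk]
    push_cast
    linarith
  exact_mod_cast h6

end Pool.Agent.R104.PInter
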