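import Mathlib
import Pool.Agent.R104.PInter

set_option autoImplicit false
set_option linter.unusedSectionVars false
set_option linter.unusedVariables false

/-!
`p`-intersection numbers of the graphs `K(n × k)`: the upper bound.
-/

namespace Pool.Agent.R104.PInter

open Finset

theorem rep_of_finset {V ι : Type*} [DecidableEq ι] {G : SimpleGraph V} {p : ℕ} (T : Finset ι)
    (S : V → Finset ι) (hST : ∀ v, S v ⊆ T)
    (h : ∀ u v, u ≠ v → (G.Adj u v ↔ p ≤ (S u ∩ S v).card)) : Rep G p T.card := by
  classical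
  refine ⟨fun v => univ.filter (fun i : Fin T.card => (T.equivFin.symm i : ι) ∈ S v), ?_⟩
  intro u v huv
  rw [h u v huv]
  have : (univ.filter (fun i : Fin T.card => (T.equivFin.symm i : ι) ∈ S u) ∩
      univ.filter (fun i : Fin T.card => (T.equivFin.symm i : ι) ∈ S v)).card
      = (S u ∩ S v).card := by
    refine Finset.card_bij (fun i _ => (T.equivFin.symm i : ι)) ?_ ?_ ?_
    · intro i hi
      rw [mem_inter, mem_filter, mem_filter] at hi
      exact mem_inter.2 ⟨hi.1.2, hi.2.2⟩
    · intro i _ j _ hij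
      exact T.equivFin.symm.injective (Subtype.ext hij)
    · intro z hz
      rw [mem_inter] at hz
      refine ⟨T.equivFin ⟨z, hST u hz.1⟩, ?_, ?_⟩
      · rw [mem_inter, mem_filter, mem_filter]
        simp [hz.1, hz.2]
      · simp
  rw [this]

section ring

variable {R : Type*} [CommRing R] [Fintype R] [DecidableEq R]

open Classical in
/-- orbits of multiplication by powers of `z` -/
noncomputable def orb (z a : R) : Finset R := univ.filter (fun c => ∃ i : ℕ, c = z ^ i * a)

theorem mem_orb {z a c : R} : c ∈ orb z a ↔ ∃ i : ℕ, c = z ^ i * a := by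
  classical
  simp [orb]

theorem orb_mul {z : R} {p : ℕ} (hp : 1 ≤ p) (hz : z ^ p = 1) (a : R) (i : ℕ) :
    orb z (z ^ i * a) = orb z a := by
  ext c
  rw [mem_orb, mem_orb]
  constructor
  · rintro ⟨j, rfl⟩
    exact ⟨j + i, by ring⟩
  · rintro ⟨j, rfl⟩
    refine ⟨j + (p * i - i), ?_⟩
    have h1 : z ^ (p * i - i) * z ^ i = 1 := by
      rw [← pow_add, Nat.sub_add_cancel (Nat.le_mul_of_pos_left i hp), pow_mul, hz, one_pow]
    calc z ^ j * a = z ^ j * (z ^ (p * i - i) * z ^ i) * a := by rw [h1, mul_one]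
      _ = _ := by ring

theorem orb_eq {z : R} {a a' : R}
    (h : orb z a = orb z a') : ∃ i : ℕ, a' = z ^ i * a := by
  have : a' ∈ orb z a' := mem_orb.2 ⟨0, by simp⟩
  rw [← h] at this
  exact mem_orb.1 this

theorem pow_inj_of {z : R} {p : ℕ} (hz : z ^ p = 1) (hp : 1 ≤ p)
    (hu : ∀ i, 0 < i → i < p → IsUnit (z ^ i - 1))
    {a : R} (ha : a ≠ 0) {i j : ℕ} (hi : i < p) (hj : j < p) (h : z ^ i * a = z ^ j * a) :
    i = j := by
  have hzu : IsUnit z := IsUnit.of_pow_eq_one hz (by omega)
  by_contra hij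
  wlog hlt : i < j generalizing i j
  · exact this hj hi h.symm (Ne.symm hij) (by omega)
  have h1 : z ^ i * ((z ^ (j - i) - 1) * a) = 0 := by
    have : z ^ j = z ^ i * z ^ (j - i) := by rw [← pow_add]; congr 1; omega
    rw [this] at h
    linear_combination -h
  have h2 := (IsUnit.mul_right_eq_zero (hzu.pow i)).1 h1
  have h3 := (IsUnit.mul_right_eq_zero (hu (j - i) (by omega) (by omega))).1 h2
  exact ha h3

theorem pow_mod' {z : R} {p : ℕ} (hz : z ^ p = 1) (i : ℕ) : z ^ (i % p) = z ^ i := by
  conv_rhs => rw [← Nat.div_add_mod i p, pow_add, pow_mul, hz, one_pow, one_mul]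

theorem orb_eq_image {z : R} {p : ℕ} (hp : 1 ≤ p) (hz : z ^ p = 1) (a : R) :
    orb z a = (range p).image (fun i => z ^ i * a) := by
  ext c
  rw [mem_orb, mem_image]
  constructor
  · rintro ⟨i, rfl⟩
    refine ⟨i % p, mem_range.2 (Nat.mod_lt _ (by omega)), ?_⟩
    rw [pow_mod' hz]
  · rintro ⟨i, _, rfl⟩
    exact ⟨i, rfl⟩

theorem card_orb {z : R} {p : ℕ} (hp : 1 ≤ p) (hz : z ^ p = 1)
    (hu : ∀ i, 0 < i → i < p → IsUnit (z ^ i - 1)) {a : R} (ha : a ≠ 0) :
    (orb z a).card = p := by
  rw [orb_eq_image hp hz, card_image_of_injOn, card_range]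
  intro i hi j hj hij
  simp only [coe_range, Set.mem_Iio] at hi hj
  exact pow_inj_of hz hp hu ha hi hj hij

/-- the class of `(a, b)` -/
noncomputable def cls (z : R) (ab : R × R) : Finset R × R := (orb z ab.1, ab.2)

theorem card_image_cls {z : R} {p : ℕ} (hp : 1 ≤ p) (hz : z ^ p = 1)
    (hu : ∀ i, 0 < i → i < p → IsUnit (z ^ i - 1)) (X : Finset (R × R))
    (hX0 : ∀ ab ∈ X, ab.1 ≠ 0) (hX : ∀ ab ∈ X, ∀ i : ℕ, (z ^ i * ab.1, ab.2) ∈ X) :
    X.card = p * (X.image (cls z)).card := by
  rw [Finset.card_eq_sum_card_image (cls z) X, Finset.sum_const_nat (m := p), mul_comm]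
  intro y hy
  rw [mem_image] at hy
  obtain ⟨⟨a, b⟩, hab, rfl⟩ := hy
  have : X.filter (fun x => cls z x = cls z (a, b)) = (orb z a).image (fun c => (c, b)) := by
    ext ⟨c, d⟩
    rw [mem_filter, mem_image]
    constructor
    · rintro ⟨h1, h2⟩
      unfold cls at h2
      rw [Prod.mk.injEq] at h2
      simp only at h2
      obtain ⟨i, hi⟩ := orb_eq h2.1.symm
      exact ⟨c, mem_orb.2 ⟨i, hi⟩, by rw [h2.2]⟩
    · rintro ⟨c', hc', h⟩
      rw [Prod.mk.injEq] at h
      obtain ⟨rfl, rfl⟩ := h
      obtain ⟨i, rfl⟩ := mem_orb.1 hc'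
      refine ⟨hX _ hab i, ?_⟩
      unfold cls
      simp only
      rw [orb_mul hp hz]
  rw [this, card_image_of_injective _ (fun x y h => (Prod.ext_iff.1 h).1)]
  exact card_orb hp hz hu (hX0 _ hab)

variable {n k p : ℕ} {z : R} {x : Fin n → R} {l : Fin k → R}

/-- the pairs `(a, b)` whose block contains the vertex `v` -/
noncomputable def XX (z : R) (x : Fin n → R) (l : Fin k → R) (v : Fin n × Fin k) : Finset (R × R) := by
  classical
  exact univ.filter (fun ab => ab.1 ≠ 0 ∧ ∃ i : ℕ, z ^ i * ab.1 * x v.1 + ab.2 = l v.2)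

theorem mem_XX {v : Fin n × Fin k} {a b : R} : (a, b) ∈ XX z x l v ↔
    a ≠ 0 ∧ ∃ i : ℕ, z ^ i * a * x v.1 + b = l v.2 := by
  classical
  simp [XX]

theorem XX_closed (hp : 1 ≤ p) (hz : z ^ p = 1) {v : Fin n × Fin k} {a b : R}
    (h : (a, b) ∈ XX z x l v) (i : ℕ) : (z ^ i * a, b) ∈ XX z x l v := by
  rw [mem_XX] at h ⊢
  obtain ⟨h1, j, hj⟩ := h
  have hzu : IsUnit z := IsUnit.of_pow_eq_one hz (by omega)
  refine ⟨?_, j + (p * i - i), ?_⟩
  · intro h0
    exact h1 ((IsUnit.mul_right_eq_zero (hzu.pow i)).1 h0)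
  · have h2 : z ^ (p * i - i) * z ^ i = 1 := by
      rw [← pow_add, Nat.sub_add_cancel (Nat.le_mul_of_pos_left i hp), pow_mul, hz, one_pow]
    calc z ^ (j + (p * i - i)) * (z ^ i * a) * x v.1 + b
        = z ^ j * (z ^ (p * i - i) * z ^ i) * a * x v.1 + b := by ring
      _ = l v.2 := by rw [h2, mul_one, hj]

theorem image_inter_cls (hp : 1 ≤ p) (hz : z ^ p = 1) (u v : Fin n × Fin k) :
    (XX z x l u).image (cls z) ∩ (XX z x l v).image (cls z) =
      (XX z x l u ∩ XX z x l v).image (cls z) := by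
  apply Finset.Subset.antisymm
  · intro y hy
    rw [mem_inter, mem_image, mem_image] at hy
    obtain ⟨⟨⟨a, b⟩, h1, rfl⟩, ⟨⟨c, d⟩, h2, h3⟩⟩ := hy
    unfold cls at h3
    rw [Prod.mk.injEq] at h3
    simp only at h3
    obtain ⟨i, hi⟩ := orb_eq h3.1
    rw [mem_image]
    refine ⟨(a, b), mem_inter.2 ⟨h1, ?_⟩, rfl⟩
    rw [hi, ← h3.2]
    exact XX_closed hp hz h2 i
  · exact Finset.image_inter_subset _ _ _

/-- **The construction.** -/
theorem rep_ring (hp : 1 ≤ p) (hz : z ^ p = 1) (hu : ∀ i, 0 < i → i < p → IsUnit (z ^ i - 1))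
    (hx : ∀ a, IsUnit (x a)) (hxx : ∀ a b, a ≠ b → ∀ i j : ℕ, IsUnit (z ^ i * x a - z ^ j * x b))
    (hl : Function.Injective l) :
    ∃ t, Rep (KG n k) p t ∧ p * t = (Fintype.card R - 1) * Fintype.card R := by
  classical
  set P : Finset (R × R) := univ.filter (fun ab => ab.1 ≠ 0) with hP
  have hzu : IsUnit z := IsUnit.of_pow_eq_one hz (by omega)
  refine ⟨(P.image (cls z)).card, ?_, ?_⟩
  swap
  · rw [← card_image_cls hp hz hu P]
    · have : P = (univ.erase (0 : R)) ×ˢ (univ : Finset R) := by
        ext ⟨a, b⟩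
        simp [hP]
      rw [this, card_product, card_erase_of_mem (mem_univ _), card_univ]
    · intro ab hab
      exact (mem_filter.1 hab).2
    · intro ab hab i
      rw [hP, mem_filter] at hab ⊢
      refine ⟨mem_univ _, fun h0 => hab.2 ?_⟩
      exact (IsUnit.mul_right_eq_zero (hzu.pow i)).1 h0
  have hcardS : ∀ u v : Fin n × Fin k,
      (XX z x l u ∩ XX z x l v).card =
        p * ((XX z x l u).image (cls z) ∩ (XX z x l v).image (cls z)).card := by
    intro u v
    rw [image_inter_cls hp hz, ← card_image_cls hp hz hu]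
    · rintro ⟨a, b⟩ hab
      exact (mem_XX.1 (mem_inter.1 hab).1).1
    · rintro ⟨a, b⟩ hab i
      rw [mem_inter] at hab ⊢
      exact ⟨XX_closed hp hz hab.1 i, XX_closed hp hz hab.2 i⟩
  refine rep_of_finset (P.image (cls z)) (fun v => (XX z x l v).image (cls z)) ?_ ?_
  · intro v
    apply Finset.image_subset_image
    rintro ⟨a, b⟩ hab
    rw [hP, mem_filter]
    exact ⟨mem_univ _, (mem_XX.1 hab).1⟩
  rintro ⟨α, s⟩ ⟨β, t⟩ huv
  have hppos : 0 < p := hp
  have hcs := hcardS (α, s) (β, t)
  constructor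
  · -- adjacent
    rintro ⟨hαβ, hst⟩
    simp only at hαβ hst
    refine Nat.le_of_mul_le_mul_left (c := p) ?_ hppos
    rw [← hcs]
    have hst' : l s - l t ≠ 0 := fun h => hst (hl (sub_eq_zero.1 h))
    have h1 : ((range p) ×ˢ (range p)).card ≤ (XX z x l (α, s) ∩ XX z x l (β, t)).card := by
      -- the solution of the two equations
      have hsol : ∀ ij : ℕ × ℕ, ∃ a : R, a * (z ^ ij.1 * x α - z ^ ij.2 * x β) = l s - l t := by
        intro ij
        obtain ⟨w, hw⟩ := hxx α β hαβ ij.1 ij.2
        refine ⟨(l s - l t) * ↑(w⁻¹), ?_⟩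
        rw [← hw, mul_assoc, Units.inv_mul, mul_one]
      choose f hf using hsol
      have hf0 : ∀ ij, f ij ≠ 0 := by
        intro ij h0
        apply hst'
        rw [← hf ij, h0, zero_mul]
      refine Finset.card_le_card_of_injOn
        (fun ij => (f ij, l s - z ^ ij.1 * f ij * x α)) ?_ ?_
      · rintro ⟨i, j⟩ hij
        simp only [Finset.coe_inter, Set.mem_inter_iff, Finset.mem_coe]
        rw [mem_XX, mem_XX]
        refine ⟨⟨hf0 _, i, by ring⟩, ⟨hf0 _, j, ?_⟩⟩
        have := hf (i, j)
        simp only at this ⊢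
        linear_combination -this
      · rintro ⟨i, j⟩ hij ⟨i', j'⟩ hij' h
        simp only [Finset.coe_product, Finset.coe_range, Set.mem_prod, Set.mem_Iio] at hij hij'
        simp only [Prod.mk.injEq] at h
        have hx1 := hf (i, j)
        have hx2 := hf (i', j')
        simp only at hx1 hx2
        rw [← h.1] at hx2 h
        obtain ⟨_, h2⟩ := h
        have e1 : (z ^ i * f (i, j)) * x α = (z ^ i' * f (i, j)) * x α := by
          linear_combination -h2
        have e2 : z ^ i * f (i, j) = z ^ i' * f (i, j) := (hx α).mul_right_cancel e1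
        have e3 := pow_inj_of hz hp hu (hf0 _) hij.1 hij'.1 e2
        subst e3
        have e4 : (z ^ j * f (i, j)) * x β = (z ^ j' * f (i, j)) * x β := by
          linear_combination hx2 - hx1
        have e5 := pow_inj_of hz hp hu (hf0 _) hij.2 hij'.2 ((hx β).mul_right_cancel e4)
        rw [e5]
    rwa [card_product, card_range] at h1
  · -- non-adjacent
    contrapose!
    intro hadj
    have hadj' : α = β ∨ s = t := by
      by_contra h
      push Not at h
      exact hadj ⟨h.1, h.2⟩
    refine Nat.lt_of_mul_lt_mul_left (a := p) ?_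
    rw [← hcs]
    by_cases hαβ : α = β
    · -- same index
      subst hαβ
      have hst : s ≠ t := fun h => huv (by rw [h])
      have hunit : ∀ i j : ℕ, i < p → j < p → i ≠ j → IsUnit (z ^ i - z ^ j) := by
        intro i j hi hj hij
        rcases lt_or_gt_of_ne hij with h | h
        · have e : z ^ i - z ^ j = -(z ^ i * (z ^ (j - i) - 1)) := by
            have : z ^ j = z ^ i * z ^ (j - i) := by rw [← pow_add]; congr 1; omega
            rw [this]; ring
          rw [e]
          exact ((hzu.pow i).mul (hu _ (by omega) (by omega))).neg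
        · have e : z ^ i - z ^ j = (z ^ j * (z ^ (i - j) - 1)) := by
            have : z ^ i = z ^ j * z ^ (i - j) := by rw [← pow_add]; congr 1; omega
            rw [this]; ring
          rw [e]
          exact ((hzu.pow j).mul (hu _ (by omega) (by omega)))
      have hsub : XX z x l (α, s) ∩ XX z x l (α, t) ⊆ (range p).offDiag.image
          (fun ij => (Ring.inverse ((z ^ ij.1 - z ^ ij.2) * x α) * (l s - l t),
            l s - z ^ ij.1 * (Ring.inverse ((z ^ ij.1 - z ^ ij.2) * x α) * (l s - l t)) * x α)) := by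
        rintro ⟨a, b⟩ hab
        rw [mem_inter, mem_XX, mem_XX] at hab
        obtain ⟨⟨ha, i, hi⟩, ⟨_, j, hj⟩⟩ := hab
        simp only at hi hj
        rw [← pow_mod' hz i] at hi
        rw [← pow_mod' hz j] at hj
        have hip := Nat.mod_lt i hppos
        have hjp := Nat.mod_lt j hppos
        generalize i % p = i at hi hip
        generalize j % p = j at hj hjp
        have hij : i ≠ j := by
          rintro rfl
          exact hst (hl (hi.symm.trans hj))
        have hw := (hunit i j hip hjp hij).mul (hx α)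
        have e1 : a = Ring.inverse ((z ^ i - z ^ j) * x α) * (l s - l t) := by
          have e2 : ((z ^ i - z ^ j) * x α) * a = l s - l t := by
            rw [← hi, ← hj]; ring
          rw [← e2, ← mul_assoc, Ring.inverse_mul_cancel _ hw, one_mul]
        rw [mem_image]
        refine ⟨(i, j), ?_, ?_⟩
        · rw [mem_offDiag]
          exact ⟨mem_range.2 hip, mem_range.2 hjp, hij⟩
        · simp only
          rw [← e1]
          refine Prod.ext rfl ?_
          simp only
          rw [← hi]
          ring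
      have h1 := (card_le_card hsub).trans card_image_le
      rw [offDiag_card, card_range] at h1
      have : 0 < p * p := Nat.mul_pos hppos hppos
      omega
    · -- same part
      have hst : s = t := hadj'.resolve_left hαβ
      subst hst
      have : XX z x l (α, s) ∩ XX z x l (β, s) = ∅ := by
        rw [Finset.eq_empty_iff_forall_notMem]
        rintro ⟨a, b⟩ hab
        rw [mem_inter, mem_XX, mem_XX] at hab
        obtain ⟨⟨ha, i, hi⟩, ⟨_, j, hj⟩⟩ := hab
        simp only at hi hj
        have e2 : (z ^ i * x α - z ^ j * x β) * a = 0 := by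
          linear_combination hi - hj
        exact ha ((IsUnit.mul_right_eq_zero (hxx α β hαβ i j)).1 e2)
      rw [this, card_empty]
      exact Nat.mul_pos hppos hppos

end ring

end Pool.Agent.R104.PInter
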