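import Mathlib
import Pool.Agent.R104.PInterUp

set_option autoImplicit false
set_option linter.unusedSectionVars false
set_option linter.unusedVariables false

/-!
`p`-intersection numbers of the graphs `K(n × k)`: moduli for the construction.
-/

namespace Pool.Agent.R104.PInter

open Finset Polynomial

open scoped Nat

theorem unit_of {K : ℕ} (hK : 0 < K) (w : ℤ) (h : ∀ q : ℕ, q.Prime → q ∣ K → ¬ (q : ℤ) ∣ w) :
    IsUnit ((w : ℤ) : ZMod K) := by
  rw [ZMod.coe_int_isUnit_iff_isCoprime, Int.isCoprime_iff_gcd_eq_one]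
  by_contra hg
  obtain ⟨q, hq, hqd⟩ := Nat.exists_prime_and_dvd hg
  apply h q hq
  · have h1 : (q : ℤ) ∣ (K : ℤ) := (Int.natCast_dvd_natCast.2 hqd).trans (Int.gcd_dvd_left ..)
    exact_mod_cast h1
  · exact (Int.natCast_dvd_natCast.2 hqd).trans (Int.gcd_dvd_right ..)

theorem good_mod {n p N K k : ℕ} (hn : 1 ≤ n) (hp : 1 ≤ p) (hN : (n ^ p + p)! ∣ N)
    (hK : K = (eval (N : ℤ) (cyclotomic p ℤ)).natAbs) (hK1 : 1 ≤ K) (hk : k ≤ K) :
    ∃ t, Rep (KG n k) p t ∧ p * t = (K - 1) * K := by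
  classical
  have : NeZero K := ⟨by omega⟩
  have hKd : (K : ℤ) ∣ (N : ℤ) ^ p - 1 := by
    have h1 : eval (N : ℤ) (cyclotomic p ℤ) ∣ eval (N : ℤ) (X ^ p - 1 : ℤ[X]) :=
      Polynomial.eval_dvd (cyclotomic.dvd_X_pow_sub_one p ℤ)
    rw [eval_sub, eval_pow, eval_X, eval_one] at h1
    rw [hK]
    exact Int.natAbs_dvd.2 h1
  -- prime divisors of `K`
  have hq : ∀ q : ℕ, q.Prime → q ∣ K → n ^ p + p < q ∧ IsPrimitiveRoot ((N : ℕ) : ZMod q) p := by
    intro q hq hqK
    have := Fact.mk hq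
    have h1 : (q : ℤ) ∣ (N : ℤ) ^ p - 1 := (Int.natCast_dvd_natCast.2 hqK).trans hKd
    have h2 : ¬ q ∣ N := by
      intro h
      have h3 : (q : ℤ) ∣ (N : ℤ) ^ p :=
        (Int.natCast_dvd_natCast.2 h).trans (dvd_pow_self _ (by omega))
      have h4 : (q : ℤ) ∣ 1 := by
        have := dvd_sub h3 h1
        simpa using this
      have h5 : q ∣ 1 := by exact_mod_cast h4
      exact hq.one_lt.ne' (Nat.dvd_one.1 h5)
    have h3 : n ^ p + p < q := by
      by_contra hcon
      exact h2 ((hq.dvd_factorial.2 (not_lt.1 hcon)).trans hN)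
    refine ⟨h3, ?_⟩
    have : NeZero ((p : ℕ) : ZMod q) := by
      refine ⟨fun h => ?_⟩
      rw [ZMod.natCast_eq_zero_iff] at h
      have := Nat.le_of_dvd (by omega) h
      omega
    rw [← Polynomial.isRoot_cyclotomic_iff, Polynomial.IsRoot.def]
    have h4 : ((eval (N : ℤ) (cyclotomic p ℤ) : ℤ) : ZMod q) = 0 := by
      rw [ZMod.intCast_zmod_eq_zero_iff_dvd]
      rw [← Int.dvd_natAbs, ← hK]
      exact_mod_cast hqK
    have h5 := Polynomial.eval_intCast_map (Int.castRingHom (ZMod q)) (cyclotomic p ℤ) (N : ℤ)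
    rw [map_cyclotomic] at h5
    simp only [Int.cast_natCast, eq_intCast] at h5
    rw [h5, h4]
  -- the embedding of the parts
  let l : Fin k → ZMod K := fun i => ((i : ℕ) : ZMod K)
  have hl : Function.Injective l := by
    intro i j hij
    have h1 : (((i : ℕ) : ZMod K)).val = (((j : ℕ) : ZMod K)).val := congrArg ZMod.val hij
    rw [ZMod.val_natCast_of_lt (by omega), ZMod.val_natCast_of_lt (by omega)] at h1
    exact Fin.ext h1
  have hnp : n ≤ n ^ p := Nat.le_self_pow (by omega) n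
  have hz : ((N : ℕ) : ZMod K) ^ p = 1 := by
    have h1 : (((N : ℤ) ^ p - 1 : ℤ) : ZMod K) = 0 := by
      rw [ZMod.intCast_zmod_eq_zero_iff_dvd]
      exact hKd
    push_cast at h1
    exact sub_eq_zero.1 h1
  have key := rep_ring (R := ZMod K) (n := n) (k := k) (p := p) (z := ((N : ℕ) : ZMod K))
    (x := fun a => (((a : ℕ) + 1 : ℕ) : ZMod K)) (l := l) hp hz ?_ ?_ ?_ hl
  · rw [ZMod.card] at key
    exact key
  · intro i hi hip
    have h1 := unit_of (K := K) (by omega) ((N : ℤ) ^ i - 1) (by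
      intro q hqp hqK hdvd
      obtain ⟨_, h2⟩ := hq q hqp hqK
      apply h2.pow_ne_one_of_pos_of_lt (by omega) hip
      have h3 : (((N : ℤ) ^ i - 1 : ℤ) : ZMod q) = 0 := by
        rw [ZMod.intCast_zmod_eq_zero_iff_dvd]
        exact hdvd
      push_cast at h3
      exact sub_eq_zero.1 h3)
    push_cast at h1
    exact h1
  · intro a
    have h1 := unit_of (K := K) (by omega) (((a : ℕ) + 1 : ℕ) : ℤ) (by
      intro q hqp hqK hdvd
      obtain ⟨h2, _⟩ := hq q hqp hqK
      have h3 : q ∣ (a : ℕ) + 1 := by exact_mod_cast hdvd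
      have := Nat.le_of_dvd (by omega) h3
      omega)
    rw [Int.cast_natCast] at h1
    exact h1
  · intro a b hab i j
    have h1 := unit_of (K := K) (by omega) ((N : ℤ) ^ i * (((a : ℕ) + 1 : ℕ) : ℤ) -
        (N : ℤ) ^ j * (((b : ℕ) + 1 : ℕ) : ℤ)) (by
      intro q hqp hqK hdvd
      obtain ⟨h2, h2'⟩ := hq q hqp hqK
      have h3 : ((((N : ℤ) ^ i * (((a : ℕ) + 1 : ℕ) : ℤ) -
        (N : ℤ) ^ j * (((b : ℕ) + 1 : ℕ) : ℤ)) : ℤ) : ZMod q) = 0 := by
        rw [ZMod.intCast_zmod_eq_zero_iff_dvd]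
        exact hdvd
      rw [Int.cast_sub, Int.cast_mul, Int.cast_mul, Int.cast_pow, Int.cast_pow, Int.cast_natCast,
        Int.cast_natCast, Int.cast_natCast, sub_eq_zero] at h3
      have h4 := congrArg (fun y => y ^ p) h3
      simp only [mul_pow, ← pow_mul] at h4
      rw [mul_comm i p, mul_comm j p, pow_mul, pow_mul, h2'.pow_eq_one, one_pow, one_pow, one_mul,
        one_mul] at h4
      have h5 : ((((a : ℕ) + 1) ^ p : ℕ) : ZMod q) = ((((b : ℕ) + 1) ^ p : ℕ) : ZMod q) := by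
        rw [Nat.cast_pow, Nat.cast_pow]
        exact h4
      have h6 : ((a : ℕ) + 1) ^ p ≤ n ^ p := Nat.pow_le_pow_left (by omega) p
      have h7 : ((b : ℕ) + 1) ^ p ≤ n ^ p := Nat.pow_le_pow_left (by omega) p
      rw [ZMod.natCast_eq_natCast_iff'] at h5
      rw [Nat.mod_eq_of_lt (by omega), Nat.mod_eq_of_lt (by omega)] at h5
      have h8 := Nat.pow_left_injective (by omega : p ≠ 0) h5
      apply hab
      apply Fin.ext
      omega)
    rw [Int.cast_sub, Int.cast_mul, Int.cast_mul, Int.cast_pow, Int.cast_pow, Int.cast_natCast,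
        Int.cast_natCast, Int.cast_natCast] at h1
    exact h1

end Pool.Agent.R104.PInter
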