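import Pool.Agent.H502R2.TWords

/-!
The type of a numerical semigroup in terms of its Kunz coordinates.
-/

set_option autoImplicit false

namespace Pool.Agent.R104.PT

open Finset Pool.Agent.H502R2

/-- the set of pseudo-Frobenius numbers -/
def PF (S : Set ℕ) : Set ℕ := {x | x ∉ S ∧ ∀ s ∈ S, s ≠ 0 → x + s ∈ S}

/-- maximality of a residue, in terms of Kunz coordinates -/
def MaxK (k : ℕ → ℕ) (m i : ℕ) : Prop :=
  ∀ j, 1 ≤ j → j < m → (i + j < m → k (i + j) < k i + k j) ∧
    (m < i + j → k (i + j - m) < k i + k j + 1)

open Classical in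
/-- the number of maximal residues -/
noncomputable def tk (k : ℕ → ℕ) (m : ℕ) : ℕ := ((Ico 1 m).filter (fun i => MaxK k m i)).card

theorem PF_eq {S : AddSubmonoid ℕ} {g : ℕ} (hS : S ∈ SG g) :
    PF (S : Set ℕ) = (fun i => i + (kz S i - 1) * mul S) ''
      {i | 1 ≤ i ∧ i < mul S ∧ MaxK (kz S) (mul S) i} := by
  have hm := mul_spec hS
  ext x
  constructor
  · rintro ⟨hx, hall⟩
    have hmod := Nat.mod_lt x hm.2
    have h1 : 1 ≤ x % mul S := by
      by_contra hc
      have h0 : x % mul S = 0 := by omega
      apply hx
      rw [SetLike.mem_coe, mem_iff' hS, h0, kz_zero hS]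
      exact Nat.zero_le _
    have hk1 := kz_pos hS h1 hmod
    -- x + m in S, x not in S
    have hxm := hall (mul S) hm.1 (by omega)
    rw [SetLike.mem_coe, mem_iff' hS, Nat.add_mod_right, Nat.add_div_right _ hm.2] at hxm
    have hx' : ¬ kz S (x % mul S) ≤ x / mul S := fun h => hx ((mem_iff' hS x).2 h)
    have hk : x / mul S = kz S (x % mul S) - 1 := by omega
    have hxe : x = x % mul S + (kz S (x % mul S) - 1) * mul S := by
      rw [← hk, mul_comm]
      exact (Nat.mod_add_div x (mul S)).symm
    refine ⟨x % mul S, ⟨h1, hmod, ?_⟩, hxe.symm⟩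
    intro j hj1 hjm
    have hj := hall (j + kz S j * mul S) (kz_spec hS j) (by omega)
    have e : x + (j + kz S j * mul S) =
        (x % mul S + j) + (kz S (x % mul S) - 1 + kz S j) * mul S := by
      calc x + (j + kz S j * mul S)
          = (x % mul S + (kz S (x % mul S) - 1) * mul S) + (j + kz S j * mul S) := by rw [← hxe]
        _ = _ := by ring
    rw [SetLike.mem_coe, e] at hj
    have hkj := kz_pos hS hj1 hjm
    constructor
    · intro _
      rw [mem_iff hS] at hj
      omega
    · intro hlt
      have e2 : (x % mul S + j) + (kz S (x % mul S) - 1 + kz S j) * mul S =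
          (x % mul S + j - mul S) + (kz S (x % mul S) + kz S j) * mul S := by
        have e3 : kz S (x % mul S) + kz S j = (kz S (x % mul S) - 1 + kz S j) + 1 := by omega
        rw [e3, add_mul (kz S (x % mul S) - 1 + kz S j) 1, one_mul]
        omega
      rw [e2, mem_iff hS] at hj
      omega
  · rintro ⟨i, ⟨hi1, him, hmax⟩, rfl⟩
    have hk1 := kz_pos hS hi1 him
    refine ⟨?_, ?_⟩
    · rw [SetLike.mem_coe, mem_iff hS]
      omega
    · intro s hs hs0
      rw [SetLike.mem_coe] at hs ⊢
      have hsm := Nat.mod_lt s hm.2
      have hs' := (mem_iff' hS s).1 hs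
      have hse : s = s % mul S + (s / mul S) * mul S := by
        rw [mul_comm]
        exact (Nat.mod_add_div s (mul S)).symm
      rcases Nat.eq_zero_or_pos (s % mul S) with h0 | h0
      · -- multiple of m
        have h1 : 1 ≤ s / mul S := by
          by_contra hc
          have : s / mul S = 0 := by omega
          rw [h0, this] at hse
          omega
        have e : i + (kz S i - 1) * mul S + s = i + (kz S i - 1 + s / mul S) * mul S := by
          calc i + (kz S i - 1) * mul S + s
              = i + (kz S i - 1) * mul S + (s % mul S + (s / mul S) * mul S) := by rw [← hse]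
            _ = _ := by rw [h0]; ring
        rw [e, mem_iff hS]
        omega
      · have hm2 := hmax (s % mul S) h0 hsm
        have e : i + (kz S i - 1) * mul S + s =
            (i + s % mul S) + (kz S i - 1 + s / mul S) * mul S := by
          calc i + (kz S i - 1) * mul S + s
              = i + (kz S i - 1) * mul S + (s % mul S + (s / mul S) * mul S) := by rw [← hse]
            _ = _ := by ring
        rw [e]
        rcases Nat.lt_trichotomy (i + s % mul S) (mul S) with h | h | h
        · have h2 := hm2.1 h
          rw [mem_iff hS]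
          omega
        · rw [h]
          have : mul S + (kz S i - 1 + s / mul S) * mul S = 0 + (kz S i - 1 + s / mul S + 1) * mul S := by
            ring
          rw [this, mem_iff hS, kz_zero hS]
          exact Nat.zero_le _
        · have h2 := hm2.2 h
          have e2 : (i + s % mul S) + (kz S i - 1 + s / mul S) * mul S =
              (i + s % mul S - mul S) + (kz S i - 1 + s / mul S + 1) * mul S := by
            rw [add_mul (kz S i - 1 + s / mul S) 1, one_mul]
            omega
          rw [e2, mem_iff hS]
          omega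

theorem PF_ncard {S : AddSubmonoid ℕ} {g : ℕ} (hS : S ∈ SG g) :
    (PF (S : Set ℕ)).ncard = tk (kz S) (mul S) := by
  classical
  have hm := mul_spec hS
  rw [PF_eq hS, Set.InjOn.ncard_image]
  · rw [tk, ← Set.ncard_coe_finset]
    congr 1
    ext i
    simp only [Set.mem_ofPred_eq, coe_filter, mem_Ico]
    tauto
  · rintro i ⟨hi1, him, _⟩ j ⟨hj1, hjm, _⟩ h
    have h1 := congrArg (· % mul S) h
    simp only [Nat.add_mul_mod_self_right] at h1
    rw [Nat.mod_eq_of_lt him, Nat.mod_eq_of_lt hjm] at h1
    exact h1

theorem tk_congr {k k' : ℕ → ℕ} {m : ℕ} (h : ∀ i < m, k i = k' i) : tk k m = tk k' m := by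
  classical
  unfold tk
  congr 1
  apply filter_congr
  intro i hi
  rw [mem_Ico] at hi
  unfold MaxK
  refine forall_congr' fun j => ?_
  refine imp_congr_right fun hj1 => ?_
  refine imp_congr_right fun hjm => ?_
  rw [h i hi.2, h j hjm]
  refine and_congr ?_ ?_
  · refine imp_congr_right fun hlt => ?_
    rw [h _ hlt]
  · refine imp_congr_right fun hlt => ?_
    rw [h (i + j - m) (by omega)]

end Pool.Agent.R104.PT
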