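import Pool.Agent.R104.PT1

/-!
Signed sums over words, and the local structure of the type.
-/

set_option autoImplicit false

namespace Pool.Agent.R104.PT

open Finset Pool.Agent.H502R2

/-- words as a finset -/
noncomputable def TWf (g : ℕ) : Finset (List ℕ) := (TW_finite g).toFinset

theorem mem_TWf {g : ℕ} {w : List ℕ} : w ∈ TWf g ↔ w ∈ TW g := by
  rw [TWf, Set.Finite.mem_toFinset]

/-- number of maximal positions of a word -/
noncomputable def tw (w : List ℕ) : ℕ := tk (kw w) (w.length + 1)

theorem Sw'_mem {g : ℕ} {w : List ℕ} (hw : w ∈ TW g) : Sw' w ∈ T3 g := by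
  classical
  rw [T3, mem_filter, mem_SF]
  refine ⟨TW_maps g w hw, ?_⟩
  rintro ⟨i, hi, h4⟩
  rw [Sw', dif_pos ⟨hw.1, hw.2.1⟩] at hi h4
  rw [mul_Sw] at hi
  rw [kz_Sw hw.1 hw.2.1 hi] at h4
  have := kw_le hw.1 i
  omega

theorem Sw'_tk {g : ℕ} {w : List ℕ} (hw : w ∈ TW g) :
    tk (kz (Sw' w)) (mul (Sw' w)) = tw w := by
  rw [Sw', dif_pos ⟨hw.1, hw.2.1⟩, mul_Sw, tw]
  exact tk_congr fun i hi => kz_Sw hw.1 hw.2.1 hi

theorem sum_T3 (g : ℕ) : ∑ S ∈ T3 g, (-1 : ℤ) ^ (tk (kz S) (mul S)) =
    ∑ w ∈ TWf g, (-1 : ℤ) ^ (tw w) := by
  have hinj : Set.InjOn Sw' (TWf g : Set (List ℕ)) := by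
    intro a ha b hb hab
    exact TW_inj g (mem_TWf.1 ha) (mem_TWf.1 hb) hab
  have hmaps : Set.MapsTo Sw' (TWf g : Set (List ℕ)) (T3 g : Set (AddSubmonoid ℕ)) := by
    intro w hw
    exact Sw'_mem (mem_TWf.1 hw)
  symm
  apply sum_nbij Sw' hmaps hinj
  · apply surjOn_of_injOn_of_card_le Sw' hmaps hinj
    refine (T3_le g).trans ?_
    rw [TWf, Set.ncard_eq_toFinset_card _ (TW_finite g)]
  · intro w hw
    rw [Sw'_tk (mem_TWf.1 hw)]

/-! access to concatenations -/

theorem kw_app_left {u t : List ℕ} {i : ℕ} (hi : i ≤ u.length) : kw (u ++ t) i = kw u i := by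
  unfold kw
  split_ifs with h
  · rfl
  · rw [List.getD_append _ _ _ _ (by omega)]

theorem kw_app_right {u t : List ℕ} {i : ℕ} (hi : u.length < i) :
    kw (u ++ t) i = kw t (i - u.length) := by
  unfold kw
  rw [if_neg (by omega), if_neg (by omega), List.getD_append_right _ _ _ _ (by omega)]
  congr 1
  omega

theorem count_eq (v : List ℕ) :
    ∑ x ∈ range v.length, (if kw v (x + 1) = 2 then 1 else 0) = v.count 2 := by
  induction v with
  | nil => simp
  | cons a l ih =>
    rw [List.length_cons, sum_range_succ', List.count_cons, ← ih]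
    have h1 : ∀ x, kw (a :: l) (x + 1 + 1) = kw l (x + 1) := by
      intro x
      simp [kw]
    have h2 : kw (a :: l) (0 + 1) = a := by simp [kw]
    simp_rw [h1, h2]
    congr 1
    by_cases h : a = 2 <;> simp [h]

/-- every letter one far from the end is not maximal -/
def NF (L : ℕ) (w : List ℕ) : Prop :=
  ∀ i, 1 ≤ i → i + 6 * L ≤ w.length → kw w i = 1 →
    ∃ j, 1 ≤ j ∧ i + j ≤ w.length ∧ kw w j = 1 ∧ kw w (i + j) = 2

/-- status of a position of the left part -/
def PU (L : ℕ) (u : List ℕ) (i : ℕ) : Prop :=
  kw u i = 3 ∨ (kw u i = 2 ∧ ∀ j, 1 ≤ j → i + j ≤ L → ¬ (kw u j = 1 ∧ kw u (i + j) = 3))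

/-- status of a position of the right part -/
def PZ (L : ℕ) (u z : List ℕ) (r : ℕ) : Prop :=
  kw z (6 * L + 1 - r) = 2 ∨ (kw z (6 * L + 1 - r) = 1 ∧
    (∀ s, 1 ≤ s → s < r → kw u s = 1 → kw z (6 * L + 1 - (r - s)) ≠ 2) ∧
    (∀ q, 1 ≤ q → q ≤ L → kw u q = 3 → kw u (q + r) ≠ 1))

open Classical in
/-- contribution of the two outer parts -/
noncomputable def FF (L : ℕ) (u z : List ℕ) : ℕ :=
  (∑ x ∈ range (7 * L), if PU L u (x + 1) then 1 else 0) +
    ∑ x ∈ range (6 * L), if PZ L u z (6 * L - x) then 1 else 0

theorem tw_local {L : ℕ} {u v z : List ℕ} (hu : u.length = 7 * L) (hz : z.length = 6 * L)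
    (hw : ∀ x ∈ u ++ (v ++ z), 1 ≤ x ∧ x ≤ 3)
    (h3 : ∀ i, L < i → kw (u ++ (v ++ z)) i ≠ 3) (hnf : NF L (u ++ (v ++ z))) :
    tw (u ++ (v ++ z)) = FF L u z + v.count 2 := by
  classical
  set w := u ++ (v ++ z) with hwdef
  have hlen : w.length = 7 * L + (v.length + 6 * L) := by
    rw [hwdef, List.length_append, List.length_append, hu, hz]
  have hle := kw_le hw
  have hge : ∀ {i : ℕ}, 0 < i → i < w.length + 1 → 1 ≤ kw w i := fun h0 hi => kw_ge hw h0 hi
  -- accessors
  have kU : ∀ i, i ≤ 7 * L → kw w i = kw u i := by
    intro i hi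
    rw [hwdef, kw_app_left (by omega)]
  have kV : ∀ x, x < v.length → kw w (7 * L + x + 1) = kw v (x + 1) := by
    intro x hx
    rw [hwdef, kw_app_right (by omega), kw_app_left (by omega)]
    congr 1; omega
  have kZ : ∀ x, 1 ≤ x → kw w (7 * L + v.length + x) = kw z x := by
    intro x hx
    rw [hwdef, kw_app_right (by omega), kw_app_right (by omega)]
    congr 1; omega
  -- letter two beyond L
  have max2 : ∀ i, L < i → kw w i = 2 → MaxK (kw w) (w.length + 1) i := by
    intro i hi h2 j hj1 hj2
    have hj := hge hj1 hj2
    refine ⟨fun hlt => ?_, fun hlt => ?_⟩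
    · have h4 := h3 (i + j) (by omega)
      have h5 := hle (i + j)
      omega
    · have h5 := hle (i + j - (w.length + 1))
      omega
  have notmax1 : ∀ i, 1 ≤ i → i + 6 * L ≤ w.length → kw w i = 1 →
      ¬ MaxK (kw w) (w.length + 1) i := by
    intro i hi1 hi2 h1 hm
    obtain ⟨j, hj1, hj2, hj3, hj4⟩ := hnf i hi1 hi2 h1
    have := (hm j hj1 (by omega)).1 (by omega)
    omega
  -- left part
  have hA : ∀ x ∈ range (7 * L), (if MaxK (kw w) (w.length + 1) (1 + x) then (1 : ℕ) else 0) =
      if PU L u (x + 1) then 1 else 0 := by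
    intro x hx
    rw [mem_range] at hx
    have hiff : MaxK (kw w) (w.length + 1) (1 + x) ↔ PU L u (x + 1) := by
      rw [add_comm 1 x, PU, ← kU (x + 1) (by omega)]
      have h1 := hge (i := x + 1) (by omega) (by omega)
      have h2 := hle (x + 1)
      rcases (show kw w (x + 1) = 1 ∨ kw w (x + 1) = 2 ∨ kw w (x + 1) = 3 by omega) with h | h | h
      · constructor
        · intro hm
          exact absurd hm (notmax1 _ (by omega) (by omega) h)
        · rintro (h' | ⟨h', _⟩) <;> omega
      · constructor
        · intro hm
          right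
          refine ⟨h, fun j hj1 hj2 hj => ?_⟩
          rw [← kU j (by omega), ← kU (x + 1 + j) (by omega)] at hj
          have := (hm j hj1 (by omega)).1 (by omega)
          omega
        · rintro (h' | ⟨_, h'⟩)
          · omega
          · intro j hj1 hj2
            have hj := hge hj1 hj2
            refine ⟨fun hlt => ?_, fun hlt => ?_⟩
            · by_contra hc
              have h5 := hle (x + 1 + j)
              have h6 : kw w j = 1 := by omega
              have h7 : kw w (x + 1 + j) = 3 := by omega
              have h8 : x + 1 + j ≤ L := by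
                by_contra h9
                exact h3 _ (by omega) h7
              refine h' j hj1 h8 ⟨?_, ?_⟩
              · rw [← kU j (by omega)]; exact h6
              · rw [← kU (x + 1 + j) (by omega)]; exact h7
            · have h5 := hle (x + 1 + j - (w.length + 1))
              omega
      · constructor
        · intro _
          exact Or.inl h
        · intro _ j hj1 hj2
          have hj := hge hj1 hj2
          refine ⟨fun hlt => ?_, fun hlt => ?_⟩
          · have h5 := hle (x + 1 + j)
            omega
          · have h5 := hle (x + 1 + j - (w.length + 1))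
            omega
    by_cases h : PU L u (x + 1)
    · rw [if_pos h, if_pos (hiff.2 h)]
    · rw [if_neg h, if_neg (fun h' => h (hiff.1 h'))]
  -- middle part
  have hB : ∀ x ∈ range v.length,
      (if MaxK (kw w) (w.length + 1) (1 + (7 * L + x)) then (1 : ℕ) else 0) =
      if kw v (x + 1) = 2 then 1 else 0 := by
    intro x hx
    rw [mem_range] at hx
    have e : 1 + (7 * L + x) = 7 * L + x + 1 := by ring
    rw [e, ← kV x hx]
    have h1 := hge (i := 7 * L + x + 1) (by omega) (by omega)
    have h2 := hle (7 * L + x + 1)
    have h4 := h3 (7 * L + x + 1) (by omega)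
    rcases (show kw w (7 * L + x + 1) = 1 ∨ kw w (7 * L + x + 1) = 2 by omega) with h | h
    · rw [if_neg (notmax1 _ (by omega) (by omega) h), if_neg (by omega)]
    · rw [if_pos (max2 _ (by omega) h), if_pos h]
  -- right part
  have hC : ∀ x ∈ range (6 * L),
      (if MaxK (kw w) (w.length + 1) (1 + (7 * L + (v.length + x))) then (1 : ℕ) else 0) =
      if PZ L u z (6 * L - x) then 1 else 0 := by
    intro x hx
    rw [mem_range] at hx
    have hiff : MaxK (kw w) (w.length + 1) (1 + (7 * L + (v.length + x))) ↔
        PZ L u z (6 * L - x) := by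
      set i := 1 + (7 * L + (v.length + x)) with hi
      have e1 : 6 * L + 1 - (6 * L - x) = x + 1 := by omega
      have hkz : kw z (x + 1) = kw w i := by
        rw [← kZ (x + 1) (by omega)]
        congr 1; omega
      rw [PZ, e1, hkz]
      have h1 := hge (i := i) (by omega) (by omega)
      have h2 := hle i
      have h4 := h3 i (by omega)
      rcases (show kw w i = 1 ∨ kw w i = 2 by omega) with h | h
      · constructor
        · intro hm
          right
          refine ⟨h, fun s hs1 hs2 hus hzs => ?_, fun q hq1 hq2 hq3 hqr => ?_⟩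
          · have e2 : kw w (i + s) = 2 := by
              rw [← hzs, ← kZ _ (by omega)]
              congr 1; omega
            have e3 : kw w s = 1 := by rw [kU s (by omega)]; exact hus
            have := (hm s hs1 (by omega)).1 (by omega)
            omega
          · have e3 : kw w (q + (6 * L - x)) = 1 := by rw [kU _ (by omega)]; exact hqr
            have e4 : kw w q = 3 := by rw [kU _ (by omega)]; exact hq3
            have h5 := (hm (q + (6 * L - x)) (by omega) (by omega)).2 (by omega)
            have e5 : i + (q + (6 * L - x)) - (w.length + 1) = q := by omega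
            rw [e5] at h5
            omega
        · rintro (h' | ⟨_, ha, hb⟩)
          · omega
          · intro j hj1 hj2
            have hj := hge hj1 hj2
            refine ⟨fun hlt => ?_, fun hlt => ?_⟩
            · by_contra hc
              have h5 := hle (i + j)
              have h6 := h3 (i + j) (by omega)
              have h7 : kw w j = 1 := by omega
              have h8 : kw w (i + j) = 2 := by omega
              refine ha j hj1 (by omega) ?_ ?_
              · rw [← kU j (by omega)]; exact h7
              · rw [← h8, ← kZ _ (by omega)]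
                congr 1; omega
            · by_contra hc
              have h5 := hle (i + j - (w.length + 1))
              have h7 : kw w j = 1 := by omega
              have h8 : kw w (i + j - (w.length + 1)) = 3 := by omega
              have h9 : i + j - (w.length + 1) ≤ L := by
                by_contra h9
                exact h3 _ (by omega) h8
              refine hb (i + j - (w.length + 1)) (by omega) h9 ?_ ?_
              · rw [← kU _ (by omega)]; exact h8
              · have e6 : i + j - (w.length + 1) + (6 * L - x) = j := by omega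
                rw [e6, ← kU j (by omega)]; exact h7
      · constructor
        · intro _
          exact Or.inl h
        · intro _
          exact max2 i (by omega) h
    by_cases h : PZ L u z (6 * L - x)
    · rw [if_pos h, if_pos (hiff.2 h)]
    · rw [if_neg h, if_neg (fun h' => h (hiff.1 h'))]
  rw [tw, tk, card_filter, sum_Ico_eq_sum_range]
  have e0 : w.length + 1 - 1 = 7 * L + (v.length + 6 * L) := by omega
  rw [e0, sum_range_add, sum_range_add, sum_congr rfl hA, sum_congr rfl hB, sum_congr rfl hC,
    count_eq, FF]
  ring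

end Pool.Agent.R104.PT
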