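import Pool.Agent.R104.PT2

/-!
Cancellation in the signed sum over words.
-/

set_option autoImplicit false

namespace Pool.Agent.R104.PT

open Finset Pool.Agent.H502R2
open scoped goldenRatio

/-- compositions into ones and twos -/
def VV : ℕ → Finset (List ℕ)
  | 0 => {[]}
  | 1 => {[1]}
  | n + 2 => (VV (n + 1)).image (List.cons 1) ∪ (VV n).image (List.cons 2)

theorem mem_VV (n : ℕ) : ∀ v : List ℕ, v ∈ VV n ↔ (∀ x ∈ v, x = 1 ∨ x = 2) ∧ v.sum = n := by
  induction n using Nat.twoStepInduction with
  | zero =>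
    intro v
    rw [VV, mem_singleton]
    constructor
    · rintro rfl
      simp
    · rintro ⟨h1, h2⟩
      match v with
      | [] => rfl
      | a :: l =>
        have := h1 a (by simp)
        simp at h2
        omega
  | one =>
    intro v
    rw [VV, mem_singleton]
    constructor
    · rintro rfl
      simp
    · rintro ⟨h1, h2⟩
      match v with
      | [] => simp at h2
      | [a] =>
        simp at h2
        rw [h2]
      | a :: b :: l =>
        have h3 := h1 a (by simp)
        have h4 := h1 b (by simp)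
        simp at h2
        omega
  | more n ih1 ih2 =>
    intro v
    rw [VV, mem_union, mem_image, mem_image]
    constructor
    · rintro (⟨l, hl, rfl⟩ | ⟨l, hl, rfl⟩)
      · rw [ih2] at hl
        refine ⟨?_, ?_⟩
        · intro x hx
          rcases List.mem_cons.1 hx with h | h
          · exact Or.inl h
          · exact hl.1 x h
        · rw [List.sum_cons, hl.2]; ring
      · rw [ih1] at hl
        refine ⟨?_, ?_⟩
        · intro x hx
          rcases List.mem_cons.1 hx with h | h
          · exact Or.inr h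
          · exact hl.1 x h
        · rw [List.sum_cons, hl.2]; ring
    · rintro ⟨h1, h2⟩
      match v with
      | [] => simp at h2
      | a :: l =>
        rw [List.sum_cons] at h2
        rcases h1 a (by simp) with h | h
        · left
          refine ⟨l, ?_, by rw [h]⟩
          rw [ih2]
          exact ⟨fun x hx => h1 x (List.mem_cons_of_mem _ hx), by omega⟩
        · right
          refine ⟨l, ?_, by rw [h]⟩
          rw [ih1]
          exact ⟨fun x hx => h1 x (List.mem_cons_of_mem _ hx), by omega⟩

/-- signed count -/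
def aV (n : ℕ) : ℤ := ∑ v ∈ VV n, (-1 : ℤ) ^ (v.count 2)

theorem aV_rec (n : ℕ) : aV (n + 2) = aV (n + 1) - aV n := by
  unfold aV
  rw [VV, sum_union, sum_image, sum_image]
  · rw [sub_eq_add_neg, ← sum_neg_distrib]
    congr 1
    apply sum_congr rfl
    intro v _
    rw [List.count_cons]
    simp [pow_succ]
  · intro a _ b _ h
    exact (List.cons.inj h).2
  · intro a _ b _ h
    exact (List.cons.inj h).2
  · rw [disjoint_left]
    intro v hv hv'
    rw [mem_image] at hv hv'
    obtain ⟨l, _, rfl⟩ := hv
    obtain ⟨l', _, h⟩ := hv'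
    have := (List.cons.inj h).1
    omega

theorem aV_le (n : ℕ) : |aV n| ≤ 1 := by
  have h0 : aV 0 = 1 := by simp [aV, VV]
  have h1 : aV 1 = 1 := by simp [aV, VV]
  have h3 : ∀ n, aV (n + 3) = - aV n := by
    intro n
    have e1 := aV_rec n
    have e2 := aV_rec (n + 1)
    have e3 : n + 1 + 2 = n + 3 := by ring
    have e4 : n + 1 + 1 = n + 2 := by ring
    rw [e3, e4] at e2
    linarith
  induction n using Nat.strong_induction_on with
  | _ n ih =>
    match n with
    | 0 => rw [h0]; simp
    | 1 => rw [h1]; simp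
    | 2 =>
      have := aV_rec 0
      simp only [zero_add] at this
      rw [this, h0, h1]; simp
    | n + 3 =>
      rw [h3, abs_neg]
      exact ih n (by omega)

theorem VV_card (n : ℕ) : ((VV n).card : ℝ) ≤ φ ^ n := by
  induction n using Nat.twoStepInduction with
  | zero => simp [VV]
  | one =>
    simp only [VV, card_singleton, Nat.cast_one, pow_one]
    exact Real.one_lt_goldenRatio.le
  | more n ih1 ih2 =>
    have h1 : (VV (n + 2)).card ≤ (VV (n + 1)).card + (VV n).card := by
      rw [VV]
      exact (card_union_le _ _).trans (add_le_add card_image_le card_image_le)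
    have h2 : ((VV (n + 2)).card : ℝ) ≤ (VV (n + 1)).card + (VV n).card := by exact_mod_cast h1
    have h3 : φ ^ (n + 2) = φ ^ (n + 1) + φ ^ n := by
      have := Real.goldenRatio_sq
      rw [pow_add, this, pow_succ]; ring
    linarith

/-- lists over `{1,2,3}` of a given length -/
def LL (n : ℕ) : Finset (List ℕ) :=
  (Fintype.piFinset fun _ : Fin n => ({1, 2, 3} : Finset ℕ)).image List.ofFn

theorem LL_card (n : ℕ) : (LL n).card ≤ 3 ^ n := by
  refine card_image_le.trans ?_
  rw [Fintype.card_piFinset]
  simp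

theorem mem_LL {n : ℕ} {l : List ℕ} (h1 : l.length = n) (h2 : ∀ x ∈ l, 1 ≤ x ∧ x ≤ 3) :
    l ∈ LL n := by
  rw [LL, mem_image]
  subst h1
  refine ⟨fun i => l.get i, ?_, List.ofFn_get l⟩
  rw [Fintype.mem_piFinset]
  intro i
  have := h2 (l.get i) (List.get_mem _ _)
  simp only [mem_insert, mem_singleton]
  omega

/-- words without a three beyond `L` -/
noncomputable def Pset (L g : ℕ) : Finset (List ℕ) :=
  open scoped Classical in (TWf g).filter (fun w => ∀ i, L < i → kw w i ≠ 3)

theorem mem_Pset {L g : ℕ} {w : List ℕ} :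
    w ∈ Pset L g ↔ w ∈ TW g ∧ ∀ i, L < i → kw w i ≠ 3 := by
  classical
  rw [Pset, mem_filter, mem_TWf]

theorem TW_len {g : ℕ} {w : List ℕ} (hw : w ∈ TW g) : g ≤ 3 * w.length := by
  obtain ⟨h1, _, h3⟩ := hw
  rw [← h3]
  have : w.sum ≤ w.length • 3 := List.sum_le_card_nsmul w 3 fun x hx => (h1 x hx).2
  rw [smul_eq_mul] at this
  omega

theorem TW_len' {g : ℕ} {w : List ℕ} (hw : w ∈ TW g) : w.length ≤ g := by
  obtain ⟨h1, _, h3⟩ := hw
  rw [← h3]
  have : w.length • 1 ≤ w.sum := List.card_nsmul_le_sum w 1 fun x hx => (h1 x hx).1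
  simpa using this

/-- the two outer parts and the middle -/
def pU (L : ℕ) (w : List ℕ) : List ℕ := w.take (7 * L)
def pZ (L : ℕ) (w : List ℕ) : List ℕ := w.drop (w.length - 6 * L)
def pM (L : ℕ) (w : List ℕ) : List ℕ := (w.drop (7 * L)).take (w.length - 13 * L)

theorem parts {L : ℕ} {w : List ℕ} (h : 13 * L ≤ w.length) :
    w = pU L w ++ (pM L w ++ pZ L w) ∧ (pU L w).length = 7 * L ∧ (pZ L w).length = 6 * L := by
  refine ⟨?_, ?_, ?_⟩
  · rw [pU, pM, pZ]
    have h1 : w.drop (w.length - 6 * L) = (w.drop (7 * L)).drop (w.length - 13 * L) := by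
      rw [List.drop_drop]
      congr 1
      omega
    rw [h1, List.take_append_drop, List.take_append_drop]
  · rw [pU, List.length_take]; omega
  · rw [pZ, List.length_drop]; omega

theorem parts_of {L : ℕ} {u v z : List ℕ} (hu : u.length = 7 * L) (hz : z.length = 6 * L) :
    pU L (u ++ (v ++ z)) = u ∧ pM L (u ++ (v ++ z)) = v ∧ pZ L (u ++ (v ++ z)) = z := by
  have hlen : (u ++ (v ++ z)).length = 7 * L + (v.length + 6 * L) := by
    rw [List.length_append, List.length_append, hu, hz]
  refine ⟨?_, ?_, ?_⟩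
  · rw [pU, ← hu, List.take_left']
    rfl
  · rw [pM, hlen, ← hu, List.drop_left', show u.length + (v.length + 6 * L) - 13 * L = v.length by omega,
      List.take_left']
    · rfl
    · rfl
  · rw [pZ, hlen]
    have : 7 * L + (v.length + 6 * L) - 6 * L = (u ++ v).length := by
      rw [List.length_append]; omega
    rw [this, ← List.append_assoc, List.drop_left']
    rfl

/-- the local value -/
noncomputable def ts (L : ℕ) (w : List ℕ) : ℕ := FF L (pU L w) (pZ L w) + (pM L w).count 2

theorem fiber_eq {L g : ℕ} {w0 : List ℕ} (hw0 : w0 ∈ Pset L g) (hlen : 13 * L ≤ w0.length)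
    (hg : 39 * L ≤ g) :
    (Pset L g).filter (fun w => (pU L w, pZ L w) = (pU L w0, pZ L w0)) =
      (VV (g - (pU L w0).sum - (pZ L w0).sum)).image
        (fun v => pU L w0 ++ (v ++ pZ L w0)) := by
  classical
  obtain ⟨hw, hUl, hZl⟩ := parts hlen
  obtain ⟨hTW, h3⟩ := mem_Pset.1 hw0
  set u := pU L w0 with hu
  set z := pZ L w0 with hz
  set v0 := pM L w0 with hv0
  have hlet := hTW.1
  have hletu : ∀ x ∈ u, 1 ≤ x ∧ x ≤ 3 := fun x hx => hlet x (by rw [hw]; simp [hx])
  have hletz : ∀ x ∈ z, 1 ≤ x ∧ x ≤ 3 := fun x hx => hlet x (by rw [hw]; simp [hx])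
  have hkz3 : ∀ i, kw z i ≠ 3 := by
    intro i
    rcases Nat.eq_zero_or_pos i with h0 | h0
    · rw [h0]; simp [kw]
    · have h4 := h3 (u.length + (v0.length + i)) (by omega)
      rw [hw, kw_app_right (by omega), kw_app_right (by omega)] at h4
      have e : u.length + (v0.length + i) - u.length - v0.length = i := by omega
      rw [e] at h4
      exact h4
  have hku3 : ∀ i, L < i → i ≤ 7 * L → kw u i ≠ 3 := by
    intro i hi1 hi2
    have h4 := h3 i hi1
    rw [hw, kw_app_left (by omega)] at h4
    exact h4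
  ext w
  rw [mem_filter, mem_image]
  constructor
  · rintro ⟨hwP, hpi⟩
    obtain ⟨hTWw, h3w⟩ := mem_Pset.1 hwP
    have hl := TW_len hTWw
    obtain ⟨hwe, hUl', hZl'⟩ := parts (L := L) (w := w) (by omega)
    have e1 : pU L w = u := (Prod.mk.inj hpi).1
    have e2 : pZ L w = z := (Prod.mk.inj hpi).2
    rw [e1, e2] at hwe
    refine ⟨pM L w, ?_, hwe.symm⟩
    rw [mem_VV]
    constructor
    · intro x hx
      have hx1 := hTWw.1 x (by rw [hwe]; simp [hx])
      obtain ⟨n, hn, rfl⟩ := List.getElem_of_mem hx
      have h4 := h3w (u.length + (n + 1)) (by omega)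
      rw [hwe, kw_app_right (by omega), kw_app_left (by omega)] at h4
      have e3 : u.length + (n + 1) - u.length = n + 1 := by omega
      rw [e3, kw, if_neg (by omega), Nat.add_sub_cancel, List.getD_eq_getElem _ _ hn] at h4
      omega
    · have hs := hTWw.2.2
      rw [hwe, List.sum_append, List.sum_append] at hs
      omega
  · rintro ⟨v, hv, rfl⟩
    rw [mem_VV] at hv
    have hpp := parts_of (L := L) (u := u) (v := v) (z := z) hUl hZl
    refine ⟨?_, ?_⟩
    · have hk3 : ∀ i, L < i → kw (u ++ (v ++ z)) i ≠ 3 := by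
        intro i hi
        rcases Nat.lt_or_ge u.length i with h5 | h5
        · rw [kw_app_right h5]
          rcases Nat.lt_or_ge v.length (i - u.length) with h6 | h6
          · rw [kw_app_right h6]
            exact hkz3 _
          · rw [kw_app_left h6]
            intro h7
            rw [kw, if_neg (by omega), List.getD_eq_getElem _ _ (by omega)] at h7
            have := hv.1 _ (List.getElem_mem (by omega : i - u.length - 1 < v.length))
            omega
        · rw [kw_app_left h5]
          exact hku3 i hi (by omega)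
      rw [mem_Pset]
      refine ⟨⟨?_, ?_, ?_⟩, hk3⟩
      · intro x hx
        rw [List.mem_append, List.mem_append] at hx
        rcases hx with h | h | h
        · exact hletu x h
        · have := hv.1 x h
          omega
        · exact hletz x h
      · -- TC
        intro i j hi hj hij
        have hp : ¬ L < i + j + 1 + 1 := by
          intro hlt
          apply hk3 _ hlt
          rw [kw, if_neg (by omega)]
          exact hij
        have e : ∀ n, n < 7 * L → (u ++ (v ++ z)).getD n 0 = w0.getD n 0 := by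
          intro n hn
          rw [List.getD_append _ _ _ _ (by omega)]
          conv_rhs => rw [hw]
          rw [List.getD_append _ _ _ _ (by omega)]
        rw [e _ (by omega)] at hi hj hij
        exact hTW.2.1 i j hi hj hij
      · have hs := hTW.2.2
        rw [hw, List.sum_append, List.sum_append] at hs
        rw [List.sum_append, List.sum_append, hv.2]
        omega
    · rw [hpp.1, hpp.2.2]

theorem cancel {L g : ℕ} (hg : 39 * L ≤ g) :
    |∑ w ∈ Pset L g, (-1 : ℤ) ^ (ts L w)| ≤ 3 ^ (13 * L) := by
  classical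
  have hmaps : ∀ w ∈ Pset L g, (pU L w, pZ L w) ∈ (Pset L g).image (fun w => (pU L w, pZ L w)) :=
    fun w hw => mem_image_of_mem _ hw
  rw [← sum_fiberwise_of_maps_to hmaps]
  refine (abs_sum_le_sum_abs _ _).trans ?_
  have hone : ∀ p ∈ (Pset L g).image (fun w => (pU L w, pZ L w)),
      |∑ w ∈ (Pset L g).filter (fun w => (pU L w, pZ L w) = p), (-1 : ℤ) ^ (ts L w)| ≤ 1 := by
    intro p hp
    rw [mem_image] at hp
    obtain ⟨w0, hw0, rfl⟩ := hp
    have hlen : 13 * L ≤ w0.length := by
      have := TW_len (mem_Pset.1 hw0).1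
      omega
    obtain ⟨hw, hUl, hZl⟩ := parts hlen
    rw [fiber_eq hw0 hlen hg, sum_image]
    · have h1 : ∀ v ∈ VV (g - (pU L w0).sum - (pZ L w0).sum),
          (-1 : ℤ) ^ (ts L (pU L w0 ++ (v ++ pZ L w0))) =
            (-1) ^ (FF L (pU L w0) (pZ L w0)) * (-1) ^ (v.count 2) := by
        intro v _
        have hpp := parts_of (L := L) (u := pU L w0) (v := v) (z := pZ L w0) hUl hZl
        rw [ts, hpp.1, hpp.2.1, hpp.2.2, pow_add]
      rw [sum_congr rfl h1, ← mul_sum, abs_mul, abs_pow, abs_neg, abs_one, one_pow, one_mul]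
      exact aV_le _
    · intro a _ b _ hab
      have h2 := List.append_cancel_left hab
      exact List.append_cancel_right h2
  refine (sum_le_sum hone).trans ?_
  rw [sum_const, nsmul_eq_mul, mul_one]
  have hsub : (Pset L g).image (fun w => (pU L w, pZ L w)) ⊆ LL (7 * L) ×ˢ LL (6 * L) := by
    intro p hp
    rw [mem_image] at hp
    obtain ⟨w0, hw0, rfl⟩ := hp
    have hTW := (mem_Pset.1 hw0).1
    have hlen : 13 * L ≤ w0.length := by
      have := TW_len hTW
      omega
    obtain ⟨hw, hUl, hZl⟩ := parts hlen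
    rw [mem_product]
    refine ⟨mem_LL hUl fun x hx => hTW.1 x ?_, mem_LL hZl fun x hx => hTW.1 x ?_⟩
    · rw [hw]; simp [hx]
    · rw [hw]; simp [hx]
  have hcard := card_le_card hsub
  rw [card_product] at hcard
  have h2 : (LL (7 * L)).card * (LL (6 * L)).card ≤ 3 ^ (7 * L) * 3 ^ (6 * L) :=
    Nat.mul_le_mul (LL_card _) (LL_card _)
  have h3 : 3 ^ (7 * L) * 3 ^ (6 * L) = 3 ^ (13 * L) := by
    rw [← pow_add]; congr 1; ring
  have h4 := hcard.trans (h2.trans (le_of_eq h3))
  exact_mod_cast h4

/-- words with an exceptional position -/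
noncomputable def Fail (L g : ℕ) : Finset (List ℕ) :=
  open scoped Classical in (Pset L g).filter (fun w => ¬ NF L w)

theorem sum_P {L g : ℕ} (hg : 39 * L ≤ g) :
    |∑ w ∈ Pset L g, (-1 : ℤ) ^ (tw w)| ≤ 3 ^ (13 * L) + 2 * (Fail L g).card := by
  classical
  have h1 : ∑ w ∈ Pset L g, (-1 : ℤ) ^ (tw w) = ∑ w ∈ Pset L g, (-1 : ℤ) ^ (ts L w) +
      ∑ w ∈ Pset L g, ((-1 : ℤ) ^ (tw w) - (-1 : ℤ) ^ (ts L w)) := by
    rw [← sum_add_distrib]
    apply sum_congr rfl
    intro w _
    ring
  have h2 : |∑ w ∈ Pset L g, ((-1 : ℤ) ^ (tw w) - (-1 : ℤ) ^ (ts L w))| ≤ 2 * (Fail L g).card := by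
    refine (abs_sum_le_sum_abs _ _).trans ?_
    have h3 : ∀ w ∈ Pset L g, |(-1 : ℤ) ^ (tw w) - (-1 : ℤ) ^ (ts L w)| ≤
        if ¬ NF L w then 2 else 0 := by
      intro w hw
      obtain ⟨hTW, h3⟩ := mem_Pset.1 hw
      by_cases h : NF L w
      · rw [if_neg (not_not.2 h)]
        have hlen : 13 * L ≤ w.length := by
          have := TW_len hTW
          omega
        obtain ⟨hwe, hUl, hZl⟩ := parts hlen
        have h4 := hTW.1
        have key : tw (pU L w ++ (pM L w ++ pZ L w)) = FF L (pU L w) (pZ L w) + (pM L w).count 2 := by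
          apply tw_local hUl hZl
          · rw [← hwe]; exact h4
          · rw [← hwe]; exact h3
          · rw [← hwe]; exact h
        rw [← hwe] at key
        rw [key, ts, sub_self, abs_zero]
      · rw [if_pos h]
        calc |(-1 : ℤ) ^ (tw w) - (-1 : ℤ) ^ (ts L w)|
            ≤ |(-1 : ℤ) ^ (tw w)| + |(-1 : ℤ) ^ (ts L w)| := abs_sub _ _
          _ = 2 := by
            rw [abs_pow, abs_pow, abs_neg, abs_one, one_pow, one_pow]; norm_num
    refine (sum_le_sum h3).trans ?_
    rw [Fail, card_filter]
    push_cast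
    rw [mul_sum]
    apply le_of_eq
    apply sum_congr rfl
    intro w _
    split_ifs <;> simp
  rw [h1]
  exact (abs_add_le _ _).trans (add_le_add (cancel hg) h2)

end Pool.Agent.R104.PT
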