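import Pool.Agent.R104.PT3

/-!
Exceptional words are rare.
-/

set_option autoImplicit false

namespace Pool.Agent.R104.PT

open Finset Pool.Agent.H502R2
open scoped goldenRatio

theorem pair_sum_le {N : ℕ} (S : Finset (Fin N → ℕ)) (J : Finset (Fin N)) (σ : Fin N → Fin N)
    (hσ : Set.InjOn σ (J : Set (Fin N))) (hd : Disjoint J (J.image σ)) (x : ℝ) (hx : 0 ≤ x)
    (ℓ : Fin N → Finset ℕ) (Q : Finset (ℕ × ℕ)) (h1 : ∀ v ∈ S, ∀ k, v k ∈ ℓ k)
    (h2 : ∀ v ∈ S, ∀ j ∈ J, (v j, v (σ j)) ∈ Q) :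
    ∑ v ∈ S, ∏ k, x ^ (v k) ≤ (∑ p ∈ Q, x ^ p.1 * x ^ p.2) ^ J.card *
      ∏ k ∈ (J ∪ J.image σ)ᶜ, ∑ a ∈ ℓ k, x ^ a := by
  classical
  set C := (J ∪ J.image σ)ᶜ with hC
  let Φ : (Fin N → ℕ) → (J → ℕ × ℕ) × (C → ℕ) := fun v => (fun j => (v j, v (σ j)), fun k => v k)
  let F : (J → ℕ × ℕ) × (C → ℕ) → ℝ := fun p =>
    (∏ j, (x ^ (p.1 j).1 * x ^ (p.1 j).2)) * ∏ k, x ^ (p.2 k)
  have hF0 : ∀ p, 0 ≤ F p := fun p => mul_nonneg (prod_nonneg fun _ _ => by positivity)
    (prod_nonneg fun _ _ => by positivity)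
  have hfac : ∀ v : Fin N → ℕ, ∏ k, x ^ (v k) = F (Φ v) := by
    intro v
    have e1 : ∏ k, x ^ (v k) = (∏ k ∈ J ∪ J.image σ, x ^ (v k)) * ∏ k ∈ C, x ^ (v k) := by
      rw [hC, prod_mul_prod_compl]
    have e2 : ∏ k ∈ J ∪ J.image σ, x ^ (v k) = ∏ j ∈ J, (x ^ (v j) * x ^ (v (σ j))) := by
      rw [prod_union hd, prod_image hσ, prod_mul_distrib]
    rw [e1, e2]
    show _ = (∏ j : J, (x ^ (v j) * x ^ (v (σ j)))) * ∏ k : C, x ^ (v k)
    rw [prod_coe_sort J (fun j => x ^ (v j) * x ^ (v (σ j))), prod_coe_sort C (fun k => x ^ (v k))]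
  have hinj : Set.InjOn Φ (S : Set (Fin N → ℕ)) := by
    intro v _ v' _ h
    have h3 : (fun j : J => (v j, v (σ j))) = fun j : J => (v' j, v' (σ j)) := (Prod.mk.inj h).1
    have h4 : (fun k : C => v k) = fun k : C => v' k := (Prod.mk.inj h).2
    funext k
    by_cases hk : k ∈ C
    · exact congrFun h4 ⟨k, hk⟩
    · rw [hC, mem_compl, not_not, mem_union, mem_image] at hk
      rcases hk with hk | ⟨j, hj, rfl⟩
      · exact (Prod.mk.inj (congrFun h3 ⟨k, hk⟩)).1
      · exact (Prod.mk.inj (congrFun h3 ⟨j, hj⟩)).2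
  have hsum : ∑ v ∈ S, ∏ k, x ^ (v k) = ∑ p ∈ S.image Φ, F p := by
    rw [sum_image hinj]
    exact sum_congr rfl fun v _ => hfac v
  have hsub : S.image Φ ⊆ (Fintype.piFinset fun _ : J => Q) ×ˢ (Fintype.piFinset fun k : C => ℓ k) := by
    intro p hp
    rw [mem_image] at hp
    obtain ⟨v, hv, rfl⟩ := hp
    rw [mem_product, Fintype.mem_piFinset, Fintype.mem_piFinset]
    exact ⟨fun j => h2 v hv j j.2, fun k => h1 v hv k⟩
  rw [hsum]
  refine (sum_le_sum_of_subset_of_nonneg hsub fun p _ _ => hF0 p).trans (le_of_eq ?_)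
  rw [sum_product]
  have e3 : ∀ a ∈ Fintype.piFinset fun _ : J => Q, ∑ b ∈ Fintype.piFinset fun k : C => ℓ k, F (a, b) =
      (∏ j, (x ^ (a j).1 * x ^ (a j).2)) * ∏ k : C, ∑ a ∈ ℓ k, x ^ a := by
    intro a _
    rw [prod_univ_sum, mul_sum]
  rw [sum_congr rfl e3, ← sum_mul]
  congr 1
  · have := prod_univ_sum (fun _ : J => Q) (fun (_ : J) (p : ℕ × ℕ) => x ^ p.1 * x ^ p.2)
    rw [← this, prod_const, card_univ, Fintype.card_coe]
  · exact prod_coe_sort C (fun k => ∑ a ∈ ℓ k, x ^ a)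

/-- inverse golden ratio -/
noncomputable def xx : ℝ := φ⁻¹

theorem xx_pos : 0 < xx := inv_pos.2 Real.goldenRatio_pos

theorem xx_sq : xx * xx + xx = 1 := by
  have hB := Real.goldenRatio_sq
  have hA : xx * φ = 1 := inv_mul_cancel₀ Real.goldenRatio_pos.ne'
  linear_combination (-xx + (xx * φ + 1)) * hA - xx ^ 2 * hB

theorem xx_lb : 0.618 < xx := by
  have h1 := xx_sq
  have h2 := xx_pos
  by_contra hc
  push Not at hc
  nlinarith

theorem xx_ub : xx < 0.6181 := by
  have h1 := xx_sq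
  have h2 := xx_pos
  by_contra hc
  push Not at hc
  nlinarith

/-- words failing at a fixed place -/
noncomputable def FL (L g N i : ℕ) : Finset (List ℕ) :=
  open scoped Classical in (Pset L g).filter (fun w => w.length = N ∧
    ∀ j, 1 ≤ j → i + j ≤ N → kw w j = 1 → kw w (i + j) ≠ 2)

/-- the index set of pairs -/
def JJ (L N i : ℕ) : Finset ℕ := (range N).filter (fun k => L ≤ k ∧ k + i < N ∧ k / i % 2 = 0)

theorem JJ_card {L N i : ℕ} (hi : 1 ≤ i) (hN : 20 * L ≤ N) (hiN : i + 6 * L ≤ N) :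
    4 * L ≤ (JJ L N i).card := by
  rcases Nat.lt_or_ge N (4 * i) with h | h
  · -- block zero
    have hsub : Ico L (min i (N - i)) ⊆ JJ L N i := by
      intro k hk
      rw [mem_Ico] at hk
      rw [JJ, mem_filter, mem_range]
      have h1 : k < i := lt_of_lt_of_le hk.2 (min_le_left _ _)
      have h2 : k < N - i := lt_of_lt_of_le hk.2 (min_le_right _ _)
      refine ⟨by omega, hk.1, by omega, ?_⟩
      rw [Nat.div_eq_of_lt h1]
    have h3 := card_le_card hsub
    rw [Nat.card_Ico] at h3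
    have h4 : 5 * L ≤ min i (N - i) := le_min (by omega) (by omega)
    omega
  · have hsub : Ico L (N - 2 * i) ⊆ JJ L N i ∪ (JJ L N i).image (fun k => k - i) := by
      intro k hk
      rw [mem_Ico] at hk
      rw [mem_union]
      rcases Nat.mod_two_eq_zero_or_one (k / i) with h1 | h1
      · left
        rw [JJ, mem_filter, mem_range]
        exact ⟨by omega, hk.1, by omega, h1⟩
      · right
        rw [mem_image]
        refine ⟨k + i, ?_, by omega⟩
        rw [JJ, mem_filter, mem_range, Nat.add_div_right _ hi]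
        exact ⟨by omega, by omega, by omega, by omega⟩
    have h3 := (card_le_card hsub).trans (card_union_le _ _)
    have h4 : ((JJ L N i).image (fun k => k - i)).card ≤ (JJ L N i).card := card_image_le
    rw [Nat.card_Ico] at h3
    omega

theorem FL_card {L g N i : ℕ} (hi : 1 ≤ i) (hg : 60 * L ≤ g) (hiN : i + 6 * L ≤ N) :
    ((FL L g N i).card : ℝ) * xx ^ g ≤ ((2 * xx) * (2 * (xx * xx)) ^ 4) ^ L := by
  classical
  rcases (FL L g N i).eq_empty_or_nonempty with he | ⟨w0, hw0⟩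
  · rw [he]
    have := xx_pos
    simp only [card_empty, Nat.cast_zero, zero_mul]
    positivity
  have hN : 20 * L ≤ N := by
    rw [FL, mem_filter, mem_Pset] at hw0
    have := TW_len hw0.1.1
    omega
  set V : List ℕ → (Fin N → ℕ) := fun w k => kw w (k + 1) with hV
  have hVinj : Set.InjOn V (FL L g N i : Set (List ℕ)) := by
    intro w hw w' hw' h
    rw [mem_coe, FL, mem_filter] at hw hw'
    refine List.ext_getElem (hw.2.1.trans hw'.2.1.symm) fun n h1 h2 => ?_
    have h3 := congrFun h ⟨n, by rw [← hw.2.1]; exact h1⟩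
    simp only [hV, kw, Nat.add_eq_zero_iff, one_ne_zero, and_false, if_false,
      Nat.add_sub_cancel] at h3
    rw [List.getD_eq_getElem _ _ h1, List.getD_eq_getElem _ _ h2] at h3
    exact h3
  have hwt : ∀ w ∈ FL L g N i, ∏ k, xx ^ (V w k) = xx ^ g := by
    intro w hw
    rw [FL, mem_filter, mem_Pset] at hw
    rw [prod_pow_eq_pow_sum]
    congr 1
    have h1 := sum_kw w
    rw [sum_range_succ', hw.2.1, hw.1.1.2.2] at h1
    have h2 : kw w 0 = 0 := by simp [kw]
    rw [h2, add_zero, ← Fin.sum_univ_eq_sum_range (fun k => kw w (k + 1))] at h1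
    exact h1
  let J : Finset (Fin N) := univ.filter (fun k => (k : ℕ) ∈ JJ L N i)
  let σ : Fin N → Fin N := fun k => if h : (k : ℕ) + i < N then ⟨k + i, h⟩ else k
  have hJmem : ∀ k : Fin N, k ∈ J ↔ L ≤ (k : ℕ) ∧ (k : ℕ) + i < N ∧ (k : ℕ) / i % 2 = 0 := by
    intro k
    simp only [J, JJ, mem_filter, mem_univ, true_and, mem_range]
    have := k.2
    tauto
  have hσv : ∀ k ∈ J, ((σ k : Fin N) : ℕ) = k + i := by
    intro k hk
    rw [hJmem] at hk
    simp only [σ]
    rw [dif_pos hk.2.1]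
  have hσ : Set.InjOn σ (J : Set (Fin N)) := by
    intro a ha b hb hab
    have h1 := hσv a ha
    have h2 := hσv b hb
    rw [hab] at h1
    ext
    omega
  have hd : Disjoint J (J.image σ) := by
    rw [disjoint_left]
    intro k hk hk'
    rw [mem_image] at hk'
    obtain ⟨j, hj, rfl⟩ := hk'
    have h1 := hσv j hj
    rw [hJmem] at hk hj
    rw [h1, Nat.add_div_right _ hi] at hk
    omega
  have hJc : J.card = (JJ L N i).card := by
    have : (JJ L N i) = J.image (fun k : Fin N => (k : ℕ)) := by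
      ext n
      rw [mem_image]
      constructor
      · intro hn
        have hn' : n < N := by rw [JJ, mem_filter, mem_range] at hn; exact hn.1
        exact ⟨⟨n, hn'⟩, by simp only [J, mem_filter, mem_univ, true_and]; exact hn, rfl⟩
      · rintro ⟨k, hk, rfl⟩
        simp only [J, mem_filter, mem_univ, true_and] at hk
        exact hk
    rw [this, card_image_of_injective _ Fin.val_injective]
  let ℓ : Fin N → Finset ℕ := fun k => if (k : ℕ) < L then {1, 2, 3} else {1, 2}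
  let Q : Finset (ℕ × ℕ) := {(1, 1), (2, 1), (2, 2)}
  have hlet : ∀ w ∈ FL L g N i, ∀ k : Fin N, 1 ≤ V w k ∧ V w k ≤ 3 ∧ (L ≤ (k : ℕ) → V w k ≠ 3) := by
    intro w hw k
    rw [FL, mem_filter, mem_Pset] at hw
    have h1 := kw_ge hw.1.1.1 (i := k + 1) (by omega) (by rw [hw.2.1]; have := k.2; omega)
    have h2 := kw_le hw.1.1.1 (k + 1)
    exact ⟨h1, h2, fun h3 => hw.1.2 _ (by omega)⟩
  have hmain := pair_sum_le ((FL L g N i).image V) J σ hσ hd xx xx_pos.le ℓ Q (by
    intro v hv k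
    rw [mem_image] at hv
    obtain ⟨w, hw, rfl⟩ := hv
    obtain ⟨h1, h2, h3⟩ := hlet w hw k
    simp only [ℓ]
    split_ifs with h
    · simp only [mem_insert, mem_singleton]; omega
    · have := h3 (by omega)
      simp only [mem_insert, mem_singleton]; omega) (by
    intro v hv j hj
    rw [mem_image] at hv
    obtain ⟨w, hw, rfl⟩ := hv
    obtain ⟨h1, h2, h3⟩ := hlet w hw j
    obtain ⟨h4, h5, h6⟩ := hlet w hw (σ j)
    have hs := hσv j hj
    have hj' := (hJmem j).1 hj
    have h7 := h3 hj'.1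
    have h8 := h6 (by omega)
    have h9 : V w j = 1 → V w (σ j) ≠ 2 := by
      intro h10
      rw [FL, mem_filter] at hw
      have h11 := hw.2.2 (j + 1) (by omega) (by omega) h10
      simp only [hV]
      rw [hs]
      have e : i + ((j : ℕ) + 1) = j + i + 1 := by ring
      rw [e] at h11
      exact h11
    simp only [Q, mem_insert, mem_singleton, Prod.mk.injEq]
    omega)
  rw [sum_image hVinj, sum_congr rfl hwt, sum_const, nsmul_eq_mul] at hmain
  refine hmain.trans ?_
  have hx0 := xx_pos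
  have hx1 := xx_lb
  have hx2 := xx_ub
  have hxs := xx_sq
  -- the pair sum
  have hQ : ∑ p ∈ Q, xx ^ p.1 * xx ^ p.2 = 2 * (xx * xx) := by
    have hx3 : xx * xx = 1 - xx := by linarith
    simp only [Q]
    rw [sum_insert (by decide), sum_insert (by decide), sum_singleton]
    simp only [pow_one]
    rw [pow_two, hx3]
    nlinarith
  have hp1 : 2 * (xx * xx) ≤ 1 := by nlinarith
  have hp0 : 0 ≤ 2 * (xx * xx) := by positivity
  have hprod : ∏ k ∈ (J ∪ J.image σ)ᶜ, ∑ a ∈ ℓ k, xx ^ a ≤ (2 * xx) ^ L := by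
    have h1 : ∀ k : Fin N, ∑ a ∈ ℓ k, xx ^ a = if (k : ℕ) < L then 2 * xx else 1 := by
      intro k
      simp only [ℓ]
      split_ifs with h
      · rw [sum_insert (by decide), sum_insert (by decide), sum_singleton]
        have hx3 : xx * xx = 1 - xx := by linarith
        have e : xx ^ 3 = xx * xx * xx := by ring
        rw [pow_one, pow_two, e, hx3]
        nlinarith
      · rw [sum_insert (by decide), sum_singleton, pow_one, pow_two]
        linarith
    rw [prod_congr rfl fun k _ => h1 k, prod_ite, prod_const, prod_const_one, mul_one]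
    apply pow_le_pow_right₀ (by linarith)
    calc (((J ∪ J.image σ)ᶜ).filter (fun k : Fin N => (k : ℕ) < L)).card
        ≤ (range L).card := by
          apply card_le_card_of_injOn (fun k : Fin N => (k : ℕ))
          · intro k hk
            rw [mem_coe, mem_filter] at hk
            rw [mem_coe, mem_range]
            exact hk.2
          · intro a _ b _ hab
            exact Fin.val_injective hab
      _ = L := card_range L
  rw [hQ]
  have hJ4 : (2 * (xx * xx)) ^ J.card ≤ (2 * (xx * xx)) ^ (4 * L) := by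
    apply pow_le_pow_of_le_one hp0 hp1
    rw [hJc]
    exact JJ_card hi hN hiN
  calc (2 * (xx * xx)) ^ J.card * ∏ k ∈ (J ∪ J.image σ)ᶜ, ∑ a ∈ ℓ k, xx ^ a
      ≤ (2 * (xx * xx)) ^ (4 * L) * (2 * xx) ^ L := by
        apply mul_le_mul hJ4 hprod
        · exact prod_nonneg fun k _ => sum_nonneg fun a _ => by positivity
        · positivity
    _ = ((2 * xx) * (2 * (xx * xx)) ^ 4) ^ L := by
        rw [mul_pow (2 * xx) _ L, ← pow_mul]; ring

theorem theta_le : (2 * xx) * (2 * (xx * xx)) ^ 4 ≤ 1 / 2 := by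
  have hx0 := xx_pos
  have hx1 := xx_lb
  have hx2 := xx_ub
  have hxs := xx_sq
  have h1 : 2 * (xx * xx) ≤ 0.764 := by nlinarith
  have h0 : 0 ≤ 2 * (xx * xx) := by positivity
  have h2 : (2 * (xx * xx)) ^ 4 ≤ 0.764 ^ 4 := pow_le_pow_left₀ h0 h1 4
  have h3 : 0 ≤ (2 * (xx * xx)) ^ 4 := by positivity
  have h4 : (0.764 : ℝ) ^ 4 ≤ 0.341 := by norm_num
  nlinarith

theorem Fail_card {L g : ℕ} (hg : 60 * L ≤ g) :
    ((Fail L g).card : ℝ) ≤ (g + 1) ^ 2 * (1 / 2) ^ L * φ ^ g := by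
  classical
  have hsub : Fail L g ⊆ ((range (g + 1)) ×ˢ (range (g + 1))).biUnion
      (fun p => if 1 ≤ p.2 ∧ p.2 + 6 * L ≤ p.1 then FL L g p.1 p.2 else ∅) := by
    intro w hw
    rw [Fail, mem_filter, NF] at hw
    push Not at hw
    obtain ⟨hP, i, hi1, hi2, hi3, hi4⟩ := hw
    have hl := TW_len' (mem_Pset.1 hP).1
    rw [mem_biUnion]
    refine ⟨(w.length, i), ?_, ?_⟩
    · rw [mem_product, mem_range, mem_range]
      constructor
      · show w.length < g + 1; omega
      · show i < g + 1; omega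
    · rw [if_pos ⟨hi1, hi2⟩, FL, mem_filter]
      exact ⟨hP, rfl, fun j hj1 hj2 hj3 => hi4 j hj1 hj2 hj3⟩
  have h1 : (Fail L g).card ≤ ∑ p ∈ (range (g + 1)) ×ˢ (range (g + 1)),
      (if 1 ≤ p.2 ∧ p.2 + 6 * L ≤ p.1 then FL L g p.1 p.2 else ∅).card :=
    (card_le_card hsub).trans card_biUnion_le
  have hxg : xx ^ g * φ ^ g = 1 := by
    rw [← mul_pow, xx, inv_mul_cancel₀ Real.goldenRatio_pos.ne', one_pow]
  have hφ : (0 : ℝ) < φ ^ g := pow_pos Real.goldenRatio_pos _
  have h2 : ∀ p ∈ (range (g + 1)) ×ˢ (range (g + 1)),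
      (((if 1 ≤ p.2 ∧ p.2 + 6 * L ≤ p.1 then FL L g p.1 p.2 else ∅).card : ℕ) : ℝ) ≤
        (1 / 2) ^ L * φ ^ g := by
    intro p _
    split_ifs with h
    · have h3 := FL_card (L := L) (g := g) h.1 hg h.2
      have h4 : ((2 * xx) * (2 * (xx * xx)) ^ 4) ^ L ≤ (1 / 2) ^ L := by
        apply pow_le_pow_left₀ _ theta_le
        have := xx_pos
        positivity
      have h5 := h3.trans h4
      calc ((FL L g p.1 p.2).card : ℝ) = (FL L g p.1 p.2).card * xx ^ g * φ ^ g := by
            rw [mul_assoc, hxg, mul_one]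
        _ ≤ (1 / 2) ^ L * φ ^ g := mul_le_mul_of_nonneg_right h5 hφ.le
    · simp only [card_empty, Nat.cast_zero]
      positivity
  have h3 : ((Fail L g).card : ℝ) ≤ ∑ p ∈ (range (g + 1)) ×ˢ (range (g + 1)),
      (((if 1 ≤ p.2 ∧ p.2 + 6 * L ≤ p.1 then FL L g p.1 p.2 else ∅).card : ℕ) : ℝ) := by
    exact_mod_cast h1
  refine (h3.trans (sum_le_sum h2)).trans (le_of_eq ?_)
  rw [sum_const, card_product, card_range, nsmul_eq_mul]
  push_cast
  ring

end Pool.Agent.R104.PT
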