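import Pool.Agent.H502R2.Bounds
import Pool.Agent.H502R2.Total
import Pool.Agent.R104.PT4

/-!
Few semigroups of depth three have the coordinate three far out.
-/

set_option autoImplicit false

namespace Pool.Agent.R104.PT

open Polynomial Finset Pool.Agent.H502R2
open scoped goldenRatio

theorem k3C2 : cert 3 t2 (991 ^ 2) (10 ^ 6) 5 (8276 ^ 2 * 8 ^ 6) (10 ^ 8) (stepQ 3 (qC 3 t2)) = true := by
  decide +kernel
theorem k3C1 : cert 3 t2 (991 ^ 2) (10 ^ 6) 5 (5800 * 8276 ^ 2 * 8 ^ 6) (10 ^ 12)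
    (stepQ 3 (qC 3 e1)) = true := by decide +kernel
theorem k3E2 : cert 3 t2 (991 ^ 2) (10 ^ 6) 5 8276 (10 ^ 4) (qE 3) = true := by decide +kernel
theorem k3O2 : cert 3 t2 (991 ^ 2) (10 ^ 6) 5 (8276 * 991 * 8 ^ 6) (10 ^ 7) (qO 3) = true := by
  decide +kernel
theorem k3E1 : cert 3 e1 (991 ^ 2) (10 ^ 6) 5 (5800 * 8276) (10 ^ 8) (qE 3) = true := by
  decide +kernel
theorem k3O1 : cert 3 e1 (991 ^ 2) (10 ^ 6) 5 (5800 * 8276 * 991 * 8 ^ 6) (10 ^ 11)
    (qO 3) = true := by decide +kernel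

theorem b3C2 (a : ℕ) (ha : 1 ≤ a) :
    Cp 3 (5 / 8 : ℚ) t2 t2 a ≤ (8276 / 10000 * (991 / 1000) ^ (a - 2)) ^ 2 := by
  have := pC2 (L := 3) (Y := t2) (s := 1) (c := 8276 / 10000) (ν := 991 / 1000)
    (hh_qC (n := headQ 3 t2 (qC 3 t2)) rfl (by
      have : headQ 3 t2 (qC 3 t2) = 105625 := by decide +kernel
      rw [this]; norm_num))
    (cert_spec (by norm_num) _ _ _ _ (8 ^ 6) _ (by norm_num) (by norm_num)
      (by have := (agC 3 t2).step; simpa using this) k3C2) (by norm_num) (by norm_num) a ha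
  simpa using this

theorem b3C1 (a : ℕ) (ha : 1 ≤ a) :
    Cp 3 (5 / 8 : ℚ) t2 e1 a ≤ 58 / 100 * (8276 / 10000 * (991 / 1000) ^ (a - 2)) ^ 2 :=
  pC2 (L := 3) (Y := e1) (s := 58 / 100) (c := 8276 / 10000) (ν := 991 / 1000)
    (hh_qC (n := headQ 3 t2 (qC 3 e1)) rfl (by
      have : headQ 3 t2 (qC 3 e1) = 104000 := by decide +kernel
      rw [this]; norm_num))
    (cert_spec (by norm_num) _ _ _ _ (8 ^ 6) _ (by norm_num) (by norm_num)
      (by have := (agC 3 e1).step; simpa using this) k3C1) (by norm_num) (by norm_num) a ha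

theorem b3D2 (a : ℕ) (ha : 1 ≤ a) :
    Dp 3 (5 / 8 : ℚ) t2 a ≤ 8276 / 10000 * (991 / 1000) ^ (a - 2) := by
  refine pD (f := fun a => (8276 / 10000 : ℚ) * (991 / 1000) ^ (a - 2)) ?_ ?_ ?_ a ha
  · exact dp1 (l := [0, 0, 1, 1]) (by decide +kernel) (by norm_num [ev])
  · intro k
    refine (cert_spec (by norm_num) _ _ _ _ 1 _ (by norm_num) (by norm_num) (agE 3) k3E2
      k).trans (le_of_eq ?_)
    rw [show 2 * k + 2 - 2 = 2 * k by omega, pow_mul]; norm_num
  · intro k
    refine (cert_spec (by norm_num) _ _ _ _ (8 ^ 6) _ (by norm_num) (by norm_num) (agO 3) k3O2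
      k).trans (le_of_eq ?_)
    rw [show 2 * k + 3 - 2 = 2 * k + 1 by omega, pow_add, pow_mul]; norm_num; ring

theorem b3D1 (a : ℕ) (ha : 1 ≤ a) :
    Dp 3 (5 / 8 : ℚ) e1 a ≤ 58 / 100 * (8276 / 10000 * (991 / 1000) ^ (a - 2)) := by
  refine pD (f := fun a => (58 / 100 : ℚ) * (8276 / 10000 * (991 / 1000) ^ (a - 2)))
    ?_ ?_ ?_ a ha
  · exact dp1 (l := []) (by decide +kernel) (by norm_num [ev])
  · intro k
    refine (cert_spec (by norm_num) _ _ _ _ 1 _ (by norm_num) (by norm_num) (agE 3) k3E1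
      k).trans (le_of_eq ?_)
    rw [show 2 * k + 2 - 2 = 2 * k by omega, pow_mul]; norm_num; ring
  · intro k
    refine (cert_spec (by norm_num) _ _ _ _ (8 ^ 6) _ (by norm_num) (by norm_num) (agO 3) k3O1
      k).trans (le_of_eq ?_)
    rw [show 2 * k + 3 - 2 = 2 * k + 1 by omega, pow_add, pow_mul]; norm_num; ring

/-- semigroups of depth three whose last coordinate is three -/
noncomputable def E3 (k : ℕ) : Finset (AddSubmonoid ℕ) :=
  open scoped Classical in (SF k).filter fun S => ∃ R, Shape S 3 R 0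

theorem GF_zero_le (L d : ℕ) (Z : ℕ → ℕ → Bool) : PLE (GF (RegS L 0 d Z) wt) 1 :=
  GF_subsingleton (by intro a _; simp [wt])

theorem GF_zero_le' (L : ℕ) (Zp : ℕ → ℕ → Bool) (Zc : ℕ → Bool) : PLE (GF (RS L 0 Zp Zc) wt) 1 :=
  GF_subsingleton (by intro a _; simp [wt])

/-- the bounding polynomial -/
noncomputable def P3 (A : ℕ) : ℕ[X] :=
  X ^ 3 * ∑ d ∈ Icc 1 A, Sa 3 (X : ℕ[X]) A d + X ^ 3 * ∑ r ∈ range (A + 1), yy 3 (X : ℕ[X]) r

theorem E3_coeff (k : ℕ) : (E3 k).card ≤ (P3 (2 * k)).coeff k := by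
  classical
  have hsub : E3 k ⊆ ((range (2 * k + 1)).biUnion fun R => (Icc 1 R).biUnion fun d => A1 k 3 (R, 0, d)) ∪
      (range (2 * k + 1)).biUnion fun R => A3 k 3 (R, 0) := by
    intro S hS
    rw [E3, mem_filter, mem_SF] at hS
    obtain ⟨hS, R, hsh⟩ := hS
    have h1 := shape_R hS hsh
    have h2 := shape_sum hS hsh
    have hR : R < 2 * k + 1 := by omega
    rw [mem_union, mem_biUnion, mem_biUnion]
    by_cases hI : ∃ i, 0 < i ∧ i ≤ R ∧ kz S i = 1
    · left
      have hspec := Nat.find_spec hI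
      have hmin := fun i => Nat.find_min hI (m := i)
      set d := Nat.find hI
      obtain ⟨h3, h4, h5⟩ := hspec
      refine ⟨R, mem_range.2 hR, ?_⟩
      rw [mem_biUnion]
      refine ⟨d, mem_Icc.2 ⟨h3, h4⟩, ?_⟩
      rw [A1, mem_filter, mem_SF]
      refine ⟨hS, hsh, h3, h4, h5, fun i hi hid => ?_⟩
      have hid' : i < d := hid
      have h6 := hmin i hid'
      have h7 := kz_pos hS hi (by rw [hsh.1]; omega)
      by_contra h8
      exact h6 ⟨hi, by omega, by omega⟩
    · right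
      refine ⟨R, mem_range.2 hR, ?_⟩
      rw [A3, mem_filter, mem_SF]
      refine ⟨hS, hsh, fun i hi hiR => ?_, fun i hi => ?_⟩
      · have h7 := kz_pos hS hi (by rw [hsh.1]; simp only at hiR; omega)
        by_contra h8
        exact hI ⟨i, hi, hiR, by omega⟩
      · simp only at hi
        omega
  have hcard := (card_le_card hsub).trans (card_union_le _ _)
  have h1 : ((range (2 * k + 1)).biUnion fun R => (Icc 1 R).biUnion fun d => A1 k 3 (R, 0, d)).card ≤
      (X ^ 3 * ∑ d ∈ Icc 1 (2 * k), Sa 3 (X : ℕ[X]) (2 * k) d : ℕ[X]).coeff k := by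
    have hP : PLE (∑ R ∈ range (2 * k + 1), ∑ d ∈ Icc 1 R, PI 3 R 0 d)
        (X ^ 3 * ∑ d ∈ Icc 1 (2 * k), Sa 3 (X : ℕ[X]) (2 * k) d) := by
      rw [sum_comm' (s' := fun d => Icc d (2 * k)) (t' := Icc 1 (2 * k)) (by
        intro x y
        simp only [mem_range, mem_Icc]
        omega), mul_sum]
      refine PLE.sum fun d hd => ?_
      rw [mem_Icc] at hd
      have h2 : PLE (∑ R ∈ Icc d (2 * k), PI 3 R 0 d)
          (∑ R ∈ Icc d (2 * k), X ^ 3 * GF (RegS 3 R d (Za d)) wt) := by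
        refine PLE.sum fun R _ => ?_
        rw [PI]
        refine (PLE.refl _).mul ?_
        have h3 := (PLE.refl (GF (RegS 3 R d (Za d)) wt)).mul (GF_zero_le (3 - 1) d (fun _ => tt))
        rw [mul_one] at h3
        exact h3
      refine h2.trans ?_
      rw [← mul_sum]
      exact (PLE.refl _).mul (sum_flag_le 3 (2 * k) d hd.1)
    refine le_trans ?_ (hP k)
    rw [finsetSum_coeff]
    refine card_biUnion_le.trans (sum_le_sum fun R _ => ?_)
    rw [finsetSum_coeff]
    exact card_biUnion_le.trans (sum_le_sum fun d _ => A1_card k 3 (R, 0, d))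
  have h2 : ((range (2 * k + 1)).biUnion fun R => A3 k 3 (R, 0)).card ≤
      (X ^ 3 * ∑ r ∈ range (2 * k + 1), yy 3 (X : ℕ[X]) r : ℕ[X]).coeff k := by
    have hP : PLE (∑ R ∈ range (2 * k + 1), PIII 3 R 0)
        (X ^ 3 * ∑ r ∈ range (2 * k + 1), yy 3 (X : ℕ[X]) r) := by
      rw [mul_sum]
      refine PLE.sum fun R _ => ?_
      rw [PIII]
      refine (PLE.refl _).mul ?_
      have h3 := (RS_le 3 (zr2 3) (zc2 3) R).mul
        (GF_zero_le' (3 - 1) (zl2 (3 - 1)) (zc (3 - 1)))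
      rw [mul_one] at h3
      exact h3
    refine le_trans ?_ (hP k)
    rw [finsetSum_coeff]
    exact card_biUnion_le.trans (sum_le_sum fun R _ => A3_card k 3 (R, 0))
  rw [P3, coeff_add]
  exact hcard.trans (add_le_add h1 h2)

theorem P3_eval (A : ℕ) : E58 (P3 A) ≤ 81 := by
  have h1 : E58 (P3 A) = (5 / 8 : ℚ) ^ 3 * ∑ d ∈ Icc 1 A, Sa 3 (5 / 8 : ℚ) A d +
      (5 / 8 : ℚ) ^ 3 * ∑ r ∈ range (A + 1), yy 3 (5 / 8 : ℚ) r := by
    rw [P3, map_add, map_mul, map_mul, map_pow, E58_X, map_sum, map_sum]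
    simp only [map_Sa, map_yy, E58_X]
  have h2 : ∑ d ∈ Icc 1 A, Sa 3 (5 / 8 : ℚ) A d ≤ 326 := by
    have h3 : ∀ d ∈ Icc 1 A, Sa 3 (5 / 8 : ℚ) A d ≤
        58 / 100 * (((d : ℚ) + 1000 / 9) * (8276 / 10000) ^ d) := by
      intro d _
      refine (Sa_le (c := 8276 / 10000) (ν := 991 / 1000) (σ := 58 / 100) (by norm_num)
        (by norm_num) (by norm_num) (by norm_num) b3C2 b3D2 b3C1 b3D1 A d).trans (le_of_eq ?_)
      norm_num
      ring
    refine (sum_le_sum h3).trans ?_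
    rw [← mul_sum, pot1 (r := 8276 / 10000) (ρ := 1000 / 9) (A := 1 / (1 - 8276 / 10000))
      (B := (1000 / 9 + 8276 / 10000 * (1 / (1 - 8276 / 10000))) / (1 - 8276 / 10000))
      (by norm_num) (by norm_num) A]
    have h4 : (0 : ℚ) ≤ (1 / (1 - 8276 / 10000) * ((A : ℚ) + 1) +
        (1000 / 9 + 8276 / 10000 * (1 / (1 - 8276 / 10000))) / (1 - 8276 / 10000)) *
        (8276 / 10000) ^ (A + 1) := by
      have : (0 : ℚ) ≤ A := Nat.cast_nonneg _
      have h5 : (0 : ℚ) ≤ 1 / (1 - 8276 / 10000) := by norm_num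
      have h6 : (0 : ℚ) ≤ (1000 / 9 + 8276 / 10000 * (1 / (1 - 8276 / 10000))) / (1 - 8276 / 10000) := by
        norm_num
      positivity
    have h5 : (58 / 100 : ℚ) * ((1 / (1 - 8276 / 10000) +
        (1000 / 9 + 8276 / 10000 * (1 / (1 - 8276 / 10000))) / (1 - 8276 / 10000)) *
        (8276 / 10000)) ≤ 326 := by norm_num
    linarith
  have h3 : ∑ r ∈ range (A + 1), yy 3 (5 / 8 : ℚ) r ≤ 3 := by
    have h4 : ∀ r ∈ range (A + 1), yy 3 (5 / 8 : ℚ) r ≤ (6348 / 10000 : ℚ) ^ r := by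
      intro r _
      refine yy_le (by norm_num) ?_ ?_ r
      · exact pp1 (l := [0, 0, 0, 0, 1, 2, 1]) (by decide +kernel) (by norm_num [ev])
      · exact cn1 (l := [0, 0, 1, 1]) (by decide +kernel) (by norm_num [ev])
    refine (sum_le_sum h4).trans ?_
    refine (gs_le (by norm_num) (by norm_num) (A + 1)).trans ?_
    norm_num
  rw [h1]
  nlinarith

theorem E3_card (k : ℕ) : ((E3 k).card : ℝ) ≤ 81 * (8 / 5) ^ k := by
  have h1 := coeff_le (P3 (2 * k)) k
  have h2 := h1.trans (P3_eval (2 * k))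
  have h3 : ((E3 k).card : ℚ) ≤ ((P3 (2 * k)).coeff k : ℚ) := by exact_mod_cast E3_coeff k
  have h4 : ((E3 k).card : ℚ) * (5 / 8) ^ k ≤ 81 :=
    (mul_le_mul_of_nonneg_right h3 (by positivity)).trans h2
  have h5 : ((E3 k).card : ℚ) ≤ 81 * (8 / 5) ^ k := by
    have h6 : (5 / 8 : ℚ) ^ k * (8 / 5) ^ k = 1 := by rw [← mul_pow]; norm_num
    calc ((E3 k).card : ℚ) = (E3 k).card * (5 / 8) ^ k * (8 / 5) ^ k := by
          rw [mul_assoc, h6, mul_one]
      _ ≤ 81 * (8 / 5) ^ k := mul_le_mul_of_nonneg_right h4 (by positivity)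
  have h7 : (((E3 k).card : ℚ) : ℝ) ≤ ((81 * (8 / 5) ^ k : ℚ) : ℝ) := Rat.cast_le.2 h5
  push_cast at h7
  exact h7

/-- words ending with three -/
noncomputable def TE (k : ℕ) : Finset (List ℕ) :=
  (TWf k).filter (fun u => kw u u.length = 3)

theorem TE_card (k : ℕ) : ((TE k).card : ℝ) ≤ 81 * (8 / 5) ^ k := by
  classical
  refine le_trans ?_ (E3_card k)
  have : (TE k).card ≤ (E3 k).card := by
    apply card_le_card_of_injOn Sw'
    · intro u hu
      rw [mem_coe, TE, mem_filter, mem_TWf] at hu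
      obtain ⟨hu, h3⟩ := hu
      rw [mem_coe, E3, mem_filter, mem_SF]
      refine ⟨TW_maps k u hu, u.length - 1, ?_⟩
      have hl : 1 ≤ u.length := by
        by_contra hc
        have : u.length = 0 := by omega
        rw [this] at h3
        simp [kw] at h3
      rw [Sw', dif_pos ⟨hu.1, hu.2.1⟩]
      refine ⟨?_, ?_, ?_, ?_⟩
      · rw [mul_Sw]; omega
      · rw [show u.length - 1 + 1 = u.length by omega, kz_Sw hu.1 hu.2.1 (by omega)]
        exact h3
      · intro i hi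
        rw [kz_Sw hu.1 hu.2.1 (by omega)]
        exact kw_le hu.1 i
      · intro i hi1 hi2
        rw [mul_Sw] at hi2
        omega
    · intro a ha b hb hab
      rw [mem_coe, TE, mem_filter, mem_TWf] at ha hb
      exact TW_inj k ha.1 hb.1 hab
  exact_mod_cast this

theorem split_last (w : List ℕ) : (∀ x ∈ w, 1 ≤ x ∧ x ≤ 3) → ∀ L i, L < i → kw w i = 3 →
    ∃ u r, w = u ++ r ∧ kw u u.length = 3 ∧ L < u.length ∧ ∀ x ∈ r, x = 1 ∨ x = 2 := by
  induction w using List.reverseRecOn with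
  | nil =>
    intro _ L i _ h
    simp [kw] at h
  | append_singleton l a ih =>
    intro hw L i hi h
    have ha := hw a (by simp)
    by_cases ha3 : a = 3
    · refine ⟨l ++ [a], [], by simp, ?_, ?_, by simp⟩
      · rw [List.length_append, List.length_singleton, kw_app_right (by omega)]
        simp [kw, ha3]
      · by_contra hc
        rw [List.length_append, List.length_singleton] at hc
        rw [kw, if_neg (by omega), List.getD_eq_default] at h
        · omega
        · rw [List.length_append, List.length_singleton]; omega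
    · have hil : i ≤ l.length := by
        by_contra hc
        rw [kw_app_right (by omega)] at h
        rcases Nat.lt_or_ge 1 (i - l.length) with h1 | h1
        · rw [kw, if_neg (by omega), List.getD_eq_default] at h
          · omega
          · simp; omega
        · have : i - l.length = 1 := by omega
          rw [this] at h
          simp [kw] at h
          exact ha3 h
      rw [kw_app_left hil] at h
      obtain ⟨u, r, hur, h3, hL, hr⟩ := ih (fun x hx => hw x (by simp [hx])) L i hi h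
      refine ⟨u, r ++ [a], by rw [hur]; simp, h3, hL, ?_⟩
      intro x hx
      rw [List.mem_append, List.mem_singleton] at hx
      rcases hx with hx | rfl
      · exact hr x hx
      · omega

/-- words with a three beyond `L` -/
noncomputable def Tail (L g : ℕ) : Finset (List ℕ) :=
  open scoped Classical in (TWf g).filter (fun w => ¬ ∀ i, L < i → kw w i ≠ 3)

theorem Tail_card (L g : ℕ) : ((Tail L g).card : ℝ) ≤ 81 * 91 * (0.98896 : ℝ) ^ L * φ ^ g := by
  classical
  have hsub : Tail L g ⊆ (Icc (L + 1) g).biUnion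
      (fun k => ((TE k) ×ˢ (VV (g - k))).image (fun p => p.1 ++ p.2)) := by
    intro w hw
    rw [Tail, mem_filter, mem_TWf] at hw
    obtain ⟨hTW, hex⟩ := hw
    push Not at hex
    obtain ⟨i, hi, h3⟩ := hex
    obtain ⟨u, r, hur, hu3, hLu, hr⟩ := split_last w hTW.1 L i hi h3
    have hlet := hTW.1
    have htc := hTW.2.1
    have hsum := hTW.2.2
    rw [hur] at hlet htc hsum
    rw [List.sum_append] at hsum
    have huTW : u ∈ TW u.sum := ⟨fun x hx => hlet x (by simp [hx]), TC_of_append htc, rfl⟩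
    have hul := TW_len' huTW
    rw [mem_biUnion]
    refine ⟨u.sum, mem_Icc.2 ⟨by omega, by omega⟩, ?_⟩
    rw [mem_image]
    refine ⟨(u, r), ?_, hur.symm⟩
    rw [mem_product, TE, mem_filter, mem_TWf, mem_VV]
    exact ⟨⟨huTW, hu3⟩, hr, by simp only; omega⟩
  have h1 : (Tail L g).card ≤ ∑ k ∈ Icc (L + 1) g, (TE k).card * (VV (g - k)).card := by
    refine (card_le_card hsub).trans (card_biUnion_le.trans (sum_le_sum fun k _ => ?_))
    refine card_image_le.trans ?_
    rw [card_product]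
  have h2 : ((Tail L g).card : ℝ) ≤ ∑ k ∈ Icc (L + 1) g, ((TE k).card : ℝ) * ((VV (g - k)).card : ℝ) := by
    exact_mod_cast h1
  have hx := xx_pos
  have hx2 := xx_ub
  have hφ : (0 : ℝ) < φ := Real.goldenRatio_pos
  have hxφ : xx * φ = 1 := inv_mul_cancel₀ hφ.ne'
  have hr0 : (0 : ℝ) ≤ 8 / 5 * xx := by positivity
  have hr1 : 8 / 5 * xx ≤ 0.98896 := by linarith
  have h3 : ∀ k ∈ Icc (L + 1) g, ((TE k).card : ℝ) * ((VV (g - k)).card : ℝ) ≤
      81 * φ ^ g * (0.98896 : ℝ) ^ k := by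
    intro k hk
    rw [mem_Icc] at hk
    have e : φ ^ g = φ ^ k * φ ^ (g - k) := by rw [← pow_add]; congr 1; omega
    have e2 : (8 / 5 : ℝ) ^ k = (8 / 5 * xx) ^ k * φ ^ k := by
      rw [← mul_pow, mul_assoc, hxφ, mul_one]
    calc ((TE k).card : ℝ) * ((VV (g - k)).card : ℝ)
        ≤ (81 * (8 / 5) ^ k) * φ ^ (g - k) :=
          mul_le_mul (TE_card k) (VV_card _) (Nat.cast_nonneg _) (by positivity)
      _ = 81 * φ ^ g * (8 / 5 * xx) ^ k := by rw [e, e2]; ring
      _ ≤ 81 * φ ^ g * (0.98896 : ℝ) ^ k := by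
          apply mul_le_mul_of_nonneg_left _ (by positivity)
          exact pow_le_pow_left₀ hr0 hr1 k
  refine h2.trans ((sum_le_sum h3).trans ?_)
  rw [← mul_sum]
  have h4 : ∑ k ∈ Icc (L + 1) g, (0.98896 : ℝ) ^ k ≤ 91 * (0.98896 : ℝ) ^ L := by
    have hgeo : ∀ n : ℕ, ∑ k ∈ Icc (L + 1) n, (0.98896 : ℝ) ^ k * (1 - 0.98896) ≤
        (0.98896 : ℝ) ^ L - (0.98896 : ℝ) ^ (max L n) := by
      intro n
      induction n with
      | zero => simp
      | succ n ih =>
        rcases Nat.lt_or_ge n L with h | h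
        · rw [Icc_eq_empty (by omega), sum_empty, max_eq_left (by omega), sub_self]
        · rw [sum_Icc_succ_top (by omega)]
          rw [max_eq_right h] at ih
          rw [max_eq_right (by omega)]
          have h0 : (0 : ℝ) ≤ (0.98896 : ℝ) ^ n := by positivity
          rw [pow_succ (0.98896 : ℝ) n]
          nlinarith
    have h5 := hgeo g
    rw [← sum_mul] at h5
    have h6 : (0 : ℝ) ≤ (0.98896 : ℝ) ^ (max L g) := by positivity
    have h7 : (0 : ℝ) ≤ (0.98896 : ℝ) ^ L := by positivity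
    nlinarith
  calc 81 * φ ^ g * ∑ k ∈ Icc (L + 1) g, (0.98896 : ℝ) ^ k
      ≤ 81 * φ ^ g * (91 * (0.98896 : ℝ) ^ L) := mul_le_mul_of_nonneg_left h4 (by positivity)
    _ = _ := by ring

end Pool.Agent.R104.PT
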