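import Pool.Agent.Y460.NS.Grow
import Pool.Agent.R104.PT5

/-!
The signed sum over numerical semigroups of a given genus.
-/

set_option autoImplicit false

namespace Pool.Agent.R104.PT

open Finset Pool.Agent.H502R2 Filter Topology
open scoped goldenRatio

/-- signed sum -/
noncomputable def DD (g : ℕ) : ℤ := ∑ S ∈ SF g, (-1 : ℤ) ^ (PF (S : Set ℕ)).ncard

theorem DD_le (g : ℕ) : |DD g| ≤ (T4 g).card + (3 ^ (13 * (g / 60)) + 2 * (Fail (g / 60) g).card +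
    (Tail (g / 60) g).card) := by
  classical
  set L := g / 60 with hL
  have h1 : DD g = ∑ S ∈ T4 g, (-1 : ℤ) ^ (PF (S : Set ℕ)).ncard +
      ∑ S ∈ T3 g, (-1 : ℤ) ^ (PF (S : Set ℕ)).ncard := by
    rw [DD, T4, T3, sum_filter_add_sum_filter_not]
  have h2 : ∑ S ∈ T3 g, (-1 : ℤ) ^ (PF (S : Set ℕ)).ncard =
      ∑ S ∈ T3 g, (-1 : ℤ) ^ (tk (kz S) (mul S)) := by
    apply sum_congr rfl
    intro S hS
    rw [T3, mem_filter, mem_SF] at hS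
    rw [PF_ncard hS.1]
  have habs : ∀ n : ℕ, |(-1 : ℤ) ^ n| = 1 := by
    intro n
    rw [abs_pow, abs_neg, abs_one, one_pow]
  have h3 : |∑ S ∈ T4 g, (-1 : ℤ) ^ (PF (S : Set ℕ)).ncard| ≤ (T4 g).card := by
    refine (abs_sum_le_sum_abs _ _).trans (le_of_eq ?_)
    rw [sum_congr rfl fun S _ => habs _, sum_const, nsmul_eq_mul, mul_one]
  have h4 : ∑ w ∈ TWf g, (-1 : ℤ) ^ (tw w) = ∑ w ∈ Pset L g, (-1 : ℤ) ^ (tw w) +
      ∑ w ∈ Tail L g, (-1 : ℤ) ^ (tw w) := by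
    rw [Pset, Tail, sum_filter_add_sum_filter_not]
  have h5 : |∑ w ∈ Tail L g, (-1 : ℤ) ^ (tw w)| ≤ (Tail L g).card := by
    refine (abs_sum_le_sum_abs _ _).trans (le_of_eq ?_)
    rw [sum_congr rfl fun S _ => habs _, sum_const, nsmul_eq_mul, mul_one]
  have h6 := sum_P (L := L) (g := g) (by omega)
  rw [h1, h2, sum_T3, h4]
  refine (abs_add_le _ _).trans (add_le_add h3 ?_)
  exact (abs_add_le _ _).trans (add_le_add h6 h5)

theorem DD_bound (g : ℕ) : (|DD g| : ℝ) ≤ 10250 * (g + 1) ^ 2 * (0.98896 : ℝ) ^ (g / 60) * φ ^ g := by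
  set L := g / 60 with hL
  have h60 : 60 * L ≤ g := by omega
  have h1 : (|DD g| : ℝ) ≤ ((T4 g).card : ℝ) + (3 ^ (13 * L) + 2 * ((Fail L g).card : ℝ) +
      ((Tail L g).card : ℝ)) := by
    have := DD_le g
    rw [← hL] at this
    exact_mod_cast this
  have hx := xx_pos
  have hx2 := xx_ub
  have hφ : (0 : ℝ) < φ := Real.goldenRatio_pos
  have hφg : (0 : ℝ) < φ ^ g := pow_pos hφ _
  have hxφ : xx * φ = 1 := inv_mul_cancel₀ hφ.ne'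
  set ρ : ℝ := (0.98896 : ℝ) ^ L with hρ
  have hρ0 : 0 < ρ := by positivity
  have hgg : (1 : ℝ) ≤ ((g : ℝ) + 1) ^ 2 := by
    have : (0 : ℝ) ≤ g := Nat.cast_nonneg _
    nlinarith
  -- depth four
  have a1 : ((T4 g).card : ℝ) ≤ 2872 * ρ * φ ^ g := by
    have h := Pool.Agent.Y460.NS.T4_pow g
    have h' : ((T4 g).card : ℝ) * 5 ^ g ≤ 2872 * 8 ^ g := by exact_mod_cast h
    have h5' : (0 : ℝ) < 5 ^ g := by positivity
    have h6 : ((T4 g).card : ℝ) ≤ 2872 * (8 / 5 : ℝ) ^ g := by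
      rw [div_pow, ← mul_div_assoc, le_div_iff₀ h5']
      exact h'
    have e2 : (8 / 5 : ℝ) ^ g = (8 / 5 * xx) ^ g * φ ^ g := by
      rw [← mul_pow, mul_assoc, hxφ, mul_one]
    have h7 : (8 / 5 * xx) ^ g ≤ (0.98896 : ℝ) ^ g :=
      pow_le_pow_left₀ (by positivity) (by linarith) g
    have h8 : (0.98896 : ℝ) ^ g ≤ ρ := pow_le_pow_of_le_one (by norm_num) (by norm_num) (by omega)
    calc ((T4 g).card : ℝ) ≤ 2872 * ((8 / 5 * xx) ^ g * φ ^ g) := by rw [← e2]; exact h6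
      _ ≤ 2872 * (ρ * φ ^ g) := by
        apply mul_le_mul_of_nonneg_left _ (by norm_num)
        exact mul_le_mul_of_nonneg_right (h7.trans h8) hφg.le
      _ = _ := by ring
  have hhalf : ((1 : ℝ) / 2) ^ L ≤ ρ := pow_le_pow_left₀ (by norm_num) (by norm_num) L
  -- outer parts
  have a2 : (3 : ℝ) ^ (13 * L) ≤ ρ * φ ^ g := by
    have hφ16 : (1.6 : ℝ) ≤ φ := by
      have h1 : φ = (1 + √5) / 2 := rfl
      have h2 : (2.2 : ℝ) ≤ √5 := by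
        apply Real.le_sqrt_of_sq_le
        norm_num
      rw [h1]; linarith
    have h2 : (3 : ℝ) ^ 13 * 2 ≤ φ ^ 60 := by
      calc (3 : ℝ) ^ 13 * 2 ≤ (1.6 : ℝ) ^ 60 := by norm_num
        _ ≤ φ ^ 60 := pow_le_pow_left₀ (by norm_num) hφ16 60
    have h3 : (3 : ℝ) ^ 13 ≤ 1 / 2 * φ ^ 60 := by linarith
    calc (3 : ℝ) ^ (13 * L) = (3 ^ 13) ^ L := by rw [pow_mul]
      _ ≤ (1 / 2 * φ ^ 60) ^ L := pow_le_pow_left₀ (by norm_num) h3 L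
      _ = (1 / 2) ^ L * φ ^ (60 * L) := by rw [mul_pow, ← pow_mul]
      _ ≤ ρ * φ ^ g := by
        apply mul_le_mul hhalf _ (by positivity) hρ0.le
        exact pow_le_pow_right₀ Real.one_lt_goldenRatio.le h60
  have a3 : ((Fail L g).card : ℝ) ≤ (g + 1) ^ 2 * ρ * φ ^ g := by
    refine (Fail_card h60).trans ?_
    apply mul_le_mul_of_nonneg_right _ hφg.le
    exact mul_le_mul_of_nonneg_left hhalf (by positivity)
  have a4 := Tail_card L g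
  rw [← hρ] at a4
  have hX : 0 < ρ * φ ^ g := mul_pos hρ0 hφg
  have a5 : ρ * φ ^ g ≤ (g + 1) ^ 2 * (ρ * φ ^ g) := by nlinarith
  calc (|DD g| : ℝ) ≤ 2872 * ρ * φ ^ g + (ρ * φ ^ g + 2 * ((g + 1) ^ 2 * ρ * φ ^ g) +
        81 * 91 * ρ * φ ^ g) := by linarith
    _ = 10244 * (ρ * φ ^ g) + 2 * ((g + 1) ^ 2 * (ρ * φ ^ g)) := by ring
    _ ≤ 10250 * ((g + 1) ^ 2 * (ρ * φ ^ g)) := by nlinarith
    _ = _ := by ring

/-- exponential decay -/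
theorem decay : ∃ C : ℝ, ∀ g : ℕ, 10250 * ((g : ℝ) + 1) ^ 2 * (0.98896 : ℝ) ^ (g / 60) ≤
    C * (0.9999 : ℝ) ^ g := by
  have hk : Tendsto (fun n : ℕ => (n : ℝ) ^ 2 * (0.995 : ℝ) ^ n) atTop (𝓝 0) :=
    tendsto_pow_const_mul_const_pow_of_lt_one 2 (by norm_num) (by norm_num)
  obtain ⟨B, hB⟩ := hk.bddAbove_range
  have hB' : ∀ n : ℕ, (n : ℝ) ^ 2 * (0.995 : ℝ) ^ n ≤ B := fun n => hB ⟨n, rfl⟩
  have hB0 : 0 ≤ B := by have := hB' 0; norm_num at this; exact this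
  refine ⟨10250 * 3600 * 2 * B * 2, fun g => ?_⟩
  set L := g / 60 with hL
  have hg1 : g < 60 * (L + 1) := by omega
  have hg2 : ((g : ℝ) + 1) ≤ 60 * ((L + 1 : ℕ) : ℝ) := by
    have : g + 1 ≤ 60 * (L + 1) := hg1
    exact_mod_cast this
  have hg0 : (0 : ℝ) ≤ (g : ℝ) + 1 := by positivity
  have h1 : ((g : ℝ) + 1) ^ 2 ≤ 3600 * ((L + 1 : ℕ) : ℝ) ^ 2 := by
    calc ((g : ℝ) + 1) ^ 2 ≤ (60 * ((L + 1 : ℕ) : ℝ)) ^ 2 := pow_le_pow_left₀ hg0 hg2 2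
      _ = _ := by ring
  have h2 := hB' (L + 1)
  have h3 : (0.98896 : ℝ) ^ L ≤ (0.995 : ℝ) ^ L * ((0.9999 : ℝ) ^ 60) ^ L := by
    rw [← mul_pow]
    apply pow_le_pow_left₀ (by norm_num)
    norm_num
  have h4 : ((0.9999 : ℝ) ^ 60) ^ L ≤ 2 * (0.9999 : ℝ) ^ g := by
    have e : ((0.9999 : ℝ) ^ 60) ^ L * (0.9999 : ℝ) ^ 60 ≤ (0.9999 : ℝ) ^ g := by
      rw [← pow_mul, ← pow_add]
      apply pow_le_pow_of_le_one (by norm_num) (by norm_num)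
      omega
    have h5 : (1 / 2 : ℝ) ≤ (0.9999 : ℝ) ^ 60 := by norm_num
    have h6 : (0 : ℝ) ≤ ((0.9999 : ℝ) ^ 60) ^ L := by positivity
    nlinarith
  have h5 : (0.995 : ℝ) ^ L ≤ 2 * (0.995 : ℝ) ^ (L + 1) := by
    rw [pow_succ]
    have : (0 : ℝ) ≤ (0.995 : ℝ) ^ L := by positivity
    linarith
  have p1 : (0 : ℝ) ≤ (0.995 : ℝ) ^ L := by positivity
  have p2 : (0 : ℝ) ≤ ((0.9999 : ℝ) ^ 60) ^ L := by positivity
  have p3 : (0 : ℝ) ≤ (0.9999 : ℝ) ^ g := by positivity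
  calc 10250 * ((g : ℝ) + 1) ^ 2 * (0.98896 : ℝ) ^ L
      ≤ 10250 * (3600 * ((L + 1 : ℕ) : ℝ) ^ 2) * ((0.995 : ℝ) ^ L * ((0.9999 : ℝ) ^ 60) ^ L) := by
        apply mul_le_mul _ h3 (by positivity) (by positivity)
        exact mul_le_mul_of_nonneg_left h1 (by norm_num)
    _ ≤ 10250 * (3600 * ((L + 1 : ℕ) : ℝ) ^ 2) * ((2 * (0.995 : ℝ) ^ (L + 1)) * (2 * (0.9999 : ℝ) ^ g)) := by
        apply mul_le_mul_of_nonneg_left _ (by positivity)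
        exact mul_le_mul h5 h4 p2 (by positivity)
    _ = 10250 * 3600 * 2 * (((L + 1 : ℕ) : ℝ) ^ 2 * (0.995 : ℝ) ^ (L + 1)) * 2 * (0.9999 : ℝ) ^ g := by
        ring
    _ ≤ 10250 * 3600 * 2 * B * 2 * (0.9999 : ℝ) ^ g := by
        apply mul_le_mul_of_nonneg_right _ p3
        apply mul_le_mul_of_nonneg_right _ (by norm_num)
        exact mul_le_mul_of_nonneg_left h2 (by norm_num)

end Pool.Agent.R104.PT
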