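import Mathlib

set_option autoImplicit false

/-!
Counting permutations with prescribed values.
-/

namespace Pool.Agent.R104.PermCount

open Finset Equiv

/-- permutations of `Fin n` fixing the points `f i` -/
theorem card_fix {n k : ℕ} (f : Fin k → Fin n) (hf : Function.Injective f) :
    (univ.filter (fun σ : Perm (Fin n) => ∀ i, σ (f i) = f i)).card = (n - k).factorial := by
  classical
  have h1 := Fintype.card_congr
    (Equiv.Perm.subtypeEquivSubtypePerm (fun a : Fin n => a ∉ Set.range f))
  rw [Fintype.card_perm] at h1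
  have h2 : Fintype.card {a : Fin n // a ∉ Set.range f} = n - k := by
    rw [Fintype.card_subtype_compl, Fintype.card_fin]
    congr 1
    have := Fintype.card_congr (Equiv.ofInjective f hf)
    rw [Fintype.card_fin] at this
    convert this.symm using 1
  rw [h2] at h1
  rw [h1, Fintype.card_subtype]
  congr 1
  ext σ
  simp only [mem_filter, mem_univ, true_and, not_not]
  constructor
  · rintro h a ⟨i, rfl⟩
    exact h i
  · intro h i
    exact h _ ⟨i, rfl⟩

/-- permutations of `Fin n` with `k` prescribed values -/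
theorem card_pres {n k : ℕ} (f g : Fin k → Fin n) (hf : Function.Injective f)
    (hg : Function.Injective g) :
    (univ.filter (fun σ : Perm (Fin n) => ∀ i, σ (f i) = g i)).card = (n - k).factorial := by
  classical
  obtain ⟨τ, hτ⟩ := Equiv.Perm.exists_extending_pair f g hf hg
  rw [← card_fix f hf]
  refine Finset.card_bij' (fun σ _ => τ⁻¹ * σ) (fun σ _ => τ * σ) ?_ ?_ ?_ ?_
  · intro σ hσ
    simp only [mem_filter, mem_univ, true_and] at hσ ⊢
    intro i
    rw [Perm.mul_apply, hσ i, ← hτ i]
    simp
  · intro σ hσ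
    simp only [mem_filter, mem_univ, true_and] at hσ ⊢
    intro i
    rw [Perm.mul_apply, hσ i, hτ i]
  · intro σ _
    simp
  · intro σ _
    simp

theorem card_one {n : ℕ} (a b : Fin n) :
    (univ.filter (fun σ : Perm (Fin n) => σ a = b)).card = (n - 1).factorial := by
  rw [← card_pres (k := 1) (fun _ => a) (fun _ => b) (fun _ _ _ => Subsingleton.elim _ _)
    (fun _ _ _ => Subsingleton.elim _ _)]
  congr 1
  ext σ
  simp

theorem inj2 {n : ℕ} {a b : Fin n} (h : a ≠ b) : Function.Injective ![a, b] := by
  intro i j hij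
  fin_cases i <;> fin_cases j <;> simp_all [eq_comm]

theorem inj3 {n : ℕ} {a b c : Fin n} (h : a ≠ b) (h1 : a ≠ c) (h2 : b ≠ c) :
    Function.Injective ![a, b, c] := by
  intro i j hij
  fin_cases i <;> fin_cases j <;> simp_all [eq_comm]

theorem card_two {n : ℕ} {a b c d : Fin n} (hac : a ≠ c) (hbd : b ≠ d) :
    (univ.filter (fun σ : Perm (Fin n) => σ a = b ∧ σ c = d)).card = (n - 2).factorial := by
  rw [← card_pres (k := 2) ![a, c] ![b, d] (inj2 hac) (inj2 hbd)]
  congr 1
  ext σ
  simp [Fin.forall_fin_two]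

theorem card_three {n : ℕ} {a b c d e f : Fin n} (hac : a ≠ c) (hae : a ≠ e) (hce : c ≠ e)
    (hbd : b ≠ d) (hbf : b ≠ f) (hdf : d ≠ f) :
    (univ.filter (fun σ : Perm (Fin n) => σ a = b ∧ σ c = d ∧ σ e = f)).card =
      (n - 3).factorial := by
  rw [← card_pres (k := 3) ![a, c, e] ![b, d, f] (inj3 hac hae hce) (inj3 hbd hbf hdf)]
  congr 1
  ext σ
  simp [Fin.forall_fin_succ]

end Pool.Agent.R104.PermCount
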