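import Mathlib

set_option autoImplicit false
set_option linter.unusedSectionVars false

/-!
A `q`-analogue of Rado's theorem.
-/

namespace Pool.Agent.R104.QRado

open Module Submodule

/-- A `q`-matroid on the vector space `V`, given by its rank function. -/
structure QMatroid (K V : Type*) [Field K] [AddCommGroup V] [Module K V] where
  /-- the rank function -/
  r : Submodule K V → ℕ
  r_le : ∀ A, r A ≤ finrank K A
  mono : ∀ A B, A ≤ B → r A ≤ r B
  submod : ∀ A B, r (A ⊔ B) + r (A ⊓ B) ≤ r A + r B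

variable {K V : Type*} [Field K] [AddCommGroup V] [Module K V]

/-- independent subspaces -/
def QMatroid.Indep (M : QMatroid K V) (A : Submodule K V) : Prop := M.r A = finrank K A

/-- bases: maximal independent subspaces -/
def QMatroid.IsBasis (M : QMatroid K V) (B : Submodule K V) : Prop :=
  M.Indep B ∧ ∀ C, M.Indep C → B ≤ C → C = B

/-- the bar nullity `min_B dim (B ∩ X)` over all bases `B` -/
noncomputable def QMatroid.barNullity (M : QMatroid K V) (X : Submodule K V) : ℕ :=
  sInf {d | ∃ B, M.IsBasis B ∧ d = finrank K (B ⊓ X : Submodule K V)}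

/-- `T` is a `q`-transversal of the family `X`: `dim T = n` and every vector basis of `T` can be
listed as `b_1, ..., b_n` with `b_i ∉ X_i` for all `i`. -/
def IsQTransversal {n : ℕ} (X : Fin n → Submodule K V) (T : Submodule K V) : Prop :=
  finrank K T = n ∧ ∀ b : Fin n → V, LinearIndependent K b → span K (Set.range b) = T →
    ∃ σ : Equiv.Perm (Fin n), ∀ i, b (σ i) ∉ X i

section matroid

variable [FiniteDimensional K V] (M : QMatroid K V)

theorem QMatroid.r_sup_eq {A U : Submodule K V} {x : V} (hAU : A ≤ U) (hU : M.r U = M.r A)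
    (hx : M.r (A ⊔ span K {x}) = M.r A) : M.r (U ⊔ span K {x}) = M.r A := by
  have h1 := M.submod U (A ⊔ span K {x})
  have h2 : U ⊔ (A ⊔ span K {x}) = U ⊔ span K {x} := by
    rw [← sup_assoc, sup_eq_left.2 hAU]
  have h3 : M.r A ≤ M.r (U ⊓ (A ⊔ span K {x})) := M.mono _ _ (le_inf hAU le_sup_left)
  have h4 : M.r A ≤ M.r (U ⊔ span K {x}) := M.mono _ _ (hAU.trans le_sup_left)
  rw [h2, hU, hx] at h1
  omega

/-- the closure -/
def QMatroid.cl (A : Submodule K V) : Submodule K V where
  carrier := {x | M.r (A ⊔ span K {x}) = M.r A}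
  zero_mem' := by simp
  add_mem' := by
    intro x y hx hy
    simp only [Set.mem_ofPred_eq] at *
    have h1 := M.r_sup_eq (U := A ⊔ span K {x}) le_sup_left hx hy
    apply le_antisymm
    · rw [← h1]
      apply M.mono
      refine sup_le (le_sup_left.trans le_sup_left) ?_
      rw [span_singleton_le_iff_mem]
      exact add_mem (mem_sup_left (mem_sup_right (mem_span_singleton_self x)))
        (mem_sup_right (mem_span_singleton_self y))
    · exact M.mono _ _ le_sup_left
  smul_mem' := by
    intro c x hx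
    simp only [Set.mem_ofPred_eq] at *
    apply le_antisymm
    · rw [← hx]
      apply M.mono
      refine sup_le le_sup_left ?_
      rw [span_singleton_le_iff_mem]
      exact smul_mem _ _ (mem_sup_right (mem_span_singleton_self x))
    · exact M.mono _ _ le_sup_left

theorem QMatroid.mem_cl {A : Submodule K V} {x : V} :
    x ∈ M.cl A ↔ M.r (A ⊔ span K {x}) = M.r A := Iff.rfl

theorem QMatroid.le_cl (A : Submodule K V) : A ≤ M.cl A := by
  intro x hx
  rw [M.mem_cl, sup_eq_left.2 ((span_singleton_le_iff_mem _ _).2 hx)]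

theorem QMatroid.r_cl (A : Submodule K V) : M.r (M.cl A) = M.r A := by
  -- a maximal `U` between `A` and `cl A` with the same rank
  obtain ⟨U, hU⟩ := exists_maximal_of_wellFoundedGT
    (fun U : Submodule K V => A ≤ U ∧ U ≤ M.cl A ∧ M.r U = M.r A) ⟨A, le_rfl, M.le_cl A, rfl⟩
  obtain ⟨h1, h2, h3⟩ := hU.prop
  have h4 : M.cl A ≤ U := by
    intro x hx
    have h5 := M.r_sup_eq h1 h3 hx
    have h6 : U ⊔ span K {x} ≤ U := by
      apply hU.le_of_ge ⟨h1.trans le_sup_left, sup_le h2 ?_, h5⟩ le_sup_left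
      rwa [span_singleton_le_iff_mem]
    exact h6 (mem_sup_right (mem_span_singleton_self x))
  rw [← le_antisymm h2 h4, h3]

/-- Adding a vector outside the closure. -/
theorem QMatroid.indep_sup {A : Submodule K V} {x : V} (hA : M.Indep A) (hx : x ∉ M.cl A) :
    M.Indep (A ⊔ span K {x}) ∧ finrank K (A ⊔ span K {x} : Submodule K V) = finrank K A + 1 := by
  have h1 : M.r A ≤ M.r (A ⊔ span K {x}) := M.mono _ _ le_sup_left
  have h2 : M.r (A ⊔ span K {x}) ≠ M.r A := hx
  have h3 := M.r_le (A ⊔ span K {x})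
  have h4 := finrank_add_le_finrank_add_finrank A (span K {x})
  have h5 := finrank_span_le_card (R := K) ({x} : Set V)
  rw [Set.toFinset_card, Fintype.card_unique] at h5
  unfold QMatroid.Indep at *
  constructor <;> omega

/-- bases have dimension `r(V)` -/
theorem QMatroid.finrank_basis {B : Submodule K V} (hB : M.IsBasis B) : finrank K B = M.r ⊤ := by
  have h1 : M.cl B = ⊤ := by
    rw [eq_top_iff]
    intro x _
    by_contra hx
    obtain ⟨h2, h3⟩ := M.indep_sup hB.1 hx
    rw [hB.2 _ h2 le_sup_left] at h3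
    omega
  rw [← h1, M.r_cl, hB.1]

theorem QMatroid.exists_basis {A : Submodule K V} (hA : M.Indep A) :
    ∃ B, M.IsBasis B ∧ A ≤ B := by
  obtain ⟨B, hB⟩ := exists_maximal_of_wellFoundedGT
    (fun U : Submodule K V => A ≤ U ∧ M.Indep U) ⟨A, le_rfl, hA⟩
  refine ⟨B, ⟨hB.prop.2, fun C hC hBC => ?_⟩, hB.prop.1⟩
  exact le_antisymm (hB.le_of_ge ⟨hB.prop.1.trans hBC, hC⟩ hBC) hBC

theorem QMatroid.indep_bot : M.Indep ⊥ := by
  unfold QMatroid.Indep
  have := M.r_le ⊥
  rw [finrank_bot] at *
  omega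

theorem QMatroid.barNullity_mem (X : Submodule K V) :
    ∃ B, M.IsBasis B ∧ M.barNullity X = finrank K (B ⊓ X : Submodule K V) := by
  obtain ⟨B, hB, _⟩ := M.exists_basis M.indep_bot
  exact Nat.sInf_mem (s := {d | ∃ B, M.IsBasis B ∧ d = finrank K (B ⊓ X : Submodule K V)})
    ⟨_, B, hB, rfl⟩

theorem QMatroid.barNullity_le {X B : Submodule K V} (hB : M.IsBasis B) :
    M.barNullity X ≤ finrank K (B ⊓ X : Submodule K V) :=
  Nat.sInf_le ⟨B, hB, rfl⟩

theorem QMatroid.barNullity_top : M.barNullity ⊤ = M.r ⊤ := by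
  obtain ⟨B, hB, h⟩ := M.barNullity_mem ⊤
  rw [h, inf_top_eq, M.finrank_basis hB]

end matroid

end Pool.Agent.R104.QRado
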