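import Mathlib
import Pool.Agent.R104.QRado

set_option autoImplicit false
set_option linter.unusedSectionVars false

/-!
A `q`-analogue of Rado's theorem: hyperplanes and transversals.
-/

namespace Pool.Agent.R104.QRado

open Module Submodule

variable {K V : Type*} [Field K] [AddCommGroup V] [Module K V] [FiniteDimensional K V]

theorem exists_notMem_two {P Q : Submodule K V} (hP : P ≠ ⊤) (hQ : Q ≠ ⊤) :
    ∃ x, x ∉ P ∧ x ∉ Q := by
  obtain ⟨p, hp⟩ : ∃ p, p ∉ P := by
    by_contra h
    push Not at h
    exact hP (eq_top_iff.2 fun x _ => h x)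
  obtain ⟨q, hq⟩ : ∃ q, q ∉ Q := by
    by_contra h
    push Not at h
    exact hQ (eq_top_iff.2 fun x _ => h x)
  by_cases h1 : p ∈ Q
  · by_cases h2 : q ∈ P
    · refine ⟨p + q, fun h => hp ?_, fun h => hq ?_⟩
      · exact (P.add_mem_iff_left h2).1 h
      · exact (Q.add_mem_iff_right h1).1 h
    · exact ⟨q, h2, hq⟩
  · exact ⟨p, hp, h1⟩

theorem finrank_sup_span {A : Submodule K V} {x : V} (hx : x ∉ A) :
    finrank K (A ⊔ span K {x} : Submodule K V) = finrank K A + 1 := by
  have h4 := finrank_add_le_finrank_add_finrank A (span K {x})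
  have h5 := finrank_span_le_card (R := K) ({x} : Set V)
  rw [Set.toFinset_card, Fintype.card_unique] at h5
  have h6 : A < A ⊔ span K {x} := by
    refine lt_of_le_of_ne le_sup_left (fun h => hx ?_)
    rw [h]
    exact mem_sup_right (mem_span_singleton_self x)
  have h7 := finrank_lt_finrank_of_lt h6
  omega

/-- the intersection over `J` -/
def XJ {n : ℕ} (X : Fin n → Submodule K V) (J : Finset (Fin n)) : Submodule K V := ⨅ j ∈ J, X j

theorem mem_XJ {n : ℕ} {X : Fin n → Submodule K V} {J : Finset (Fin n)} {x : V} :
    x ∈ XJ X J ↔ ∀ j ∈ J, x ∈ X j := by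
  simp [XJ, mem_iInf]

theorem XJ_insert {n : ℕ} (X : Fin n → Submodule K V) (J : Finset (Fin n)) (i : Fin n) :
    XJ X (insert i J) = X i ⊓ XJ X J := by
  ext x
  rw [mem_inf, mem_XJ, mem_XJ]
  simp

theorem XJ_union {n : ℕ} (X : Fin n → Submodule K V) (J J' : Finset (Fin n)) :
    XJ X (J ∪ J') = XJ X J ⊓ XJ X J' := by
  ext x
  rw [mem_inf, mem_XJ, mem_XJ, mem_XJ]
  simp only [Finset.mem_union]
  constructor
  · intro h
    exact ⟨fun j hj => h j (Or.inl hj), fun j hj => h j (Or.inr hj)⟩
  · rintro ⟨h1, h2⟩ j (hj | hj)
    · exact h1 j hj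
    · exact h2 j hj

theorem XJ_anti {n : ℕ} (X : Fin n → Submodule K V) {J J' : Finset (Fin n)} (h : J ⊆ J') :
    XJ X J' ≤ XJ X J := by
  intro x hx
  rw [mem_XJ] at *
  exact fun j hj => hx j (h hj)

theorem XJ_mono {n : ℕ} {X Y : Fin n → Submodule K V} (h : ∀ i, X i ≤ Y i) (J : Finset (Fin n)) :
    XJ X J ≤ XJ Y J := by
  intro x hx
  rw [mem_XJ] at *
  exact fun j hj => h j (hx j hj)

/-- **Rado's theorem for the linear matroid, in dual form.** -/
theorem enlarge {n : ℕ} (X : Fin n → Submodule K V)
    (h : ∀ J : Finset (Fin n), finrank K (XJ X J) + J.card ≤ finrank K V) :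
    ∃ H : Fin n → Submodule K V, (∀ i, X i ≤ H i) ∧ (∀ i, finrank K V ≤ finrank K (H i) + 1) ∧
      ∀ J : Finset (Fin n), finrank K (XJ H J) + J.card ≤ finrank K V := by
  classical
  obtain ⟨H, hH⟩ := exists_minimalFor_of_wellFoundedLT
    (fun H : Fin n → Submodule K V => (∀ i, X i ≤ H i) ∧
      ∀ J : Finset (Fin n), finrank K (XJ H J) + J.card ≤ finrank K V)
    (fun H => ∑ i, (finrank K V - finrank K (H i))) ⟨X, fun _ => le_rfl, h⟩
  obtain ⟨h1, h2⟩ := hH.prop
  refine ⟨H, h1, fun i => ?_, h2⟩
  by_contra hcon
  push Not at hcon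
  -- replacing `H i` by a larger subspace violates the condition
  have key : ∀ P : Submodule K V, H i < P → ∃ J : Finset (Fin n), i ∉ J ∧
      finrank K V < finrank K (P ⊓ XJ H J : Submodule K V) + J.card + 1 := by
    intro P hP
    by_contra hno
    push Not at hno
    have h3 : (∀ j, X j ≤ Function.update H i P j) ∧
      ∀ J : Finset (Fin n), finrank K (XJ (Function.update H i P) J) + J.card ≤ finrank K V := by
      refine ⟨?_, ?_⟩
      · intro j
        by_cases hj : j = i
        · subst hj
          rw [Function.update_self]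
          exact (h1 j).trans hP.le
        · rw [Function.update_of_ne hj]
          exact h1 j
      · intro J
        by_cases hi : i ∈ J
        · have h4 : XJ (Function.update H i P) J ≤ P ⊓ XJ H (J.erase i) := by
            intro x hx
            rw [mem_XJ] at hx
            rw [mem_inf, mem_XJ]
            refine ⟨?_, fun j hj => ?_⟩
            · have := hx i hi
              rwa [Function.update_self] at this
            · have := hx j (Finset.mem_of_mem_erase hj)
              rwa [Function.update_of_ne (Finset.ne_of_mem_erase hj)] at this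
          have h5 := finrank_mono h4
          have h6 := hno (J.erase i) (Finset.notMem_erase i J)
          rw [Finset.card_erase_of_mem hi] at h6
          have h7 : 0 < J.card := Finset.card_pos.2 ⟨i, hi⟩
          omega
        · have h4 : XJ (Function.update H i P) J = XJ H J := by
            ext x
            rw [mem_XJ, mem_XJ]
            refine forall₂_congr fun j hj => ?_
            rw [Function.update_of_ne (by rintro rfl; exact hi hj)]
          rw [h4]
          exact h2 J
    have h4 : ∑ j, (finrank K V - finrank K (Function.update H i P j)) <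
        ∑ j, (finrank K V - finrank K (H j)) := by
      apply Finset.sum_lt_sum
      · intro j _
        by_cases hj : j = i
        · subst hj
          rw [Function.update_self]
          have := finrank_mono hP.le
          omega
        · rw [Function.update_of_ne hj]
      · refine ⟨i, Finset.mem_univ _, ?_⟩
        rw [Function.update_self]
        have h5 := finrank_lt_finrank_of_lt hP
        have h6 := finrank_le (R := K) P
        omega
    exact absurd (hH.2 h3 h4.le) (not_le.2 h4)
  -- two extensions
  obtain ⟨x, hx⟩ : ∃ x, x ∉ H i := by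
    by_contra hno
    push Not at hno
    have : H i = ⊤ := eq_top_iff.2 fun x _ => hno x
    rw [this, finrank_top] at hcon
    omega
  have hP := finrank_sup_span hx
  obtain ⟨y, hy⟩ : ∃ y, y ∉ H i ⊔ span K {x} := by
    by_contra hno
    push Not at hno
    have : H i ⊔ span K {x} = ⊤ := eq_top_iff.2 fun x _ => hno x
    rw [this, finrank_top] at hP
    omega
  have hy' : y ∉ H i := fun h => hy (mem_sup_left h)
  have hQ := finrank_sup_span hy'
  have hPQ := finrank_sup_span hy
  have hlt : ∀ z, z ∉ H i → H i < H i ⊔ span K {z} := by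
    intro z hz
    refine lt_of_le_of_ne le_sup_left (fun h => hz ?_)
    rw [h]
    exact mem_sup_right (mem_span_singleton_self z)
  obtain ⟨J, hiJ, hJ⟩ := key _ (hlt x hx)
  obtain ⟨J', hiJ', hJ'⟩ := key _ (hlt y hy')
  set P := H i ⊔ span K {x} with hPdef
  set Q := H i ⊔ span K {y} with hQdef
  have hinf : P ⊓ Q = H i := by
    symm
    apply eq_of_le_of_finrank_le (le_inf le_sup_left le_sup_left)
    have h3 := finrank_sup_add_finrank_inf_eq P Q
    have h4 : P ⊔ Q = P ⊔ span K {y} := by
      rw [hQdef, ← sup_assoc, sup_eq_left.2 (le_sup_left : H i ≤ P)]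
    rw [h4] at h3
    show finrank K (P ⊓ Q : Submodule K V) ≤ finrank K (H i)
    omega
  have h3 := finrank_sup_add_finrank_inf_eq (P ⊓ XJ H J) (Q ⊓ XJ H J')
  have h4 : (P ⊓ XJ H J) ⊓ (Q ⊓ XJ H J') = XJ H (insert i (J ∪ J')) := by
    rw [XJ_insert, XJ_union, ← hinf]
    exact inf_inf_inf_comm _ _ _ _
  have h5 : (P ⊓ XJ H J) ⊔ (Q ⊓ XJ H J') ≤ XJ H (J ∩ J') :=
    sup_le (inf_le_right.trans (XJ_anti H Finset.inter_subset_left))
      (inf_le_right.trans (XJ_anti H Finset.inter_subset_right))
  have h6 := finrank_mono h5
  have h7 := h2 (J ∩ J')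
  have h8 := h2 (insert i (J ∪ J'))
  have h9 := Finset.card_union_add_card_inter J J'
  rw [h4] at h3
  have hi : i ∉ J ∪ J' := by
    rw [Finset.mem_union]
    tauto
  rw [Finset.card_insert_of_notMem hi] at h8
  omega

/-- independent subspaces avoiding `H` -/
theorem exists_avoid (M : QMatroid K V) {n : ℕ} {H : Submodule K V}
    (hH : finrank K H + n ≤ finrank K V) (hn : n ≤ M.r ⊤) :
    ∀ m, m ≤ n → ∃ T : Submodule K V, M.Indep T ∧ finrank K T = m ∧ Disjoint H T := by
  intro m
  induction m with
  | zero =>
    intro _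
    exact ⟨⊥, M.indep_bot, finrank_bot K V, disjoint_bot_right⟩
  | succ m ih =>
    intro hm
    obtain ⟨T, hT, hTm, hTH⟩ := ih (by omega)
    obtain ⟨x, hx1, hx2⟩ := exists_notMem_two (P := H ⊔ T) (Q := M.cl T) (by
      intro htop
      have h1 := finrank_add_le_finrank_add_finrank H T
      rw [htop, finrank_top] at h1
      omega) (by
      intro htop
      have h1 := M.r_cl T
      rw [htop, hT] at h1
      omega)
    obtain ⟨h1, h2⟩ := M.indep_sup hT hx2
    refine ⟨T ⊔ span K {x}, h1, by rw [h2, hTm], ?_⟩
    rw [disjoint_def] at hTH ⊢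
    intro y hyH hy
    rw [mem_sup] at hy
    obtain ⟨t, ht, z, hz, rfl⟩ := hy
    rw [mem_span_singleton] at hz
    obtain ⟨c, rfl⟩ := hz
    by_cases hc : c = 0
    · subst hc
      rw [zero_smul, add_zero] at hyH ⊢
      exact hTH t hyH ht
    · exfalso
      apply hx1
      have h3 : c • x ∈ H ⊔ T := by
        have : c • x = (t + c • x) + (-t) := by abel
        rw [this]
        exact add_mem (mem_sup_left hyH) (mem_sup_right (neg_mem ht))
      have h4 := smul_mem _ c⁻¹ h3
      rwa [smul_smul, inv_mul_cancel₀ hc, one_smul] at h4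

/-- the dimension criterion for `q`-transversals -/
theorem transversal_iff {n : ℕ} (X : Fin n → Submodule K V) (T : Submodule K V)
    (hT : finrank K T = n) :
    IsQTransversal X T ↔ ∀ J : Finset (Fin n), finrank K (T ⊓ XJ X J : Submodule K V) + J.card ≤ n := by
  classical
  constructor
  · rintro ⟨_, h⟩ J
    set W := T ⊓ XJ X J with hW
    -- a basis of `W` extended to a basis of `T`
    obtain ⟨s, hsW, hsspan, hslin⟩ := exists_linearIndependent K (W : Set V)
    rw [span_eq] at hsspan
    have hsT : s ⊆ (T : Set V) := fun x hx => (inf_le_left : W ≤ T) (hsW hx)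
    obtain ⟨t, htT, hst, htspan', htlin⟩ := exists_linearIndepOn_id_extension hslin hsT
    have htspan : span K t = T := le_antisymm (span_le.2 htT) htspan'
    have htlin' : LinearIndependent K ((↑) : t → V) := htlin
    have hfs : s.Finite := hslin.setFinite
    have hft : t.Finite := htlin'.setFinite
    have := hfs.fintype
    have := hft.fintype
    have hcs : s.toFinset.card = finrank K W := by
      rw [← finrank_span_set_eq_card hslin, hsspan]
    have hct : t.toFinset.card = n := by
      rw [← finrank_span_set_eq_card htlin', htspan, hT]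
    have hct' : Fintype.card t = n := by rw [← Set.toFinset_card, hct]
    let e : Fin n ≃ t := (Fintype.equivFinOfCardEq hct').symm
    obtain ⟨σ, hσ⟩ := h (fun i => (e i : V)) (htlin'.comp e e.injective) (by
      rw [← htspan]
      congr 1
      ext x
      constructor
      · rintro ⟨i, rfl⟩
        exact (e i).2
      · intro hx
        exact ⟨e.symm ⟨x, hx⟩, by simp⟩)
    have h1 : J.card ≤ (t.toFinset \ s.toFinset).card := by
      refine Finset.card_le_card_of_injOn (fun i => (e (σ i) : V)) ?_ ?_
      · intro i hi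
        simp only [Finset.coe_sdiff, Set.mem_sdiff, Set.coe_toFinset]
        refine ⟨(e (σ i)).2, fun hmem => hσ i ?_⟩
        have h2 : (e (σ i) : V) ∈ W := hsW hmem
        exact (mem_XJ.1 ((mem_inf.1 h2).2)) i hi
      · intro i _ j _ hij
        exact σ.injective (e.injective (Subtype.ext hij))
    have h2 : s.toFinset ⊆ t.toFinset := Set.toFinset_subset_toFinset.2 hst
    rw [Finset.card_sdiff_of_subset h2, hct, hcs] at h1
    have h3 : finrank K W ≤ n := hT ▸ finrank_mono inf_le_left
    omega
  · intro h
    refine ⟨hT, fun b hb hspan => ?_⟩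
    have hall : ∀ J : Finset (Fin n), J.card ≤
        (J.biUnion (fun i => Finset.univ.filter (fun j => b j ∉ X i))).card := by
      intro J
      have h1 := h J
      set W := T ⊓ XJ X J with hW
      set C := Finset.univ.filter (fun j => b j ∈ XJ X J) with hC
      have hbT : ∀ j, b j ∈ T := fun j => hspan ▸ subset_span ⟨j, rfl⟩
      have h2 : C.card ≤ finrank K W := by
        let g : C → W := fun j => ⟨b j.1, mem_inf.2 ⟨hbT _, (Finset.mem_filter.1 j.2).2⟩⟩
        have hg : LinearIndependent K g := by
          apply LinearIndependent.of_comp W.subtype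
          exact hb.comp (fun j : C => j.1) Subtype.val_injective
        have := hg.fintype_card_le_finrank
        rwa [Fintype.card_coe] at this
      have h3 : J.biUnion (fun i => Finset.univ.filter (fun j => b j ∉ X i)) = Cᶜ := by
        ext j
        rw [Finset.mem_biUnion, Finset.mem_compl, hC, Finset.mem_filter, mem_XJ]
        simp only [Finset.mem_filter, Finset.mem_univ, true_and, not_forall]
        constructor
        · rintro ⟨i, hi, h4⟩
          exact ⟨i, hi, h4⟩
        · rintro ⟨i, hi, h4⟩
          exact ⟨i, hi, h4⟩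
      rw [h3, Finset.card_compl, Fintype.card_fin]
      have h4 : finrank K W ≤ n := hT ▸ finrank_mono inf_le_left
      omega
    obtain ⟨f, hf, hf'⟩ := (Finset.all_card_le_biUnion_card_iff_exists_injective _).1 hall
    refine ⟨Equiv.ofBijective f ((Fintype.bijective_iff_injective_and_card f).2 ⟨hf, rfl⟩), ?_⟩
    intro i
    exact (Finset.mem_filter.1 (hf' i)).2

end Pool.Agent.R104.QRado
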