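import Mathlib

set_option autoImplicit false

/-!
Definitions for the quiddity equation `M_n(a_1, ..., a_n) = ± Id` over a commutative ring, and the
criterion for reducibility.
-/

namespace Pool.Agent.R104.Quiddity

open Matrix

/-- the matrix `(a, -1; 1, 0)` -/
def T {R : Type*} [CommRing R] (a : R) : Matrix (Fin 2) (Fin 2) R := !![a, -1; 1, 0]

/-- `M (a_1, ..., a_n) = T a_n * ... * T a_2 * T a_1` -/
def M {R : Type*} [CommRing R] : List R → Matrix (Fin 2) (Fin 2) R
  | [] => 1
  | a :: l => M l * T a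

/-- `(a_1, ..., a_n)`, `n ≥ 1`, is a solution if `M (a_1, ..., a_n) = ± Id` -/
def IsSolution {R : Type*} [CommRing R] (a : List R) : Prop := a ≠ [] ∧ (M a = 1 ∨ M a = -1)

/-- the sum `(a_1, ..., a_n) ⊕ (b_1, ..., b_m) = (a_1 + b_m, a_2, ..., a_{n-1}, a_n + b_1, b_2, ...,
b_{m-1})` (used for tuples of sizes at least `3`) -/
def osum {R : Type*} [CommRing R] (a b : List R) : List R :=
  (a.headD 0 + b.getLastD 0) :: (a.tail.dropLast ++ (a.getLastD 0 + b.headD 0) :: b.tail.dropLast)

/-- `b` is a cyclic rotation of `a` or of the reversal of `a` -/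
def Equivalent {R : Type*} (a b : List R) : Prop := a ~r b ∨ a.reverse ~r b

/-- `c` is equivalent to the sum of two solutions of sizes at least `3` -/
def Reducible {R : Type*} [CommRing R] (c : List R) : Prop :=
  ∃ a b : List R, IsSolution a ∧ 3 ≤ a.length ∧ IsSolution b ∧ 3 ≤ b.length ∧
    Equivalent c (osum a b)

/-- irreducible solutions: solutions of size at least `3` that are not reducible -/
def IsIrreducible {R : Type*} [CommRing R] (c : List R) : Prop :=
  IsSolution c ∧ 3 ≤ c.length ∧ ¬ Reducible c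

section basic

variable {R : Type*} [CommRing R]

theorem M_append (a b : List R) : M (a ++ b) = M b * M a := by
  induction a with
  | nil => simp [M]
  | cons x a ih => rw [List.cons_append, M, ih, M, Matrix.mul_assoc]

theorem M_singleton (x : R) : M [x] = T x := by simp [M]

theorem det_T (x : R) : (T x).det = 1 := by simp [T, Matrix.det_fin_two]

theorem det_M (a : List R) : (M a).det = 1 := by
  induction a with
  | nil => simp [M]
  | cons x a ih => rw [M, Matrix.det_mul, ih, det_T, mul_one]

theorem osum_eq (x y z w : R) (u v : List R) :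
    osum (x :: (u ++ [y])) (z :: (v ++ [w])) = (x + w) :: (u ++ (y + z) :: v) := by
  have h1 : ∀ (a b : R) (l : List R), (a :: (l ++ [b])).getLastD 0 = b := by
    intro a b l
    rw [← List.cons_append, List.getLastD_concat]
  simp only [osum, h1]
  simp

omit [CommRing R] in
theorem exists_rep {a : List R} (h : 3 ≤ a.length) : ∃ x u y, a = x :: (u ++ [y]) ∧ u ≠ [] ∧
    a.length = u.length + 2 := by
  obtain ⟨x, t, rfl⟩ : ∃ x t, a = x :: t := by
    cases a with
    | nil => simp at h
    | cons x t => exact ⟨x, t, rfl⟩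
  have ht : t ≠ [] := by rintro rfl; simp at h
  refine ⟨x, t.dropLast, t.getLast ht, ?_, ?_, ?_⟩
  · rw [List.dropLast_append_getLast]
  · intro h0
    have := congrArg List.length h0
    simp at this h
    omega
  · have h1 : 1 ≤ t.length := List.length_pos_iff.2 ht
    simp only [List.length_cons, List.length_dropLast]
    omega

/-- the corner entry of the inner block of a solution is `± 1` -/
theorem corner {x y : R} {u : List R} (h : IsSolution (x :: (u ++ [y]))) :
    M u 0 0 = 1 ∨ M u 0 0 = -1 := by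
  obtain ⟨-, h⟩ := h
  have h1 : M (x :: (u ++ [y])) 1 1 = - M u 0 0 := by
    rw [M, M_append, M_singleton, Matrix.mul_apply, Fin.sum_univ_two, Matrix.mul_apply,
      Fin.sum_univ_two, Matrix.mul_apply, Fin.sum_univ_two]
    simp [T]
  rcases h with h | h
  · right
    rw [h] at h1
    simp at h1
    rw [h1, neg_neg]
  · left
    rw [h] at h1
    simp at h1
    exact h1.symm

theorem IsSolution.of_mul {a b : List R} (h : IsSolution (a ++ b)) : IsSolution (b ++ a) := by
  obtain ⟨h1, h2⟩ := h
  refine ⟨by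
    intro h
    apply h1
    have := congrArg List.length h
    simp only [List.length_append, List.length_nil] at this
    rw [← List.length_eq_zero_iff, List.length_append]
    omega, ?_⟩
  rw [M_append] at h2 ⊢
  rcases h2 with h2 | h2
  · exact Or.inl (mul_eq_one_comm.1 h2)
  · right
    have h3 : M b * (- M a) = 1 := by rw [mul_neg, h2, neg_neg]
    have h4 := mul_eq_one_comm.1 h3
    rw [neg_mul] at h4
    rw [← neg_eq_iff_eq_neg]
    exact h4

/-- **Criterion.** A solution `s :: (u ++ t :: v)` with `u, v` nonempty and `M u 0 0 = ± 1` is the sum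
of two solutions of sizes at least `3`. -/
theorem split {s t : R} {u v : List R} (hu : u ≠ []) (hv : v ≠ [])
    (hc : IsSolution (s :: (u ++ t :: v))) (hk : M u 0 0 = 1 ∨ M u 0 0 = -1) :
    ∃ a b : List R, IsSolution a ∧ 3 ≤ a.length ∧ IsSolution b ∧ 3 ≤ b.length ∧
      osum a b = s :: (u ++ t :: v) := by
  obtain ⟨-, hc⟩ := hc
  obtain ⟨ε, hε⟩ : ∃ ε, M u 0 0 = ε := ⟨_, rfl⟩
  obtain ⟨β, hβ⟩ : ∃ β, M u 0 1 = β := ⟨_, rfl⟩
  obtain ⟨γ, hγ⟩ : ∃ γ, M u 1 0 = γ := ⟨_, rfl⟩
  obtain ⟨δ, hδ⟩ : ∃ δ, M u 1 1 = δ := ⟨_, rfl⟩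
  rw [hε] at hk
  have hε2 : ε * ε = 1 := by rcases hk with h | h <;> rw [h] <;> ring
  have hdet : ε * δ - β * γ = 1 := by
    have := det_M u
    rwa [Matrix.det_fin_two, hε, hβ, hγ, hδ] at this
  have hMu : M u = !![ε, β; γ, δ] := by
    rw [← hε, ← hβ, ← hγ, ← hδ]
    exact Matrix.eta_fin_two _
  have hul : 1 ≤ u.length := List.length_pos_iff.2 hu
  have hvl : 1 ≤ v.length := List.length_pos_iff.2 hv
  obtain ⟨x, hx⟩ : ∃ x, x = -(ε * β) := ⟨_, rfl⟩
  obtain ⟨y, hy⟩ : ∃ y, y = ε * γ := ⟨_, rfl⟩
  have ha : T y * M u * T x = (-ε) • (1 : Matrix (Fin 2) (Fin 2) R) := by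
    rw [hMu]
    have e : T y * !![ε, β; γ, δ] * T x =
        !![(y * ε - γ) * x + (y * β - δ), -(y * ε - γ); ε * x + β, -ε] := by
      ext i j
      fin_cases i <;> fin_cases j <;> simp [T, Matrix.mul_apply, Fin.sum_univ_two] <;> ring
    rw [e]
    ext i j
    fin_cases i <;> fin_cases j
    · simp only [hx, hy, Fin.zero_eta, Matrix.of_apply, Matrix.cons_val', Matrix.cons_val_zero,
        Matrix.smul_apply, Matrix.one_apply_eq, smul_eq_mul, mul_one]
      simp
      linear_combination (-ε) * hdet + (δ - ε * β * γ) * hε2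
    · simp [hx, hy]
      linear_combination (-γ) * hε2
    · simp [hx]
      linear_combination (-β) * hε2
    · simp
  -- the complementary part
  set J : Matrix (Fin 2) (Fin 2) R := !![0, -1; 1, 0] with hJ
  set P : Matrix (Fin 2) (Fin 2) R := !![1, t - y; 0, 1] with hP
  set Q : Matrix (Fin 2) (Fin 2) R := !![1, 0; x - s, 1] with hQ
  have f1 : T t = P * T y := by
    ext i j
    fin_cases i <;> fin_cases j <;> simp [T, hP, Matrix.mul_apply, Fin.sum_univ_two]
  have f2 : T s = T x * Q := by
    ext i j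
    fin_cases i <;> fin_cases j <;> simp [T, hQ, Matrix.mul_apply, Fin.sum_univ_two]
  have f3 : T (s - x) = J * Q := by
    ext i j
    fin_cases i <;> fin_cases j <;> simp [T, hQ, hJ, Matrix.mul_apply, Fin.sum_univ_two]
  have f4 : T (t - y) = P * J := by
    ext i j
    fin_cases i <;> fin_cases j <;> simp [T, hP, hJ, Matrix.mul_apply, Fin.sum_univ_two]
  have f5 : J * J = -1 := by
    ext i j
    fin_cases i <;> fin_cases j <;> simp [hJ, Matrix.mul_apply, Fin.sum_univ_two]
  have hMc : M (s :: (u ++ t :: v)) = (-ε) • (M v * P * Q) := by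
    rw [M, M_append, M, f1, f2]
    calc M v * (P * T y) * M u * (T x * Q) = (M v * P) * (T y * M u * T x) * Q := by
          simp only [Matrix.mul_assoc]
      _ = _ := by rw [ha]; simp
  have hMb : M ((t - y) :: (v ++ [s - x])) = J * (Q * (M v * P)) * J := by
    rw [M, M_append, M_singleton, f3, f4]
    simp only [Matrix.mul_assoc]
  have hκ : M v * P * Q = 1 ∨ M v * P * Q = -1 := by
    rw [hMc] at hc
    rcases hk with rfl | rfl <;> rcases hc with h | h
    · right
      rw [neg_smul, one_smul] at h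
      rw [← h, neg_neg]
    · left
      rw [neg_smul, one_smul] at h
      exact neg_injective h
    · left
      rwa [neg_neg, one_smul] at h
    · right
      rwa [neg_neg, one_smul] at h
  have hκ' : Q * (M v * P) = 1 ∨ Q * (M v * P) = -1 := by
    rcases hκ with h | h
    · exact Or.inl (mul_eq_one_comm.1 h)
    · right
      have h3 : (M v * P) * (-Q) = 1 := by rw [mul_neg, h, neg_neg]
      have h4 := mul_eq_one_comm.1 h3
      rw [neg_mul] at h4
      rw [← neg_eq_iff_eq_neg]
      exact h4
  refine ⟨x :: (u ++ [y]), (t - y) :: (v ++ [s - x]), ⟨by simp, ?_⟩, ?_, ⟨by simp, ?_⟩, ?_, ?_⟩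
  · rw [M, M_append, M_singleton, ha]
    rcases hk with rfl | rfl
    · right; simp
    · left; simp
  · simp only [List.length_cons, List.length_append, List.length_nil]; omega
  · rw [hMb]
    rcases hκ' with h | h <;> rw [h]
    · right; rw [Matrix.mul_one, f5]
    · left; rw [mul_neg, Matrix.mul_one, neg_mul, f5, neg_neg]
  · simp only [List.length_cons, List.length_append, List.length_nil]; omega
  · rw [osum_eq]
    congr 1
    · ring
    · congr 2
      ring

omit [CommRing R] in
theorem Equivalent.refl (a : List R) : Equivalent a a := Or.inl (List.IsRotated.refl a)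

/-- **Criterion, cyclic form.** A solution containing a nonempty block `u` with `M u 0 0 = ± 1` and at
least three further entries is reducible. -/
theorem reducible_of_block {l₁ u l₂ : List R} (hu : u ≠ []) (h3 : 3 ≤ l₁.length + l₂.length)
    (hc : IsSolution (l₁ ++ (u ++ l₂))) (hk : M u 0 0 = 1 ∨ M u 0 0 = -1) :
    Reducible (l₁ ++ (u ++ l₂)) := by
  -- rotate to `u ++ (l₂ ++ l₁)`
  obtain ⟨t, v, s, hw, hv, hl⟩ := exists_rep (a := l₂ ++ l₁) (by
    rw [List.length_append]; omega)
  have h1 : IsSolution (u ++ (l₂ ++ l₁)) := by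
    have := hc.of_mul
    rwa [List.append_assoc] at this
  rw [hw] at h1
  have h2 : IsSolution (s :: (u ++ t :: v)) := by
    have e : u ++ t :: (v ++ [s]) = (u ++ t :: v) ++ [s] := by simp
    rw [e] at h1
    exact h1.of_mul
  obtain ⟨a, b, ha, ha3, hb, hb3, hab⟩ := split hu hv h2 hk
  refine ⟨a, b, ha, ha3, hb, hb3, ?_⟩
  left
  rw [hab]
  have r1 : l₁ ++ (u ++ l₂) ~r (u ++ l₂) ++ l₁ := List.IsRotated.symm (List.isRotated_append)
  have r2 : (u ++ t :: v) ++ [s] ~r [s] ++ (u ++ t :: v) := List.isRotated_append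
  have e1 : (u ++ l₂) ++ l₁ = (u ++ t :: v) ++ [s] := by
    rw [List.append_assoc, hw]; simp
  rw [e1] at r1
  exact r1.trans r2

end basic

end Pool.Agent.R104.Quiddity
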