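import Mathlib
import Pool.Agent.R104.PermCount

set_option autoImplicit false

/-!
The set `A` of all permutations outside `T 0 0 ∪ T 1 1 ∪ (T 0 1 ∩ T 1 0)` has almost the least
edge boundary for its size `(n - 2) (n - 1)!`, but is far from all unions of `n - 2` cosets.
-/

namespace Pool.Agent.R104.SnStab

open Finset Equiv Pool.Agent.R104.PermCount

variable {m : ℕ}

/-- the first position / value -/
def i0 : Fin (m + 3) := ⟨0, by omega⟩

/-- the second position / value -/
def i1 : Fin (m + 3) := ⟨1, by omega⟩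

theorem i01 : (i0 : Fin (m + 3)) ≠ i1 := by
  intro h
  have := congrArg Fin.val h
  simp [i0, i1] at this

/-- the set `A` -/
def A (m : ℕ) : Finset (Perm (Fin (m + 3))) :=
  univ.filter (fun σ => σ i0 ≠ i0 ∧ σ i1 ≠ i1 ∧ ¬ (σ i0 = i1 ∧ σ i1 = i0))

theorem mem_A {σ : Perm (Fin (m + 3))} :
    σ ∈ A m ↔ σ i0 ≠ i0 ∧ σ i1 ≠ i1 ∧ ¬ (σ i0 = i1 ∧ σ i1 = i0) := by
  simp [A]

theorem card_A : (A m).card = (m + 1) * (m + 2).factorial := by
  classical
  have hc : (A m)ᶜ = ((univ.filter (fun σ : Perm (Fin (m + 3)) => σ i0 = i0)) ∪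
      (univ.filter (fun σ : Perm (Fin (m + 3)) => σ i1 = i1))) ∪
      (univ.filter (fun σ : Perm (Fin (m + 3)) => σ i0 = i1 ∧ σ i1 = i0)) := by
    ext σ
    simp only [mem_compl, mem_A, mem_union, mem_filter, mem_univ, true_and]
    tauto
  have h1 := card_one (n := m + 3) i0 i0
  have h2 := card_one (n := m + 3) i1 i1
  have h3 := card_two (n := m + 3) (a := i0) (b := i1) (c := i1) (d := i0) i01 i01.symm
  have h4 := card_two (n := m + 3) (a := i0) (b := i0) (c := i1) (d := i1) i01 i01
  have h5 := card_union_add_card_inter (univ.filter (fun σ : Perm (Fin (m + 3)) => σ i0 = i0))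
    (univ.filter (fun σ : Perm (Fin (m + 3)) => σ i1 = i1))
  rw [← filter_and] at h5
  have h6 := card_union_of_disjoint (s := (univ.filter (fun σ : Perm (Fin (m + 3)) => σ i0 = i0)) ∪
      (univ.filter (fun σ : Perm (Fin (m + 3)) => σ i1 = i1)))
      (t := (univ.filter (fun σ : Perm (Fin (m + 3)) => σ i0 = i1 ∧ σ i1 = i0))) (by
    rw [disjoint_left]
    intro σ hσ h'
    simp only [mem_union, mem_filter, mem_univ, true_and] at hσ h'
    rcases hσ with h | h
    · exact i01 (h.symm.trans h'.1)
    · exact i01 (h'.2.symm.trans h))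
  have h7 := card_compl_add_card (A m)
  rw [hc, h6, Fintype.card_perm, Fintype.card_fin] at h7
  have e1 : m + 3 - 1 = m + 2 := by omega
  have e2 : m + 3 - 2 = m + 1 := by omega
  rw [e1] at h1 h2
  rw [e2] at h3 h4
  have e3 : (m + 3).factorial = (m + 3) * (m + 2).factorial := Nat.factorial_succ _
  rw [e3] at h7
  nlinarith

/-- transpositions (as ordered pairs) leading from `σ` out of `A` -/
def bad (σ : Perm (Fin (m + 3))) : Finset (Fin (m + 3) × Fin (m + 3)) :=
  (univ.filter (fun p : Fin (m + 3) × Fin (m + 3) => p.1 < p.2)).filter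
    (fun p => σ * swap p.1 p.2 ∉ A m)

/-- the ordered pair with given entries -/
def mk (u v : Fin (m + 3)) : Fin (m + 3) × Fin (m + 3) := if u < v then (u, v) else (v, u)

theorem eq_mk {p : Fin (m + 3) × Fin (m + 3)} (hp : p.1 < p.2) {u v : Fin (m + 3)} (huv : u ≠ v)
    (h : swap p.1 p.2 u = v) : p = mk u v := by
  unfold mk
  by_cases h1 : u = p.1
  · subst h1
    rw [swap_apply_left] at h
    subst h
    rw [if_pos hp]
  · by_cases h2 : u = p.2
    · subst h2
      rw [swap_apply_right] at h
      subst h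
      rw [if_neg (not_lt.2 hp.le)]
    · rw [swap_apply_of_ne_of_ne h1 h2] at h
      exact absurd h huv

theorem card_bad {σ : Perm (Fin (m + 3))} (hσ : σ ∈ A m) :
    (bad σ).card ≤ 2 + ((if σ i0 = i1 then 1 else 0) + (if σ i1 = i0 then 1 else 0)) := by
  classical
  rw [mem_A] at hσ
  obtain ⟨ha, hb, hab⟩ := hσ
  have hx0 : i0 ≠ σ.symm i0 := fun h => ha (by
    have := congrArg σ h
    rwa [apply_symm_apply] at this)
  have hx1 : i1 ≠ σ.symm i1 := fun h => hb (by
    have := congrArg σ h
    rwa [apply_symm_apply] at this)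
  have key : bad σ ⊆ ({mk i0 (σ.symm i0), mk i1 (σ.symm i1)} ∪
      ((if σ i0 = i1 then {mk i1 (σ.symm i0)} else ∅) ∪
       (if σ i1 = i0 then {mk i0 (σ.symm i1)} else ∅))) := by
    intro p hp
    simp only [bad, mem_filter, mem_univ, true_and] at hp
    obtain ⟨hlt, hp⟩ := hp
    rw [mem_A] at hp
    simp only [Perm.mul_apply] at hp
    have hp' : σ (swap p.1 p.2 i0) = i0 ∨ σ (swap p.1 p.2 i1) = i1 ∨
        (σ (swap p.1 p.2 i0) = i1 ∧ σ (swap p.1 p.2 i1) = i0) := by tauto
    simp only [mem_union, mem_insert, mem_singleton]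
    rcases hp' with h | h | ⟨h, h'⟩
    · left; left
      exact eq_mk hlt hx0 ((Equiv.eq_symm_apply σ).2 h)
    · left; right
      exact eq_mk hlt hx1 ((Equiv.eq_symm_apply σ).2 h)
    · right
      have e1 : swap p.1 p.2 i0 = σ.symm i1 := by rw [← h, symm_apply_apply]
      have e2 : swap p.1 p.2 i1 = σ.symm i0 := by rw [← h', symm_apply_apply]
      by_cases c1 : σ i0 = i1
      · left
        rw [if_pos c1, mem_singleton]
        apply eq_mk hlt _ e2
        intro h3
        apply hab
        refine ⟨c1, ?_⟩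
        rw [h3, apply_symm_apply]
      · by_cases c2 : σ i1 = i0
        · right
          rw [if_pos c2, mem_singleton]
          apply eq_mk hlt _ e1
          intro h3
          apply hab
          refine ⟨?_, c2⟩
          rw [h3, apply_symm_apply]
        · exfalso
          have n1 : i0 ≠ σ.symm i1 := fun h3 => c1 (by rw [h3, apply_symm_apply])
          have n2 : i1 ≠ σ.symm i0 := fun h3 => c2 (by rw [h3, apply_symm_apply])
          have q1 := eq_mk hlt n1 e1
          have q2 := eq_mk hlt n2 e2
          -- `p` contains `i0` and `i1`, so the swap exchanges them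
          have r1 : p.1 = i0 ∨ p.2 = i0 := by
            rw [q1]; unfold mk; split <;> simp
          have r2 : p.1 = i1 ∨ p.2 = i1 := by
            rw [q2]; unfold mk; split <;> simp
          rcases r1 with r1 | r1 <;> rcases r2 with r2 | r2
          · exact i01 (r1.symm.trans r2)
          · rw [r1, r2, swap_apply_left] at e1
            exact hx1 e1
          · rw [r1, r2, swap_apply_right] at e1
            exact hx1 e1
          · exact i01 (r1.symm.trans r2)
  refine (card_le_card key).trans ((card_union_le _ _).trans (Nat.add_le_add card_le_two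
    ((card_union_le _ _).trans (Nat.add_le_add ?_ ?_))))
  · split <;> simp
  · split <;> simp

theorem card_boundary :
    (((A m) ×ˢ (univ.filter (fun p : Fin (m + 3) × Fin (m + 3) => p.1 < p.2))).filter
      (fun x => x.1 * swap x.2.1 x.2.2 ∉ A m)).card ≤ 2 * (A m).card + 2 * (m + 2).factorial := by
  classical
  have h1 : (((A m) ×ˢ (univ.filter (fun p : Fin (m + 3) × Fin (m + 3) => p.1 < p.2))).filter
      (fun x => x.1 * swap x.2.1 x.2.2 ∉ A m)).card = ∑ σ ∈ A m, (bad σ).card := by
    rw [Finset.card_filter, Finset.sum_product]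
    refine Finset.sum_congr rfl fun σ _ => ?_
    rw [bad, Finset.card_filter]
  rw [h1]
  refine (Finset.sum_le_sum fun σ hσ => card_bad hσ).trans ?_
  rw [Finset.sum_add_distrib, Finset.sum_add_distrib]
  have h2 : ∑ σ ∈ A m, (if σ i0 = i1 then 1 else 0) ≤ (m + 2).factorial := by
    rw [← Finset.card_filter]
    refine (card_le_card ?_).trans (card_one (n := m + 3) i0 i1).le
    intro σ hσ
    simp only [mem_filter, mem_univ, true_and] at hσ ⊢
    exact hσ.2
  have h3 : ∑ σ ∈ A m, (if σ i1 = i0 then 1 else 0) ≤ (m + 2).factorial := by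
    rw [← Finset.card_filter]
    refine (card_le_card ?_).trans (card_one (n := m + 3) i1 i0).le
    intro σ hσ
    simp only [mem_filter, mem_univ, true_and] at hσ ⊢
    exact hσ.2
  rw [Finset.sum_const, smul_eq_mul]
  omega

/-- permutations with `σ x = x` meeting a set of cells outside of row and column `x` -/
theorem hit (x : Fin (m + 3)) (Q : Finset (Fin (m + 3) × Fin (m + 3)))
    (hQ : ∀ p ∈ Q, p.1 ≠ x ∧ p.2 ≠ x) :
    2 * (Q.card * (m + 1).factorial) ≤
      2 * (univ.filter (fun σ : Perm (Fin (m + 3)) => σ x = x ∧ ∃ p ∈ Q, σ p.1 = p.2)).card +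
      Q.card * (Q.card - 1) * m.factorial := by
  classical
  induction Q using Finset.induction_on with
  | empty => simp
  | insert q Q hq ih =>
    have ih' := ih (fun p hp => hQ p (mem_insert_of_mem hp))
    obtain ⟨hq1, hq2⟩ := hQ q (mem_insert_self _ _)
    set U := univ.filter (fun σ : Perm (Fin (m + 3)) => σ x = x ∧ ∃ p ∈ Q, σ p.1 = p.2) with hU
    set E := univ.filter (fun σ : Perm (Fin (m + 3)) => σ x = x ∧ σ q.1 = q.2) with hE
    have hEc : E.card = (m + 1).factorial := card_two hq1.symm hq2.symm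
    have hun : (univ.filter (fun σ : Perm (Fin (m + 3)) => σ x = x ∧
        ∃ p ∈ insert q Q, σ p.1 = p.2)) = E ∪ U := by
      ext σ
      simp only [hU, hE, mem_union, mem_filter, mem_univ, true_and, mem_insert]
      constructor
      · rintro ⟨h1, p, rfl | hp, h2⟩
        · exact Or.inl ⟨h1, h2⟩
        · exact Or.inr ⟨h1, p, hp, h2⟩
      · rintro (⟨h1, h2⟩ | ⟨h1, p, hp, h2⟩)
        · exact ⟨h1, q, Or.inl rfl, h2⟩
        · exact ⟨h1, p, Or.inr hp, h2⟩
    have hint : (E ∩ U).card ≤ Q.card * m.factorial := by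
      have hsub : E ∩ U ⊆ Q.biUnion (fun p => univ.filter (fun σ : Perm (Fin (m + 3)) =>
          σ x = x ∧ σ q.1 = q.2 ∧ σ p.1 = p.2)) := by
        intro σ hσ
        simp only [hU, hE, mem_inter, mem_filter, mem_univ, true_and] at hσ
        obtain ⟨⟨h1, h2⟩, -, p, hp, h3⟩ := hσ
        simp only [mem_biUnion, mem_filter, mem_univ, true_and]
        exact ⟨p, hp, h1, h2, h3⟩
      refine (card_le_card hsub).trans (card_biUnion_le_card_mul _ _ _ ?_)
      intro p hp
      obtain ⟨hp1, hp2⟩ := hQ p (mem_insert_of_mem hp)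
      by_cases c1 : q.1 = p.1
      · rw [filter_eq_empty_iff.2, card_empty]
        · exact Nat.zero_le _
        · rintro σ - ⟨h1, h2, h3⟩
          apply hq
          have : q = p := Prod.ext c1 (by rw [← h2, ← h3, c1])
          rwa [this]
      · by_cases c2 : q.2 = p.2
        · rw [filter_eq_empty_iff.2, card_empty]
          · exact Nat.zero_le _
          · rintro σ - ⟨h1, h2, h3⟩
            exact c1 (σ.injective (by rw [h2, h3, c2]))
        · exact (card_three hq1.symm hp1.symm c1 hq2.symm hp2.symm c2).le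
    have hcard := card_union_add_card_inter E U
    rw [hun, card_insert_of_notMem hq, Nat.add_sub_cancel]
    rcases Nat.eq_zero_or_pos Q.card with h0 | h0
    · rw [h0] at hint ih' ⊢
      simp only [zero_mul, zero_add, one_mul, mul_zero, add_zero] at *
      omega
    · obtain ⟨t, ht⟩ : ∃ t, Q.card = t + 1 := ⟨Q.card - 1, by omega⟩
      rw [ht, Nat.add_sub_cancel] at ih'
      rw [ht] at hint ⊢
      nlinarith

theorem hit' (x : Fin (m + 3)) (Q : Finset (Fin (m + 3) × Fin (m + 3)))
    (hQ : ∀ p ∈ Q, p.1 ≠ x ∧ p.2 ≠ x) (hc : Q.card ≤ m + 1) :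
    Q.card * (m + 1).factorial ≤
      2 * (univ.filter (fun σ : Perm (Fin (m + 3)) => σ x = x ∧ ∃ p ∈ Q, σ p.1 = p.2)).card := by
  have h := hit x Q hQ
  have h1 : (m + 1).factorial = (m + 1) * m.factorial := Nat.factorial_succ _
  have h2 : Q.card * (Q.card - 1) * m.factorial ≤ Q.card * (m + 1).factorial := by
    rw [h1, mul_assoc]
    apply Nat.mul_le_mul_left
    apply Nat.mul_le_mul_right
    omega
  omega

/-- all unions of `n - 2` cosets are far from `A` -/
theorem far (P : Finset (Fin (m + 3) × Fin (m + 3))) (hP : P.card = m + 1) :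
    (m - 1) * (m + 1).factorial ≤ 4 *
      (symmDiff (A m) (univ.filter (fun σ : Perm (Fin (m + 3)) => ∃ p ∈ P, σ p.1 = p.2))).card := by
  classical
  set P0 := P.filter (fun p => p.1 ≠ i0 ∧ p.2 ≠ i0) with hP0
  set P1 := P.filter (fun p => p.1 ≠ i1 ∧ p.2 ≠ i1) with hP1
  have h0 := hit' (m := m) i0 P0 (fun p hp => (mem_filter.1 hp).2)
    ((card_le_card (filter_subset _ _)).trans hP.le)
  have h1 := hit' (m := m) i1 P1 (fun p hp => (mem_filter.1 hp).2)
    ((card_le_card (filter_subset _ _)).trans hP.le)
  by_cases hz : (i0, i0) ∈ P ∨ (i1, i1) ∈ P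
  · -- one full coset is in the symmetric difference
    have hbig : ∀ x : Fin (m + 3), (x, x) ∈ P → (x = i0 ∨ x = i1) → (m + 2).factorial ≤
        (symmDiff (A m) (univ.filter (fun σ : Perm (Fin (m + 3)) =>
          ∃ p ∈ P, σ p.1 = p.2))).card := by
      intro x hx hx'
      rw [← show (univ.filter (fun σ : Perm (Fin (m + 3)) => σ x = x)).card = (m + 2).factorial from
        card_one x x]
      apply card_le_card
      intro σ hσ
      simp only [mem_filter, mem_univ, true_and] at hσ
      rw [mem_symmDiff]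
      right
      refine ⟨?_, ?_⟩
      · simp only [mem_filter, mem_univ, true_and]
        exact ⟨_, hx, hσ⟩
      · rw [mem_A]
        rcases hx' with rfl | rfl
        · exact fun h => h.1 hσ
        · exact fun h => h.2.1 hσ
    have hf : (m + 2).factorial = (m + 2) * (m + 1).factorial := Nat.factorial_succ _
    have hle : (m - 1) * (m + 1).factorial ≤ (m + 2) * (m + 1).factorial :=
      Nat.mul_le_mul_right _ (by omega)
    rcases hz with hz | hz
    · have := hbig _ hz (Or.inl rfl)
      omega
    · have := hbig _ hz (Or.inr rfl)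
      omega
  · push Not at hz
    have hcov : P ⊆ (P0 ∪ P1) ∪ {(i0, i1), (i1, i0)} := by
      intro p hp
      simp only [mem_union, mem_insert, mem_singleton, hP0, hP1, mem_filter]
      by_contra hcon
      push Not at hcon
      obtain ⟨⟨a1, a2⟩, a3, a4⟩ := hcon
      have b1 := a1 hp
      have b2 := a2 hp
      have hp1 : p = (p.1, p.2) := rfl
      by_cases c1 : p.1 = i0
      · have c2 : p.1 ≠ i1 := by rw [c1]; exact i01
        have c3 := b2 c2
        exact a3 (by rw [hp1, c1, c3])
      · have c2 := b1 c1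
        have c3 : p.1 = i1 := by
          by_contra c4
          have := b2 c4
          rw [c2] at this
          exact i01 this
        exact a4 (by rw [hp1, c2, c3])
    have hcard : m + 1 ≤ P0.card + P1.card + 2 := by
      rw [← hP]
      refine (card_le_card hcov).trans ((card_union_le _ _).trans (Nat.add_le_add
        (card_union_le _ _) card_le_two))
    have hsub : ∀ (x : Fin (m + 3)) (Q : Finset (Fin (m + 3) × Fin (m + 3))), Q ⊆ P →
        (x = i0 ∨ x = i1) →
        (univ.filter (fun σ : Perm (Fin (m + 3)) => σ x = x ∧ ∃ p ∈ Q, σ p.1 = p.2)).card ≤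
        (symmDiff (A m) (univ.filter (fun σ : Perm (Fin (m + 3)) =>
          ∃ p ∈ P, σ p.1 = p.2))).card := by
      intro x Q hQ hx'
      apply card_le_card
      intro σ hσ
      simp only [mem_filter, mem_univ, true_and] at hσ
      obtain ⟨h3, p, hp, h4⟩ := hσ
      rw [mem_symmDiff]
      right
      refine ⟨?_, ?_⟩
      · simp only [mem_filter, mem_univ, true_and]
        exact ⟨p, hQ hp, h4⟩
      · rw [mem_A]
        rcases hx' with rfl | rfl
        · exact fun h => h.1 h3
        · exact fun h => h.2.1 h3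
    have s0 := hsub i0 P0 (filter_subset _ _) (Or.inl rfl)
    have s1 := hsub i1 P1 (filter_subset _ _) (Or.inr rfl)
    rcases le_total P0.card P1.card with hle | hle
    · have h5 : m - 1 ≤ 2 * P1.card := by omega
      have h6 : (m - 1) * (m + 1).factorial ≤ 2 * P1.card * (m + 1).factorial :=
        Nat.mul_le_mul_right _ h5
      rw [mul_assoc] at h6
      omega
    · have h5 : m - 1 ≤ 2 * P0.card := by omega
      have h6 : (m - 1) * (m + 1).factorial ≤ 2 * P0.card * (m + 1).factorial :=
        Nat.mul_le_mul_right _ h5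
      rw [mul_assoc] at h6
      omega

end Pool.Agent.R104.SnStab
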